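import Pool.Agent.T9h3.R.Glw

/-!
# Torsors under tori over global fields, with good reduction at the wildly ramified places
-/

set_option autoImplicit false
set_option linter.unusedSectionVars false
set_option linter.overlappingInstances false
set_option linter.unusedVariables false

namespace Pool.Agent.T9h3.R

open Pool.Agent.Y223.G Pool.Agent.R383.TM Pool.Agent.T9h3 Pool.Agent.T9h3.H
open Pool.Agent.T9h3.P Pool.Agent.T9h3.Q Pool.Agent.H918R2.Quad

/-- The torsor is nearly trivial at the place. -/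
def NTR {E M K : Type} [Field E] [Field M] [Field K] [Algebra E M] [Algebra M K] [Algebra E K]
    (ρ : (M ≃ₐ[E] M) →* (K ≃ₐ[E] K)) (V : ValuationSubring E) (D : CHL E M K) : Prop :=
  ∃ a : D.Λ → M, a 0 = 1 ∧ (∀ x y, a (x + y) = a x * a y) ∧
    (∀ g x, ∃ u : integralClosure V M, ρ g (algebraMap M K (a x) * D.χ x) =
      algebraMap M K (algebraMap _ M u) * (algebraMap M K (a (g • x)) * D.χ (g • x))) ∧
    ∀ (𝔓 : Ideal (integralClosure V M)) (p : ℕ) (g : M ≃ₐ[E] M), WLD E M 𝔓 p g → ∀ l : ℕ,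
      (∀ o : integralClosure V M, ∃ e ∈ 𝔓 ^ (l + 1), algebraMap (integralClosure V M) M e =
        g (algebraMap _ M o) - algebraMap _ M o) → ∀ x, ∃ e ∈ 𝔓 ^ (p * l),
      ρ g (algebraMap M K (a x) * D.χ x) =
        algebraMap M K (algebraMap _ M (1 + e)) * (algebraMap M K (a (g • x)) * D.χ (g • x))

/-- The presentations of nearly trivial torsors. -/
theorem prw_of {E M K : Type} [Field E] [Field M] [Algebra E M] [FiniteDimensional E M]
    [IsGalois E M] [Field K] [Algebra M K] [Algebra E K] [IsScalarTower E M K]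
    {ρ : (M ≃ₐ[E] M) →* (K ≃ₐ[E] K)} {D₀ : CHL E M K}
    (hli : LinearIndependent M D₀.χ)
    (hgen : IntermediateField.adjoin M (Set.range D₀.χ) = ⊤)
    {V : ValuationSubring E} (h : NTR ρ V D₀) :
    ∃ (D : CHL E M K) (c : ℕ) (f : Fin c → AA (integralClosure V M) D.Λ),
      PRW E ρ D.χ f ∧ REL D D₀ ∧ REL D₀ D := by
  classical
  obtain ⟨a, ha0, haa, hun, her⟩ := h
  have hane : ∀ x, a x ≠ 0 := by
    intro x hx
    have h1 := haa x (-x)
    rw [add_neg_cancel, ha0, hx, zero_mul] at h1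
    exact one_ne_zero h1
  have χ0' : algebraMap M K (a 0) * D₀.χ 0 = 1 := by rw [ha0, D₀.χ0, map_one, mul_one]
  have χa' : ∀ x y, algebraMap M K (a (x + y)) * D₀.χ (x + y) =
      algebraMap M K (a x) * D₀.χ x * (algebraMap M K (a y) * D₀.χ y) := by
    intro x y
    rw [haa, D₀.χa, map_mul]
    ring
  have hli' : LinearIndependent M (fun x => algebraMap M K (a x) * D₀.χ x) := by
    have h1 := hli.units_smul (fun x => Units.mk0 (a x) (hane x))
    have h2 : (fun x => algebraMap M K (a x) * D₀.χ x) =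
        (fun x => Units.mk0 (a x) (hane x)) • D₀.χ := by
      funext x
      change _ = (Units.mk0 (a x) (hane x)) • D₀.χ x
      rw [Units.smul_def, Units.val_mk0, Algebra.smul_def]
    rw [h2]
    exact h1
  have hgen' : IntermediateField.adjoin M (Set.range (fun x => algebraMap M K (a x) * D₀.χ x)) =
      ⊤ := by
    rw [eq_top_iff, ← hgen, IntermediateField.adjoin_le_iff]
    rintro _ ⟨x, rfl⟩
    have h1 : D₀.χ x = algebraMap M K (a x)⁻¹ * (algebraMap M K (a x) * D₀.χ x) := by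
      rw [← mul_assoc, ← map_mul, inv_mul_cancel₀ (hane x), map_one, one_mul]
    change D₀.χ x ∈ _
    rw [h1]
    exact mul_mem (IntermediateField.algebraMap_mem _ _)
      (IntermediateField.subset_adjoin _ _ ⟨x, rfl⟩)
  obtain ⟨ρ₀, hρ₀, act₀⟩ := exists_exact (E := E) χ0' χa' hli' hgen'
  refine ⟨aCHL D₀ ha0 haa, 0, Fin.elim0, ⟨χ0', χa', ?_, ?_, hun, ?_,
    ⟨ρ₀, hρ₀, fun _ _ g _ x => act₀ g x⟩, her⟩, ?_, ?_⟩
  · exact hk_empty χ0' χa' hli'
  · intro ℓ Q hQ _ d _ i
    exact i.elim0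
  · intro 𝔓 p g hg ℓ hℓ Q hQ h1 h2 h3
    refine ⟨Fin.elim0, fun i => i.elim0, ?_⟩
    rw [Matrix.det_fin_zero]
    exact fun h => hQ.ne_top ((Ideal.eq_top_iff_one _).2 h)
  · exact fun x => ⟨x, a x, rfl⟩
  · intro x
    refine ⟨x, (a x)⁻¹, ?_⟩
    change D₀.χ x = algebraMap M K (a x)⁻¹ * (algebraMap M K (a x) * D₀.χ x)
    rw [← mul_assoc, ← map_mul, inv_mul_cancel₀ (hane x), map_one, one_mul]

/-- **Torsors under tori over global fields.** -/
theorem glob_torsor {E M F K : Type} [Field E] [Field M] [Algebra E M] [FiniteDimensional E M]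
    [IsGalois E M] [Field F] [Field K] [Algebra E F] [Algebra M K] [Algebra E K]
    [IsScalarTower E M K] [Algebra F K] [IsScalarTower E F K]
    {ρ : (M ≃ₐ[E] M) →* (K ≃ₐ[E] K)} (hE : IsGlob E)
    (hin : ∀ V : ValuationSubring E, V ≠ ⊤ → HIN E M (integralClosure V M))
    (hρ : ∀ g x, ρ g (algebraMap M K x) = algebraMap M K (g x))
    (fix : ∀ y, (∀ g, ρ g y = y) ↔ ∃ z : F, algebraMap F K z = y)
    {D₀ : CHL E M K} (hli : LinearIndependent M D₀.χ)
    (hgen : IntermediateField.adjoin M (Set.range D₀.χ) = ⊤) (hs : SML ρ D₀)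
    (hw : ∀ V : ValuationSubring E, V ≠ ⊤ → WRP M V → TRV ρ V D₀ ∨ NTR ρ V D₀) : MDL F := by
  refine loc_globW (D₀ := D₀) hE hρ fix hgen hs (f₀ := (Fin.elim0 : Fin 0 → AA M D₀.Λ)) ?_
    (B := ∅) Set.finite_empty (fun V hV _ => ⟨Fin.elim0, fun r => r.elim0, ?_⟩)
    (fun V hV => ?_)
  · intro P
    have h1 := hk_empty (O := M) D₀.χ0 D₀.χa hli P
    rw [h1]
    have e1 : (Set.range fun r => AddMonoidAlgebra.mapRingHom D₀.Λ (algebraMap M M)
        ((Fin.elim0 : Fin 0 → AA M D₀.Λ) r)) = Set.range (Fin.elim0 : Fin 0 → AA M D₀.Λ) := by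
      rw [Set.range_eq_empty, Set.range_eq_empty]
    rw [e1]
  · intro ℓ Q hQ _ d _ i
    exact i.elim0
  · intro k _ _ _ _ _ _ _ 𝔭 hVP hfin
    by_cases hN : NTR ρ V D₀
    · obtain ⟨D, c, f, h1, h2, h3⟩ := prw_of hli hgen hN
      exact LOC_ofW hVP hfin hρ fix (hin V hV) hgen h1 h2 h3
    · refine LOC_of hVP hfin hρ fix (hin V hV) hgen (fun r hr =>
        torsor_loc hρ hli hgen hs (good_of hVP) (fun hW => ?_) r hr)
      exact (hw V hV hW).resolve_right hN

end Pool.Agent.T9h3.R
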