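import Pool.Agent.T9h3.P.Asm

/-!
# The norm of units in wildly ramified extensions
-/

set_option autoImplicit false
set_option linter.unusedSectionVars false
set_option linter.overlappingInstances false
set_option linter.unusedVariables false

namespace Pool.Agent.T9h3.R

section ring

variable {R : Type} [CommRing R] (τ : R →+* R)

/-- The action on the units. -/
noncomputable def uT : Module.End ℤ (Additive Rˣ) :=
  (MonoidHom.toAdditive (Units.map (τ : R →* R))).toIntLinearMap

lemma uT_apply (u : Rˣ) : ((uT τ (Additive.ofMul u)).toMul : R) = τ u := rfl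

lemma uT_pow (a : ℕ) (u : Rˣ) : ((((uT τ) ^ a) (Additive.ofMul u)).toMul : R) = (τ^[a]) (u : R) := by
  induction a with
  | zero => rfl
  | succ a ih =>
    rw [pow_succ', Function.iterate_succ', Function.comp_apply, ← ih]
    rfl

/-- The sum of the powers. -/
lemma uT_sum (p : ℕ) : ∑ a ∈ Finset.range p, (uT τ) ^ a =
    ∑ j ∈ Finset.range p, ((p.choose (j + 1) : ℤ)) • (uT τ - 1) ^ j := by
  have h := congrArg (Polynomial.aeval (uT τ - 1))
    (Polynomial.geom_sum_X_comp_X_add_one_eq_sum (R := ℤ) p)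
  rw [Polynomial.aeval_comp] at h
  simp only [map_add, map_one, Polynomial.aeval_X, sub_add_cancel, map_sum, map_pow, map_mul,
    map_natCast] at h
  rw [h]
  refine Finset.sum_congr rfl fun j _ => ?_
  rw [zsmul_eq_mul]
  push_cast
  rfl

/-- The difference operator increases the order. -/
lemma uD_mem {I : Ideal R} {j l : ℕ} (hτ : ∀ x ∈ I ^ j, τ x - x ∈ I ^ (j + l)) {u : Rˣ}
    (hu : (u : R) - 1 ∈ I ^ j) : (((uT τ - 1) (Additive.ofMul u)).toMul : R) - 1 ∈ I ^ (j + l) := by
  have h1 : (((uT τ - 1) (Additive.ofMul u)).toMul : R) = τ u * (u⁻¹ : Rˣ) := rfl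
  have h2 := hτ _ hu
  have h3 : τ u * (u⁻¹ : Rˣ) - 1 = (τ (u - 1) - (u - 1)) * (u⁻¹ : Rˣ) := by
    rw [map_sub, map_one]
    have h4 : (u : R) * (u⁻¹ : Rˣ) = 1 := u.mul_inv
    linear_combination h4
  rw [h1, h3]
  exact Ideal.mul_mem_right _ _ h2

lemma uD_pow {I : Ideal R} {i l : ℕ} (hτ : ∀ j, ∀ x ∈ I ^ j, τ x - x ∈ I ^ (j + l)) {u : Rˣ}
    (hu : (u : R) - 1 ∈ I ^ i) (j : ℕ) :
    ((((uT τ - 1) ^ j) (Additive.ofMul u)).toMul : R) - 1 ∈ I ^ (i + j * l) := by
  induction j with
  | zero => simpa using hu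
  | succ j ih =>
    rw [pow_succ']
    have h1 := uD_mem τ (hτ (i + j * l)) ih
    have h2 : i + j * l + l = i + (j + 1) * l := by ring
    rw [h2] at h1
    exact h1

/-- **The norm of a unit.** -/
theorem norm_unit {I : Ideal R} {p i l : ℕ} (hp : p.Prime) (hil : i < l)
    (hτ : ∀ j, ∀ x ∈ I ^ j, τ x - x ∈ I ^ (j + l)) (hpI : (p : R) ∈ I ^ ((p - 1) * l))
    (h0 : I ^ (p * i + 1) = ⊥) {u : Rˣ} (hu : (u : R) - 1 ∈ I ^ i) :
    ∏ a ∈ Finset.range p, (τ^[a]) (u : R) = (u : R) ^ p := by
  have hz : ∀ x ∈ I ^ (p * i + 1), x = 0 := fun x hx => by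
    rw [h0] at hx
    exact hx
  have hp2 := hp.two_le
  obtain ⟨q, hq⟩ : ∃ q, p = q + 2 := ⟨p - 2, by omega⟩
  have key := DFunLike.congr_fun (uT_sum τ p) (Additive.ofMul u)
  have e1 : (((∑ a ∈ Finset.range p, (uT τ) ^ a) (Additive.ofMul u)).toMul : R) =
      ∏ a ∈ Finset.range p, (τ^[a]) (u : R) := by
    rw [LinearMap.sum_apply, toMul_sum, Units.coe_prod]
    exact Finset.prod_congr rfl fun a _ => uT_pow τ a u
  have e2 : (((∑ j ∈ Finset.range p, ((p.choose (j + 1) : ℤ)) • (uT τ - 1) ^ j)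
      (Additive.ofMul u)).toMul : R) =
      ∏ j ∈ Finset.range p, (((((uT τ - 1) ^ j) (Additive.ofMul u)).toMul : R)) ^
        (p.choose (j + 1)) := by
    rw [LinearMap.sum_apply, toMul_sum, Units.coe_prod]
    refine Finset.prod_congr rfl fun j _ => ?_
    have h1 : ((((p.choose (j + 1) : ℤ)) • (uT τ - 1) ^ j) (Additive.ofMul u)) =
        (p.choose (j + 1)) • (((uT τ - 1) ^ j) (Additive.ofMul u)) := by
      rw [natCast_zsmul]
      rfl
    rw [h1, toMul_nsmul, Units.val_pow_eq_pow_val]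
  rw [← e1, key, e2, Finset.prod_eq_single_of_mem 0 (Finset.mem_range.2 hp.pos)]
  · rw [zero_add, Nat.choose_one_right, pow_zero]
    rfl
  · intro j hj hj0
    rw [Finset.mem_range] at hj
    have h1 := uD_pow τ hτ hu j
    generalize (((((uT τ - 1) ^ j) (Additive.ofMul u)).toMul : Rˣ) : R) = w at h1
    obtain ⟨z, hzd⟩ : ∃ z, w = 1 + z := ⟨w - 1, by ring⟩
    have hzm : z ∈ I ^ (i + j * l) := by
      have : w - 1 = z := by rw [hzd]; ring
      rwa [this] at h1
    have hj1 : 1 ≤ j := Nat.one_le_iff_ne_zero.2 hj0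
    by_cases hj2 : j = p - 1
    · have h2 : z = 0 := by
        apply hz
        refine Ideal.pow_le_pow_right ?_ hzm
        subst hj2
        subst hq
        have e3 : (q + 2 - 1) = q + 1 := by omega
        rw [e3]
        obtain ⟨d, rfl⟩ : ∃ d, l = i + 1 + d := ⟨l - (i + 1), by omega⟩
        nlinarith [Nat.zero_le (q * d), Nat.zero_le d, Nat.zero_le q]
      rw [hzd, h2, add_zero, one_pow]
    · have h2 : p ∣ p.choose (j + 1) := hp.dvd_choose_self (by omega) (by omega)
      obtain ⟨m, hm⟩ := h2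
      rw [hm, pow_mul]
      obtain ⟨r, hr⟩ := exists_add_pow_prime_eq hp (1 : R) z
      have h3 : z ^ p = 0 := by
        apply hz
        have h4 := Ideal.pow_mem_pow hzm p
        rw [← pow_mul] at h4
        refine Ideal.pow_le_pow_right ?_ h4
        have h5 : 1 ≤ j * l := Nat.mul_pos hj1 (by omega)
        nlinarith
      have h4 : (p : R) * z = 0 := by
        apply hz
        have h5 := Ideal.mul_mem_mul hpI hzm
        rw [← pow_add] at h5
        refine Ideal.pow_le_pow_right ?_ h5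
        have h6 : i * 1 + j * l ≥ i + l := by nlinarith
        subst hq
        have e3 : (q + 2 - 1) = q + 1 := by omega
        rw [e3]
        obtain ⟨d, rfl⟩ : ∃ d, l = i + 1 + d := ⟨l - (i + 1), by omega⟩
        nlinarith [Nat.zero_le (q * d), Nat.zero_le d, Nat.zero_le q]
      have h5 : w ^ p = 1 := by
        rw [hzd, hr, one_pow, h3, add_zero, mul_one, h4, zero_mul, add_zero]
      rw [h5, one_pow]

end ring

section ded

variable {O : Type} [CommRing O] [IsDomain O] [IsDedekindDomain O] {t : O →+* O} {𝔓 : Ideal O}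
  {l : ℕ}

/-- The operator on the powers of the prime. -/
lemma t_pow (hdv : ∀ o, t o - o ∈ 𝔓 ^ (l + 1)) (n : ℕ) : ∀ x ∈ 𝔓 ^ n, t x - x ∈ 𝔓 ^ (n + l) := by
  induction n with
  | zero =>
    intro x _
    rw [zero_add]
    exact Ideal.pow_le_pow_right (Nat.le_succ l) (hdv x)
  | succ n ih =>
    intro x hx
    rw [pow_succ] at hx
    refine Submodule.mul_induction_on hx (fun a ha b hb => ?_) (fun a b ha hb => ?_)
    · have h1 : t (a * b) - a * b = (t a - a) * t b + a * (t b - b) := by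
        rw [map_mul]; ring
      have htb : t b ∈ 𝔓 := by
        have h2 : t b = (t b - b) + b := by ring
        rw [h2]
        exact 𝔓.add_mem (Ideal.pow_le_self (Nat.succ_ne_zero l) (hdv b)) hb
      rw [h1]
      refine Ideal.add_mem _ ?_ ?_
      · have h3 := Ideal.mul_mem_mul (ih a ha) htb
        rw [← pow_succ] at h3
        have e1 : n + l + 1 = n + 1 + l := by ring
        rwa [e1] at h3
      · have h3 := Ideal.mul_mem_mul ha (hdv b)
        rw [← pow_add] at h3
        have e1 : n + (l + 1) = n + 1 + l := by ring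
        rwa [e1] at h3
    · have h1 : t (a + b) - (a + b) = (t a - a) + (t b - b) := by rw [map_add]; ring
      rw [h1]
      exact Ideal.add_mem _ ha hb

/-- **The norm lemma.** -/
theorem norm_lem {p : ℕ} (hp : p.Prime) (h𝔓 : 𝔓.IsMaximal) (hne : 𝔓 ≠ ⊥)
    (hdv : ∀ o, t o - o ∈ 𝔓 ^ (l + 1)) (hpl : (p : O) ∈ 𝔓 ^ ((p - 1) * l)) {b : O}
    (hb : ∏ a ∈ Finset.range p, (t^[a]) b - 1 ∈ 𝔓 ^ (p * l)) : b - 1 ∈ 𝔓 ^ l := by
  have key : ∀ i, i ≤ l → b - 1 ∈ 𝔓 ^ i := by
    intro i
    induction i with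
    | zero => intro _; rw [pow_zero, Ideal.one_eq_top]; trivial
    | succ i ih =>
      intro hi
      have hbi := ih (by omega)
      obtain ⟨n, hn⟩ : ∃ n, n = p * i + 1 := ⟨_, rfl⟩
      have hle : 𝔓 ^ n ≤ (𝔓 ^ n).comap t := by
        intro x hx
        rw [Ideal.mem_comap]
        have h1 : t x = (t x - x) + x := by ring
        rw [h1]
        exact Ideal.add_mem _ (Ideal.pow_le_pow_right (Nat.le_add_right n l)
          (t_pow hdv n x hx)) hx
      let τ : (O ⧸ 𝔓 ^ n) →+* (O ⧸ 𝔓 ^ n) := Ideal.quotientMap (𝔓 ^ n) t hle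
      have hτmk : ∀ x, τ (Ideal.Quotient.mk _ x) = Ideal.Quotient.mk _ (t x) :=
        fun x => Ideal.quotientMap_mk
      have hτit : ∀ a x, (τ^[a]) (Ideal.Quotient.mk _ x) = Ideal.Quotient.mk _ ((t^[a]) x) := by
        intro a x
        induction a with
        | zero => rfl
        | succ a ih => rw [Function.iterate_succ', Function.iterate_succ', Function.comp_apply,
            Function.comp_apply, ih, hτmk]
      obtain ⟨I, hI⟩ : ∃ I : Ideal (O ⧸ 𝔓 ^ n), I = 𝔓.map (Ideal.Quotient.mk (𝔓 ^ n)) := ⟨_, rfl⟩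
      have hIp : ∀ j, I ^ j = (𝔓 ^ j).map (Ideal.Quotient.mk (𝔓 ^ n)) := by
        intro j
        rw [hI, Ideal.map_pow]
      have hmem : ∀ j x, x ∈ 𝔓 ^ j → Ideal.Quotient.mk (𝔓 ^ n) x ∈ I ^ j := by
        intro j x hx
        rw [hIp]
        exact Ideal.mem_map_of_mem _ hx
      have hex : ∀ j, ∀ x ∈ I ^ j, ∃ y ∈ 𝔓 ^ j, Ideal.Quotient.mk (𝔓 ^ n) y = x := by
        intro j x hx
        rw [hIp] at hx
        exact (Ideal.mem_map_iff_of_surjective _ Ideal.Quotient.mk_surjective).1 hx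
      have hτ : ∀ j, ∀ x ∈ I ^ j, τ x - x ∈ I ^ (j + l) := by
        intro j x hx
        obtain ⟨y, hy, rfl⟩ := hex j x hx
        rw [hτmk, ← map_sub]
        exact hmem _ _ (t_pow hdv j y hy)
      have hpI : ((p : ℕ) : O ⧸ 𝔓 ^ n) ∈ I ^ ((p - 1) * l) := by
        have := hmem _ _ hpl
        rwa [map_natCast] at this
      have h0 : I ^ (p * i + 1) = ⊥ := by
        rw [← hn, hIp]
        exact Ideal.map_quotient_self _
      have hle2 : n ≤ p * l := by
        rw [hn]
        have h2 := hp.two_le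
        nlinarith
      have hN : ∏ a ∈ Finset.range p, (τ^[a]) (Ideal.Quotient.mk (𝔓 ^ n) b) = 1 := by
        have h1 : ∏ a ∈ Finset.range p, (τ^[a]) (Ideal.Quotient.mk (𝔓 ^ n) b) =
            Ideal.Quotient.mk (𝔓 ^ n) (∏ a ∈ Finset.range p, (t^[a]) b) := by
          rw [map_prod]
          exact Finset.prod_congr rfl fun a _ => hτit a b
        rw [h1, ← map_one (Ideal.Quotient.mk (𝔓 ^ n)), Ideal.Quotient.eq]
        exact Ideal.pow_le_pow_right hle2 hb
      have hu : IsUnit (Ideal.Quotient.mk (𝔓 ^ n) b) := by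
        refine isUnit_of_dvd_one ?_
        rw [← hN]
        exact Finset.dvd_prod_of_mem (fun a => (τ^[a]) (Ideal.Quotient.mk (𝔓 ^ n) b))
          (Finset.mem_range.2 hp.pos)
      obtain ⟨u, hu⟩ := hu
      have hub : (u : O ⧸ 𝔓 ^ n) - 1 ∈ I ^ i := by
        rw [hu, ← map_one (Ideal.Quotient.mk (𝔓 ^ n)), ← map_sub]
        exact hmem _ _ hbi
      have h2 := norm_unit τ hp (by omega : i < l) hτ hpI h0 hub
      rw [hu, hN] at h2
      obtain ⟨y, hy⟩ : ∃ y, b = 1 + y := ⟨b - 1, by ring⟩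
      have hyi : y ∈ 𝔓 ^ i := by
        have : b - 1 = y := by rw [hy]; ring
        rwa [this] at hbi
      obtain ⟨r, hr⟩ := exists_add_pow_prime_eq hp (1 : O) y
      have h3 : b ^ p - 1 ∈ 𝔓 ^ n := by
        rw [← Ideal.Quotient.eq, map_one, map_pow]
        exact h2.symm
      have h4 : y ^ p ∈ 𝔓 ^ n := by
        have e1 : y ^ p = (b ^ p - 1) - (p : O) * y * r := by
          rw [hy, hr, one_pow]
          ring
        rw [e1]
        refine Ideal.sub_mem _ h3 (Ideal.mul_mem_right _ _ ?_)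
        have h5 := Ideal.mul_mem_mul hpl hyi
        rw [← pow_add] at h5
        refine Ideal.pow_le_pow_right ?_ h5
        rw [hn]
        obtain ⟨q, hq⟩ : ∃ q, p = q + 2 := ⟨p - 2, by have := hp.two_le; omega⟩
        subst hq
        have e3 : (q + 2 - 1) = q + 1 := by omega
        rw [e3]
        obtain ⟨d, rfl⟩ : ∃ d, l = i + 1 + d := ⟨l - (i + 1), by omega⟩
        nlinarith [Nat.zero_le (q * d), Nat.zero_le d, Nat.zero_le q]
      have e2 : b - 1 = y := by rw [hy]; ring
      rw [e2]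
      -- the valuation
      by_contra hcon
      have hPr : Prime 𝔓 := Ideal.prime_of_isPrime hne h𝔓.isPrime
      have h6 : ∀ k : ℕ, y ^ k ∈ 𝔓 ^ (k * i) ∧ y ^ k ∉ 𝔓 ^ (k * i + 1) := by
        intro k
        induction k with
        | zero =>
          refine ⟨by rw [zero_mul, pow_zero, pow_zero, Ideal.one_eq_top]; trivial, ?_⟩
          rw [pow_zero, zero_mul, zero_add, pow_one]
          exact (Ideal.ne_top_iff_one _).1 h𝔓.ne_top
        | succ k ih2 =>
          obtain ⟨g1, g2⟩ := ih2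
          constructor
          · have g3 := Ideal.mul_mem_mul g1 hyi
            rw [← pow_add, ← pow_succ] at g3
            have e4 : k * i + i = (k + 1) * i := by ring
            rwa [e4] at g3
          · intro g3
            have e4 : (k + 1) * i + 1 = k * i + i + 1 := by ring
            rw [pow_succ y, e4, ← Ideal.dvd_span_singleton,
              ← Ideal.span_singleton_mul_span_singleton] at g3
            rcases succ_dvd_or_succ_dvd_of_succ_sum_dvd_mul hPr (Ideal.dvd_span_singleton.2 g1)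
              (Ideal.dvd_span_singleton.2 hyi) g3 with g4 | g4
            · exact g2 (Ideal.dvd_span_singleton.1 g4)
            · exact hcon (Ideal.dvd_span_singleton.1 g4)
      apply (h6 p).2
      rwa [hn] at h4
  exact key l le_rfl

end ded

end Pool.Agent.T9h3.R
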