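import Pool.Agent.T9h3.P.Fin

/-!
# Subvarieties of tori with an exact action of the wild inertia groups: the data
-/

set_option autoImplicit false
set_option linter.unusedSectionVars false
set_option linter.overlappingInstances false
set_option linter.unusedVariables false

namespace Pool.Agent.T9h3.R

open Pool.Agent.Y223.G Pool.Agent.R383.TM Pool.Agent.T9h3 Pool.Agent.T9h3.H Pool.Agent.T9h3.P

section

variable {k O K G Λ : Type} [CommRing k] [IsDomain k] [CommRing O] [IsDomain O]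
  [IsDedekindDomain O] [Field K] [Group G] [Algebra k O] [Algebra O K] [Algebra k K]
  [IsScalarTower k O K] [AddCommGroup Λ] [DistribMulAction G Λ]

/-- The data, with an exact action of the wild inertia groups. -/
structure TSW (k O K G Λ : Type) [CommRing k] [IsDomain k] [CommRing O] [IsDomain O]
    [IsDedekindDomain O] [Field K] [Group G] [Algebra k O] [Algebra O K] [Algebra k K]
    [IsScalarTower k O K] [AddCommGroup Λ] [DistribMulAction G Λ]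
    (ρ : G →* (K ≃ₐ[k] K)) (T : G →* (O ≃ₐ[k] O)) (χ : Λ → K) (Δ : Set Λ) : Prop
    extends GN k O K G ρ T where
  χ0 : χ 0 = 1
  χa : ∀ x y, χ (x + y) = χ x * χ y
  act : ∀ (𝔓 : Ideal O) (g : G), 𝔓.IsMaximal → IW T 𝔓 g → ∀ x, ρ g (χ x) = χ (g • x)
  fin' : Δ.Finite
  st : ∀ g : G, ∀ x ∈ Δ, g • x ∈ Δ
  ne : Δ.Nonempty
  tf : ∀ n : ℕ, n ≠ 0 → ∀ x : Λ, (n : ℤ) • x = 0 → x = 0
  bs : ∃ (ι : Type) (_ : Fintype ι) (v : Λ) (b : Module.Basis ι ℤ Λ), v ∈ Δ ∧ ∀ i, v + b i ∈ Δ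
  cr : CVP (fun v => v ∈ Δ ∧ IsRegularRing (CG0 O χ Δ (χ v))) Δ
  vf : ∀ (𝔓 : Ideal O) (g : G) (l : ℕ), 𝔓.IsMaximal → IW T 𝔓 g →
      TD0 O K Λ (orderOf g) (rg ρ g) (tg T g) (sA Λ g) χ 𝔓 l →
      CVP (VF χ (rg ρ g) (orderOf g) (tg T g) (sA Λ g) 𝔓 l Δ) Δ

variable {ρ : G →* (K ≃ₐ[k] K)} {T : G →* (O ≃ₐ[k] O)} {χ : Λ → K} {Δ : Set Λ}

/-- The ramification data. -/
lemma TSW.td [Finite G] (S : TSW k O K G Λ ρ T χ Δ) {𝔓 : Ideal O} (h𝔓 : 𝔓.IsMaximal)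
    {g : G} (hg : IW T 𝔓 g) :
    ∃ l, TD0 O K Λ (orderOf g) (rg ρ g) (tg T g) (sA Λ g) χ 𝔓 l := by
  have hne : 𝔓 ≠ ⊥ := IW_ne S.toGN hg
  obtain ⟨hp, -⟩ := S.toGN.cyc h𝔓 hg
  obtain ⟨l, h1, h2, h3, h4⟩ := ram1E t_RAM1 S.toGN hp
    (pow_orderOf_eq_one g) hg.1 h𝔓 hne hg.2.1
  refine ⟨l, ⟨hp, S.χ0, S.χa, S.act 𝔓 g h𝔓 hg, fun o => S.com g o, ?_, h𝔓, hne, ?_, h1, h2,
    h3⟩⟩
  · rw [← sA_pow, pow_orderOf_eq_one, sA_one]
  · by_contra hl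
    have hl0 : l = 0 := by omega
    subst hl0
    obtain ⟨π, hπ, h5⟩ := h2
    exact h5 (hg.2.2 π hπ)

/-- The filtrations of the elements of the wild inertia group agree. -/
lemma TSW.wg [Finite G] (S : TSW k O K G Λ ρ T χ Δ) {𝔓 : Ideal O} (h𝔓 : 𝔓.IsMaximal)
    {g g' : G} (hg : IW T 𝔓 g) (hg' : IW T 𝔓 g') :
    orderOf g = orderOf g' ∧ ∀ n u, u ∈ WGN ρ χ Δ g n ↔ u ∈ WGN ρ χ Δ g' n := by
  obtain ⟨hp, h1⟩ := S.toGN.cyc h𝔓 hg
  obtain ⟨hp', h1'⟩ := S.toGN.cyc h𝔓 hg'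
  obtain ⟨a, ha⟩ := h1 g' hg'
  obtain ⟨a', ha'⟩ := h1' g hg
  have ho : orderOf g = orderOf g' := by
    have := Fact.mk hp
    symm
    refine orderOf_eq_prime ?_ hg'.1
    rw [ha, ← pow_mul, mul_comm, pow_mul, pow_orderOf_eq_one, one_pow]
  refine ⟨ho, fun k u => ⟨fun hu => ?_, fun hu => ?_⟩⟩
  · refine WW_power (TSN.sp g') (S.act 𝔓 g' h𝔓 hg') (S.st g')
      (fun x hx => S.tf _ hp'.ne_zero x hx) a' (σ' := rg ρ g) (s' := sA Λ g) ?_ ?_ k ?_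
    · conv_lhs => rw [ha']
      rw [sA_pow]
    · intro x
      conv_lhs => rw [ha']
      rw [rg_pow]
    · rw [← ho]; exact hu
  · refine WW_power (TSN.sp g) (S.act 𝔓 g h𝔓 hg) (S.st g)
      (fun x hx => S.tf _ hp.ne_zero x hx) a (σ' := rg ρ g') (s' := sA Λ g') ?_ ?_ k ?_
    · conv_lhs => rw [ha]
      rw [sA_pow]
    · intro x
      conv_lhs => rw [ha]
      rw [rg_pow]
    · rw [ho]; exact hu

lemma TSW.l0_spec [Finite G] (S : TSW k O K G Λ ρ T χ Δ) {𝔓 : Ideal O} (h𝔓 : 𝔓.IsMaximal)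
    {g : G} (hg : IW T 𝔓 g) :
    TD0 O K Λ (orderOf (gN T 𝔓)) (rg ρ (gN T 𝔓)) (tg T (gN T 𝔓)) (sA Λ (gN T 𝔓)) χ 𝔓
      (lN ρ T χ 𝔓) := by
  have h := S.td h𝔓 (gN_spec hg)
  unfold lN
  rw [dif_pos h]
  exact h.choose_spec

lemma TSW.l0_spec' [Finite G] (S : TSW k O K G Λ ρ T χ Δ) {𝔓 : Ideal O} (h𝔓 : 𝔓.IsMaximal)
    {g : G} (hg : IW T 𝔓 g) :
    TD0 O K Λ (orderOf g) (rg ρ g) (tg T g) (sA Λ g) χ 𝔓 (lN ρ T χ 𝔓) := by
  obtain ⟨l, hl⟩ := S.td h𝔓 hg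
  rw [S.toGN.leq h𝔓 (gN_spec hg) hg (S.l0_spec h𝔓 hg) hl]
  exact hl

/-- The coordinates. -/
structure ZGW (ρ : G →* (K ≃ₐ[k] K)) (T : G →* (O ≃ₐ[k] O)) (χ : Λ → K) (Δ : Set Λ) {m : ℕ}
    (z : Fin (m + 1) → K) : Prop where
  z0 : ∀ i, z i ≠ 0
  zs : ∀ i, z i ∈ Submodule.span ℤ (χ '' Δ)
  span : Submodule.span ℤ (χ '' Δ) ≤ Submodule.span ℤ (Set.range z)
  sp : ∀ (𝔓 : Ideal O) (g : G), 𝔓.IsMaximal → IW T 𝔓 g → ∀ n : ℕ, n ≤ orderOf g →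
    WGN ρ χ Δ g n ≤ Submodule.span ℤ {y | ∃ i, z i ∈ WGN ρ χ Δ g n ∧ y = z i}

variable {m : ℕ} {z : Fin (m + 1) → K}

lemma ZGW.zw (Z : ZGW ρ T χ Δ z) {𝔓 : Ideal O} (h𝔓 : 𝔓.IsMaximal) {g : G} (hg : IW T 𝔓 g) :
    ZW χ (rg ρ (gN T 𝔓)) (orderOf (gN T 𝔓)) (sA Λ (gN T 𝔓)) (lN ρ T χ 𝔓) Δ z (wN ρ T χ Δ z 𝔓)
      (kN ρ T χ Δ z 𝔓) := by
  classical
  refine ⟨Z.z0, fun i => Nat.findGreatest_le _, fun i => ?_, fun i => rfl, fun k hk => ?_⟩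
  · unfold kN
    exact Nat.findGreatest_spec (P := fun k => z i ∈ WGN ρ χ Δ (gN T 𝔓) k)
      (Nat.zero_le (orderOf (gN T 𝔓) - 1)) (Z.zs i)
  · refine (Z.sp 𝔓 (gN T 𝔓) h𝔓 (gN_spec hg) k (by omega)).trans (Submodule.span_mono ?_)
    rintro y ⟨i, hi, rfl⟩
    refine ⟨i, ?_, rfl⟩
    unfold kN
    exact Nat.le_findGreatest hk hi

lemma ZGW.zw' [Finite G] (S : TSW k O K G Λ ρ T χ Δ) (Z : ZGW ρ T χ Δ z) {𝔓 : Ideal O}
    (h𝔓 : 𝔓.IsMaximal) {g : G} (hg : IW T 𝔓 g) :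
    ZW χ (rg ρ g) (orderOf g) (sA Λ g) (lN ρ T χ 𝔓) Δ z (wN ρ T χ Δ z 𝔓) (kN ρ T χ Δ z 𝔓) := by
  obtain ⟨h1, h2⟩ := S.wg h𝔓 (gN_spec hg) hg
  have h3 := Z.zw (T := T) h𝔓 hg
  have h4 : ∀ p, orderOf (gN T 𝔓) = p →
      (∀ n u, u ∈ WGN ρ χ Δ (gN T 𝔓) n ↔ u ∈ WW χ (rg ρ g) p (sA Λ g) Δ n) →
      ZW χ (rg ρ g) p (sA Λ g) (lN ρ T χ 𝔓) Δ z (wN ρ T χ Δ z 𝔓) (kN ρ T χ Δ z 𝔓) := by
    rintro p rfl h
    exact h3.change h
  exact h4 _ h1 h2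

/-- **The coordinates.** -/
theorem exists_zW [Finite G] (χ0 : χ 0 = 1) (χa : ∀ x y, χ (x + y) = χ x * χ y)
    (act : ∀ (𝔓 : Ideal O) (g : G), 𝔓.IsMaximal → IW T 𝔓 g → ∀ x, ρ g (χ x) = χ (g • x))
    (fin : Δ.Finite) (st : ∀ g : G, ∀ x ∈ Δ, g • x ∈ Δ) (ne : Δ.Nonempty) :
    ∃ (m : ℕ) (z : Fin (m + 1) → K), ZGW ρ T χ Δ z := by
  classical
  have _ : Fintype G := Fintype.ofFinite _
  have hfg : ∀ (g : G) (n : ℕ), (WGN ρ χ Δ g n).FG := fun g n => WW_fg fin n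
  choose S hS using hfg
  obtain ⟨ZS, hZS⟩ : ∃ ZS : Finset K, ZS = (((Finset.univ.filter fun g : G =>
      ∃ 𝔓 : Ideal O, 𝔓.IsMaximal ∧ IW T 𝔓 g).biUnion fun g : G =>
    (Finset.range (orderOf g + 1)).biUnion fun k => S g k) ∪ S 1 0).filter (· ≠ 0) := ⟨_, rfl⟩
  have memZ : ∀ x, x ∈ ZS ↔ ((∃ g k, (∃ 𝔓 : Ideal O, 𝔓.IsMaximal ∧ IW T 𝔓 g) ∧ k ≤ orderOf g ∧
      x ∈ S g k) ∨ x ∈ S 1 0) ∧ x ≠ 0 := by
    intro x
    rw [hZS, Finset.mem_filter, Finset.mem_union, Finset.mem_biUnion]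
    constructor
    · rintro ⟨⟨g, hg, h⟩ | h, h0⟩
      · rw [Finset.mem_biUnion] at h
        obtain ⟨k, hk, h⟩ := h
        rw [Finset.mem_range] at hk
        exact ⟨Or.inl ⟨g, k, (Finset.mem_filter.1 hg).2, by omega, h⟩, h0⟩
      · exact ⟨Or.inr h, h0⟩
    · rintro ⟨⟨g, k, hg, hk, h⟩ | h, h0⟩
      · refine ⟨Or.inl ⟨g, Finset.mem_filter.2 ⟨Finset.mem_univ _, hg⟩, ?_⟩, h0⟩
        rw [Finset.mem_biUnion]
        exact ⟨k, Finset.mem_range.2 (by omega), h⟩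
      · exact ⟨Or.inr h, h0⟩
  have hmem : ∀ g k x, x ∈ S g k → x ∈ WGN ρ χ Δ g k := by
    intro g k x hx
    rw [← hS g k]
    exact Submodule.subset_span hx
  have hcard : 0 < ZS.card := by
    rw [Finset.card_pos]
    obtain ⟨m, hm⟩ := ne
    by_contra hcon
    rw [Finset.not_nonempty_iff_eq_empty] at hcon
    have h1 : ∀ x ∈ S (1 : G) 0, x = 0 := by
      intro x hx
      by_contra h0
      have h2 := (memZ x).2 ⟨Or.inr hx, h0⟩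
      rw [hcon] at h2
      exact absurd h2 (Finset.notMem_empty _)
    have h2 : χ m ∈ WGN ρ χ Δ (1 : G) 0 := chi_WW hm
    rw [← hS] at h2
    have h3 : Submodule.span ℤ (S (1 : G) 0 : Set K) ≤ ⊥ := by
      rw [Submodule.span_le]
      intro x hx
      exact h1 x hx
    exact chi_ne χ0 χa m (h3 h2)
  obtain ⟨m, hm⟩ : ∃ m, ZS.card = m + 1 := ⟨_, (Nat.sub_add_cancel hcard).symm⟩
  let e : Fin (m + 1) ≃ ZS := (finCongr hm.symm).trans ZS.equivFin.symm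
  have hz : ∀ i, ((e i : ZS) : K) ∈ ZS := fun i => (e i).2
  refine ⟨m, fun i => (e i : K), ⟨fun i => ((memZ _).1 (hz i)).2, fun i => ?_, ?_,
    fun 𝔓 g h𝔓 hg k hk => ?_⟩⟩
  · obtain ⟨⟨g, k, ⟨𝔓, h𝔓, hg⟩, hk, h⟩ | h, -⟩ := (memZ _).1 (hz i)
    · exact WW_mono (TSN.sp g) (act 𝔓 g h𝔓 hg) (st g) (Nat.zero_le k) (hmem g k _ h)
    · exact hmem 1 0 _ h
  · intro u hu
    have hu' : u ∈ WGN ρ χ Δ (1 : G) 0 := hu
    rw [← hS] at hu'
    refine Submodule.span_le.2 ?_ hu'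
    intro x hx
    by_cases h0 : x = 0
    · rw [h0]
      exact Submodule.zero_mem _
    · have h1 : x ∈ ZS := (memZ x).2 ⟨Or.inr hx, h0⟩
      refine Submodule.subset_span ⟨e.symm ⟨x, h1⟩, ?_⟩
      simp only
      rw [Equiv.apply_symm_apply]
  · intro u hu
    have hu' := hu
    rw [← hS g k] at hu'
    refine Submodule.span_le.2 ?_ hu'
    intro x hx
    by_cases h0 : x = 0
    · rw [h0]
      exact Submodule.zero_mem _
    · have h1 : x ∈ ZS := (memZ x).2 ⟨Or.inl ⟨g, k, ⟨𝔓, h𝔓, hg⟩, hk, hx⟩, h0⟩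
      refine Submodule.subset_span ⟨e.symm ⟨x, h1⟩, ?_, ?_⟩
      · rw [Equiv.apply_symm_apply]
        exact hmem g k x hx
      · rw [Equiv.apply_symm_apply]

lemma ZGW.span' (Z : ZGW ρ T χ Δ z) :
    Submodule.span ℤ (Set.range z) = Submodule.span ℤ (χ '' Δ) := by
  apply le_antisymm
  · rw [Submodule.span_le]
    rintro _ ⟨i, rfl⟩
    exact Z.zs i
  · exact Z.span

/-- The coordinates generate the function field. -/
lemma ZGW.gen {M : Type} [Field M] [Algebra M K] (χ0 : χ 0 = 1)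
    (χa : ∀ x y, χ (x + y) = χ x * χ y)
    (bs : ∃ (ι : Type) (_ : Fintype ι) (v : Λ) (b : Module.Basis ι ℤ Λ), v ∈ Δ ∧
      ∀ i, v + b i ∈ Δ) (Z : ZGW ρ T χ Δ z)
    (hgen : IntermediateField.adjoin M (Set.range χ) = ⊤) :
    IntermediateField.adjoin M (Set.range fun j => z j / z 0) = ⊤ := by
  rw [eq_top_iff, ← hgen]
  rw [IntermediateField.adjoin_le_iff]
  obtain ⟨L, hL⟩ : ∃ L : IntermediateField M K,
    L = IntermediateField.adjoin M (Set.range fun j => z j / z 0) := ⟨_, rfl⟩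
  rw [← hL]
  have h1 : ∀ u ∈ Submodule.span ℤ (Set.range z), u / z 0 ∈ L := by
    intro u hu
    induction hu using Submodule.span_induction with
    | mem x hx =>
      obtain ⟨i, rfl⟩ := hx
      rw [hL]
      exact IntermediateField.subset_adjoin _ _ ⟨i, rfl⟩
    | zero => rw [zero_div]; exact L.zero_mem
    | add x y _ _ hx hy => rw [add_div]; exact L.add_mem hx hy
    | smul c x _ hx =>
      rw [zsmul_eq_mul, mul_div_assoc]
      exact L.mul_mem (intCast_mem L c) hx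
  have h2 : ∀ x ∈ Δ, χ x / z 0 ∈ L := fun x hx =>
    h1 _ (Z.span (Submodule.subset_span ⟨x, hx, rfl⟩))
  obtain ⟨ι, _, v, b, hvm, hvb⟩ := bs
  have hv0 := chi_ne χ0 χa v
  have h3 : ∀ i, χ (b i) ∈ L := by
    intro i
    have h4 : χ (b i) = (χ (v + b i) / z 0) / (χ v / z 0) := by
      have := Z.z0 0
      rw [χa]
      field_simp
    rw [h4]
    exact L.div_mem (h2 _ (hvb i)) (h2 _ hvm)
  rintro _ ⟨x, rfl⟩
  rw [← b.sum_repr x, chi_sum χ0 χa]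
  refine prod_mem fun i _ => ?_
  rw [chi_zsmul χ0 χa]
  exact zpow_mem (h3 i) _

lemma ZGW.lin (Z : ZGW ρ T χ Δ z) (st : ∀ g : G, ∀ x ∈ Δ, g • x ∈ Δ) {ρ' : G →* (K ≃ₐ[k] K)}
    (un : ∀ g x, ∃ u : O, ρ' g (χ x) = algebraMap O K u * χ (g • x)) (g : G)
    (j : Fin (m + 1)) : ρ' g (z j) ∈ Submodule.span O (Set.range z) := by
  have h2 := Z.zs j
  generalize z j = u at h2
  induction h2 using Submodule.span_induction with
  | mem x hx =>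
    obtain ⟨m, hm, rfl⟩ := hx
    obtain ⟨u, hu⟩ := un g m
    rw [hu, ← Algebra.smul_def]
    exact Submodule.smul_mem _ _ (Submodule.span_subset_span ℤ O _
      (Z.span (Submodule.subset_span ⟨g • m, st g m hm, rfl⟩)))
  | zero => rw [map_zero]; exact Submodule.zero_mem _
  | add x y _ _ hx hy => rw [map_add]; exact Submodule.add_mem _ hx hy
  | smul c x _ hx =>
    rw [map_zsmul]
    exact zsmul_mem hx c

lemma ZGW.cg (Z : ZGW ρ T χ Δ z) (j : Fin (m + 1)) :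
    Algebra.adjoin O (Set.range fun i => z i / z j) = CG0 O χ Δ (z j) := by
  apply le_antisymm
  · rw [Algebra.adjoin_le_iff]
    rintro _ ⟨i, rfl⟩
    exact CG0_mem (Z.zs i)
  · unfold CG0
    rw [Algebra.adjoin_le_iff]
    rintro _ ⟨x, hx, rfl⟩
    have h1 := Z.span (Submodule.subset_span ⟨x, hx, rfl⟩)
    obtain ⟨y, hy⟩ : ∃ y, y = χ x := ⟨_, rfl⟩
    rw [← hy] at h1 ⊢
    clear hy
    induction h1 using Submodule.span_induction with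
    | mem x hx =>
      obtain ⟨i, rfl⟩ := hx
      exact Algebra.subset_adjoin ⟨i, rfl⟩
    | zero => rw [zero_div]; exact Subalgebra.zero_mem _
    | add x y _ _ hx hy => rw [add_div]; exact Subalgebra.add_mem _ hx hy
    | smul c x _ hx =>
      rw [zsmul_eq_mul, mul_div_assoc]
      exact Subalgebra.mul_mem _ (Subalgebra.intCast_mem _ c) hx

lemma ZGW.hreg (S : TSW k O K G Λ ρ T χ Δ) (Z : ZGW ρ T χ Δ z) (j : Fin (m + 1)) :
    IsRegularRing (Algebra.adjoin O (Set.range fun i => z i / z j)) := by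
  rw [Z.cg j]
  exact CG0_regP S.χ0 S.χa S.fin' S.cr (Z.z0 j) (Z.zs j)

end

section

variable {k O K G Λ : Type} [CommRing k] [IsDomain k] [CommRing O] [IsDomain O]
  [IsDedekindDomain O] [Field K] [Group G] [Finite G] [Algebra k O] [Algebra O K] [Algebra k K]
  [IsScalarTower k O K] [AddCommGroup Λ] [DistribMulAction G Λ] [Module.Free ℤ Λ]
  [Module.Finite ℤ Λ] {ρ : G →* (K ≃ₐ[k] K)} {T : G →* (O ≃ₐ[k] O)} {χ : Λ → K}
  {Δ : Set Λ} {φ : AA O Λ →ₐ[O] K} {c : ℕ} {F : Fin c → AA O Λ}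

/-- The evaluation. -/
lemma EV_ofW (com : ∀ g o, ρ g (algebraMap O K o) = algebraMap O K (T g o)) (g : G)
    (act : ∀ x, ρ g (χ x) = χ (g • x)) (hφ : ∀ x, φ (cx O x) = χ x) :
    EV φ χ (rg ρ g) (tg T g) (sA Λ g) := by
  refine ⟨hφ, fun f => ?_⟩
  induction f using AA_ind with
  | h0 => rw [map_zero, map_zero, map_zero, map_zero]
  | hadd f g hf hg => rw [map_add, map_add, map_add, map_add, hf, hg]
  | hs o x =>
    rw [map_mul, map_mul, map_mul, sg_C, sg_cx, map_mul, AlgHom.commutes, AlgHom.commutes, hφ, hφ,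
      rg_apply, rg_apply, act]
    congr 1
    exact com g o

/-- **The data of a nondegenerate complete intersection.** -/
theorem tsw_of (hG : GN k O K G ρ T) (χ0 : χ 0 = 1) (χa : ∀ x y, χ (x + y) = χ x * χ y)
    (act : ∀ (𝔓 : Ideal O) (g : G), 𝔓.IsMaximal → IW T 𝔓 g → ∀ x, ρ g (χ x) = χ (g • x))
    (hφ : ∀ x, φ (cx O x) = χ x) (H : HK φ F)
    (hRG : RG F) (hW : ∀ (𝔓 : Ideal O) (g : G), 𝔓.IsMaximal → IW T 𝔓 g → Pool.Agent.T9h3.H.WD (sA Λ g) 𝔓 F)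
    {Θ : Set Λ} (hΘ : DF F Θ) (fin : Δ.Finite) (ne : Δ.Nonempty)
    (st : ∀ g : G, ∀ x ∈ Δ, g • x ∈ Δ)
    (h : ∀ g : G, CVP (SVR (orderOf g) (sA Λ g) Θ Δ) Δ) : TSW k O K G Λ ρ T χ Δ := by
  classical
  have hF0 : ∀ r, F r ≠ 0 := by
    intro r hr
    have hQ : (RingHom.ker φ.toRingHom).IsPrime := RingHom.ker_isPrime φ.toRingHom
    have h1 := hRG 0 (RingHom.ker φ.toRingHom) hQ (fun r => by
      rw [ini_zero, RingHom.mem_ker]
      exact H.z r) (fun r' => if r' = r then 1 else 0) (by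
      have h2 : ∑ r', (if r' = r then (1 : AA O Λ) else 0) * ini 0 (F r') = 0 := by
        refine Finset.sum_eq_zero fun r' _ => ?_
        split_ifs with h
        · rw [ini_zero, h, hr, mul_zero]
        · rw [zero_mul]
      rw [h2]
      exact Ideal.zero_mem _) r
    rw [if_pos rfl] at h1
    exact hQ.ne_top ((Ideal.eq_top_iff_one _).2 h1)
  -- the charts are regular
  have hC : ∀ {ι : Type} [Fintype ι] (v : Λ) (b : Module.Basis ι ℤ Λ), CD Δ v b →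
      (∀ φ ∈ Θ, CMP b φ) → IsRegularRing (CG0 O χ Δ (χ v)) := by
    intro ι _ v b hc hb
    obtain ⟨u, hu⟩ := exists_MN hΘ hF0 hb
    have hinj : Function.Injective (eA (O := O) b) := by
      obtain ⟨𝕂, _, _, φ0, χ0', σ0, e0, h0⟩ := exists_amb (O := O) (Λ := Λ) b
        (t := RingHom.id _) Function.injective_id (s := 1) Function.injective_id
      have h1 : LinearIndependent O (φ0.toLinearMap ∘ (cx O : Λ → AA O Λ)) :=
        cx_lin.map' φ0.toLinearMap (LinearMap.ker_eq_bot.2 h0)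
      have h2 : (φ0.toLinearMap ∘ (cx O : Λ → AA O Λ)) = χ0' := by
        funext x
        exact e0.c x
      rw [h2] at h1
      have h3 := ev_inj e0.χ0 e0.χa h1 b
      intro f g hfg
      apply h3
      rw [ev_eA e0.c, ev_eA e0.c, hfg]
    exact CG0_regH hφ χ0 χa hinj H hc hu hRG
  refine
  { toGN := hG
    χ0 := χ0
    χa := χa
    act := act
    fin' := fin
    st := st
    ne := ne
    tf := ?_
    bs := ?_
    cr := ?_
    vf := ?_ }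
  · intro n hn x hx
    rcases smul_eq_zero.1 hx with h1 | h1
    · exact absurd (by exact_mod_cast h1) hn
    · exact h1
  · obtain ⟨v, hv⟩ := ne
    obtain ⟨S, hS0, hS, -⟩ := h 1 _ hv
    obtain ⟨v', hv'⟩ := Multiset.exists_mem_of_ne_zero hS0
    obtain ⟨ι, hι, b, hc, -, -⟩ := hS v' hv'
    exact ⟨ι, hι, v', b, hc.vm, hc.nb⟩
  · intro m hm
    obtain ⟨S, h1, h2, h3⟩ := h 1 m hm
    refine ⟨S, h1, fun v hv => ?_, h3⟩
    obtain ⟨ι, hι, b, hc, -, hb⟩ := h2 v hv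
    exact ⟨hc.vm, hC v b hc hb⟩
  · intro 𝔓 g l h𝔓 hg t m hm
    obtain ⟨S, h1, h2, h3⟩ := h g m hm
    refine ⟨S, h1, fun v hv => ?_, h3⟩
    obtain ⟨ι, hι, b, hc, hR, hb⟩ := h2 v hv
    obtain ⟨u, hu⟩ := exists_MN hΘ hF0 hb
    have hti : Function.Injective (tg T g) := (T g).injective
    obtain ⟨𝕂, _, _, φ0, χ0', σ0, e0, h0⟩ := exists_amb (O := O) (Λ := Λ) b hti
      (pow_inj t.pp.ne_zero t.sp)
    exact VF_H e0 h0 (t.amb e0 h0) (EV_ofW hG.com g (act 𝔓 g h𝔓 hg) hφ) H hc (st g) fin hR hu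
      (hW 𝔓 g h𝔓 hg) (hC v b hc hb)

end

end Pool.Agent.T9h3.R
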