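import Pool.Agent.T9h3.R.Loc

/-!
# The exact action on the function field of a split torus
-/

set_option autoImplicit false
set_option linter.unusedSectionVars false
set_option linter.overlappingInstances false
set_option linter.unusedVariables false

namespace Pool.Agent.T9h3.R

open Pool.Agent.Y223.G Pool.Agent.R383.TM Pool.Agent.T9h3 Pool.Agent.T9h3.H
open Pool.Agent.T9h3.P Pool.Agent.T9h3.Q

section ext

variable {M K L : Type} [Field M] [Field K] [Algebra M K] [AddCommGroup L] {χ : L → K}

/-- The evaluation at linearly independent characters is injective. -/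
lemma ev_inj (hli : LinearIndependent M χ) {φ : AA M L →ₐ[M] K} (hφ : ∀ x, φ (cx M x) = χ x) :
    Function.Injective φ := by
  rw [injective_iff_map_eq_zero]
  intro P hP
  rw [← ev_sum hφ] at hP
  have h1 : (Finsupp.linearCombination M χ) P.coeff = 0 := by
    rw [Finsupp.linearCombination_apply, ← hP]
    refine Finsupp.sum_congr fun x _ => ?_
    rw [Algebra.smul_def]
  have h2 := (linearIndependent_iff.1 hli) _ h1
  apply AddMonoidAlgebra.coeff_injective
  rw [h2]
  rfl

/-- The elements of the field are quotients. -/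
lemma ev_div {φ : AA M L →ₐ[M] K} (hφ : ∀ x, φ (cx M x) = χ x)
    (hgen : IntermediateField.adjoin M (Set.range χ) = ⊤) (z : K) :
    ∃ a b : AA M L, φ b ≠ 0 ∧ z = φ a / φ b := by
  have h1 : z ∈ IntermediateField.adjoin M (Set.range χ) := by rw [hgen]; trivial
  obtain ⟨r, hr, s, hs, hz⟩ := IntermediateField.mem_adjoin_iff_div.1 h1
  have h2 : Algebra.adjoin M (Set.range χ) ≤ φ.range := by
    rw [Algebra.adjoin_le_iff]
    rintro _ ⟨x, rfl⟩
    exact ⟨cx M x, hφ x⟩
  obtain ⟨a, rfl⟩ := h2 hr
  obtain ⟨b, rfl⟩ := h2 hs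
  by_cases hb : φ b = 0
  · refine ⟨0, 1, by rw [map_one]; exact one_ne_zero, ?_⟩
    change z = φ a / φ b at hz
    rw [hz, hb, div_zero, map_zero, zero_div]
  · exact ⟨a, b, hb, hz⟩

variable {E : Type} [Field E] [Algebra E M] [Algebra E K] [IsScalarTower E M K]
  [Module.Free ℤ L] [Module.Finite ℤ L] [DistribMulAction (M ≃ₐ[E] M) L]

/-- **The exact action.** -/
theorem exists_exact (χ0 : χ 0 = 1) (χa : ∀ x y, χ (x + y) = χ x * χ y)
    (hli : LinearIndependent M χ) (hgen : IntermediateField.adjoin M (Set.range χ) = ⊤) :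
    ∃ ρ₀ : (M ≃ₐ[E] M) →* (K ≃ₐ[E] K),
      (∀ g x, ρ₀ g (algebraMap M K x) = algebraMap M K (g x)) ∧
      ∀ g x, ρ₀ g (χ x) = χ (g • x) := by
  classical
  obtain ⟨φ, hφ⟩ := exists_ev (K := K) M χ0 χa
  have hinj := ev_inj hli hφ
  have hdom : IsDomain (AA M L) := AA_dom (Module.Free.chooseBasis ℤ L)
  let ia : Algebra (AA M L) K := φ.toRingHom.toAlgebra
  have hia : ∀ a, algebraMap (AA M L) K a = φ a := fun a => rfl
  have hfr : IsFractionRing (AA M L) K := by
    have hT : FaithfulSMul (AA M L) K := (faithfulSMul_iff_algebraMap_injective _ _).2 hinj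
    refine IsFractionRing.of_field _ _ fun z => ?_
    obtain ⟨a, b, hb, hz⟩ := ev_div hφ hgen z
    exact ⟨a, b, hz⟩
  have hG : ∀ g : M ≃ₐ[E] M, Function.Injective (g : M →+* M) := fun g => g.injective
  have hsA : ∀ g : M ≃ₐ[E] M, Function.Injective (sA L g) := by
    intro g x y hxy
    rw [sA_apply, sA_apply] at hxy
    exact smul_left_cancel g hxy
  have hT : ∀ g : M ≃ₐ[E] M, Function.Injective
      (φ.toRingHom.comp (sg (g : M →+* M) (sA L g)) : AA M L →+* K) := fun g =>
    hinj.comp (sg_inj (hG g) (hsA g))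
  obtain ⟨T, hTd⟩ : ∃ T : (M ≃ₐ[E] M) → (K →+* K), ∀ g a,
      T g (φ a) = φ (sg (g : M →+* M) (sA L g) a) :=
    ⟨fun g => IsFractionRing.lift (hT g), fun g a => IsFractionRing.lift_algebraMap (hT g) a⟩
  have hTM : ∀ g x, T g (algebraMap M K x) = algebraMap M K (g x) := by
    intro g x
    rw [← φ.commutes, hTd, sg_C, φ.commutes]
    rfl
  have hTχ : ∀ g x, T g (χ x) = χ (g • x) := by
    intro g x
    rw [← hφ, hTd, sg_cx, hφ, sA_apply]
  have hext : ∀ f g : K →+* K, (∀ x, f (algebraMap M K x) = g (algebraMap M K x)) →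
      (∀ x, f (χ x) = g (χ x)) → f = g := by
    intro f g h1 h2
    have h3 : ∀ a, f (φ a) = g (φ a) := by
      intro a
      induction a using AA_ind with
      | h0 => rw [map_zero, map_zero, map_zero]
      | hadd a b ha hb => rw [map_add, map_add, map_add, ha, hb]
      | hs o x => rw [map_mul, map_mul, map_mul, φ.commutes, h1, hφ, h2]
    ext z
    obtain ⟨a, b, hb, hz⟩ := ev_div hφ hgen z
    rw [hz, map_div₀, map_div₀, h3, h3]
  have hT1 : T 1 = RingHom.id K := by
    refine hext _ _ (fun x => ?_) (fun x => ?_)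
    · rw [hTM]; rfl
    · rw [hTχ, one_smul]; rfl
  have hTmul : ∀ g h, T (g * h) = (T g).comp (T h) := by
    intro g h
    refine hext _ _ (fun x => ?_) (fun x => ?_)
    · rw [hTM, RingHom.comp_apply, hTM, hTM]; rfl
    · rw [hTχ, RingHom.comp_apply, hTχ, hTχ, mul_smul]
  let T' : (M ≃ₐ[E] M) →* (K →ₐ[E] K) :=
    { toFun := fun g => { T g with
        commutes' := fun x => by
          change T g (algebraMap E K x) = algebraMap E K x
          rw [IsScalarTower.algebraMap_apply E M K, hTM, g.commutes] }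
      map_one' := by
        apply AlgHom.ext
        intro z
        exact DFunLike.congr_fun hT1 z
      map_mul' := fun g h => by
        apply AlgHom.ext
        intro z
        exact DFunLike.congr_fun (hTmul g h) z }
  exact ⟨(AlgEquiv.algHomUnitsEquiv E K).toMonoidHom.comp T'.toHomUnits,
    fun g x => hTM g x, fun g x => hTχ g x⟩

end ext

end Pool.Agent.T9h3.R
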