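import Pool.Agent.T9h3.R.Gun

/-!
# Function fields, with local data at the places
-/

set_option autoImplicit false
set_option linter.unusedSectionVars false
set_option linter.overlappingInstances false
set_option linter.unusedVariables false

namespace Pool.Agent.T9h3.R

open Pool.Agent.R383.TM Pool.Agent.T9h3 Pool.Agent.T9h3.H
open Pool.Agent.T9h3.P Pool.Agent.T9h3.Q Pool.Agent.H918R2.Quad
open Polynomial hiding CC
open Pool.Agent.Y223.G hiding CC
open scoped IntermediateField IntermediateField.algebraAdjoinAdjoin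

section ff

variable {κ E M F K : Type} [Field κ] [Finite κ] [Field E] [Field M] [Algebra κ E]
  [Algebra E M] {t : E} [FiniteDimensional κ⟮t⟯ E] [Algebra.IsSeparable κ⟮t⟯ E]
  [FiniteDimensional E M] [IsGalois E M] [Field F] [Field K] [Algebra κ F]
  [Algebra E F] [IsScalarTower κ E F] [Algebra M K] [Algebra E K] [IsScalarTower E M K]
  [Algebra F K] [IsScalarTower E F K] {ρ : (M ≃ₐ[E] M) →* (K ≃ₐ[E] K)}

/-- **Varieties with presentations at all places, over function fields.** -/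
theorem ff_hasModuleW (ht : t ≠ 0)
    (hρ : ∀ g x, ρ g (algebraMap M K x) = algebraMap M K (g x))
    (fix : ∀ y, (∀ g, ρ g y = y) ↔ ∃ z : F, algebraMap F K z = y)
    (hin0 : HIN E M (integralClosure (Algebra.adjoin κ {t}) M))
    {D₀ : CHL E M K} (hgen : IntermediateField.adjoin M (Set.range D₀.χ) = ⊤)
    {c₀ : ℕ} {f₀ : Fin c₀ → AA (integralClosure (Algebra.adjoin κ {t}) M) D₀.Λ}
    (h0 : PRS E ρ 0 D₀.χ f₀)
    (h1 : ∀ V : ValuationSubring E, t ∉ V → LOCV F ρ V D₀) :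
    HasModule κ F := by
  classical
  have hKt : κ⟮t⁻¹⟯ = κ⟮t⟯ := by
    apply le_antisymm
    · rw [IntermediateField.adjoin_simple_le_iff]
      exact inv_mem (IntermediateField.mem_adjoin_simple_self κ t)
    · rw [IntermediateField.adjoin_simple_le_iff]
      have h2 := inv_mem (IntermediateField.mem_adjoin_simple_self κ t⁻¹)
      rwa [inv_inv] at h2
  have i1 : FiniteDimensional κ⟮t⁻¹⟯ E := by
    rw [hKt]
    infer_instance
  have i2 : Algebra.IsSeparable κ⟮t⁻¹⟯ E := by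
    rw [hKt]
    infer_instance
  have j1 := adjQ_ded (κ := κ) t
  have j2 := adjQ_ft (κ := κ) t
  have j3 := adjQ_ded (κ := κ) t⁻¹
  have j4 := adjQ_ft (κ := κ) t⁻¹
  have k1 := B_ded (Algebra.adjoin κ {t}) κ⟮t⟯ E
  have k2 := B_fin (Algebra.adjoin κ {t}) κ⟮t⟯ E
  have k3 := B_frac (Algebra.adjoin κ {t}) κ⟮t⟯ E
  have k4 := B_ded (Algebra.adjoin κ {t⁻¹}) κ⟮t⁻¹⟯ E
  have k5 := B_fin (Algebra.adjoin κ {t⁻¹}) κ⟮t⁻¹⟯ E
  have k6 := B_frac (Algebra.adjoin κ {t⁻¹}) κ⟮t⁻¹⟯ E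
  have k7 : Algebra.FiniteType ℤ (integralClosure (Algebra.adjoin κ {t⁻¹}) E) :=
    Algebra.FiniteType.trans (S := Algebra.adjoin κ {t⁻¹}) inferInstance inferInstance
  -- the element `t⁻¹`
  obtain ⟨b, hb⟩ : ∃ b : integralClosure (Algebra.adjoin κ {t⁻¹}) E, (b : E) = t⁻¹ := by
    refine ⟨⟨t⁻¹, ?_⟩, rfl⟩
    exact (isIntegral_algebraMap (R := Algebra.adjoin κ {t⁻¹}) (A := E)
      (x := ⟨t⁻¹, Algebra.self_mem_adjoin_singleton κ t⁻¹⟩))
  have hb0 : b ≠ 0 := by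
    intro h
    have h2 : (b : E) = 0 := by rw [h]; rfl
    rw [hb] at h2
    exact inv_ne_zero ht h2
  obtain ⟨B, hB⟩ := exists_primes hb0
  -- the local data
  have hloc : ∀ 𝔭 ∈ B, LOC F ρ 𝔭 D₀ := by
    intro 𝔭 h𝔭
    obtain ⟨hmax, hn𝔭⟩ := (hB 𝔭).1 h𝔭
    have h𝔭0 : 𝔭 ≠ ⊥ := by
      rintro rfl
      exact hb0 hn𝔭
    obtain ⟨V, hV⟩ := exists_VP (E := E) 𝔭 hmax h𝔭0
    have htV : t ∉ V := by
      have hbE : algebraMap (integralClosure (Algebra.adjoin κ {t⁻¹}) E) E b = t⁻¹ := hb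
      rcases (hV.iff _).1 hn𝔭 with h2 | h2
      · exfalso
        rw [hbE] at h2
        exact inv_ne_zero ht h2
      · rwa [hbE, inv_inv] at h2
    have k8 : IsScalarTower (integralClosure (Algebra.adjoin κ {t⁻¹}) E) E F := inferInstance
    exact h1 V htV _ 𝔭 hV (finite_quot 𝔭 hmax)
  obtain ⟨Θ₀, hΘ₀⟩ := exists_DFN f₀
  obtain ⟨Δ, S, fin, ne, st, hΔ, hSf, hS, hB'⟩ := common_of hρ fix h0.sml Θ₀ B hloc
  -- the lattices outside of the poles of `t`
  obtain ⟨n₀, hn₀, hG⟩ : GVK (integralClosure (Algebra.adjoin κ {t}) E) (Submodule.span E S) :=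
    gvk_bigp (Algebra.adjoin κ {t}) κ⟮t⟯ hρ hin0 hgen fix h0 hΘ₀ fin ne st hΔ hSf hS
  -- the lattices at the poles of `t`
  obtain ⟨n₁, hn₁, hG₁⟩ := assemble (k := integralClosure (Algebra.adjoin κ {t⁻¹}) E) B
    (fun 𝔭 h𝔭 => ((hB 𝔭).1 h𝔭).1) (W := Submodule.span E S) hB' (P := fun _ => True) (n₀ := 1)
    le_rfl (fun m hm => ⟨(Submodule.span _ S) ^ m, (Submodule.fg_span hSf).pow m, by
      rw [one_mul]
      exact (SPN.span S).pow m, trivial⟩)
  obtain ⟨N₀, hfg₀, hsp₀, hR₀, hQ₀, hne₀⟩ := hG n₁ hn₁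
  obtain ⟨N₁, -, hfg₁, hsp₁, -, -, hL, -⟩ := hG₁ n₀ hn₀
  rw [mul_comm] at hsp₁
  -- the towers
  have hc0 : CHT t (N₀.restrictScalars κ) (Submodule.span E S ^ (n₀ * n₁)) := by
    refine cht_of (A := Algebra.adjoin κ {t}) ?_ ?_ ?_ hfg₀ hsp₀
    · exact ⟨⟨t, Algebra.self_mem_adjoin_singleton κ t⟩, rfl⟩
    · intro a
      obtain ⟨P, hP⟩ := adjQ_poly t a
      refine ⟨P, ?_⟩
      change algebraMap E F (a : E) = _
      rw [hP, ← aeval_algebraMap_apply]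
    · intro a b hab
      apply Subtype.ext
      exact (algebraMap E F).injective hab
  have hc1 : CHT t⁻¹ (N₁.restrictScalars κ) (Submodule.span E S ^ (n₀ * n₁)) := by
    refine cht_of (A := Algebra.adjoin κ {t⁻¹}) ?_ ?_ ?_ hfg₁ hsp₁
    · exact ⟨⟨t⁻¹, Algebra.self_mem_adjoin_singleton κ t⁻¹⟩, rfl⟩
    · intro a
      obtain ⟨P, hP⟩ := adjQ_poly t⁻¹ a
      refine ⟨P, ?_⟩
      change algebraMap E F (a : E) = _
      rw [hP, ← aeval_algebraMap_apply]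
    · intro a b hab
      apply Subtype.ext
      exact (algebraMap E F).injective hab
  refine hasModule_of_GL1' (GL1_of ht hc0 hc1) hne₀ hR₀ hQ₀ ?_
  -- regularity at infinity
  intro g hg hg0 𝒪 hloc hle hU
  have hk : ∀ r : integralClosure (Algebra.adjoin κ {t⁻¹}) E,
      algebraMap (integralClosure (Algebra.adjoin κ {t⁻¹}) E) F r ∈ 𝒪 :=
    fun r => hle (k_mem_CC (N := N₁) hg hg0 r)
  have h2 : (primeOf hloc (algebraMap (integralClosure (Algebra.adjoin κ {t⁻¹}) E) F) hk).IsPrime :=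
    inferInstance
  obtain ⟨𝔭, hp, hle'⟩ := Ideal.exists_le_maximal _ h2.ne_top
  have hb𝔭 : b ∈ 𝔭 := by
    apply hle'
    change ¬ U 𝒪 (algebraMap E F (b : E))
    rw [hb, map_inv₀]
    exact hU
  obtain ⟨L, hL1, hL2, -⟩ := hL 𝔭 ((hB 𝔭).2 ⟨hp, hb𝔭⟩)
  refine local_chart hL1 hL2 (fun s hs => ?_) hg hg0 hle
  by_contra hUs
  exact hs (hle' hUs)

end ff

end Pool.Agent.T9h3.R
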