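import Pool.Agent.T9h3.H.Ord
import Pool.Agent.T9h3.AsmA

/-!
# Stable smooth lattice polytopes with given smooth projections
-/

set_option autoImplicit false
set_option linter.unusedSectionVars false

namespace Pool.Agent.T9h3.R

open Pool.Agent.T9h3 Pool.Agent.T9h3.H

section

variable {Λ Λ' : Type} [AddCommGroup Λ] [AddCommGroup Λ'] {Δ : Set Λ}

lemma MS_map (π : Λ →ₗ[ℤ] Λ') (k : ℕ) : π '' MS Δ k = MS (π '' Δ) k := by
  induction k with
  | zero =>
    change π '' {0} = {0}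
    rw [Set.image_singleton, map_zero]
  | succ k ih =>
    ext x
    constructor
    · rintro ⟨_, ⟨m, hm, m', hm', rfl⟩, rfl⟩
      refine ⟨π m, ?_, π m', ⟨m', hm', rfl⟩, map_add _ _ _⟩
      rw [← ih]
      exact ⟨m, hm, rfl⟩
    · rintro ⟨y, hy, _, ⟨m', hm', rfl⟩, rfl⟩
      rw [← ih] at hy
      obtain ⟨m, hm, rfl⟩ := hy
      exact ⟨m + m', ⟨m, hm, m', hm', rfl⟩, map_add _ _ _⟩

/-- **Rich multiples.** -/
theorem exists_richU (Θ : Set Λ) (hΔ : Δ.Finite) (hV : CVP (SVΦ Θ Δ) Δ) {G : Type} [Finite G]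
    (q : G → ℕ) (s : G → Module.End ℤ Λ) : ∃ n : ℕ, ∀ k, n ≤ k → ∀ g,
      CVP (SVR (q g) (s g) Θ (MS Δ (k + 1))) (MS Δ (k + 1)) := by
  classical
  have _ : Fintype G := Fintype.ofFinite G
  have h1 : ∀ v : Λ, ∃ k₀ : ℕ, SVΦ Θ Δ v → ∀ k, k₀ ≤ k → 1 ≤ k → ∀ g,
      SVR (q g) (s g) Θ (MS Δ k) (k • v) := by
    intro v
    by_cases hv : SVΦ Θ Δ v
    · obtain ⟨ι, _, b, hc, hb⟩ := hv
      choose k₀ hk₀ using fun g => MS_RD hc (q g) (s g)
      refine ⟨∑ g, k₀ g, fun _ k hk hk1 g => ⟨ι, inferInstance, b, MS_CD hc hk1, hk₀ g k ?_, hb⟩⟩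
      exact (Finset.single_le_sum (f := k₀) (fun _ _ => Nat.zero_le _) (Finset.mem_univ g)).trans hk
    · exact ⟨0, fun h => absurd h hv⟩
  choose k₀ hk₀ using h1
  obtain ⟨n, hn⟩ : ∃ n, n = ∑ v ∈ hΔ.toFinset, k₀ v := ⟨_, rfl⟩
  refine ⟨n, fun k hk g m hm => ?_⟩
  obtain ⟨T, h2, h3, h4⟩ := MS_CVP hV k m hm
  refine ⟨T.map fun v => (k + 1) • v, ?_, ?_, ?_⟩
  · rw [← Multiset.card_pos, Multiset.card_map]
    exact Multiset.card_pos.2 h2
  · intro w hw
    rw [Multiset.mem_map] at hw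
    obtain ⟨v, hv, rfl⟩ := hw
    refine hk₀ v (h3 v hv) _ ?_ (by omega) g
    obtain ⟨ι, _, b, hc, -⟩ := h3 v hv
    have h5 : k₀ v ≤ n := by
      rw [hn]
      exact Finset.single_le_sum (f := k₀) (fun _ _ => Nat.zero_le _)
        (hΔ.mem_toFinset.2 hc.vm)
    omega
  · rw [Multiset.card_map, h4]
    rw [Multiset.sum_map_nsmul, Multiset.map_id']

end

/-- **Stable smooth lattice polytopes with smooth projections.** -/
theorem exists_smoothF (G L : Type) [Group G] [Finite G] [AddCommGroup L] [DistribMulAction G L]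
    [Module.Free ℤ L] [Module.Finite ℤ L] {I : Type} [Finite I] (L' : I → Type)
    [∀ i, AddCommGroup (L' i)] [∀ i, Module.Free ℤ (L' i)] (q : ∀ i, L →ₗ[ℤ] L' i)
    (hq : ∀ i, Function.Surjective (q i)) (Θ : ∀ i, Finset (L' i)) :
    ∃ Δ : Set L, Δ.Finite ∧ Δ.Nonempty ∧ (∀ g : G, ∀ x ∈ Δ, g • x ∈ Δ) ∧
      ∀ i, CVP (SVΦ (Θ i) (q i '' Δ)) (q i '' Δ) := by
  classical
  have _ := Fintype.ofFinite G
  have _ := Fintype.ofFinite I
  let β := Module.Free.chooseBasis ℤ L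
  let J := Module.Free.ChooseBasisIndex ℤ L
  let X := XX G J
  let e : Option X → PX X := fun y => y.elim 0 fun x => bPX X x
  have hn : e none = 0 := rfl
  have hs : ∀ x, e (some x) = bPX X x := fun _ => rfl
  have hG : Good G e (Fin (Fintype.card X)) (PH e) := PH_good (bPX_smul (G := G)) hn hs
  have he : ∀ (g : G) y, e (g • y) = g • e y := by
    intro g y
    cases y with
    | none => rw [Option.smul_none, hn, smul_zero]
    | some x => rw [Option.smul_some, hs, hs, bPX_smul]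
  have hspan : Submodule.span ℤ (Set.range e) = ⊤ := by
    rw [← top_le_iff, ← (bPX X).span_eq, Submodule.span_le]
    rintro _ ⟨x, rfl⟩
    exact Submodule.subset_span ⟨some x, rfl⟩
  let π : PX X →ₗ[ℤ] L := (bPX X).constr ℤ fun x => x.1 • β x.2
  have hπb : ∀ x : X, π (bPX X x) = x.1 • β x.2 := fun x => (bPX X).constr_basis ℤ _ x
  have hπ : Function.Surjective π := by
    rw [← LinearMap.range_eq_top, ← top_le_iff, ← β.span_eq, Submodule.span_le]
    rintro _ ⟨j, rfl⟩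
    exact ⟨bPX X ((1 : G), j), (hπb ((1 : G), j)).trans (one_smul G _)⟩
  have hπG : ∀ (g : G) x, π (g • x) = g • π x := by
    intro g x
    have h1 : π ∘ₗ (DistribMulAction.toAddMonoidHom (PX X) g).toIntLinearMap =
        (DistribMulAction.toAddMonoidHom L g).toIntLinearMap ∘ₗ π := by
      refine (bPX X).ext fun x => ?_
      change π (g • bPX X x) = g • π (bPX X x)
      rw [← bPX_smul, hπb, hπb, smul_smul]
      rfl
    exact congrArg (fun f : PX X →ₗ[ℤ] L => f x) h1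
  have _ : Module.Finite ℤ (PX X) := Module.Finite.of_basis (bPX X)
  have _ : Module.Free ℤ (PX X) := Module.Free.of_basis (bPX X)
  have hN : IsNoetherian ℤ (PX X) := inferInstance
  have hΦ : ∀ i, ∃ Φ : Finset (PX X), Submodule.span ℤ (Φ : Set (PX X)) =
      LinearMap.ker (q i ∘ₗ π) := fun i => hN.noetherian (LinearMap.ker (q i ∘ₗ π))
  choose Φ hΦ using hΦ
  have hqπ : ∀ i, Function.Surjective (q i ∘ₗ π) := fun i => (hq i).comp hπ
  choose lf hlf using hqπ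
  obtain ⟨Δ, hΔ, hB⟩ := fix_all he hspan hG
    (Finset.univ.biUnion fun i => Φ i ∪ (Θ i).image (lf i))
  have htf : ∀ (L' : Type) [AddCommGroup L'] [Module.Free ℤ L'] (n : ℤ) (x : L'),
      n • x = 0 → n = 0 ∨ x = 0 := by
    intro L' _ _ n x h
    exact smul_eq_zero.1 h
  have htfn : ∀ (L' : Type) [AddCommGroup L'] [Module.Free ℤ L'] (n : ℕ) (x : L'),
      n • x = 0 → n = 0 ∨ x = 0 := by
    intro L' _ _ n x h
    rw [← natCast_zsmul] at h
    rcases htf L' _ x h with h | h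
    · exact Or.inl (by exact_mod_cast h)
    · exact Or.inr h
  refine ⟨π '' Δ, hΔ.fin.image _, ?_, ?_, ?_⟩
  · obtain ⟨S, -, hS⟩ := exists_TO (htfn (PX X)) ⊥ (fun x hx _ => hx)
    obtain ⟨v, b, h, -⟩ := hΔ.ni S hS
    exact ⟨_, v, h.vm, rfl⟩
  · rintro g _ ⟨x, hx, rfl⟩
    exact ⟨g • x, hΔ.st g x hx, hπG g x⟩
  · intro i
    have e1 : q i '' (π '' Δ) = (q i ∘ₗ π) '' Δ := by
      rw [Set.image_image]
      rfl
    rw [e1]
    refine cvP_of (htfn (L' i)) _ fun S' hS' => ?_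
    obtain ⟨ι', hι', v', b', h1, h2, h3⟩ := projP (htfn (PX X)) (htf (L' i)) (q i ∘ₗ π)
      (fun y => ⟨_, hlf i y⟩) hΔ (Φ i) (hΦ i)
      (fun A φ hφ => hB A φ (Finset.mem_biUnion.2 ⟨i, Finset.mem_univ i,
        Finset.mem_union_left _ hφ⟩)) ((Θ i).image (lf i))
      (fun A φ hφ => hB A φ (Finset.mem_biUnion.2 ⟨i, Finset.mem_univ i,
        Finset.mem_union_right _ hφ⟩)) S' hS'
    refine ⟨ι', hι', v', b', h1, h2, ι', hι', b', h1, fun φ hφ => ?_⟩
    rw [← hlf i φ]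
    exact h3 _ (Finset.mem_coe.2 (Finset.mem_image_of_mem (lf i) hφ))

/-- **The polytope.** -/
theorem exists_polyF (G L : Type) [Group G] [Finite G] [AddCommGroup L] [DistribMulAction G L]
    [Module.Free ℤ L] [Module.Finite ℤ L] {I : Type} [Finite I] (L' : I → Type)
    [∀ i, AddCommGroup (L' i)] [∀ i, Module.Free ℤ (L' i)] [∀ i, DistribMulAction G (L' i)]
    (q : ∀ i, L →ₗ[ℤ] L' i)
    (hq : ∀ i, Function.Surjective (q i)) (Θ : ∀ i, Finset (L' i)) :
    ∃ Δ : Set L, Δ.Finite ∧ Δ.Nonempty ∧ (∀ g : G, ∀ x ∈ Δ, g • x ∈ Δ) ∧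
      ∀ i, ∀ g : G, CVP (SVR (orderOf g) (sA (L' i) g) (Θ i : Set (L' i)) (q i '' Δ))
        (q i '' Δ) := by
  classical
  have _ := Fintype.ofFinite I
  obtain ⟨Δ, fin, ne, st, cv⟩ := exists_smoothF G L L' q hq Θ
  have h1 := fun i => exists_richU (Θ i : Set (L' i)) (fin.image (q i)) (cv i)
    (fun g : G => orderOf g) (fun g => sA (L' i) g)
  choose n hn using h1
  refine ⟨MS Δ (∑ i, n i + 1), MS_fin fin _, ?_, fun g => MS_st (s := sA L g) (st g) _,
    fun i g => ?_⟩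
  · obtain ⟨v, hv⟩ := ne
    exact ⟨_, MS_nsmul hv _⟩
  · rw [MS_map]
    exact hn i _ (Finset.single_le_sum (f := n) (fun _ _ => Nat.zero_le _) (Finset.mem_univ i)) g

end Pool.Agent.T9h3.R
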