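import Pool.Agent.T9h3.R.Prec
import Pool.Agent.T9h3.R.Poly

/-!
# Several tori with the same characters up to constants
-/

set_option autoImplicit false
set_option linter.unusedSectionVars false
set_option linter.overlappingInstances false
set_option linter.unusedVariables false

namespace Pool.Agent.T9h3.R

open Pool.Agent.Y223.G Pool.Agent.R383.TM Pool.Agent.T9h3 Pool.Agent.T9h3.H
open Pool.Agent.T9h3.P Pool.Agent.T9h3.Q

section desc

variable {E M F K : Type} [Field E] [Field M] [Field F] [Field K] [Algebra E M]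
  [FiniteDimensional E M] [Algebra M K] [Algebra E K] [IsScalarTower E M K]

/-- **Galois descent.** -/
theorem exists_descV (ρ : (M ≃ₐ[E] M) →* (K ≃ₐ[E] K))
    (hρ : ∀ g x, ρ g (algebraMap M K x) = algebraMap M K (g x))
    (ι : F → K) (hι : Function.Injective ι)
    (fix : ∀ y, (∀ g, ρ g y = y) ↔ ∃ z : F, ι z = y) (V : Submodule M K) (hVfg : V.FG)
    (st : ∀ g : M ≃ₐ[E] M, ∀ x ∈ V, ρ g x ∈ V) :
    ∃ S : Set F, S.Finite ∧ Submodule.span M (ι '' S) = V := by
  classical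
  have h1 : Submodule.span M (ι '' {w | ι w ∈ V}) = V := by
    apply le_antisymm
    · rw [Submodule.span_le]
      rintro _ ⟨w, hw, rfl⟩
      exact hw
    · intro x hx
      by_contra hcon
      obtain ⟨f, hf1, hf2⟩ := Submodule.exists_le_ker_of_notMem hcon
      apply hf1
      have h2 := aut_indep (E := E) (fun g => f (ρ g x)) (fun a => ?_) 1
      · rw [map_one] at h2
        exact h2
      · have h3 : ∃ w : F, ι w = ∑ g : M ≃ₐ[E] M, algebraMap M K (g a) * ρ g x := by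
          rw [← fix]
          intro g'
          rw [map_sum]
          simp only [map_mul, hρ]
          refine Fintype.sum_equiv (Equiv.mulLeft g') _ _ fun g => ?_
          rw [Equiv.coe_mulLeft, map_mul, AlgEquiv.mul_apply, AlgEquiv.mul_apply]
        obtain ⟨w, hw⟩ := h3
        have h4 : ι w ∈ V := by
          rw [hw]
          refine Submodule.sum_mem _ fun g _ => ?_
          rw [← Algebra.smul_def]
          exact Submodule.smul_mem _ _ (st g x hx)
        have h5 : f (ι w) = 0 := hf2 (Submodule.subset_span ⟨w, h4, rfl⟩)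
        rw [hw, map_sum] at h5
        rw [← h5]
        refine Finset.sum_congr rfl fun g _ => ?_
        rw [← Algebra.smul_def, map_smul, smul_eq_mul]
  obtain ⟨S', hS'⟩ := (Submodule.fg_span_iff_fg_span_finset_subset (R := M)
    (ι '' {w | ι w ∈ V})).1 (by rw [h1]; exact hVfg)
  obtain ⟨hS1, hS2⟩ := hS'
  rw [h1] at hS2
  have h2 : ι '' (ι ⁻¹' (S' : Set K)) = S' := by
    rw [Set.image_preimage_eq_iff]
    intro x hx
    obtain ⟨w, -, hw⟩ := hS1 hx
    exact ⟨w, hw⟩
  refine ⟨ι ⁻¹' (S' : Set K), S'.finite_toSet.preimage hι.injOn, ?_⟩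
  rw [h2, ← hS2]

end desc

/-- The lattices with characters. -/
structure CHL (E M K : Type) [Field E] [Field M] [Field K] [Algebra E M] : Type 1 where
  /-- the lattice -/
  Λ : Type
  i1 : AddCommGroup Λ
  i2 : Module.Free ℤ Λ
  i3 : Module.Finite ℤ Λ
  i4 : DistribMulAction (M ≃ₐ[E] M) Λ
  /-- the characters -/
  χ : Λ → K
  χ0 : χ 0 = 1
  χa : ∀ x y, χ (x + y) = χ x * χ y

attribute [instance] CHL.i1 CHL.i2 CHL.i3 CHL.i4

section fib

variable {E M F K : Type} [Field E] [Field M] [Field F] [Field K] [Algebra E M]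
  [FiniteDimensional E M] [Algebra M K] [Algebra E K] [IsScalarTower E M K] {I : Type}
  (D : I → CHL E M K)

/-- The fibre product. -/
def FP : Submodule ℤ (∀ i, (D i).Λ) where
  carrier := {x | ∀ i j, ∃ a : M, (D i).χ (x i) = algebraMap M K a * (D j).χ (x j)}
  add_mem' := by
    intro x y hx hy i j
    obtain ⟨a, ha⟩ := hx i j
    obtain ⟨b, hb⟩ := hy i j
    refine ⟨a * b, ?_⟩
    rw [Pi.add_apply, Pi.add_apply, (D i).χa, (D j).χa, ha, hb, map_mul]
    ring
  zero_mem' := by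
    intro i j
    refine ⟨1, ?_⟩
    rw [Pi.zero_apply, Pi.zero_apply, (D i).χ0, (D j).χ0, map_one, mul_one]
  smul_mem' := by
    intro n x hx i j
    obtain ⟨a, ha⟩ := hx i j
    refine ⟨a ^ n, ?_⟩
    rw [Pi.smul_apply, Pi.smul_apply, chi_zsmul (D i).χ0 (D i).χa, chi_zsmul (D j).χ0 (D j).χa, ha,
      mul_zpow, map_zpow₀]

lemma mem_FP {x : ∀ i, (D i).Λ} : x ∈ FP D ↔
    ∀ i j, ∃ a : M, (D i).χ (x i) = algebraMap M K a * (D j).χ (x j) := Iff.rfl

variable {D} {ρ : (M ≃ₐ[E] M) →* (K ≃ₐ[E] K)}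

lemma FP_smul (hρ : ∀ g x, ρ g (algebraMap M K x) = algebraMap M K (g x))
    (hs : ∀ i g x, ∃ u : M, ρ g ((D i).χ x) = algebraMap M K u * (D i).χ (g • x))
    (g : M ≃ₐ[E] M) {x : ∀ i, (D i).Λ} (hx : x ∈ FP D) : (fun i => g • x i) ∈ FP D := by
  intro i j
  obtain ⟨a, ha⟩ := hx i j
  obtain ⟨u, hu⟩ := hs i g (x i)
  obtain ⟨v, hv⟩ := hs j g (x j)
  have hu0 : u ≠ 0 := by
    rintro rfl
    rw [map_zero, zero_mul, map_eq_zero] at hu
    exact chi_ne (D i).χ0 (D i).χa _ hu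
  refine ⟨u⁻¹ * g a * v, ?_⟩
  have h1 : algebraMap M K u * (D i).χ (g • x i) =
      algebraMap M K (g a) * (algebraMap M K v * (D j).χ (g • x j)) := by
    rw [← hu, ← hv, ha, map_mul, hρ]
  have hu1 : algebraMap M K u ≠ 0 := by rwa [Ne, map_eq_zero]
  rw [map_mul, map_mul, map_inv₀]
  field_simp
  rw [mul_comm, h1]
  ring

/-- The action on the fibre product. -/
@[reducible] def FPact (hρ : ∀ g x, ρ g (algebraMap M K x) = algebraMap M K (g x))
    (hs : ∀ i g x, ∃ u : M, ρ g ((D i).χ x) = algebraMap M K u * (D i).χ (g • x)) :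
    DistribMulAction (M ≃ₐ[E] M) (FP D) where
  smul := fun g x => ⟨fun i => g • x.1 i, FP_smul hρ hs g x.2⟩
  one_smul := fun x => Subtype.ext (funext fun i => one_smul _ (x.1 i))
  mul_smul := fun g h x => Subtype.ext (funext fun i => mul_smul g h (x.1 i))
  smul_zero := fun g => Subtype.ext (funext fun i => smul_zero g)
  smul_add := fun g x y => Subtype.ext (funext fun i => smul_add g (x.1 i) (y.1 i))

/-- The projection. -/
def FPq (D : I → CHL E M K) (i : I) : FP D →ₗ[ℤ] (D i).Λ :=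
  (LinearMap.proj i : (∀ i, (D i).Λ) →ₗ[ℤ] (D i).Λ) ∘ₗ (FP D).subtype

/-- **Compatible polytopes for several tori.** -/
theorem exists_common [Finite I] [IsGalois E M]
    (hρ : ∀ g x, ρ g (algebraMap M K x) = algebraMap M K (g x))
    (hs : ∀ i g x, ∃ u : M, ρ g ((D i).χ x) = algebraMap M K u * (D i).χ (g • x))
    (hR : ∀ i j x, ∃ y, ∃ a : M, (D i).χ x = algebraMap M K a * (D j).χ y)
    (Θ : ∀ i, Finset (D i).Λ) :
    ∃ Δ : ∀ i, Set (D i).Λ, (∀ i, (Δ i).Finite ∧ (Δ i).Nonempty ∧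
      (∀ g : M ≃ₐ[E] M, ∀ x ∈ Δ i, g • x ∈ Δ i) ∧
      ∀ g : M ≃ₐ[E] M, CVP (SVR (orderOf g) (sA (D i).Λ g) (Θ i : Set (D i).Λ) (Δ i)) (Δ i)) ∧
      ∀ i j, Submodule.span M ((D i).χ '' Δ i) = Submodule.span M ((D j).χ '' Δ j) := by
  classical
  have _ := Fintype.ofFinite I
  have hfin : Finite (M ≃ₐ[E] M) := inferInstance
  let _ := FPact hρ hs
  have i1 : Module.Finite ℤ (FP D) := inferInstance
  have i2 : Module.Free ℤ (FP D) := inferInstance
  have hq : ∀ i, Function.Surjective (FPq D i) := by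
    intro i x
    have h1 : ∀ j, ∃ y : (D j).Λ, ∃ a : M, (D i).χ x = algebraMap M K a * (D j).χ y :=
      fun j => hR i j x
    choose y a hy using h1
    have ha0 : ∀ j, algebraMap M K (a j) ≠ 0 := by
      intro j h
      have h2 := hy j
      rw [h, zero_mul] at h2
      exact chi_ne (D i).χ0 (D i).χa _ h2
    obtain ⟨y', hy'⟩ : ∃ y' : ∀ j, (D j).Λ, y' i = x ∧ ∀ j, ∃ a : M, algebraMap M K a ≠ 0 ∧
        (D i).χ x = algebraMap M K a * (D j).χ (y' j) := by
      refine ⟨Function.update y i x, Function.update_self _ _ _, fun j => ?_⟩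
      by_cases h : j = i
      · subst h
        rw [Function.update_self]
        exact ⟨1, by rw [map_one]; exact one_ne_zero, by rw [map_one, one_mul]⟩
      · rw [Function.update_of_ne h]
        exact ⟨a j, ha0 j, hy j⟩
    refine ⟨⟨y', fun j l => ?_⟩, hy'.1⟩
    obtain ⟨b, hb0, hb⟩ := hy'.2 j
    obtain ⟨c, hc0, hc⟩ := hy'.2 l
    refine ⟨b⁻¹ * c, ?_⟩
    rw [hb] at hc
    rw [map_mul, map_inv₀, mul_assoc, ← hc, inv_mul_cancel_left₀ hb0]
  obtain ⟨Δ, fin, ne, st, cv⟩ := exists_polyF (M ≃ₐ[E] M) (FP D) (fun i => (D i).Λ) (FPq D) hq Θ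
  refine ⟨fun i => FPq D i '' Δ, fun i => ⟨fin.image _, ne.image _, ?_, cv i⟩, ?_⟩
  · rintro g _ ⟨x, hx, rfl⟩
    exact ⟨g • x, st g x hx, rfl⟩
  · have key : ∀ i j, Submodule.span M ((D i).χ '' (FPq D i '' Δ)) ≤
        Submodule.span M ((D j).χ '' (FPq D j '' Δ)) := by
      intro i j
      rw [Submodule.span_le]
      rintro _ ⟨_, ⟨x, hx, rfl⟩, rfl⟩
      obtain ⟨a, ha⟩ := x.2 i j
      change (D i).χ (x.1 i) ∈ _
      rw [ha, ← Algebra.smul_def]
      exact Submodule.smul_mem _ _ (Submodule.subset_span ⟨_, ⟨x, hx, rfl⟩, rfl⟩)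
    exact fun i j => le_antisymm (key i j) (key j i)

/-- **Descent for compatible polytopes.** -/
theorem exists_descC (hρ : ∀ g x, ρ g (algebraMap M K x) = algebraMap M K (g x))
    (ι : F → K) (hι : Function.Injective ι)
    (fix : ∀ y, (∀ g, ρ g y = y) ↔ ∃ z : F, ι z = y) {D₀ : CHL E M K}
    (hs : ∀ g x, ∃ u : M, ρ g (D₀.χ x) = algebraMap M K u * D₀.χ (g • x))
    {Δ : Set D₀.Λ} (fin : Δ.Finite) (st : ∀ g : M ≃ₐ[E] M, ∀ x ∈ Δ, g • x ∈ Δ) :
    ∃ S : Set F, S.Finite ∧ Submodule.span M (ι '' S) = Submodule.span M (D₀.χ '' Δ) := by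
  refine exists_descV ρ hρ ι hι fix _ (Submodule.fg_span (fin.image _)) ?_
  intro g x hx
  induction hx using Submodule.span_induction with
  | mem x hx =>
    obtain ⟨y, hy, rfl⟩ := hx
    obtain ⟨u, hu⟩ := hs g y
    rw [hu, ← Algebra.smul_def]
    exact Submodule.smul_mem _ _ (Submodule.subset_span ⟨_, st g y hy, rfl⟩)
  | zero => rw [map_zero]; exact Submodule.zero_mem _
  | add x y _ _ hx hy => rw [map_add]; exact Submodule.add_mem _ hx hy
  | smul c x _ hx =>
    rw [Algebra.smul_def, map_mul, hρ, ← Algebra.smul_def]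
    exact Submodule.smul_mem _ _ hx

end fib

end Pool.Agent.T9h3.R
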