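import Pool.Agent.T9h3.P.Asm

/-!
# Perturbation of the action
-/

set_option autoImplicit false
set_option linter.unusedSectionVars false
set_option linter.overlappingInstances false

namespace Pool.Agent.T9h3.R

open Pool.Agent.Y223.G Pool.Agent.R383.TM Pool.Agent.T9h3 Pool.Agent.T9h3.H Pool.Agent.T9h3.P

section

variable {k O K : Type} [CommRing k] [CommRing O] [Field K] [Algebra O K] [Algebra k K]
  {𝔓 𝔞 : Ideal O} {e : ℕ} {m : ℕ} {W : Fin (m + 1) → ℕ} {z : Fin (m + 1) → K}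
  {j : Fin (m + 1)}

/-- The linear forms with coefficients in the ideal. -/
def ERR (𝔞 : Ideal O) (z : Fin (m + 1) → K) : Submodule O K :=
  Submodule.span O {y | ∃ a ∈ 𝔞, ∃ i, y = algebraMap O K a * z i}

lemma WR_epow (n : ℕ) {a : O} (ha : a ∈ 𝔓 ^ n) :
    hm ((e * n : ℕ) : ℤ) (algebraMap O K a) ∈ WR k 𝔓 e W z j := by
  induction n generalizing a with
  | zero => rw [mul_zero]; exact WR_o a
  | succ n ih =>
    rw [pow_succ] at ha
    refine Submodule.mul_induction_on ha (fun x hx y hy => ?_) (fun x y hx hy => ?_)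
    · have h1 := Subalgebra.mul_mem _ (ih hx) (WR_e (k := k) (K := K) (W := W) (z := z) (j := j)
        (e := e) hy)
      rw [hm_mul, ← map_mul] at h1
      have e1 : ((e * n : ℕ) : ℤ) + e = ((e * (n + 1) : ℕ) : ℤ) := by push_cast; ring
      rwa [e1] at h1
    · rw [map_add, hm_add]
      exact Subalgebra.add_mem _ hx hy

lemma ERR_mem {N : ℕ} (h𝔞 : 𝔞 ≤ 𝔓 ^ N) {n : ℤ} (hn : n ≤ ((e * N : ℕ) : ℤ)) {y : K}
    (hy : y ∈ ERR 𝔞 z) : hm n (y / z j) ∈ WR k 𝔓 e W z j := by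
  unfold ERR at hy
  induction hy using Submodule.span_induction with
  | mem x hx =>
    obtain ⟨a, ha, i, rfl⟩ := hx
    have h1 := Subalgebra.mul_mem _ (WR_epow (k := k) (K := K) (W := W) (z := z) (j := j)
      (e := e) N (h𝔞 ha)) (WR_z (k := k) (𝔓 := 𝔓) (e := e) (W := W) (z := z) (j := j) i)
    rw [hm_mul, ← mul_div_assoc] at h1
    refine low_mem WR_s h1 ?_
    have : (0 : ℤ) ≤ (W i : ℤ) := by positivity
    linarith
  | zero => rw [zero_div, hm_zero]; exact Subalgebra.zero_mem _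
  | add x y _ _ hx hy => rw [add_div, hm_add]; exact Subalgebra.add_mem _ hx hy
  | smul r x _ hx =>
    have e1 : hm n (r • x / z j) = hm 0 (algebraMap O K r) * hm n (x / z j) := by
      rw [hm_mul, Algebra.smul_def, mul_div_assoc, zero_add]
    rw [e1]
    exact Subalgebra.mul_mem _ (WR_o r) hx

/-- The errors are in the ideal which is generated by the prime. -/
lemma ERR_im {N : ℕ} (h𝔞 : 𝔞 ≤ 𝔓 ^ (N + 1)) {J : Ideal (WR k 𝔓 e W z j)}
    (hJ : ∀ x : WR k 𝔓 e W z j, (∃ a ∈ 𝔓, (x : LP K) = hm 0 (algebraMap O K a)) → x ∈ J)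
    (i : Fin (m + 1)) {n : ℤ} (hn : n ≤ ((e * N : ℕ) : ℤ) + W i) {y : K}
    (hy : y ∈ ERR 𝔞 z) : ∃ h : hm n (z i * y / z j ^ 2) ∈ WR k 𝔓 e W z j,
      (⟨_, h⟩ : WR k 𝔓 e W z j) ∈ J := by
  unfold ERR at hy
  induction hy using Submodule.span_induction with
  | mem x hx =>
    obtain ⟨a, ha, i', rfl⟩ := hx
    have ha' := h𝔞 ha
    rw [pow_succ'] at ha'
    refine Submodule.mul_induction_on ha' (fun b hb c hc => ?_) (fun x y hx hy => ?_)
    · have h1 := Subalgebra.mul_mem _ (Subalgebra.mul_mem _ (WR_epow (k := k) (K := K) (W := W)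
        (z := z) (j := j) (e := e) N hc) (WR_z (k := k) (𝔓 := 𝔓) (e := e) (W := W) (z := z)
        (j := j) i)) (WR_z (k := k) (𝔓 := 𝔓) (e := e) (W := W) (z := z) (j := j) i')
      rw [hm_mul, hm_mul] at h1
      have h2 : hm n (algebraMap O K c * (z i / z j) * (z i' / z j)) ∈ WR k 𝔓 e W z j := by
        refine low_mem WR_s h1 ?_
        have : (0 : ℤ) ≤ (W i' : ℤ) := by positivity
        linarith
      have h3 : (hm n (z i * (algebraMap O K (b * c) * z i') / z j ^ 2) : LP K) =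
          hm 0 (algebraMap O K b) * hm n (algebraMap O K c * (z i / z j) * (z i' / z j)) := by
        rw [hm_mul, zero_add, map_mul]
        congr 1
        ring
      have h4 : hm n (z i * (algebraMap O K (b * c) * z i') / z j ^ 2) ∈ WR k 𝔓 e W z j := by
        rw [h3]
        exact Subalgebra.mul_mem _ (WR_o b) h2
      refine ⟨h4, ?_⟩
      have h5 : (⟨_, h4⟩ : WR k 𝔓 e W z j) = ⟨_, WR_o b⟩ * ⟨_, h2⟩ := Subtype.ext h3
      rw [h5]
      exact J.mul_mem_right _ (hJ _ ⟨b, hb, rfl⟩)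
    · obtain ⟨h1, h2⟩ := hx
      obtain ⟨h3, h4⟩ := hy
      have h5 : (hm n (z i * (algebraMap O K (x + y) * z i') / z j ^ 2) : LP K) =
          hm n (z i * (algebraMap O K x * z i') / z j ^ 2) +
            hm n (z i * (algebraMap O K y * z i') / z j ^ 2) := by
        rw [← hm_add, map_add]
        congr 1
        ring
      refine ⟨by rw [h5]; exact Subalgebra.add_mem _ h1 h3, ?_⟩
      have h6 := J.add_mem h2 h4
      convert h6 using 1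
      exact Subtype.ext h5
  | zero =>
    have h1 : (hm n (z i * 0 / z j ^ 2) : LP K) = 0 := by rw [mul_zero, zero_div, hm_zero]
    refine ⟨by rw [h1]; exact Subalgebra.zero_mem _, ?_⟩
    have h2 : (⟨hm n (z i * 0 / z j ^ 2), by rw [h1]; exact Subalgebra.zero_mem _⟩ :
      WR k 𝔓 e W z j) = 0 := Subtype.ext h1
    rw [h2]
    exact J.zero_mem
  | add x y _ _ hx hy =>
    obtain ⟨h1, h2⟩ := hx
    obtain ⟨h3, h4⟩ := hy
    have h5 : (hm n (z i * (x + y) / z j ^ 2) : LP K) =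
        hm n (z i * x / z j ^ 2) + hm n (z i * y / z j ^ 2) := by
      rw [← hm_add]
      congr 1
      ring
    refine ⟨by rw [h5]; exact Subalgebra.add_mem _ h1 h3, ?_⟩
    have h6 := J.add_mem h2 h4
    convert h6 using 1
    exact Subtype.ext h5
  | smul r x _ hx =>
    obtain ⟨h1, h2⟩ := hx
    have h3 : (hm n (z i * (r • x) / z j ^ 2) : LP K) =
        hm 0 (algebraMap O K r) * hm n (z i * x / z j ^ 2) := by
      rw [hm_mul, Algebra.smul_def, zero_add]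
      congr 1
      ring
    refine ⟨by rw [h3]; exact Subalgebra.mul_mem _ (WR_o r) h1, ?_⟩
    have h6 := J.mul_mem_left ⟨_, WR_o r⟩ h2
    convert h6 using 1
    exact Subtype.ext h3

end

section

variable {k O K G : Type} [CommRing k] [IsDomain k] [CommRing O] [IsDomain O] [IsDedekindDomain O] [Field K]
  [Group G] [Algebra k O] [Algebra O K] [Algebra k K] {ρ ρ₀ : G →* (K ≃ₐ[k] K)}
  {T : G →* (O ≃ₐ[k] O)} {m : ℕ} {z : Fin (m + 1) → K} {e : Ideal O → ℕ}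
  {W : Ideal O → Fin (m + 1) → ℕ}

/-- **Perturbation of the action.** -/
theorem WD_pert (h : R383.TM.WD k O K G ρ₀ T z e W) {𝔞 : Ideal O} {N : ℕ}
    (h𝔞 : ∀ 𝔓 : Ideal O, 𝔓.IsMaximal → 𝔞 ≤ 𝔓 ^ (N + 1))
    (hb : ∀ 𝔓 : Ideal O, 𝔓.IsMaximal → ∀ g, g ≠ 1 → Wild T g 𝔓 → ∀ l : ℕ,
      (∀ o, T g o - o ∈ 𝔓 ^ (l + 1)) → ∀ i, W 𝔓 i + e 𝔓 * l ≤ e 𝔓 * N)
    (herr : ∀ g j, ρ g (z j) - ρ₀ g (z j) ∈ ERR 𝔞 z) : R383.TM.WD k O K G ρ T z e W := by
  have hb0 : ∀ 𝔓 : Ideal O, 𝔓.IsMaximal → (∃ g, g ≠ 1 ∧ Wild T g 𝔓) →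
      ∀ i, W 𝔓 i ≤ e 𝔓 * (N + 1) := by
    rintro 𝔓 h𝔓 ⟨g, hg1, hg⟩ i
    have h1 := hb 𝔓 h𝔓 g hg1 hg 0 (fun o => by rw [zero_add, pow_one]; exact hg.1 o) i
    rw [mul_zero, add_zero] at h1
    exact h1.trans (Nat.mul_le_mul_left _ (Nat.le_succ N))
  refine ⟨h.e0, h.rg, ?_, ?_⟩
  · intro 𝔓 h𝔓 hw g 𝔓' hh
    obtain ⟨he, h1⟩ := h.eq 𝔓 h𝔓 hw g 𝔓' hh
    refine ⟨he, fun i j => ?_⟩
    have e1 : ρ g (z i) / z j = ρ₀ g (z i) / z j + (ρ g (z i) - ρ₀ g (z i)) / z j := by ring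
    rw [e1, hm_add]
    refine Subalgebra.add_mem _ (h1 i j) (ERR_mem (h𝔞 𝔓' (cjN_max hh h𝔓)) ?_ (herr g i))
    rw [he]
    exact_mod_cast hb0 𝔓 h𝔓 hw i
  · intro 𝔓 h𝔓 g hg1 hg
    obtain ⟨l, D, hD0, hDl, hdv, hlin, hfix⟩ := h.dl 𝔓 h𝔓 g hg1 hg
    have hbl := hb 𝔓 h𝔓 g hg1 hg l hdv
    have hlin' : ∀ i j, hm ((W 𝔓 i : ℤ) + D) ((ρ g (z i) - z i) / z j) ∈
        WR k 𝔓 (e 𝔓) (W 𝔓) z j := by
      intro i j
      have e1 : (ρ g (z i) - z i) / z j = (ρ₀ g (z i) - z i) / z j +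
          (ρ g (z i) - ρ₀ g (z i)) / z j := by ring
      rw [e1, hm_add]
      refine Subalgebra.add_mem _ (hlin i j) (ERR_mem (h𝔞 𝔓 h𝔓) ?_ (herr g i))
      have h1 : W 𝔓 i + D ≤ e 𝔓 * (N + 1) := by
        have h2 := hbl i
        have h3 : e 𝔓 * N ≤ e 𝔓 * (N + 1) := Nat.mul_le_mul_left _ (Nat.le_succ N)
        omega
      exact_mod_cast h1
    refine ⟨l, D, hD0, hDl, hdv, hlin', fun j x hx => ?_⟩
    have h1 := hfix j x hx
    refine Ideal.radical_mono ?_ h1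
    unfold FIX
    rw [Ideal.span_le]
    have hJ : ∀ x : WR k 𝔓 (e 𝔓) (W 𝔓) z j, (∃ a ∈ 𝔓, (x : LP K) = hm 0 (algebraMap O K a)) →
        x ∈ FIX k 𝔓 (e 𝔓) D (W 𝔓) z (ρ g) (T g) j := fun x hx =>
      Ideal.subset_span (Or.inl hx)
    rintro x (hx | hx | ⟨i, i', hx⟩)
    · exact Ideal.subset_span (Or.inl hx)
    · exact Ideal.subset_span (Or.inr (Or.inl hx))
    · have b1 : ∀ i i' : Fin (m + 1), (W 𝔓 i : ℤ) + W 𝔓 i' + D ≤
          ((e 𝔓 * N : ℕ) : ℤ) + W 𝔓 i := by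
        intro i i'
        have h2 := hbl i'
        have h3 : W 𝔓 i' + D ≤ e 𝔓 * N := by omega
        have h4 : (W 𝔓 i' : ℤ) + D ≤ ((e 𝔓 * N : ℕ) : ℤ) := by exact_mod_cast h3
        linarith
      obtain ⟨h2, h3⟩ := ERR_im (k := k) (h𝔞 𝔓 h𝔓) hJ i (b1 i i') (herr g i')
      obtain ⟨h4, h5⟩ := ERR_im (k := k) (h𝔞 𝔓 h𝔓) hJ i' (b1 i' i) (herr g i)
      have h4' : hm ((W 𝔓 i : ℤ) + W 𝔓 i' + D) (z i' * (ρ g (z i) - ρ₀ g (z i)) / z j ^ 2) ∈
          WR k 𝔓 (e 𝔓) (W 𝔓) z j := by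
        rw [add_comm (W 𝔓 i : ℤ)]
        exact h4
      have h5' : (⟨_, h4'⟩ : WR k 𝔓 (e 𝔓) (W 𝔓) z j) ∈
          FIX k 𝔓 (e 𝔓) D (W 𝔓) z (ρ g) (T g) j := by
        convert h5 using 4
        ring
      have g1 := Subalgebra.mul_mem _ (WR_z (k := k) (𝔓 := 𝔓) (e := e 𝔓) (W := W 𝔓) (z := z)
        (j := j) i) (hlin' i' j)
      have g2 := Subalgebra.mul_mem _ (WR_z (k := k) (𝔓 := 𝔓) (e := e 𝔓) (W := W 𝔓) (z := z)
        (j := j) i') (hlin' i j)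
      rw [hm_mul] at g1 g2
      have e1 : (W 𝔓 i' : ℤ) + ((W 𝔓 i : ℤ) + D) = (W 𝔓 i : ℤ) + ((W 𝔓 i' : ℤ) + D) := by ring
      rw [e1] at g2
      have g3 := Subalgebra.sub_mem _ g1 g2
      rw [← hm_sub] at g3
      have e2 : z i / z j * ((ρ g (z i') - z i') / z j) - z i' / z j * ((ρ g (z i) - z i) / z j) =
          (z i * ρ g (z i') - z i' * ρ g (z i)) / z j ^ 2 := by ring
      rw [e2, ← add_assoc] at g3
      have g4 : (⟨_, g3⟩ : WR k 𝔓 (e 𝔓) (W 𝔓) z j) ∈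
          FIX k 𝔓 (e 𝔓) D (W 𝔓) z (ρ g) (T g) j :=
        Ideal.subset_span (Or.inr (Or.inr ⟨i, i', rfl⟩))
      have e3 : x = ⟨_, g3⟩ - (⟨_, h2⟩ - ⟨_, h4'⟩) := by
        apply Subtype.ext
        rw [hx]
        change _ = hm _ _ - (hm _ _ - hm _ _)
        rw [← hm_sub, ← hm_sub]
        congr 1
        ring
      rw [SetLike.mem_coe, e3]
      exact Ideal.sub_mem _ g4 (Ideal.sub_mem _ h3 h5')

end

end Pool.Agent.T9h3.R
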