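import Pool.Agent.T9h3.R.Nrm
import Pool.Agent.T9h3.R.Pert
import Pool.Agent.T9h3.R.Asw

/-!
# The filtrations and the actions up to units
-/

set_option autoImplicit false
set_option linter.unusedSectionVars false
set_option linter.overlappingInstances false
set_option linter.unusedVariables false

namespace Pool.Agent.T9h3.R

open Pool.Agent.Y223.G Pool.Agent.R383.TM Pool.Agent.T9h3 Pool.Agent.T9h3.H Pool.Agent.T9h3.P

section fl

variable {O K : Type} [CommRing O] [Field K] [Algebra O K] {𝔓 : Ideal O} {l : ℕ}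
  {V : ℕ → Submodule ℤ K}

/-- The filtration. -/
def FL (𝔓 : Ideal O) (l : ℕ) (V : ℕ → Submodule ℤ K) (n B : ℕ) : Submodule ℤ K :=
  Submodule.span ℤ {y | ∃ a b : ℕ, ∃ o ∈ 𝔓 ^ a, ∃ w ∈ V b, b ≤ B ∧ n ≤ a + b * l ∧
    y = algebraMap O K o * w}

lemma FL_mem {n B a b : ℕ} {o : O} (ho : o ∈ 𝔓 ^ a) {w : K} (hw : w ∈ V b) (hb : b ≤ B)
    (hn : n ≤ a + b * l) : algebraMap O K o * w ∈ FL 𝔓 l V n B :=
  Submodule.subset_span ⟨a, b, o, ho, w, hw, hb, hn, rfl⟩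

lemma FL_mono {n n' B B' : ℕ} (hn : n' ≤ n) (hB : B ≤ B') : FL 𝔓 l V n B ≤ FL 𝔓 l V n' B' := by
  refine Submodule.span_mono ?_
  rintro y ⟨a, b, o, ho, w, hw, hb, hn', rfl⟩
  exact ⟨a, b, o, ho, w, hw, hb.trans hB, hn.trans hn', rfl⟩

lemma FL_map {n B : ℕ} {N : Submodule ℤ K} (f : Module.End ℤ K)
    (h : ∀ a b : ℕ, ∀ o ∈ 𝔓 ^ a, ∀ w ∈ V b, b ≤ B → n ≤ a + b * l → f (algebraMap O K o * w) ∈ N)
    {y : K} (hy : y ∈ FL 𝔓 l V n B) : f y ∈ N := by
  have h1 : FL 𝔓 l V n B ≤ N.comap f := by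
    refine Submodule.span_le.2 ?_
    rintro y ⟨a, b, o, ho, w, hw, hb, hn, rfl⟩
    exact h a b o ho w hw hb hn
  exact h1 hy

lemma FL_smul {n B a : ℕ} {o : O} (ho : o ∈ 𝔓 ^ a) {y : K} (hy : y ∈ FL 𝔓 l V n B) :
    algebraMap O K o * y ∈ FL 𝔓 l V (n + a) B := by
  refine FL_map (N := FL 𝔓 l V (n + a) B) (LinearMap.mulLeft ℤ (algebraMap O K o)) ?_ hy
  intro a' b o' ho' w hw hb hn
  rw [LinearMap.mulLeft_apply, ← mul_assoc, ← map_mul]
  have h1 := Ideal.mul_mem_mul ho ho'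
  rw [← pow_add] at h1
  exact FL_mem h1 hw hb (by omega)

end fl

section

variable {k O K G Λ : Type} [CommRing k] [IsDomain k] [CommRing O] [IsDomain O]
  [IsDedekindDomain O] [Field K] [Group G] [Algebra k O] [Algebra O K] [Algebra k K]
  [IsScalarTower k O K] [AddCommGroup Λ] [DistribMulAction G Λ]

variable {ρ ρ₀ : G →* (K ≃ₐ[k] K)} {T : G →* (O ≃ₐ[k] O)} {χ : Λ → K} {Δ : Set Λ}

/-- The action is, up to units, the action on the characters, and the wild inertia acts on the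
characters, up to constants which are close to one. -/
structure PTB (ρ : G →* (K ≃ₐ[k] K)) (T : G →* (O ≃ₐ[k] O)) (χ : Λ → K) : Prop where
  un : ∀ g x, ∃ u : O, ρ g (χ x) = algebraMap O K u * χ (g • x)
  er : ∀ (𝔓 : Ideal O) (g : G), 𝔓.IsMaximal → IW T 𝔓 g → ∀ l : ℕ, DVN T 𝔓 g (l + 1) → ∀ x,
    ∃ e ∈ 𝔓 ^ (orderOf g * l), ρ g (χ x) = algebraMap O K (1 + e) * χ (g • x)

variable [Finite G] (S : TSW k O K G Λ ρ₀ T χ Δ) (hG : GN k O K G ρ T) (hP : PTB ρ T χ)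

lemma iter_act (g : G) (a : ℕ) (x : Λ) : ((g • · : Λ → Λ)^[a]) x = (g ^ a) • x := by
  induction a with
  | zero => rw [pow_zero, one_smul]; rfl
  | succ a ih => rw [Function.iterate_succ', Function.comp_apply, ih, pow_succ', mul_smul]

lemma Nm_act (p : ℕ) (g : G) (x : Λ) : Nm p (sA Λ g) x = ∑ a ∈ Finset.range p, (g ^ a) • x := by
  unfold Nm
  rw [LinearMap.sum_apply]
  refine Finset.sum_congr rfl fun a _ => ?_
  rw [← sA_pow]
  rfl

include S hG hP in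
/-- **The units.** -/
theorem unit_diff {h g : G} {𝔓 𝔓' : Ideal O} {l : ℕ} (h𝔓 : 𝔓.IsMaximal)
    (hh : ∀ o, o ∈ 𝔓 ↔ T h o ∈ 𝔓') (hg : IW T 𝔓 g) (hd : DVN T 𝔓 g (l + 1))
    (hpl : ((orderOf g : ℕ) : O) ∈ 𝔓' ^ ((orderOf g - 1) * l)) (hp : (orderOf g).Prime)
    {x x' : Λ} (hx : Nm (orderOf g) (sA Λ g) x = Nm (orderOf g) (sA Λ g) x') {u u' : O}
    (hu : ρ h (χ x) = algebraMap O K u * χ (h • x))
    (hu' : ρ h (χ x') = algebraMap O K u' * χ (h • x')) : u - u' ∈ 𝔓' ^ l := by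
  classical
  have h𝔓' := cjN_max hh h𝔓
  have hg' := IW_conj hh hg
  have hd' : DVN T 𝔓' (h * g * h⁻¹) (l + 1) := DVN_conj hh hd
  have ho : orderOf (h * g * h⁻¹) = orderOf g := by
    have := (MulAut.conj h).orderOf_eq g
    rw [MulAut.conj_apply] at this
    exact this
  have hne : 𝔓' ≠ ⊥ := IW_ne S.toGN hg'
  have cne : ∀ x, χ x ≠ 0 := fun x => chi_ne S.χ0 S.χa x
  choose c hc using fun x => hP.un h x
  have inj : ∀ {a b : O} {x : Λ}, algebraMap O K a * χ x = algebraMap O K b * χ x → a = b :=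
    fun {a b x} h1 => S.inj (mul_right_cancel₀ (cne x) h1)
  have hcu : ∀ {x : Λ} {u : O}, ρ h (χ x) = algebraMap O K u * χ (h • x) → u = c x := by
    intro x u h1
    exact inj (h1.symm.trans (hc x))
  have ca : ∀ x y, c (x + y) = c x * c y := by
    intro x y
    symm
    apply hcu
    rw [S.χa, map_mul, hc, hc, smul_add, S.χa, map_mul]
    ring
  have c0 : c 0 = 1 := by
    symm
    apply hcu
    rw [S.χ0, map_one, map_one, smul_zero, S.χ0, one_mul]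
  obtain ⟨t, ht⟩ : ∃ t : O →+* O, t = tg T (h * g * h⁻¹) := ⟨_, rfl⟩
  have htd : ∀ o, t o - o ∈ 𝔓' ^ (l + 1) := by rw [ht]; exact hd'
  obtain ⟨p, hpd⟩ : ∃ p, p = orderOf g := ⟨_, rfl⟩
  rw [← hpd] at hpl hp hx ho
  have htp := t_pow htd (p * l)
  have htm : ∀ o ∈ 𝔓' ^ (p * l), t o ∈ 𝔓' ^ (p * l) := by
    intro o ho
    have e1 : t o = (t o - o) + o := by ring
    rw [e1]
    exact Ideal.add_mem _ (Ideal.pow_le_pow_right (Nat.le_add_right _ _) (htp o ho)) ho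
  -- the cocycle
  have hco : ∀ x, t (c x) - c (g • x) ∈ 𝔓' ^ (p * l) := by
    intro x
    obtain ⟨e, he, h1⟩ := hP.er 𝔓 g h𝔓 hg l hd x
    obtain ⟨e', he', h2⟩ := hP.er 𝔓' (h * g * h⁻¹) h𝔓' hg' l hd' (h • x)
    rw [← hpd] at he
    rw [ho] at he'
    have h3 : ρ (h * g) (χ x) = algebraMap O K (T h (1 + e) * c (g • x)) * χ (h • g • x) := by
      rw [map_mul]
      change ρ h (ρ g (χ x)) = _
      rw [h1, map_mul, hc, hG.com, map_mul, mul_assoc]
    have h4 : ρ (h * g) (χ x) = algebraMap O K (t (c x) * (1 + e')) * χ (h • g • x) := by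
      have e1 : ρ (h * g) = ρ (h * g * h⁻¹) * ρ h := by
        rw [← map_mul ρ, inv_mul_cancel_right]
      rw [e1]
      change ρ (h * g * h⁻¹) (ρ h (χ x)) = _
      have e2 : (h * g * h⁻¹) • h • x = h • g • x := by
        rw [← mul_smul, ← mul_smul, inv_mul_cancel_right]
      rw [hc, map_mul (ρ (h * g * h⁻¹)), hG.com, h2, ht, e2, map_mul (algebraMap O K), tg_apply]
      ring
    have h5 := inj (h3.symm.trans h4)
    have h6 : T h e ∈ 𝔓' ^ (p * l) := (cjN_pow hh _ _).1 he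
    have h7 : t (c x) - c (g • x) = T h e * c (g • x) - t (c x) * e' := by
      rw [map_add, map_one] at h5
      linear_combination -h5
    rw [h7]
    exact Ideal.sub_mem _ (Ideal.mul_mem_right _ _ h6) (Ideal.mul_mem_left _ _ he')
  have hit : ∀ (a : ℕ) x, (t^[a]) (c x) - c ((g ^ a) • x) ∈ 𝔓' ^ (p * l) := by
    intro a x
    induction a with
    | zero =>
      rw [pow_zero, one_smul]
      change c x - c x ∈ _
      rw [sub_self]
      exact Ideal.zero_mem _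
    | succ a ih =>
      rw [Function.iterate_succ', Function.comp_apply, pow_succ', mul_smul]
      have e1 : t ((t^[a]) (c x)) - c (g • (g ^ a) • x) = t ((t^[a]) (c x) - c ((g ^ a) • x)) +
          (t (c ((g ^ a) • x)) - c (g • (g ^ a) • x)) := by
        rw [map_sub]; ring
      rw [e1]
      exact Ideal.add_mem _ (htm _ ih) (hco _)
  have hcs : ∀ (s : Finset ℕ) (f : ℕ → Λ), c (∑ a ∈ s, f a) = ∏ a ∈ s, c (f a) := by
    intro s f
    induction s using Finset.induction_on with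
    | empty => rw [Finset.sum_empty, Finset.prod_empty, c0]
    | insert a s ha ih => rw [Finset.sum_insert ha, Finset.prod_insert ha, ca, ih]
  have h1 : c (x - x') - 1 ∈ 𝔓' ^ l := by
    refine norm_lem hp h𝔓' hne htd hpl ?_
    have h2 : ∏ a ∈ Finset.range p, c ((g ^ a) • (x - x')) = 1 := by
      rw [← hcs, ← Nm_act, map_sub, hx, sub_self, c0]
    rw [← h2, ← Ideal.Quotient.eq, map_prod, map_prod]
    exact Finset.prod_congr rfl fun a _ => Ideal.Quotient.eq.2 (hit a _)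
  have h2 : c x = c x' * c (x - x') := by rw [← ca, add_sub_cancel]
  rw [hcu hu, hcu hu', h2]
  have e1 : c x' * c (x - x') - c x' = c x' * (c (x - x') - 1) := by ring
  rw [e1]
  exact Ideal.mul_mem_left _ _ h1

include S hG hP in
/-- The errors of the wild inertia. -/
lemma err_FL {𝔓 : Ideal O} {g : G} {l : ℕ} (h𝔓 : 𝔓.IsMaximal) (hg : IW T 𝔓 g)
    (hd : DVN T 𝔓 g (l + 1)) {h : G} {𝔓' : Ideal O} (hh : ∀ o, o ∈ 𝔓 ↔ T h o ∈ 𝔓')
    {V : ℕ → Submodule ℤ K} (hV : V 0 = Submodule.span ℤ (χ '' Δ)) {w : K}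
    (hw : w ∈ Submodule.span ℤ (χ '' Δ)) :
    ρ h (ρ g w - ρ₀ g w) ∈ FL 𝔓' l V (orderOf g * l) 0 := by
  induction hw using Submodule.span_induction with
  | mem x hx =>
    obtain ⟨m, hm, rfl⟩ := hx
    obtain ⟨e, he, h1⟩ := hP.er 𝔓 g h𝔓 hg l hd m
    obtain ⟨u, hu⟩ := hP.un h (g • m)
    rw [h1, S.act 𝔓 g h𝔓 hg]
    have e1 : algebraMap O K (1 + e) * χ (g • m) - χ (g • m) = algebraMap O K e * χ (g • m) := by
      rw [map_add, map_one]; ring
    rw [e1, map_mul, hG.com, hu, ← mul_assoc, ← map_mul]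
    refine FL_mem (Ideal.mul_mem_right _ _ ((cjN_pow hh _ _).1 he)) (b := 0) ?_ le_rfl
      (by rw [zero_mul, add_zero])
    rw [hV]
    exact Submodule.subset_span ⟨_, S.st h _ (S.st g m hm), rfl⟩
  | zero => rw [map_zero, map_zero, sub_zero, map_zero]; exact Submodule.zero_mem _
  | add x y _ _ hx hy =>
    have e1 : ρ h (ρ g (x + y) - ρ₀ g (x + y)) = ρ h (ρ g x - ρ₀ g x) + ρ h (ρ g y - ρ₀ g y) := by
      rw [← map_add, map_add, map_add]
      congr 1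
      ring
    rw [e1]
    exact Submodule.add_mem _ hx hy
  | smul c x _ hx =>
    have e1 : ρ h (ρ g (c • x) - ρ₀ g (c • x)) = c • ρ h (ρ g x - ρ₀ g x) := by
      rw [map_zsmul, map_zsmul, ← smul_sub, map_zsmul]
    rw [e1]
    exact Submodule.smul_mem _ _ hx

include S hG hP in
/-- **The difference operator on the filtration.** -/
theorem FL_d {𝔓 : Ideal O} {g : G} {l : ℕ} (h𝔓 : 𝔓.IsMaximal) (hg : IW T 𝔓 g)
    (hd : DVN T 𝔓 g (l + 1)) {n B : ℕ} (hn : n + l ≤ orderOf g * l) {y : K}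
    (hy : y ∈ FL 𝔓 l (WGN ρ₀ χ Δ g) n B) :
    ρ g y - y ∈ FL 𝔓 l (WGN ρ₀ χ Δ g) (n + l) (B + 1) := by
  have hd' : ∀ o, tg T g o - o ∈ 𝔓 ^ (l + 1) := hd
  have key := FL_map (N := FL 𝔓 l (WGN ρ₀ χ Δ g) (n + l) (B + 1)) (dK (rg ρ g)) (y := y)
    (fun a b o ho w hw hb hn' => ?_) hy
  · exact key
  rw [dK_apply, map_mul, rg_apply, rg_apply, hG.com]
  have hw0 : w ∈ Submodule.span ℤ (χ '' Δ) :=
    WW_mono (TSN.sp g) (S.act 𝔓 g h𝔓 hg) (S.st g) (Nat.zero_le b) hw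
  have h1 := err_FL S hG hP h𝔓 hg hd (h := 1) (𝔓' := 𝔓) (fun o => by rw [map_one]; rfl)
    (V := WGN ρ₀ χ Δ g) rfl hw0
  rw [map_one] at h1
  change ρ g w - ρ₀ g w ∈ _ at h1
  have e1 : algebraMap O K (T g o) * ρ g w - algebraMap O K o * w =
      algebraMap O K (T g o) * (ρ g w - ρ₀ g w) + (algebraMap O K (T g o) * (ρ₀ g w - w) +
        algebraMap O K (T g o - o) * w) := by
    rw [map_sub]; ring
  have hto : T g o - o ∈ 𝔓 ^ (a + l) := t_pow hd' a o ho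
  have ht : T g o ∈ 𝔓 ^ a := by
    have e2 : T g o = (T g o - o) + o := by ring
    rw [e2]
    exact Ideal.add_mem _ (Ideal.pow_le_pow_right (Nat.le_add_right _ _) hto) ho
  rw [e1]
  refine Submodule.add_mem _ ?_ (Submodule.add_mem _ ?_ ?_)
  · have h2 := FL_smul (a := 0) (o := T g o) (by rw [pow_zero, Ideal.one_eq_top]; trivial) h1
    exact FL_mono (by omega) (Nat.zero_le _) h2
  · have h2 : ρ₀ g w - w ∈ WGN ρ₀ χ Δ g (b + 1) :=
      WW_d (TSN.sp g) (S.act 𝔓 g h𝔓 hg) (S.st g) b hw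
    refine FL_mem ht h2 (by omega) ?_
    have e3 : a + (b + 1) * l = a + b * l + l := by ring
    omega
  · exact FL_mem hto hw (by omega) (by omega)

include S hG hP in
/-- **The filtrations are permuted by the group.** -/
theorem FL_conj {h g : G} {𝔓 𝔓' : Ideal O} {l : ℕ} (h𝔓 : 𝔓.IsMaximal)
    (hh : ∀ o, o ∈ 𝔓 ↔ T h o ∈ 𝔓') (hg : IW T 𝔓 g) (hd : DVN T 𝔓 g (l + 1))
    (hpl : ((orderOf g : ℕ) : O) ∈ 𝔓' ^ ((orderOf g - 1) * l)) (hp : (orderOf g).Prime)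
    (n : ℕ) (hn : n ≤ orderOf g - 1) {y : K} (hy : y ∈ WGN ρ₀ χ Δ g n) :
    ρ h y ∈ FL 𝔓' l (WGN ρ₀ χ Δ (h * g * h⁻¹)) (n * l) n := by
  have h𝔓' := cjN_max hh h𝔓
  have hg' := IW_conj hh hg
  have hd' : DVN T 𝔓' (h * g * h⁻¹) (l + 1) := DVN_conj hh hd
  have ho : orderOf (h * g * h⁻¹) = orderOf g := by
    have := (MulAut.conj h).orderOf_eq g
    rw [MulAut.conj_apply] at this
    exact this
  have hone : ∀ o : O, o ∈ 𝔓' ^ 0 := fun o => by rw [pow_zero, Ideal.one_eq_top]; trivial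
  induction n generalizing y with
  | zero =>
    have hy' : y ∈ Submodule.span ℤ (χ '' Δ) := hy
    clear hy
    induction hy' using Submodule.span_induction with
    | mem x hx =>
      obtain ⟨m, hm, rfl⟩ := hx
      obtain ⟨u, hu⟩ := hP.un h m
      rw [hu]
      exact FL_mem (hone u) (b := 0) (chi_WW (S.st h m hm)) le_rfl (by omega)
    | zero => rw [map_zero]; exact Submodule.zero_mem _
    | add x y _ _ hx hy => rw [map_add]; exact Submodule.add_mem _ hx hy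
    | smul c x _ hx => rw [map_zsmul]; exact Submodule.smul_mem _ _ hx
  | succ n ih =>
    rcases n with _ | n
    · -- the differences of characters
      have hy' : y ∈ W1 χ (orderOf g) (sA Λ g) Δ := WW_one.1 hy
      clear hy ih
      unfold W1 at hy'
      induction hy' using Submodule.span_induction with
      | mem x hx =>
        obtain ⟨m, hm, m', hm', hN, rfl⟩ := hx
        obtain ⟨u, hu⟩ := hP.un h m
        obtain ⟨u', hu'⟩ := hP.un h m'
        have h1 := unit_diff S hG hP h𝔓 hh hg hd hpl hp hN hu hu'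
        have e1 : ρ h (χ m - χ m') = algebraMap O K u * (χ (h • m) - χ (h • m')) +
            algebraMap O K (u - u') * χ (h • m') := by
          rw [map_sub, hu, hu', map_sub]
          ring
        rw [e1]
        refine Submodule.add_mem _ ?_ ?_
        · refine FL_mem (hone u) (b := 1) ?_ (by omega) (by omega)
          refine WW_one.2 (Submodule.subset_span ⟨_, S.st h m hm, _, S.st h m' hm', ?_, rfl⟩)
          have h2 : ∀ x : Λ, Nm (orderOf (h * g * h⁻¹)) (sA Λ (h * g * h⁻¹)) (h • x) =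
              h • Nm (orderOf g) (sA Λ g) x := by
            intro x
            rw [ho, Nm_act, Nm_act, Finset.smul_sum]
            refine Finset.sum_congr rfl fun a _ => ?_
            rw [← mul_smul, ← mul_smul]
            congr 1
            rw [conj_pow]
            group
          rw [h2, h2, hN]
        · exact FL_mem h1 (b := 0) (chi_WW (S.st h m' hm')) (by omega) (by omega)
      | zero => rw [map_zero]; exact Submodule.zero_mem _
      | add x y _ _ hx hy => rw [map_add]; exact Submodule.add_mem _ hx hy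
      | smul c x _ hx => rw [map_zsmul]; exact Submodule.smul_mem _ _ hx
    · -- the operator
      obtain ⟨w, hw, rfl⟩ := hy
      have hv : ((dK (rg ρ₀ g)) ^ n) w ∈ WGN ρ₀ χ Δ g (n + 1) := ⟨w, hw, rfl⟩
      obtain ⟨v, hvd⟩ : ∃ v, v = ((dK (rg ρ₀ g)) ^ n) w := ⟨_, rfl⟩
      rw [← hvd] at hv
      rw [pow_succ', Module.End.mul_apply, ← hvd, dK_apply, rg_apply]
      have h1 := ih (by omega) hv
      have h2 := FL_d S hG hP h𝔓' hg' hd' (n := (n + 1) * l) (B := n + 1) (by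
        rw [ho]
        have e1 : (n + 1) * l + l = (n + 1 + 1) * l := by ring
        rw [e1]
        exact Nat.mul_le_mul_right _ (by omega)) h1
      have hv0 : v ∈ Submodule.span ℤ (χ '' Δ) :=
        WW_mono (TSN.sp g) (S.act 𝔓 g h𝔓 hg) (S.st g) (Nat.zero_le _) hv
      have h3 := err_FL S hG hP h𝔓 hg hd hh (V := WGN ρ₀ χ Δ (h * g * h⁻¹)) rfl hv0
      have h4 : ρ (h * g * h⁻¹) (ρ h v) = ρ h (ρ g v) := by
        rw [← AlgEquiv.mul_apply, ← AlgEquiv.mul_apply, ← map_mul, ← map_mul,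
          inv_mul_cancel_right]
      have e2 : ρ h (ρ₀ g v - v) = (ρ (h * g * h⁻¹) (ρ h v) - ρ h v) -
          ρ h (ρ g v - ρ₀ g v) := by
        rw [h4, map_sub, map_sub]; ring
      rw [e2]
      refine Submodule.sub_mem _ ?_ ?_
      · exact FL_mono (by
          have e1 : (n + 1) * l + l = (n + 1 + 1) * l := by ring
          rw [e1]) le_rfl h2
      · exact FL_mono (Nat.mul_le_mul_right _ (by omega)) (Nat.zero_le _) h3

variable {m : ℕ} {z : Fin (m + 1) → K}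

include S hG hP in
/-- **The weights are permuted by the group.** -/
theorem eq_clause (Z : ZGW ρ₀ T χ Δ z) {𝔓 𝔓' : Ideal O} (h𝔓 : 𝔓.IsMaximal)
    (hw : ∃ g, IW T 𝔓 g) {h : G} (hh : ∀ o, o ∈ 𝔓 ↔ T h o ∈ 𝔓') (i j : Fin (m + 1)) :
    hm (wN ρ₀ T χ Δ z 𝔓 i) (ρ h (z i) / z j) ∈ WR k 𝔓' 1 (wN ρ₀ T χ Δ z 𝔓') z j := by
  obtain ⟨g, hg'⟩ := hw
  have h𝔓' := cjN_max hh h𝔓
  have hg0 := gN_spec hg'
  have hg1 := IW_conj hh hg0
  have hg2 := gN_spec hg1
  obtain ⟨ho, hw⟩ := S.wg h𝔓' hg1 hg2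
  have ho' : orderOf (h * gN T 𝔓 * h⁻¹) = orderOf (gN T 𝔓) := by
    have := (MulAut.conj h).orderOf_eq (gN T 𝔓)
    rw [MulAut.conj_apply] at this
    exact this
  have t1 := S.l0_spec' h𝔓' hg1
  have t2 := S.l0_spec h𝔓 hg'
  have hl : lN ρ₀ T χ 𝔓' = lN ρ₀ T χ 𝔓 := by
    have e1 := (DVN_iff t1 (lN ρ₀ T χ 𝔓 + 1)).1 (DVN_conj hh ((DVN_iff t2 _).2 le_rfl))
    have hh' : ∀ o, o ∈ 𝔓' ↔ T h⁻¹ o ∈ 𝔓 := by
      intro o
      rw [hh, TN_inv]
    have e2 := DVN_conj hh' ((DVN_iff t1 (lN ρ₀ T χ 𝔓' + 1)).2 le_rfl)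
    have e3 : h⁻¹ * (h * gN T 𝔓 * h⁻¹) * h⁻¹⁻¹ = gN T 𝔓 := by group
    rw [e3] at e2
    have e4 := (DVN_iff t2 _).1 e2
    omega
  have hpl := t1.pl
  rw [ho', hl] at hpl
  have h1 := FL_conj S hG hP h𝔓 hh hg0 ((DVN_iff t2 _).2 le_rfl) hpl t2.pp
    (kN ρ₀ T χ Δ z 𝔓 i) ((Z.zw h𝔓 hg').kp i) ((Z.zw h𝔓 hg').zw i)
  have hkp := (Z.zw h𝔓 hg').kp i
  have e0 : wN ρ₀ T χ Δ z 𝔓 i = kN ρ₀ T χ Δ z 𝔓 i * lN ρ₀ T χ 𝔓 := rfl
  rw [e0]
  generalize kN ρ₀ T χ Δ z 𝔓 i = κ at h1 hkp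
  generalize ρ h (z i) = y at h1
  unfold FL at h1
  induction h1 using Submodule.span_induction with
  | mem x hx =>
    obtain ⟨a, b, o, ho1, w, hw1, hb, hn, rfl⟩ := hx
    have h2 := (Z.zw h𝔓' hg1).mem_W (𝔓 := 𝔓') (j := j) (k := b) (by
      rw [← ho, ho']
      omega) ((hw _ _).1 hw1)
    rw [hl] at h2
    have h3 := WR_mem (k := k) h2
    have h4 := WR_epow (k := k) (K := K) (W := wN ρ₀ T χ Δ z 𝔓') (z := z) (j := j) (e := 1) a ho1
    have h5 := Subalgebra.mul_mem _ h4 h3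
    rw [hm_mul, ← mul_div_assoc] at h5
    refine low_mem WR_s h5 ?_
    push_cast
    have h6 : ((κ * lN ρ₀ T χ 𝔓 : ℕ) : ℤ) ≤ ((a + b * lN ρ₀ T χ 𝔓 : ℕ) : ℤ) := by exact_mod_cast hn
    push_cast at h6
    linarith
  | zero => rw [zero_div, hm_zero]; exact Subalgebra.zero_mem _
  | add x y _ _ hx hy => rw [add_div, hm_add]; exact Subalgebra.add_mem _ hx hy
  | smul c x _ hx =>
    have e1 : hm ((κ * lN ρ₀ T χ 𝔓 : ℕ) : ℤ) (c • x / z j) =
        hm 0 (algebraMap O K (c : O)) * hm ((κ * lN ρ₀ T χ 𝔓 : ℕ) : ℤ) (x / z j) := by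
      rw [hm_mul, zsmul_eq_mul, mul_div_assoc, zero_add, map_intCast]
    rw [e1]
    exact Subalgebra.mul_mem _ (WR_o _) hx

end

end Pool.Agent.T9h3.R
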