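import Pool.Agent.T9h3.R.Nfw
import Pool.Agent.T9h3.R.Ffw

/-!
# Global fields, with local data at the places
-/

set_option autoImplicit false
set_option linter.unusedSectionVars false
set_option linter.overlappingInstances false
set_option linter.unusedVariables false

namespace Pool.Agent.T9h3.R

open AlgebraicGeometry CategoryTheory CategoryTheory.Limits
open Pool.Agent.R383.TM Pool.Agent.T9h3 Pool.Agent.T9h3.H
open Pool.Agent.T9h3.P Pool.Agent.T9h3.Q Pool.Agent.H918R2.Quad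
open Pool.Agent.Y223.G hiding CC
open scoped NumberField IntermediateField IntermediateField.algebraAdjoinAdjoin

/-- A chart of the global field. -/
def CHRW (E M O : Type) [Field E] [Field M] [Algebra E M] [FiniteDimensional E M] [IsGalois E M]
    [CommRing O] [Algebra O M] : Prop :=
  ∀ (F K : Type) [Field F] [Field K] [Algebra E F] [Algebra M K] [Algebra E K]
    [IsScalarTower E M K] [Algebra F K] [IsScalarTower E F K]
    (ρ : (M ≃ₐ[E] M) →* (K ≃ₐ[E] K)),
    (∀ g x, ρ g (algebraMap M K x) = algebraMap M K (g x)) →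
    (∀ y, (∀ g, ρ g y = y) ↔ ∃ z : F, algebraMap F K z = y) →
    ∀ D₀ : CHL E M K, IntermediateField.adjoin M (Set.range D₀.χ) = ⊤ →
    ∀ (c₀ : ℕ) (f₀ : Fin c₀ → AA O D₀.Λ), PRS E ρ 0 D₀.χ f₀ →
    (∀ V : ValuationSubring E, V ≠ ⊤ → LOCV F ρ V D₀) → MDL F

/-- **The charts of a global field.** -/
theorem exists_chartW {E M : Type} [Field E] [Field M] [Algebra E M] [FiniteDimensional E M]
    [IsGalois E M] (hE : IsGlob E) (S : Finset M) :
    ∃ (O : Type) (_ : CommRing O) (_ : Algebra O M), Function.Injective (algebraMap O M) ∧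
      (∀ s ∈ S, ∃ o, algebraMap O M o = s) ∧
      (∀ (𝔓 : Ideal O) (p : ℕ) (g : M ≃ₐ[E] M), 𝔓.IsMaximal → p.Prime → (p : O) ∈ 𝔓 →
        g ∈ InS E M 𝔓 → orderOf g ≠ p) ∧ CHL1 E M O ∧ CHRW E M O := by
  classical
  have hfG : Finite (M ≃ₐ[E] M) := inferInstance
  have hfG' : Fintype (M ≃ₐ[E] M) := Fintype.ofFinite _
  rcases hE with hE | ⟨κ, _, _, _, s, hs, hfd, hsep⟩
  · have _ : CharZero M := charZero_of_injective_algebraMap (algebraMap E M).injective
    have hM : Algebra.IsAlgebraic ℚ M := by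
      have h2 : Algebra.IsAlgebraic ℚ E := inferInstance
      have h3 : Algebra.IsAlgebraic E M := inferInstance
      exact Algebra.IsAlgebraic.trans ℚ E M
    obtain ⟨m, hm, hmS⟩ := exists_denM hM S
    have hG0 : Nat.card (M ≃ₐ[E] M) ≠ 0 := Nat.card_pos.ne'
    obtain ⟨n, hnd⟩ : ∃ n, n = Nat.card (M ≃ₐ[E] M) * m := ⟨_, rfl⟩
    have hn : n ≠ 0 := by rw [hnd]; exact mul_ne_zero hG0 hm
    have hnG : Nat.card (M ≃ₐ[E] M) ∣ n := ⟨m, hnd⟩
    have hint := hmS n hn ⟨Nat.card (M ≃ₐ[E] M), by rw [hnd, mul_comm]⟩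
    have hVt : ∀ V : ValuationSubring E, (n : E)⁻¹ ∉ V → V ≠ ⊤ := by
      rintro V h rfl
      exact h (ValuationSubring.mem_top _)
    have hnp : ∀ (𝔓 : Ideal (integralClosure (Algebra.adjoin ℤ {(n : ℚ)⁻¹}) M)) (p : ℕ),
        𝔓.IsMaximal → (p : integralClosure (Algebra.adjoin ℤ {(n : ℚ)⁻¹}) M) ∈ 𝔓 → ¬ p ∣ n := by
      rintro 𝔓 p h𝔓 hp ⟨k, hk⟩
      have hn𝔓 : (n : integralClosure (Algebra.adjoin ℤ {(n : ℚ)⁻¹}) M) ∈ 𝔓 := by
        have h0 := congrArg (Nat.cast :
          ℕ → integralClosure (Algebra.adjoin ℤ {(n : ℚ)⁻¹}) M) hk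
        rw [Nat.cast_mul] at h0
        rw [h0]
        exact 𝔓.mul_mem_right _ hp
      apply h𝔓.ne_top
      rw [Ideal.eq_top_iff_one]
      have h1 : (1 : integralClosure (Algebra.adjoin ℤ {(n : ℚ)⁻¹}) M) =
          algebraMap (Algebra.adjoin ℤ {(n : ℚ)⁻¹}) _
            ⟨(n : ℚ)⁻¹, Algebra.self_mem_adjoin_singleton ℤ _⟩ * n := by
        apply Subtype.ext
        change (1 : M) = algebraMap ℚ M (n : ℚ)⁻¹ * (n : M)
        have h2 : (n : M) ≠ 0 := by exact_mod_cast hn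
        rw [map_inv₀, map_natCast, inv_mul_cancel₀ h2]
      rw [h1]
      exact 𝔓.mul_mem_left _ hn𝔓
    refine ⟨integralClosure (Algebra.adjoin ℤ {(n : ℚ)⁻¹}) M, inferInstance, inferInstance,
      Subtype.val_injective, fun s hs => ⟨⟨s, hint s hs⟩, rfl⟩, ?_, ?_, ?_⟩
    · intro 𝔓 p g h𝔓 hp hp𝔓 hg ho
      refine hnp 𝔓 p h𝔓 hp𝔓 (Dvd.dvd.trans ?_ hnG)
      rw [← ho]
      exact orderOf_dvd_natCard g
    · intro Λ _ c f h
      have i1 := Zn_ded hn
      have i2 := Zn_frac (n := n)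
      exact RG_places (Algebra.adjoin ℤ {(n : ℚ)⁻¹}) ℚ (Zn_nf hn) h
    · intro F K _ _ _ _ _ _ _ _ ρ hρ fix D₀ hgen c₀ f₀ h0 h1
      let _ : Algebra (𝓞 E) F := ((algebraMap E F).comp (algebraMap (𝓞 E) E)).toAlgebra
      have _ : IsScalarTower (𝓞 E) E F := IsScalarTower.of_algebraMap_eq fun _ => rfl
      have hinj : Function.Injective (algebraMap (𝓞 E) F) :=
        (algebraMap E F).injective.comp (IsFractionRing.injective (𝓞 E) E)
      refine mdl_of hinj (nf_hasModuleW (D₀ := D₀) hn hρ fix ?_ hgen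
        h0 (fun V hV => h1 V (hVt V hV)))
      intro 𝔓 h𝔓 p hp hp𝔓 hd
      exact hnp 𝔓 p h𝔓 hp𝔓 (((dvd_pow_self p two_ne_zero).trans hd).trans
        ((InS_dvd 𝔓).trans hnG))
  · have hg1 : ∀ g : M ≃ₐ[E] M, ∃ o : M, g ≠ 1 → g o - o ≠ 0 := by
      intro g
      by_cases hg : g = 1
      · exact ⟨0, fun h => absurd hg h⟩
      · obtain ⟨o, ho⟩ : ∃ o, g o ≠ o := by
          by_contra hcon
          push Not at hcon
          exact hg (AlgEquiv.ext hcon)
        exact ⟨o, fun _ => sub_ne_zero.2 ho⟩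
    choose o ho using hg1
    obtain ⟨t, ht0, i1, i2, hint⟩ := exists_tS (κ := κ) (s := s) (M := M) hs
      (S ∪ (Finset.univ.image o ∪ Finset.univ.image (fun g => (g (o g) - o g)⁻¹)) ∪
        {algebraMap E M s})
    have hVt : ∀ V : ValuationSubring E, t ∉ V → V ≠ ⊤ := by
      rintro V h rfl
      exact h (ValuationSubring.mem_top _)
    have hI1 : ∀ (𝔓 : Ideal (integralClosure (Algebra.adjoin κ {t}) M)) (g : M ≃ₐ[E] M),
        𝔓.IsMaximal → g ∈ InS E M 𝔓 → g = 1 := by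
      intro 𝔓 g h𝔓 hg
      by_contra hg1
      have ho1 : IsIntegral (Algebra.adjoin κ {t}) (o g) := hint _ (Finset.mem_union_left _
        (Finset.mem_union_right _
        (Finset.mem_union_left _ (Finset.mem_image.2 ⟨g, Finset.mem_univ _, rfl⟩))))
      have ho2 : IsIntegral (Algebra.adjoin κ {t}) (g (o g) - o g)⁻¹ := hint _
        (Finset.mem_union_left _ (Finset.mem_union_right _ (Finset.mem_union_right _
          (Finset.mem_image.2 ⟨g, Finset.mem_univ _, rfl⟩))))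
      obtain ⟨e, he, h1⟩ := hg ⟨o g, ho1⟩
      have h2 : (e : M) = g (o g) - o g := h1
      apply h𝔓.ne_top
      rw [Ideal.eq_top_iff_one]
      have h3 : (1 : integralClosure (Algebra.adjoin κ {t}) M) =
          ⟨(g (o g) - o g)⁻¹, ho2⟩ * e := by
        apply Subtype.ext
        change (1 : M) = (g (o g) - o g)⁻¹ * (e : M)
        rw [h2, inv_mul_cancel₀ (ho g hg1)]
      rw [h3]
      exact 𝔓.mul_mem_left _ he
    refine ⟨integralClosure (Algebra.adjoin κ {t}) M, inferInstance, inferInstance,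
      Subtype.val_injective, fun s hs => ⟨⟨s, hint s (Finset.mem_union_left _
        (Finset.mem_union_left _ hs))⟩, rfl⟩, ?_, ?_, ?_⟩
    · intro 𝔓 p g h𝔓 hp hp𝔓 hg hog
      rw [hI1 𝔓 g h𝔓 hg, orderOf_one] at hog
      have h2 := hp.two_le
      omega
    · intro Λ _ c f h
      have i3 := adjQ_ded (κ := κ) t
      exact RG_places (Algebra.adjoin κ {t}) κ⟮t⟯ (adj_nf (M := M) hs
        (hint _ (Finset.mem_union_right _ (Finset.mem_singleton_self _)))) h
    · intro F K _ _ _ _ _ _ _ _ ρ hρ fix D₀ hgen c₀ f₀ h0 h1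
      let _ : Algebra κ F := ((algebraMap E F).comp (algebraMap κ E)).toAlgebra
      have _ : IsScalarTower κ E F := IsScalarTower.of_algebraMap_eq fun _ => rfl
      have hf : Module.Finite ℤ κ := Module.Finite.of_finite
      refine mdl_of (algebraMap κ F).injective (ff_hasModuleW (D₀ := D₀) ht0 hρ fix ?_
        hgen h0 (fun V hV => h1 V (hVt V hV)))
      intro 𝔓 h𝔓 p hp hp𝔓 hd
      have h1 : Nat.card (InS E M 𝔓) = 1 := by
        rw [Nat.card_eq_one_iff_exists]
        refine ⟨⟨1, fun x => ⟨0, 𝔓.zero_mem, by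
          rw [map_zero, AlgEquiv.one_apply, sub_self]⟩⟩,
          fun g => Subtype.ext (hI1 𝔓 g.1 h𝔓 g.2)⟩
      rw [h1, Nat.dvd_one] at hd
      have h2 := hp.two_le
      have h3 : p ^ 2 ≠ 1 := by
        intro h
        rw [Nat.pow_eq_one] at h
        omega
      exact h3 hd

/-- **The local-global theorem, with nondegenerate reduction at almost all the places.** -/
theorem loc_globW {E M F K : Type} [Field E] [Field M] [Algebra E M] [FiniteDimensional E M]
    [IsGalois E M] [Field F] [Field K] [Algebra E F] [Algebra M K] [Algebra E K]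
    [IsScalarTower E M K] [Algebra F K] [IsScalarTower E F K]
    {ρ : (M ≃ₐ[E] M) →* (K ≃ₐ[E] K)} (hE : IsGlob E)
    (hρ : ∀ g x, ρ g (algebraMap M K x) = algebraMap M K (g x))
    (fix : ∀ y, (∀ g, ρ g y = y) ↔ ∃ z : F, algebraMap F K z = y)
    {D₀ : CHL E M K} (hgen : IntermediateField.adjoin M (Set.range D₀.χ) = ⊤) (hs : SML ρ D₀)
    {c₀ : ℕ} {f₀ : Fin c₀ → AA M D₀.Λ}
    (hk₀ : ∀ P : AddMonoidAlgebra M D₀.Λ,
      (P.coeff.sum fun x b => algebraMap M K b * D₀.χ x) = 0 ↔ P ∈ Ideal.span (Set.range f₀))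
    {B : Set (ValuationSubring E)} (hB : B.Finite)
    (hgn : ∀ V : ValuationSubring E, V ≠ ⊤ → V ∉ B →
      ∃ f' : Fin c₀ → AA (integralClosure V M) D₀.Λ,
      (∀ r, AddMonoidAlgebra.mapRingHom D₀.Λ (algebraMap (integralClosure V M) M) (f' r) = f₀ r) ∧
        RG f')
    (hloc : ∀ V : ValuationSubring E, V ≠ ⊤ → LOCV F ρ V D₀) : MDL F := by
  classical
  have hfG : Finite (M ≃ₐ[E] M) := inferInstance
  have hs' := hs
  choose γ hγ using hs'
  have C : CST ρ D₀.χ γ := ⟨D₀.χ0, D₀.χa, hρ, hγ⟩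
  have hfG' : Fintype (M ≃ₐ[E] M) := Fintype.ofFinite _
  let b := Module.Free.chooseBasis ℤ D₀.Λ
  have hx : ∀ V : ValuationSubring E, ∃ x : E, V ≠ ⊤ → x ∉ V := by
    intro V
    by_cases h : V = ⊤
    · exact ⟨0, fun h' => absurd h h'⟩
    · obtain ⟨x, hx⟩ : ∃ x, x ∉ V := by
        by_contra hcon
        push Not at hcon
        exact h (eq_top_iff.2 fun x _ => hcon x)
      exact ⟨x, fun _ => hx⟩
  choose x hx using hx
  obtain ⟨O, _, _, hinj, hOS, hnw, hL, hCH⟩ := exists_chartW (M := M) hE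
    (((Finset.univ.biUnion fun r => (f₀ r).coeff.support.image (f₀ r).coeff) ∪
      hB.toFinset.image (fun V => algebraMap E M (x V))) ∪ (Finset.univ.image
    (fun z : (M ≃ₐ[E] M) × Module.Free.ChooseBasisIndex ℤ D₀.Λ => γ z.1 (b z.2)) ∪
    Finset.univ.image
    (fun z : (M ≃ₐ[E] M) × Module.Free.ChooseBasisIndex ℤ D₀.Λ => (γ z.1 (b z.2))⁻¹)))
  have hf' : ∀ r, ∃ f' : AA O D₀.Λ, AddMonoidAlgebra.mapRingHom D₀.Λ (algebraMap O M) f' = f₀ r := by
    intro r
    refine exists_lift _ fun x hx => hOS _ (Finset.mem_union_left _ (Finset.mem_union_left _ ?_))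
    rw [Finset.mem_biUnion]
    exact ⟨r, Finset.mem_univ _, Finset.mem_image_of_mem _ hx⟩
  choose f hf using hf'
  have hRG : RG f := by
    refine hL D₀.Λ c₀ f fun V hVt hVO f' hff' => ?_
    have hVB : V ∉ B := by
      intro hVB
      apply hx V hVt
      obtain ⟨o, ho⟩ := hOS (algebraMap E M (x V)) (Finset.mem_union_left _
        (Finset.mem_union_right _ (Finset.mem_image.2 ⟨V, hB.mem_toFinset.2 hVB, rfl⟩)))
      have h1 : IsIntegral V (algebraMap E M (x V)) := by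
        rw [← ho]
        exact hVO o
      have h2 : IsIntegral V (x V) :=
        (isIntegral_algHom_iff (IsScalarTower.toAlgHom V E M) (algebraMap E M).injective).1 h1
      obtain ⟨y, hy⟩ := (IsIntegrallyClosed.isIntegral_iff (R := V) (K := E)).1 h2
      rw [← hy]
      exact y.2
    obtain ⟨f'', hf'', hR⟩ := hgn V hVt hVB
    have e1 : f' = f'' := by
      funext r
      apply map_injA (h := algebraMap (integralClosure V M) M) Subtype.val_injective
      rw [hff', hf'', hf]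
    rw [e1]
    exact hR
  refine hCH F K ρ hρ fix D₀ hgen c₀ f ⟨D₀.χ0, D₀.χa, ?_, hRG, Or.inr ⟨hnw, ?_⟩⟩ hloc
  · intro P
    rw [hk₀]
    have e1 : (fun r => AddMonoidAlgebra.mapRingHom D₀.Λ (algebraMap O M) (f r)) = f₀ :=
      funext hf
    rw [e1]
  · intro g x
    have h1 : γ g x ∈ (algebraMap O M).range := by
      refine unit_all b (C.zero g) (C.add g) _ (fun i => ⟨?_, ?_⟩) x
      · exact hOS _ (Finset.mem_union_right _
          (Finset.mem_union_left _ (Finset.mem_image.2 ⟨(g, i), Finset.mem_univ _, rfl⟩)))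
      · exact hOS _ (Finset.mem_union_right _
          (Finset.mem_union_right _ (Finset.mem_image.2 ⟨(g, i), Finset.mem_univ _, rfl⟩)))
    obtain ⟨u, hu⟩ := h1
    exact ⟨u, by rw [hu]; exact hγ g x⟩

end Pool.Agent.T9h3.R
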