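import Pool.Agent.T9h3.R.Pert2
import Pool.Agent.T9h3.R.Glb

/-!
# Lattices from presentations, with an action up to units
-/

set_option autoImplicit false
set_option linter.unusedSectionVars false
set_option linter.overlappingInstances false
set_option linter.unusedVariables false

namespace Pool.Agent.T9h3.R

open Pool.Agent.Y223.G Pool.Agent.R383.TM Pool.Agent.T9h3 Pool.Agent.T9h3.H
open Pool.Agent.T9h3.P Pool.Agent.T9h3.Q
open Pool.Agent.Y290.G (Ine mem_Ine)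

section cha

variable {k O E M F K Λ : Type} [CommRing k] [IsDomain k]
  [IsDedekindDomain k] [Field E] [Field M] [Field F] [Field K] [CommRing O] [IsDomain O]
  [IsDedekindDomain O] [Algebra E F]
  [Algebra k E] [Algebra k F] [IsScalarTower k E F] [IsFractionRing k E]
  [Algebra E M] [FiniteDimensional E M] [IsGalois E M] [Algebra k O] [Algebra O M]
  [Algebra k M] [IsScalarTower k O M] [IsScalarTower k E M] [IsIntegralClosure O k M]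
  [Algebra M K] [Algebra E K] [IsScalarTower E M K] [Algebra k K] [IsScalarTower k E K]
  [Algebra O K] [IsScalarTower O M K] [IsScalarTower k O K] [Algebra F K] [IsScalarTower E F K]
  [IsScalarTower k F K]
  [AddCommGroup Λ] [Module.Free ℤ Λ] [Module.Finite ℤ Λ] [DistribMulAction (M ≃ₐ[E] M) Λ]
  {χ : Λ → K} {Δ : Set Λ} {c : ℕ} {f : Fin c → AA O Λ}

/-- **The lattices with an action up to units.** -/
theorem gvk_un {ρ ρ₀ : (M ≃ₐ[E] M) →* (K ≃ₐ[E] K)}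
    (hG : GN k O K (M ≃ₐ[E] M) (Rk k ρ) (Tk k O E M))
    (hG₀ : GN k O K (M ≃ₐ[E] M) (Rk k ρ₀) (Tk k O E M))
    (χ0 : χ 0 = 1) (χa : ∀ x y, χ (x + y) = χ x * χ y)
    (act₀ : ∀ (𝔓 : Ideal O) (g : M ≃ₐ[E] M), 𝔓.IsMaximal → IW (Tk k O E M) 𝔓 g → ∀ x,
      ρ₀ g (χ x) = χ (g • x))
    (hP : PTB (Rk k ρ) (Tk k O E M) χ)
    (hk : ∀ P : AddMonoidAlgebra M Λ, (P.coeff.sum fun x a => algebraMap M K a * χ x) = 0 ↔
      P ∈ Ideal.span (Set.range fun r => AddMonoidAlgebra.mapRingHom Λ (algebraMap O M) (f r)))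
    (hgen : IntermediateField.adjoin M (Set.range χ) = ⊤)
    (fix : ∀ y, (∀ g, ρ g y = y) ↔ ∃ z : F, algebraMap F K z = y)
    (hRG : RG f)
    (hW : ∀ (𝔓 : Ideal O) (p : ℕ) (g : M ≃ₐ[E] M), 𝔓.IsMaximal → p.Prime → (p : O) ∈ 𝔓 →
      orderOf g = p → (∀ o, Tk k O E M g o - o ∈ 𝔓) → H.WD (sA Λ g) 𝔓 f)
    {Θ : Set Λ} (hΘ : DF f Θ) (fin : Δ.Finite) (ne : Δ.Nonempty)
    (st : ∀ g : M ≃ₐ[E] M, ∀ x ∈ Δ, g • x ∈ Δ)
    (h : ∀ g : M ≃ₐ[E] M, CVP (SVR (orderOf g) (sA Λ g) Θ Δ) Δ)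
    {S : Set F} (hSf : S.Finite)
    (hS : Submodule.span M (algebraMap F K '' S) = Submodule.span M (χ '' Δ)) :
    GVK k (Submodule.span E S) := by
  have hfr : IsFractionRing O M := IsIntegralClosure.isFractionRing_of_finite_extension k E M O
  obtain ⟨φ, hφ⟩ := exists_ev (K := K) O χ0 χa
  have hH := HK_of (M := M) hφ χ0 χa hk
  have hT : TSW k O K (M ≃ₐ[E] M) Λ (Rk k ρ₀) (Tk k O E M) χ Δ :=
    tsw_of hG₀ χ0 χa act₀ hφ hH hRG (fun 𝔓 g h𝔓 hg => by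
      obtain ⟨h1, h2⟩ := wildN hG₀ h𝔓 hg
      exact hW 𝔓 _ g h𝔓 h1 h2 rfl hg.2.1) hΘ fin ne st h
  obtain ⟨m, z, Z⟩ := exists_zW (ρ := Rk k ρ₀) χ0 χa act₀ fin st ne
  refine gvk_of_z hG Z.z0 (fun g j => Z.lin st hP.un g j) (fun j => Z.hreg hT j)
    (WD_pert2 hT hG hP Z) (Z.gen χ0 χa hT.bs hgen) fix hSf ?_
  rw [hS, ← Submodule.span_span_of_tower ℤ M (χ '' Δ), ← Z.span', Submodule.span_span_of_tower]

end cha

/-- `g` is a wildly ramified element of prime order. -/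
def WLD (E M : Type) {O : Type} [Field E] [Field M] [CommRing O] [Algebra E M] [Algebra O M]
    (𝔓 : Ideal O) (p : ℕ) (g : M ≃ₐ[E] M) : Prop :=
  𝔓.IsMaximal ∧ p.Prime ∧ (p : O) ∈ 𝔓 ∧ g ∈ InS E M 𝔓 ∧ orderOf g = p

/-- The presentations over `O`, with an action up to units. -/
structure PRW (E : Type) {M K O Λ : Type} [Field E] [Field M] [Field K] [CommRing O] [Algebra E M]
    [Algebra M K] [Algebra E K] [Algebra O M] [AddCommGroup Λ] [DistribMulAction (M ≃ₐ[E] M) Λ]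
    (ρ : (M ≃ₐ[E] M) →* (K ≃ₐ[E] K)) (χ : Λ → K) {c : ℕ} (f : Fin c → AA O Λ) : Prop where
  χ0 : χ 0 = 1
  χa : ∀ x y, χ (x + y) = χ x * χ y
  hk : ∀ P : AddMonoidAlgebra M Λ, (P.coeff.sum fun x b => algebraMap M K b * χ x) = 0 ↔
      P ∈ Ideal.span (Set.range fun r => AddMonoidAlgebra.mapRingHom Λ (algebraMap O M) (f r))
  hRG : RG f
  un : ∀ g x, ∃ u : O, ρ g (χ x) = algebraMap M K (algebraMap O M u) * χ (g • x)
  wd : ∀ (𝔓 : Ideal O) (p : ℕ) (g : M ≃ₐ[E] M), WLD E M 𝔓 p g → H.WD (sA Λ g) 𝔓 f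
  ex : ∃ ρ₀ : (M ≃ₐ[E] M) →* (K ≃ₐ[E] K), (∀ g x, ρ₀ g (algebraMap M K x) = algebraMap M K (g x)) ∧
    ∀ (𝔓 : Ideal O) (p : ℕ) (g : M ≃ₐ[E] M), WLD E M 𝔓 p g → ∀ x, ρ₀ g (χ x) = χ (g • x)
  er : ∀ (𝔓 : Ideal O) (p : ℕ) (g : M ≃ₐ[E] M), WLD E M 𝔓 p g → ∀ l : ℕ,
    (∀ o, ∃ e ∈ 𝔓 ^ (l + 1), algebraMap O M e = g (algebraMap O M o) - algebraMap O M o) →
    ∀ x, ∃ e ∈ 𝔓 ^ (p * l), ρ g (χ x) = algebraMap M K (algebraMap O M (1 + e)) * χ (g • x)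

section

variable {k O E M F K Λ : Type} [CommRing k] [IsDomain k]
  [IsDedekindDomain k] [Field E] [Field M] [Field F] [Field K] [CommRing O] [IsDomain O]
  [IsDedekindDomain O] [Algebra E F]
  [Algebra k E] [Algebra k F] [IsScalarTower k E F] [IsFractionRing k E]
  [Algebra E M] [FiniteDimensional E M] [IsGalois E M] [Algebra k O] [Algebra O M]
  [Algebra k M] [IsScalarTower k O M] [IsScalarTower k E M] [IsIntegralClosure O k M]
  [Algebra M K] [Algebra E K] [IsScalarTower E M K] [Algebra k K] [IsScalarTower k E K]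
  [Algebra O K] [IsScalarTower O M K] [IsScalarTower k O K] [Algebra F K] [IsScalarTower E F K]
  [IsScalarTower k F K]
  [AddCommGroup Λ] [Module.Free ℤ Λ] [Module.Finite ℤ Λ] [DistribMulAction (M ≃ₐ[E] M) Λ]
  {χ : Λ → K} {Δ : Set Λ} {c : ℕ} {f : Fin c → AA O Λ}

/-- **The lattices of nondegenerate subvarieties.** -/
theorem gvk_prw {ρ : (M ≃ₐ[E] M) →* (K ≃ₐ[E] K)}
    (hρ : ∀ g x, ρ g (algebraMap M K x) = algebraMap M K (g x))
    (resf : ∀ 𝔓 : Ideal O, 𝔓.IsMaximal → 𝔓 ≠ ⊥ → Finite (O ⧸ 𝔓)) (hin : HIN E M O)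
    (hgen : IntermediateField.adjoin M (Set.range χ) = ⊤)
    (fix : ∀ y, (∀ g, ρ g y = y) ↔ ∃ z : F, algebraMap F K z = y)
    (N : PRW E ρ χ f)
    {Θ : Set Λ} (hΘ : DF f Θ) (fin : Δ.Finite) (ne : Δ.Nonempty)
    (st : ∀ g : M ≃ₐ[E] M, ∀ x ∈ Δ, g • x ∈ Δ)
    (h : ∀ g : M ≃ₐ[E] M, CVP (SVR (orderOf g) (sA Λ g) Θ Δ) Δ)
    {S : Set F} (hSf : S.Finite)
    (hS : Submodule.span M (algebraMap F K '' S) = Submodule.span M (χ '' Δ)) :
    GVK k (Submodule.span E S) := by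
  have hin' : ∀ 𝔓 : Ideal O, 𝔓.IsMaximal → 𝔓 ≠ ⊥ → ∀ p : ℕ, p.Prime → (p : O) ∈ 𝔓 →
      ¬ p ^ 2 ∣ Nat.card (Ine (Tk k O E M) 𝔓) := by
    intro 𝔓 h𝔓 _ p hp hp𝔓
    rw [Ine_card]
    exact hin 𝔓 h𝔓 p hp hp𝔓
  have hG := gn_of' k O E M ρ hρ resf hin'
  have halg : ∀ o : O, algebraMap M K (algebraMap O M o) = algebraMap O K o := fun o =>
    (IsScalarTower.algebraMap_apply O M K o).symm
  obtain ⟨ρ₀, hρ₀, act₀⟩ := N.ex
  have hG₀ := gn_of' k O E M ρ₀ hρ₀ resf hin'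
  have hwl : ∀ (𝔓 : Ideal O) (g : M ≃ₐ[E] M), 𝔓.IsMaximal → IW (Tk k O E M) 𝔓 g →
      WLD E M 𝔓 (orderOf g) g := by
    intro 𝔓 g h𝔓 hg
    obtain ⟨h1, h2⟩ := wildN hG h𝔓 hg
    exact ⟨h𝔓, h1, h2, (Tk_iff 𝔓 g).1 hg.2.1, rfl⟩
  have hOM : Function.Injective (algebraMap O M) := IsIntegralClosure.algebraMap_injective O k M
  refine gvk_un hG hG₀ N.χ0 N.χa (fun 𝔓 g h𝔓 hg x => act₀ 𝔓 _ g (hwl 𝔓 g h𝔓 hg) x) ⟨?_, ?_⟩
    N.hk hgen fix N.hRG (fun 𝔓 p g h𝔓 hp hp𝔓 ho hg => N.wd 𝔓 p g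
      ⟨h𝔓, hp, hp𝔓, (Tk_iff 𝔓 g).1 hg, ho⟩) hΘ fin ne st h hSf hS
  · intro g x
    obtain ⟨u, hu⟩ := N.un g x
    exact ⟨u, by rw [← halg]; exact hu⟩
  · intro 𝔓 g h𝔓 hg l hd x
    obtain ⟨e, he, h1⟩ := N.er 𝔓 _ g (hwl 𝔓 g h𝔓 hg) l (fun o => ⟨_, hd o, by
      rw [map_sub, Tk_coe]⟩) x
    exact ⟨e, he, by rw [← halg]; exact h1⟩

end

lemma PRW.sml {E M K : Type} [Field E] [Field M] [Field K] [Algebra E M] [Algebra M K] [Algebra E K]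
    {O : Type} [CommRing O] [Algebra O M] {ρ : (M ≃ₐ[E] M) →* (K ≃ₐ[E] K)}
    {D : CHL E M K} {c : ℕ} {f : Fin c → AA O D.Λ} (N : PRW E ρ D.χ f) : SML ρ D := by
  intro g x
  obtain ⟨u, hu⟩ := N.un g x
  exact ⟨_, hu⟩

section plc

variable {k E M F K : Type} [CommRing k] [IsDomain k]
  [IsDedekindDomain k] [Field E] [Field M] [Field F] [Field K] [Algebra E F]
  [Algebra k E] [Algebra k F] [IsScalarTower k E F] [IsFractionRing k E]
  [Algebra E M] [FiniteDimensional E M] [IsGalois E M]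
  [Algebra M K] [Algebra E K] [IsScalarTower E M K] [Algebra F K] [IsScalarTower E F K]

/-- **The local data from presentations over a valuation ring.** -/
theorem LOC_ofW {V : ValuationSubring E} {𝔭 : Ideal k} (hV : VP k V 𝔭)
    (hfin : Finite (k ⧸ 𝔭)) {ρ : (M ≃ₐ[E] M) →* (K ≃ₐ[E] K)}
    (hρ : ∀ g x, ρ g (algebraMap M K x) = algebraMap M K (g x))
    (fix : ∀ y, (∀ g, ρ g y = y) ↔ ∃ z : F, algebraMap F K z = y)
    (hin : HIN E M (integralClosure V M)) {D₀ D : CHL E M K}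
    (hgen : IntermediateField.adjoin M (Set.range D₀.χ) = ⊤)
    {c : ℕ} {f : Fin c → AA (integralClosure V M) D.Λ}
    (hN : PRW E ρ D.χ f) (hR : REL D D₀) (hR' : REL D₀ D) :
    LOC F ρ 𝔭 D₀ := by
  have i1 := hV.ded
  have i2 := hV.dedO (M := M)
  have i3 : IsScalarTower V (integralClosure V M) K := IsScalarTower.of_algebraMap_eq fun x =>
    IsScalarTower.algebraMap_apply E M K x
  have i4 : IsScalarTower V F K :=
    IsScalarTower.of_algebraMap_eq fun x => IsScalarTower.algebraMap_apply E F K x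
  obtain ⟨Θ, hΘ⟩ := exists_DFN f
  refine ⟨D, Θ, hN.sml, hR, hR', fun Δ fin ne st h S hSf hS => ?_⟩
  exact hV.glk (gvk_prw (k := V) (O := integralClosure V M) hρ
    (fun 𝔓 h𝔓 _ => hV.res hfin 𝔓 h𝔓) hin (hR'.gen hgen) fix hN hΘ fin ne st h hSf hS)

end plc

/-- The local data, for all the affine models of the base. -/
def LOCV (F : Type) {E M K : Type} [Field E] [Field M] [Field F] [Field K]
    [Algebra E F] [Algebra E M] [Algebra M K] [Algebra E K] [Algebra F K]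
    (ρ : (M ≃ₐ[E] M) →* (K ≃ₐ[E] K)) (V : ValuationSubring E) (D₀ : CHL E M K) : Prop :=
  ∀ (k : Type) [CommRing k] [IsDomain k] [IsDedekindDomain k] [Algebra k E] [Algebra k F]
    [IsScalarTower k E F] [IsFractionRing k E] (𝔭 : Ideal k), VP k V 𝔭 → Finite (k ⧸ 𝔭) →
    LOC F ρ 𝔭 D₀

end Pool.Agent.T9h3.R
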