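import Pool.Agent.T9h3.R.Pert
import Pool.Agent.T9h3.Q.Big

/-!
# Lattices from presentations
-/

set_option autoImplicit false
set_option linter.unusedSectionVars false
set_option linter.overlappingInstances false
set_option linter.unusedVariables false

namespace Pool.Agent.T9h3.R

open Pool.Agent.Y223.G Pool.Agent.R383.TM Pool.Agent.T9h3 Pool.Agent.T9h3.H
open Pool.Agent.T9h3.P Pool.Agent.T9h3.Q
open Pool.Agent.Y290.G (Ine mem_Ine)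

section cha

variable {k O E M F K Λ : Type} [CommRing k] [IsDomain k]
  [IsDedekindDomain k] [Field E] [Field M] [Field F] [Field K] [CommRing O] [IsDomain O]
  [IsDedekindDomain O] [Algebra E F]
  [Algebra k E] [Algebra k F] [IsScalarTower k E F] [IsFractionRing k E]
  [Algebra E M] [FiniteDimensional E M] [IsGalois E M] [Algebra k O] [Algebra O M]
  [Algebra k M] [IsScalarTower k O M] [IsScalarTower k E M] [IsIntegralClosure O k M]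
  [Algebra M K] [Algebra E K] [IsScalarTower E M K] [Algebra k K] [IsScalarTower k E K]
  [Algebra O K] [IsScalarTower O M K] [IsScalarTower k O K] [Algebra F K] [IsScalarTower E F K]
  [IsScalarTower k F K]
  [AddCommGroup Λ] [Module.Free ℤ Λ] [Module.Finite ℤ Λ] [DistribMulAction (M ≃ₐ[E] M) Λ]
  {χ : Λ → K} {Δ : Set Λ} {c : ℕ} {f : Fin c → AA O Λ}

/-- **The lattices with wild ramification, perturbed.** -/
theorem gvk_pert {ρ ρ₀ : (M ≃ₐ[E] M) →* (K ≃ₐ[E] K)}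
    (hG : GN k O K (M ≃ₐ[E] M) (Rk k ρ) (Tk k O E M))
    (hG₀ : GN k O K (M ≃ₐ[E] M) (Rk k ρ₀) (Tk k O E M))
    (χ0 : χ 0 = 1) (χa : ∀ x y, χ (x + y) = χ x * χ y) (act₀ : ∀ g x, ρ₀ g (χ x) = χ (g • x))
    {𝔞 : Ideal O} {N : ℕ} (h𝔞 : ∀ 𝔓 : Ideal O, 𝔓.IsMaximal → 𝔞 ≤ 𝔓 ^ (N + 1))
    (hN : ∀ 𝔓 : Ideal O, 𝔓.IsMaximal → ∀ g, IW (Tk k O E M) 𝔓 g → ∀ l : ℕ,
      (∀ o, Tk k O E M g o - o ∈ 𝔓 ^ (l + 1)) → orderOf g * l ≤ N)
    (act : ∀ g x, ∃ e ∈ 𝔞, ρ g (χ x) = algebraMap O K (1 + e) * χ (g • x))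
    (hk : ∀ P : AddMonoidAlgebra M Λ, (P.coeff.sum fun x a => algebraMap M K a * χ x) = 0 ↔
      P ∈ Ideal.span (Set.range fun r => AddMonoidAlgebra.mapRingHom Λ (algebraMap O M) (f r)))
    (hgen : IntermediateField.adjoin M (Set.range χ) = ⊤)
    (fix : ∀ y, (∀ g, ρ g y = y) ↔ ∃ z : F, algebraMap F K z = y)
    (hRG : RG f)
    (hW : ∀ (𝔓 : Ideal O) (p : ℕ) (g : M ≃ₐ[E] M), 𝔓.IsMaximal → p.Prime → (p : O) ∈ 𝔓 →
      orderOf g = p → (∀ o, Tk k O E M g o - o ∈ 𝔓) → H.WD (sA Λ g) 𝔓 f)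
    {Θ : Set Λ} (hΘ : DF f Θ) (fin : Δ.Finite) (ne : Δ.Nonempty)
    (st : ∀ g : M ≃ₐ[E] M, ∀ x ∈ Δ, g • x ∈ Δ)
    (h : ∀ g : M ≃ₐ[E] M, CVP (SVR (orderOf g) (sA Λ g) Θ Δ) Δ)
    {S : Set F} (hSf : S.Finite)
    (hS : Submodule.span M (algebraMap F K '' S) = Submodule.span M (χ '' Δ)) :
    GVK k (Submodule.span E S) := by
  have hfr : IsFractionRing O M := IsIntegralClosure.isFractionRing_of_finite_extension k E M O
  obtain ⟨φ, hφ⟩ := exists_ev (K := K) O χ0 χa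
  have hH := HK_of (M := M) hφ χ0 χa hk
  have hT : TSN k O K (M ≃ₐ[E] M) Λ (Rk k ρ₀) (Tk k O E M) χ Δ :=
    tsn_of hG₀ χ0 χa act₀ hφ hH hRG (fun 𝔓 g h𝔓 hg => by
      obtain ⟨h1, h2⟩ := wildN hG₀ h𝔓 hg
      exact hW 𝔓 _ g h𝔓 h1 h2 rfl hg.2.1) hΘ fin ne st h
  obtain ⟨m, z, Z⟩ := exists_zN (ρ := Rk k ρ₀) χ0 χa act₀ fin st ne
  have hspan : ∀ x ∈ Δ, χ x ∈ Submodule.span ℤ (Set.range z) := fun x hx =>
    Z.span (Submodule.subset_span ⟨x, hx, rfl⟩)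
  have herr0 : ∀ e ∈ 𝔞, ∀ u ∈ Submodule.span ℤ (Set.range z),
      algebraMap O K e * u ∈ ERR 𝔞 z := by
    intro e he u hu
    induction hu using Submodule.span_induction with
    | mem x hx =>
      obtain ⟨i, rfl⟩ := hx
      exact Submodule.subset_span ⟨e, he, i, rfl⟩
    | zero => rw [mul_zero]; exact Submodule.zero_mem _
    | add x y _ _ hx hy => rw [mul_add]; exact Submodule.add_mem _ hx hy
    | smul n x _ hx =>
      rw [mul_smul_comm]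
      exact zsmul_mem hx n
  have herr1 : ∀ g, ∀ u ∈ Submodule.span ℤ (χ '' Δ), ρ g u - ρ₀ g u ∈ ERR 𝔞 z := by
    intro g u hu
    induction hu using Submodule.span_induction with
    | mem x hx =>
      obtain ⟨y, hy, rfl⟩ := hx
      obtain ⟨e, he, h1⟩ := act g y
      rw [h1, act₀]
      have e1 : algebraMap O K (1 + e) * χ (g • y) - χ (g • y) = algebraMap O K e * χ (g • y) := by
        rw [map_add, map_one]
        ring
      rw [e1]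
      exact herr0 e he _ (hspan _ (st g y hy))
    | zero => rw [map_zero, map_zero, sub_zero]; exact Submodule.zero_mem _
    | add x y _ _ hx hy =>
      have e1 : ρ g (x + y) - ρ₀ g (x + y) = (ρ g x - ρ₀ g x) + (ρ g y - ρ₀ g y) := by
        rw [map_add, map_add]; ring
      rw [e1]
      exact Submodule.add_mem _ hx hy
    | smul n x _ hx =>
      have e1 : ρ g (n • x) - ρ₀ g (n • x) = n • (ρ g x - ρ₀ g x) := by
        rw [map_zsmul, map_zsmul, smul_sub]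
      rw [e1]
      exact zsmul_mem hx n
  have herr : ∀ g j, Rk k ρ g (z j) - Rk k ρ₀ g (z j) ∈ ERR 𝔞 z :=
    fun g j => herr1 g _ (Z.zs j)
  have hERR : ERR 𝔞 z ≤ Submodule.span O (Set.range z) := by
    unfold ERR
    rw [Submodule.span_le]
    rintro _ ⟨a, ha, i, rfl⟩
    rw [← Algebra.smul_def]
    exact Submodule.smul_mem _ _ (Submodule.subset_span ⟨i, rfl⟩)
  have hWD : R383.TM.WD k O K (M ≃ₐ[E] M) (Rk k ρ) (Tk k O E M) z (fun _ => 1)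
      (wN (Rk k ρ₀) (Tk k O E M) χ Δ z) := by
    refine WD_pert (hT.data Z) h𝔞 ?_ herr
    intro 𝔓 h𝔓 g hg1 hg2 l hl i
    have hg : IW (Tk k O E M) 𝔓 g := ⟨hg1, hg2⟩
    have t := hT.l0_spec' h𝔓 hg
    have t0 := hT.l0_spec h𝔓 hg
    have h1 : l + 1 ≤ lN (Rk k ρ₀) (Tk k O E M) χ 𝔓 + 1 := (DVN_iff t _).1 hl
    have h2 := hN 𝔓 h𝔓 _ (gN_spec hg) _ t0.dv
    have h3 := (Z.zw (T := Tk k O E M) 𝔓).kp i
    have h4 : 1 ≤ orderOf (gN (Tk k O E M) 𝔓) := t0.pp.one_le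
    have h5 : wN (Rk k ρ₀) (Tk k O E M) χ Δ z 𝔓 i =
      kN (Rk k ρ₀) (Tk k O E M) χ Δ z 𝔓 i * lN (Rk k ρ₀) (Tk k O E M) χ 𝔓 := rfl
    rw [h5, one_mul, one_mul]
    obtain ⟨q, hq⟩ : ∃ q, orderOf (gN (Tk k O E M) 𝔓) = q + 1 := ⟨_, (Nat.sub_add_cancel h4).symm⟩
    rw [hq] at h2 h3
    have h6 : kN (Rk k ρ₀) (Tk k O E M) χ Δ z 𝔓 i * lN (Rk k ρ₀) (Tk k O E M) χ 𝔓 ≤
        q * lN (Rk k ρ₀) (Tk k O E M) χ 𝔓 := Nat.mul_le_mul_right _ (by omega)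
    have h7 : (q + 1) * lN (Rk k ρ₀) (Tk k O E M) χ 𝔓 =
      q * lN (Rk k ρ₀) (Tk k O E M) χ 𝔓 + lN (Rk k ρ₀) (Tk k O E M) χ 𝔓 := by ring
    omega
  refine gvk_of_z hG Z.z0 (fun g j => ?_) (fun j => Z.hreg hT j) hWD
    (Z.gen χ0 χa hT.bs hgen) fix hSf ?_
  · have e1 : ρ g (z j) = (ρ g (z j) - ρ₀ g (z j)) + ρ₀ g (z j) := by ring
    rw [e1]
    exact Submodule.add_mem _ (hERR (herr g j)) (Z.lin hT g j)
  · rw [hS, ← Submodule.span_span_of_tower ℤ M (χ '' Δ), ← Z.span', Submodule.span_span_of_tower]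

end cha

/-- The presentations over `O`, with the precision `r`. -/
structure PRS (E : Type) {M K O Λ : Type} [Field E] [Field M] [Field K] [CommRing O] [Algebra E M]
    [Algebra M K] [Algebra E K] [Algebra O M] [AddCommGroup Λ] [DistribMulAction (M ≃ₐ[E] M) Λ]
    (ρ : (M ≃ₐ[E] M) →* (K ≃ₐ[E] K)) (r : O)
    (χ : Λ → K) {c : ℕ} (f : Fin c → AA O Λ) : Prop where
  χ0 : χ 0 = 1
  χa : ∀ x y, χ (x + y) = χ x * χ y
  hk : ∀ P : AddMonoidAlgebra M Λ, (P.coeff.sum fun x b => algebraMap M K b * χ x) = 0 ↔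
      P ∈ Ideal.span (Set.range fun r => AddMonoidAlgebra.mapRingHom Λ (algebraMap O M) (f r))
  hRG : RG f
  eq : ((∀ (𝔓 : Ideal O) (p : ℕ) (g : M ≃ₐ[E] M), 𝔓.IsMaximal → p.Prime → (p : O) ∈ 𝔓 →
      orderOf g = p → g ∈ InS E M 𝔓 → H.WD (sA Λ g) 𝔓 f) ∧
    ∃ ρ₀ : (M ≃ₐ[E] M) →* (K ≃ₐ[E] K), (∀ g x, ρ₀ g (algebraMap M K x) = algebraMap M K (g x)) ∧
      (∀ g x, ρ₀ g (χ x) = χ (g • x)) ∧
      ∀ g x, ∃ e : O, ρ g (χ x) = algebraMap M K (algebraMap O M (1 + r * e)) * χ (g • x)) ∨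
    ((∀ (𝔓 : Ideal O) (p : ℕ) (g : M ≃ₐ[E] M), 𝔓.IsMaximal → p.Prime → (p : O) ∈ 𝔓 →
      g ∈ InS E M 𝔓 → orderOf g ≠ p) ∧
    ∀ g x, ∃ u : O, ρ g (χ x) = algebraMap M K (algebraMap O M u) * χ (g • x))

/-- The orders of the inertia groups. -/
def HIN (E M O : Type) [Field E] [Field M] [CommRing O] [Algebra E M] [Algebra O M] : Prop :=
  ∀ 𝔓 : Ideal O, 𝔓.IsMaximal → ∀ p : ℕ, p.Prime → (p : O) ∈ 𝔓 → ¬ p ^ 2 ∣ Nat.card (InS E M 𝔓)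

section

variable {k O E M F K Λ : Type} [CommRing k] [IsDomain k]
  [IsDedekindDomain k] [Field E] [Field M] [Field F] [Field K] [CommRing O] [IsDomain O]
  [IsDedekindDomain O] [Algebra E F]
  [Algebra k E] [Algebra k F] [IsScalarTower k E F] [IsFractionRing k E]
  [Algebra E M] [FiniteDimensional E M] [IsGalois E M] [Algebra k O] [Algebra O M]
  [Algebra k M] [IsScalarTower k O M] [IsScalarTower k E M] [IsIntegralClosure O k M]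
  [Algebra M K] [Algebra E K] [IsScalarTower E M K] [Algebra k K] [IsScalarTower k E K]
  [Algebra O K] [IsScalarTower O M K] [IsScalarTower k O K] [Algebra F K] [IsScalarTower E F K]
  [IsScalarTower k F K]
  [AddCommGroup Λ] [Module.Free ℤ Λ] [Module.Finite ℤ Λ] [DistribMulAction (M ≃ₐ[E] M) Λ]
  {χ : Λ → K} {Δ : Set Λ} {c : ℕ} {f : Fin c → AA O Λ} {r : O}

/-- The precision `r` is sufficient. -/
def PREC (k E : Type) {O M : Type} [CommRing k] [IsDomain k]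
  [IsDedekindDomain k] [Field E] [Field M] [CommRing O] [IsDomain O]
  [IsDedekindDomain O] [Algebra k E] [IsFractionRing k E]
  [Algebra E M] [FiniteDimensional E M] [IsGalois E M] [Algebra k O] [Algebra O M]
  [Algebra k M] [IsScalarTower k O M] [IsScalarTower k E M] [IsIntegralClosure O k M] (r : O) :
    Prop :=
  r = 0 ∨ ∃ N : ℕ, (∀ 𝔓 : Ideal O, 𝔓.IsMaximal → r ∈ 𝔓 ^ (N + 1)) ∧
    ∀ 𝔓 : Ideal O, 𝔓.IsMaximal → ∀ g, IW (Tk k O E M) 𝔓 g → ∀ l : ℕ,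
      (∀ o, Tk k O E M g o - o ∈ 𝔓 ^ (l + 1)) → orderOf g * l ≤ N

/-- **The lattices of nondegenerate subvarieties.** -/
theorem gvk_prs {ρ : (M ≃ₐ[E] M) →* (K ≃ₐ[E] K)}
    (hρ : ∀ g x, ρ g (algebraMap M K x) = algebraMap M K (g x))
    (resf : ∀ 𝔓 : Ideal O, 𝔓.IsMaximal → 𝔓 ≠ ⊥ → Finite (O ⧸ 𝔓)) (hin : HIN E M O)
    (hr : PREC k E (M := M) r)
    (hgen : IntermediateField.adjoin M (Set.range χ) = ⊤)
    (fix : ∀ y, (∀ g, ρ g y = y) ↔ ∃ z : F, algebraMap F K z = y)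
    (N : PRS E ρ r χ f)
    {Θ : Set Λ} (hΘ : DF f Θ) (fin : Δ.Finite) (ne : Δ.Nonempty)
    (st : ∀ g : M ≃ₐ[E] M, ∀ x ∈ Δ, g • x ∈ Δ)
    (h : ∀ g : M ≃ₐ[E] M, CVP (SVR (orderOf g) (sA Λ g) Θ Δ) Δ)
    {S : Set F} (hSf : S.Finite)
    (hS : Submodule.span M (algebraMap F K '' S) = Submodule.span M (χ '' Δ)) :
    GVK k (Submodule.span E S) := by
  have hin' : ∀ 𝔓 : Ideal O, 𝔓.IsMaximal → 𝔓 ≠ ⊥ → ∀ p : ℕ, p.Prime → (p : O) ∈ 𝔓 →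
      ¬ p ^ 2 ∣ Nat.card (Ine (Tk k O E M) 𝔓) := by
    intro 𝔓 h𝔓 _ p hp hp𝔓
    rw [Ine_card]
    exact hin 𝔓 h𝔓 p hp hp𝔓
  have hG := gn_of' k O E M ρ hρ resf hin'
  have halg : ∀ o : O, algebraMap M K (algebraMap O M o) = algebraMap O K o := fun o =>
    (IsScalarTower.algebraMap_apply O M K o).symm
  rcases N.eq with ⟨hW, ρ₀, hρ₀, act₀, act⟩ | ⟨hnw, act⟩
  · have hW' : ∀ (𝔓 : Ideal O) (p : ℕ) (g : M ≃ₐ[E] M), 𝔓.IsMaximal → p.Prime → (p : O) ∈ 𝔓 →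
        orderOf g = p → (∀ o, Tk k O E M g o - o ∈ 𝔓) → H.WD (sA Λ g) 𝔓 f :=
      fun 𝔓 p g h𝔓 hp hp𝔓 ho hg => hW 𝔓 p g h𝔓 hp hp𝔓 ho ((Tk_iff 𝔓 g).1 hg)
    rcases hr with hr | ⟨n, hn1, hn2⟩
    · have act' : ∀ g x, ρ g (χ x) = χ (g • x) := by
        intro g x
        obtain ⟨e, he⟩ := act g x
        rw [he, hr, zero_mul, add_zero, map_one, map_one, one_mul]
      exact gvk_wild hG N.χ0 N.χa act' N.hk hgen fix N.hRG hW' hΘ fin ne st h hSf hS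
    · have hG₀ := gn_of' k O E M ρ₀ hρ₀ resf hin'
      refine gvk_pert hG hG₀ N.χ0 N.χa act₀ (𝔞 := Ideal.span {r}) (N := n)
        (fun 𝔓 h𝔓 => ?_) hn2 (fun g x => ?_) N.hk hgen fix N.hRG hW' hΘ fin ne st h hSf hS
      · rw [Ideal.span_singleton_le_iff_mem]
        exact hn1 𝔓 h𝔓
      · obtain ⟨e, he⟩ := act g x
        exact ⟨r * e, Ideal.mul_mem_right _ _ (Ideal.mem_span_singleton_self r), by
          rw [he, halg]⟩
  · have act' : ∀ g x, ∃ u : O, ρ g (χ x) = algebraMap O K u * χ (g • x) := by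
      intro g x
      obtain ⟨u, hu⟩ := act g x
      exact ⟨u, by rw [hu, halg]⟩
    refine gvk_tame hG ?_ N.χ0 N.χa act' N.hk hgen fix N.hRG hΘ fin ne st h hSf hS
    intro 𝔓 g h𝔓 hg1 hg
    obtain ⟨h1, h2⟩ := wildN hG h𝔓 (⟨hg1, hg⟩ : IW (Tk k O E M) 𝔓 g)
    exact hnw 𝔓 _ g h𝔓 h1 h2 ((Tk_iff 𝔓 g).1 hg.1) rfl

end

end Pool.Agent.T9h3.R
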