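import Pool.Agent.T9h3.R.Loc
import Pool.Agent.H379R3.Reg

/-!
# Regularity of the group rings of lattices
-/

set_option autoImplicit false
set_option linter.unusedSectionVars false
set_option linter.overlappingInstances false
set_option linter.unusedVariables false

namespace Pool.Agent.T9h3.R

open Pool.Agent.Y223.G Pool.Agent.R383.TM Pool.Agent.T9h3 Pool.Agent.T9h3.H
open Pool.Agent.T9h3.P Pool.Agent.T9h3.Q
open MvPolynomial IsLocalRing

section reg

variable {O Λ ι : Type} [CommRing O] [IsDomain O] [IsDedekindDomain O] [AddCommGroup Λ] [Fintype ι]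

lemma eA_inj' (b : Module.Basis ι ℤ Λ) : Function.Injective (eA (O := O) b) := by
  obtain ⟨𝕂, _, _, φ0, χ0', σ0, e0, h0⟩ := exists_amb (O := O) (Λ := Λ) b
    (t := RingHom.id _) Function.injective_id (s := 1) Function.injective_id
  have h1 : LinearIndependent O (φ0.toLinearMap ∘ (cx O : Λ → AA O Λ)) :=
    cx_lin.map' φ0.toLinearMap (LinearMap.ker_eq_bot.2 h0)
  have h2 : (φ0.toLinearMap ∘ (cx O : Λ → AA O Λ)) = χ0' := by
    funext x
    exact e0.c x
  rw [h2] at h1
  have h3 := Pool.Agent.T9h3.ev_inj e0.χ0 e0.χa h1 b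
  intro f g hfg
  apply h3
  rw [ev_eA e0.c, ev_eA e0.c, hfg]

lemma cx_unit (x : Λ) : IsUnit (cx O x) :=
  IsUnit.of_mul_eq_one (cx O (-x)) (by rw [mul_comm]; exact cx_neg_mul x)

lemma den_unit (b : Module.Basis ι ℤ Λ) (y : AA O Λ) :
    ∃ m y' : MvPolynomial ι O, IsUnit (eA b m) ∧ eA b m * y = eA b y' := by
  induction y using AA_ind with
  | h0 => exact ⟨1, 0, by rw [map_one]; exact isUnit_one, by rw [mul_zero, map_zero]⟩
  | hadd f g hf hg =>
    obtain ⟨m, f', h1, h2⟩ := hf
    obtain ⟨n, g', h3, h4⟩ := hg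
    refine ⟨m * n, n * f' + m * g', ?_, ?_⟩
    · rw [map_mul]
      exact h1.mul h3
    · rw [map_mul, map_add, map_mul, map_mul, ← h2, ← h4]
      ring
  | hs o x =>
    refine ⟨mon O b (-x), C o * mon O b x, ?_, ?_⟩
    · rw [← mon_pp, eA_mon (fun i => by rw [repr_pp]; exact Int.natCast_nonneg _)]
      exact cx_unit _
    · rw [map_mul, eA_C, ← mon_pp, ← mon_pp b x,
        eA_mon (fun i => by rw [repr_pp]; exact Int.natCast_nonneg _),
        eA_mon (fun i => by rw [repr_pp]; exact Int.natCast_nonneg _)]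
      have h2 : pp b x = pp b (-x) + x := by
        rw [add_comm, ← sub_eq_iff_eq_add, sub_pp]
      rw [h2, cx_add]
      ring

/-- **The group rings of lattices are regular.** -/
theorem AA_regular (b : Module.Basis ι ℤ Λ) : IsRegularRing (AA O Λ) := by
  classical
  let ia : Algebra (MvPolynomial ι O) (AA O Λ) := (eA b).toRingHom.toAlgebra
  have hia : ∀ a, algebraMap (MvPolynomial ι O) (AA O Λ) a = eA b a := fun a => rfl
  have h1 : IsLocalization ((IsUnit.submonoid (AA O Λ)).comap
      (eA (O := O) b : MvPolynomial ι O →* AA O Λ)) (AA O Λ) := by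
    refine ⟨fun y => y.2, fun z => ?_, fun {x y} h => ?_⟩
    · obtain ⟨m, y', h1, h2⟩ := den_unit b z
      refine ⟨⟨y', ⟨m, h1⟩⟩, ?_⟩
      rw [hia, hia, ← h2, mul_comm]
    · rw [hia, hia] at h
      exact ⟨1, by rw [eA_inj' b h]⟩
  exact regular_of_isLocalization (A := MvPolynomial ι O) (B := AA O Λ)
    ((IsUnit.submonoid (AA O Λ)).comap (eA (O := O) b : MvPolynomial ι O →* AA O Λ))

end reg

/-- An element with a regular quotient is a regular parameter. -/
theorem sq_of {R R' : Type} [CommRing R] [IsDomain R] [IsRegularRing R] [CommRing R']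
    [IsRegularRing R'] (f : R →+* R') (hf : Function.Surjective f) {β : R}
    (hker : ∀ x, f x = 0 → ∃ y, x = β * y) (hβ0 : f β = 0) (hβ : β ≠ 0) (Q : Ideal R)
    [hQ : Q.IsPrime] (hβQ : β ∈ Q) {d : R} (h : β * d ∈ Q ^ 2) : d ∈ Q := by
  by_contra hd
  obtain ⟨B, hB⟩ : ∃ B, B = Localization.AtPrime Q := ⟨_, rfl⟩
  have hdu : IsUnit (algebraMap R (Localization.AtPrime Q) d) :=
    IsLocalization.map_units (Localization.AtPrime Q) (⟨d, hd⟩ : Q.primeCompl)
  have hmap : Q.map (algebraMap R (Localization.AtPrime Q)) =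
      maximalIdeal (Localization.AtPrime Q) := Localization.AtPrime.map_eq_maximalIdeal
  have h1 : algebraMap R (Localization.AtPrime Q) β ∈
      maximalIdeal (Localization.AtPrime Q) ^ 2 := by
    have h2 : algebraMap R (Localization.AtPrime Q) (β * d) ∈
        maximalIdeal (Localization.AtPrime Q) ^ 2 := by
      rw [← hmap, ← Ideal.map_pow]
      exact Ideal.mem_map_of_mem _ h
    rw [map_mul] at h2
    obtain ⟨u, hu⟩ := hdu
    have h3 := Ideal.mul_mem_right (↑u⁻¹ : Localization.AtPrime Q) _ h2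
    rwa [← hu, mul_assoc, Units.mul_inv, mul_one] at h3
  let J : Ideal (Localization.AtPrime Q) :=
    Ideal.span {algebraMap R (Localization.AtPrime Q) β}
  have hJ : J ≤ maximalIdeal (Localization.AtPrime Q) ^ 2 := by
    rw [Ideal.span_singleton_le_iff_mem]
    exact h1
  have hJm : J ≤ maximalIdeal (Localization.AtPrime Q) := hJ.trans (Ideal.pow_le_self two_ne_zero)
  have hJt : J ≠ ⊤ := by
    intro h
    rw [h] at hJm
    exact (maximalIdeal.isMaximal (Localization.AtPrime Q)).ne_top (top_le_iff.1 hJm)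
  have hnt : Nontrivial (Localization.AtPrime Q ⧸ J) := Ideal.Quotient.nontrivial_iff.2 hJt
  have hloc : IsLocalRing (Localization.AtPrime Q ⧸ J) :=
    IsLocalRing.of_surjective' (Ideal.Quotient.mk _) Ideal.Quotient.mk_surjective
  -- the quotient is a localization of `R'`
  obtain ⟨g, hg⟩ : ∃ g : R' →+* Localization.AtPrime Q ⧸ J, ∀ x, g (f x) =
      Ideal.Quotient.mk J (algebraMap R (Localization.AtPrime Q) x) := by
    refine ⟨RingHom.liftOfSurjective f hf ⟨(Ideal.Quotient.mk J).comp
      (algebraMap R (Localization.AtPrime Q)), ?_⟩, fun x => ?_⟩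
    · intro x hx
      obtain ⟨y, rfl⟩ := hker x hx
      rw [RingHom.mem_ker, RingHom.comp_apply, map_mul]
      exact Ideal.Quotient.eq_zero_iff_mem.2
        (Ideal.mul_mem_right _ _ (Ideal.mem_span_singleton_self _))
    · exact RingHom.liftOfRightInverse_comp_apply _ _ _ _ _
  let ig : Algebra R' (Localization.AtPrime Q ⧸ J) := g.toAlgebra
  have hil : IsLocalization (Q.primeCompl.map f) (Localization.AtPrime Q ⧸ J) := by
    refine IsLocalization.of_surjective Q.primeCompl (Localization.AtPrime Q) f hf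
      (Ideal.Quotient.mk J) Ideal.Quotient.mk_surjective ?_ ?_
    · ext x
      exact (hg x).symm
    · rw [Ideal.mk_ker, Ideal.span_singleton_le_iff_mem]
      exact Ideal.mem_map_of_mem _ hβ0
  have hreg : IsRegularRing (Localization.AtPrime Q ⧸ J) :=
    regular_of_isLocalization (A := R') (Q.primeCompl.map f)
  have hreg' : IsRegularLocalRing (Localization.AtPrime Q ⧸ J) :=
    IsRegularLocalRing.of_isRegularRing_of_isLocalRing _
  have hJ0 : J = ⊥ := Pool.Agent.H379R3.eq_bot_of_le_sq J hJ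
  rw [Ideal.span_singleton_eq_bot, IsLocalization.to_map_eq_zero_iff (Localization.AtPrime Q)
    Q.primeCompl_le_nonZeroDivisors] at hJ0
  exact hβ hJ0

/-- **Uniformizers are regular parameters of the group rings.** -/
theorem unif_sq {O Λ : Type} [CommRing O] [IsDomain O] [IsDedekindDomain O] [AddCommGroup Λ]
    [Module.Free ℤ Λ] [Module.Finite ℤ Λ] {β : O} (hβ : β ≠ 0)
    (hmx : (Ideal.span {β}).IsMaximal) (Q : Ideal (AA O Λ)) [hQ : Q.IsPrime]
    (hβQ : algebraMap O (AA O Λ) β ∈ Q) {d : AA O Λ}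
    (h : algebraMap O (AA O Λ) β * d ∈ Q ^ 2) : d ∈ Q := by
  classical
  let b := Module.Free.chooseBasis ℤ Λ
  have hdom : IsDomain (AA O Λ) := AA_dom b
  have hreg : IsRegularRing (AA O Λ) := AA_regular b
  let fl : Field (O ⧸ Ideal.span {β}) := Ideal.Quotient.field _
  have hreg' : IsRegularRing (AA (O ⧸ Ideal.span {β}) Λ) := by
    exact AA_regular b
  have hAC : ∀ o : O, algebraMap O (AA O Λ) o = AddMonoidAlgebra.single 0 o := fun o => rfl
  have hinj : Function.Injective (algebraMap O (AA O Λ)) := by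
    intro x y hxy
    rw [hAC, hAC] at hxy
    have h2 := congrArg (fun g : AA O Λ => g.coeff 0) hxy
    simpa using h2
  refine sq_of (AddMonoidAlgebra.mapRingHom Λ (Ideal.Quotient.mk (Ideal.span {β}))) ?_ ?_ ?_
    (fun h0 => hβ (hinj (by rw [h0, map_zero]))) Q hβQ h
  · intro y
    induction y using AA_ind with
    | h0 => exact ⟨0, map_zero _⟩
    | hadd f g hf hg =>
      obtain ⟨a, rfl⟩ := hf
      obtain ⟨b, rfl⟩ := hg
      exact ⟨a + b, map_add _ _ _⟩
    | hs o x =>
      obtain ⟨o', rfl⟩ := Ideal.Quotient.mk_surjective o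
      refine ⟨AddMonoidAlgebra.single x o', ?_⟩
      rw [AddMonoidAlgebra.mapRingHom_single, single_eq]
  · intro x hx
    have h1 : ∀ y, ∃ z, x.coeff y = β * z := by
      intro y
      have h2 := congrArg (fun g : AA (O ⧸ Ideal.span {β}) Λ => g.coeff y) hx
      simp only [AddMonoidAlgebra.coeff_mapRingHom] at h2
      have h3 : Ideal.Quotient.mk (Ideal.span {β}) (x.coeff y) = 0 := h2
      rw [Ideal.Quotient.eq_zero_iff_mem, Ideal.mem_span_singleton] at h3
      exact h3
    choose z hz using h1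
    refine ⟨∑ y ∈ x.coeff.support, AddMonoidAlgebra.single y (z y), ?_⟩
    rw [Finset.mul_sum]
    conv_lhs => rw [← AA_sum x]
    refine Finset.sum_congr rfl fun y _ => ?_
    rw [hAC, AddMonoidAlgebra.single_mul_single, zero_add, hz y]
  · rw [hAC, AddMonoidAlgebra.mapRingHom_single,
      Ideal.Quotient.eq_zero_iff_mem.2 (Ideal.mem_span_singleton_self β)]
    exact AddMonoidAlgebra.single_zero _

end Pool.Agent.T9h3.R
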