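import Pool.Agent.T9h3.R.Uni
import Pool.Agent.T9h3.R.Rgl
import Pool.Agent.T9h3.R.Ext

/-!
# The lattices with heights
-/

set_option autoImplicit false
set_option linter.unusedSectionVars false
set_option linter.overlappingInstances false
set_option linter.unusedVariables false

namespace Pool.Agent.T9h3.R

open Pool.Agent.Y223.G Pool.Agent.R383.TM Pool.Agent.T9h3 Pool.Agent.T9h3.H
open Pool.Agent.T9h3.P Pool.Agent.T9h3.Q

/-- The initial forms of the binomials. -/
lemma ini_two {O Λ : Type} [CommRing O] [AddCommGroup Λ] (ℓ : Λ →+ ℤ) {x y : Λ} (hxy : x ≠ y)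
    {a b : O} (ha : a ≠ 0) (hb : b ≠ 0) :
    ini ℓ (AddMonoidAlgebra.single x a + AddMonoidAlgebra.single y b : AA O Λ) =
      if ℓ x < ℓ y then AddMonoidAlgebra.single x a else
        if ℓ y < ℓ x then AddMonoidAlgebra.single y b else
          AddMonoidAlgebra.single x a + AddMonoidAlgebra.single y b := by
  classical
  obtain ⟨f, hf⟩ : ∃ f : AA O Λ, f = AddMonoidAlgebra.single x a + AddMonoidAlgebra.single y b :=
    ⟨_, rfl⟩
  have h1 : f.coeff = Finsupp.single x a + Finsupp.single y b := by rw [hf]; rfl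
  have hs : f.coeff.support = {x, y} := by
    rw [h1, Finsupp.support_add_eq, Finsupp.support_single_ne_zero _ ha,
      Finsupp.support_single_ne_zero _ hb]
    · rfl
    · rw [Finsupp.support_single_ne_zero _ ha, Finsupp.support_single_ne_zero _ hb]
      simpa using hxy
  have hx : f.coeff x = a := by
    rw [h1, Finsupp.add_apply, Finsupp.single_eq_same, Finsupp.single_eq_of_ne hxy, add_zero]
  have hy : f.coeff y = b := by
    rw [h1, Finsupp.add_apply, Finsupp.single_eq_same, Finsupp.single_eq_of_ne (Ne.symm hxy),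
      zero_add]
  rw [← hf]
  unfold ini
  rw [hs]
  have h2 : ∀ z : Λ, (∀ w ∈ ({x, y} : Finset Λ), ℓ z ≤ ℓ w) ↔ ℓ z ≤ ℓ x ∧ ℓ z ≤ ℓ y := by
    intro z
    simp
  simp only [h2]
  rw [Finset.sum_filter, Finset.sum_pair hxy, hx, hy]
  split_ifs <;> first | omega | simp_all

section ker

variable {O M K L : Type} {c : ℕ} [CommRing O] [IsDomain O] [IsDedekindDomain O] [Field M]
  [Algebra O M] [IsFractionRing O M]
  [Field K] [Algebra M K] [AddCommGroup L] [Module.Free ℤ L] [Module.Finite ℤ L]
  (U : UNI O M c) {χ : L → K}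

/-- The characters with heights. -/
noncomputable def hχ (U : UNI O M c) (χ : L → K) (z : L × (Fin c → ℤ)) : K :=
  algebraMap M K (U.β z.2) * χ z.1

/-- The equations. -/
noncomputable def hf (L : Type) [AddCommGroup L] (U : UNI O M c) (i : Fin c) :
    AA O (L × (Fin c → ℤ)) :=
  AddMonoidAlgebra.single (0, Pi.single i 1) 1 + AddMonoidAlgebra.single 0 (- U.b i)

lemma hf_map (i : Fin c) :
    AddMonoidAlgebra.mapRingHom (L × (Fin c → ℤ)) (algebraMap O M) (hf L U i) =
      cx M (0, Pi.single i 1) - algebraMap M _ (algebraMap O M (U.b i)) := by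
  unfold hf
  rw [map_add, AddMonoidAlgebra.mapRingHom_single, AddMonoidAlgebra.mapRingHom_single, map_one,
    map_neg, AddMonoidAlgebra.single_neg, ← sub_eq_add_neg]
  rfl

/-- The relations of the characters with heights. -/
theorem hgt_hk (χ0 : χ 0 = 1) (χa : ∀ x y, χ (x + y) = χ x * χ y) (hli : LinearIndependent M χ)
    (P : AddMonoidAlgebra M (L × (Fin c → ℤ))) :
    (P.coeff.sum fun x a => algebraMap M K a * hχ U χ x) = 0 ↔
      P ∈ Ideal.span (Set.range fun i =>
        AddMonoidAlgebra.mapRingHom (L × (Fin c → ℤ)) (algebraMap O M) (hf L U i)) := by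
  classical
  have hχ0 : hχ U χ 0 = 1 := by
    change algebraMap M K (U.β 0) * χ 0 = 1
    rw [U.β_zero, χ0, map_one, mul_one]
  have hχa : ∀ x y, hχ U χ (x + y) = hχ U χ x * hχ U χ y := by
    intro x y
    change algebraMap M K (U.β (x.2 + y.2)) * χ (x.1 + y.1) =
      algebraMap M K (U.β x.2) * χ x.1 * (algebraMap M K (U.β y.2) * χ y.1)
    rw [U.β_add, χa, map_mul]
    ring
  obtain ⟨φ, hφ⟩ := exists_ev (K := K) M χ0 χa
  obtain ⟨ψ, hψ⟩ := exists_ev (K := K) M hχ0 hχa
  have hinj := ev_inj hli hφ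
  obtain ⟨I, hI⟩ : ∃ I, I = Ideal.span (Set.range fun i =>
        AddMonoidAlgebra.mapRingHom (L × (Fin c → ℤ)) (algebraMap O M) (hf L U i)) := ⟨_, rfl⟩
  rw [← hI, ev_sum hψ]
  constructor
  · intro hP
    have hQ0 : cx M (0 : L × (Fin c → ℤ)) - algebraMap M _ (U.β (0 : Fin c → ℤ)) ∈ I := by
      rw [U.β_zero, cx_zero, map_one, sub_self]
      exact I.zero_mem
    have hQa : ∀ h h' : Fin c → ℤ,
        cx M ((0, h) : L × (Fin c → ℤ)) - algebraMap M _ (U.β h) ∈ I →
        cx M ((0, h') : L × (Fin c → ℤ)) - algebraMap M _ (U.β h') ∈ I →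
        cx M ((0, h + h') : L × (Fin c → ℤ)) - algebraMap M _ (U.β (h + h')) ∈ I := by
      intro h h' h1 h2
      have e1 : ((0, h + h') : L × (Fin c → ℤ)) = (0, h) + (0, h') := by
        rw [Prod.mk_add_mk, add_zero]
      have e2 : cx M ((0, h + h') : L × (Fin c → ℤ)) - algebraMap M _ (U.β (h + h')) =
          cx M ((0, h') : L × (Fin c → ℤ)) *
            (cx M ((0, h) : L × (Fin c → ℤ)) - algebraMap M _ (U.β h)) +
          algebraMap M _ (U.β h) *
            (cx M ((0, h') : L × (Fin c → ℤ)) - algebraMap M _ (U.β h')) := by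
        rw [e1, cx_add, U.β_add, map_mul]
        ring
      rw [e2]
      exact I.add_mem (I.mul_mem_left _ h1) (I.mul_mem_left _ h2)
    have hQn : ∀ h : Fin c → ℤ,
        cx M ((0, h) : L × (Fin c → ℤ)) - algebraMap M _ (U.β h) ∈ I →
        cx M ((0, -h) : L × (Fin c → ℤ)) - algebraMap M _ (U.β (-h)) ∈ I := by
      intro h h1
      have e1 : cx M ((0, -h) : L × (Fin c → ℤ)) * cx M ((0, h) : L × (Fin c → ℤ)) = 1 := by
        rw [← cx_add, Prod.mk_add_mk, add_zero, neg_add_cancel]
        rfl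
      have e2 : algebraMap M (AA M (L × (Fin c → ℤ))) (U.β (-h)) *
          algebraMap M (AA M (L × (Fin c → ℤ))) (U.β h) = 1 := by
        rw [← map_mul, ← U.β_add, neg_add_cancel, U.β_zero, map_one]
      have e3 : cx M ((0, -h) : L × (Fin c → ℤ)) - algebraMap M _ (U.β (-h)) =
          (- (cx M ((0, -h) : L × (Fin c → ℤ)) *
            algebraMap M (AA M (L × (Fin c → ℤ))) (U.β (-h)))) *
            (cx M ((0, h) : L × (Fin c → ℤ)) - algebraMap M _ (U.β h)) := by
        linear_combination (algebraMap M (AA M (L × (Fin c → ℤ))) (U.β (-h))) * e1 -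
          cx M ((0, -h) : L × (Fin c → ℤ)) * e2
      rw [e3]
      exact I.mul_mem_left _ h1
    let H : AddSubgroup (Fin c → ℤ) :=
      { carrier := {h | cx M ((0, h) : L × (Fin c → ℤ)) - algebraMap M _ (U.β h) ∈ I}
        zero_mem' := hQ0
        add_mem' := fun {h h'} h1 h2 => hQa h h' h1 h2
        neg_mem' := fun {h} h1 => hQn h h1 }
    have hH : ∀ h, h ∈ H := by
      intro h
      have e1 : h = ∑ i, h i • (Pi.single i 1 : Fin c → ℤ) := by
        funext j
        rw [Finset.sum_apply, Finset.sum_eq_single j]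
        · rw [Pi.smul_apply, Pi.single_eq_same, smul_eq_mul, mul_one]
        · intro i _ hi
          rw [Pi.smul_apply, Pi.single_eq_of_ne (Ne.symm hi), smul_zero]
        · intro h'
          exact absurd (Finset.mem_univ _) h'
      rw [e1]
      refine H.sum_mem fun i _ => H.zsmul_mem ?_ _
      change cx M ((0, Pi.single i 1) : L × (Fin c → ℤ)) - algebraMap M _ (U.β _) ∈ I
      rw [U.β_single, ← hf_map, hI]
      exact Ideal.subset_span ⟨i, rfl⟩
    -- the retraction
    obtain ⟨q, hq⟩ : ∃ q : AA M (L × (Fin c → ℤ)) →ₐ[M] AA M L, ∀ x, q (cx M x) =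
        algebraMap M (AA M L) (U.β x.2) * cx M x.1 := by
      refine ⟨AddMonoidAlgebra.lift M (AA M L) (L × (Fin c → ℤ))
        { toFun := fun x => algebraMap M (AA M L) (U.β x.toAdd.2) * cx M x.toAdd.1
          map_one' := by
            change algebraMap M (AA M L) (U.β 0) * cx M 0 = 1
            rw [U.β_zero, map_one, one_mul, cx_zero]
          map_mul' := fun x y => by
            change algebraMap M (AA M L) (U.β (x.toAdd.2 + y.toAdd.2)) *
              cx M (x.toAdd.1 + y.toAdd.1) = _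
            rw [U.β_add, map_mul, cx_add]
            ring }, fun x => ?_⟩
      unfold cx
      rw [AddMonoidAlgebra.lift_single, one_smul]
      rfl
    obtain ⟨j, hj⟩ : ∃ j : AA M L →ₐ[M] AA M (L × (Fin c → ℤ)), ∀ x, j (cx M x) =
        cx M (x, 0) := by
      refine ⟨AddMonoidAlgebra.lift M (AA M (L × (Fin c → ℤ))) L
        { toFun := fun x => cx M (x.toAdd, 0)
          map_one' := cx_zero
          map_mul' := fun x y => by
            rw [← cx_add, Prod.mk_add_mk, add_zero]
            rfl }, fun x => ?_⟩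
      conv_lhs => unfold cx
      rw [AddMonoidAlgebra.lift_single, one_smul]
      rfl
    have h1 : ∀ P : AA M (L × (Fin c → ℤ)), P - j (q P) ∈ I := by
      intro P
      induction P using AA_ind with
      | h0 => rw [map_zero, map_zero, sub_zero]; exact I.zero_mem
      | hadd f g hf hg =>
        have e : f + g - j (q (f + g)) = (f - j (q f)) + (g - j (q g)) := by
          rw [map_add, map_add]
          ring
        rw [e]
        exact I.add_mem hf hg
      | hs o x =>
        obtain ⟨x, h⟩ := x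
        have e1 : cx M ((x, h) : L × (Fin c → ℤ)) = cx M (x, 0) * cx M (0, h) := by
          rw [← cx_add, Prod.mk_add_mk, add_zero, zero_add]
        have e2 : algebraMap M (AA M (L × (Fin c → ℤ))) o * cx M (x, h) -
            j (q (algebraMap M (AA M (L × (Fin c → ℤ))) o * cx M (x, h))) =
            (algebraMap M (AA M (L × (Fin c → ℤ))) o * cx M (x, 0)) *
              (cx M (0, h) - algebraMap M _ (U.β h)) := by
          rw [map_mul, map_mul, hq, AlgHom.commutes, AlgHom.commutes, map_mul, AlgHom.commutes,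
            hj, e1]
          ring
        rw [e2]
        exact I.mul_mem_left _ (hH h)
    have h2 : ∀ P : AA M (L × (Fin c → ℤ)), ψ P = φ (q P) := by
      intro P
      induction P using AA_ind with
      | h0 => rw [map_zero, map_zero, map_zero]
      | hadd f g hf hg => rw [map_add, map_add, map_add, hf, hg]
      | hs o x =>
        rw [map_mul, map_mul, map_mul, hq, map_mul, hψ, hφ, AlgHom.commutes, AlgHom.commutes,
          AlgHom.commutes, AlgHom.commutes]
        rfl
    have h3 : q P = 0 := by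
      apply hinj
      rw [← h2, hP, map_zero]
    have h4 := h1 P
    rwa [h3, map_zero, sub_zero] at h4
  · intro hP
    have h1 : I ≤ RingHom.ker (ψ : AA M (L × (Fin c → ℤ)) →+* K) := by
      rw [hI, Ideal.span_le]
      rintro _ ⟨i, rfl⟩
      change ψ (AddMonoidAlgebra.mapRingHom (L × (Fin c → ℤ)) (algebraMap O M) (hf L U i)) = 0
      rw [hf_map, map_sub, hψ, AlgHom.commutes]
      change algebraMap M K (U.β (Pi.single i 1)) * χ 0 - _ = 0
      rw [U.β_single, χ0, mul_one, sub_self]
    exact h1 hP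

/-- The derivations and squares of prime ideals. -/
lemma Dw_sq {O Λ : Type} [CommRing O] [AddCommGroup Λ] (w : Λ →ₗ[ℤ] ℤ) {Q : Ideal (AA O Λ)}
    {z : AA O Λ} (hz : z ∈ Q ^ 2) : Dw w z ∈ Q := by
  rw [sq] at hz
  refine Submodule.mul_induction_on hz (fun a ha b hb => ?_) (fun a b ha hb => ?_)
  · rw [Dw_mul]
    exact Q.add_mem (Q.mul_mem_right _ ha) (Q.mul_mem_left _ hb)
  · rw [Dw_add]
    exact Q.add_mem ha hb

/-- **The equations of the heights are nondegenerate.** -/
theorem hgt_RG : RG (hf L U) := by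
  classical
  intro ℓ Q hQ hini d hd
  have hnt : Nontrivial O := inferInstance
  have hb0 : ∀ i, U.b i ≠ 0 := fun i h => U.b0 i (by rw [h, map_zero])
  have hne : ∀ i : Fin c, ((0, Pi.single i 1) : L × (Fin c → ℤ)) ≠ 0 := by
    intro i h
    have h1 := congrFun (congrArg Prod.snd h) i
    simp at h1
  have hi2 : ∀ i, ini ℓ (hf L U i) = if ℓ (0, Pi.single i 1) < 0 then
      cx O (0, Pi.single i 1) else if 0 < ℓ (0, Pi.single i 1) then
      - algebraMap O (AA O (L × (Fin c → ℤ))) (U.b i) else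
      cx O (0, Pi.single i 1) - algebraMap O (AA O (L × (Fin c → ℤ))) (U.b i) := by
    intro i
    have h1 := ini_two ℓ (hne i) (one_ne_zero (α := O)) (neg_ne_zero.2 (hb0 i))
    rw [map_zero] at h1
    have h2 : (AddMonoidAlgebra.single 0 (- U.b i) : AA O (L × (Fin c → ℤ))) =
        - algebraMap O (AA O (L × (Fin c → ℤ))) (U.b i) := by
      rw [AddMonoidAlgebra.single_neg]
      rfl
    rw [h2] at h1
    have h3 : hf L U i = AddMonoidAlgebra.single (0, Pi.single i 1) 1 +
        - algebraMap O (AA O (L × (Fin c → ℤ))) (U.b i) := by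
      unfold hf
      rw [h2]
    rw [h3, h1, ← sub_eq_add_neg]
    rfl
  have hnn : ∀ i, ¬ ℓ (0, Pi.single i 1) < 0 := by
    intro i hi
    have h1 := hini i
    rw [hi2, if_pos hi] at h1
    exact hQ.ne_top (Ideal.eq_top_of_isUnit_mem _ h1 (cx_unit _))
  have hb : ∀ i, 0 < ℓ (0, Pi.single i 1) →
      algebraMap O (AA O (L × (Fin c → ℤ))) (U.b i) ∈ Q := by
    intro i hi
    have h1 := hini i
    rw [hi2, if_neg (hnn i), if_pos hi] at h1
    exact (Q.neg_mem_iff).1 h1
  have huniq : ∀ i j, 0 < ℓ (0, Pi.single i 1) → 0 < ℓ (0, Pi.single j 1) → i = j := by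
    intro i j hi hj
    by_contra hij
    have h1 := U.mx i
    have h2 : Ideal.span {U.b i} ≤ Q.comap (algebraMap O (AA O (L × (Fin c → ℤ)))) := by
      rw [Ideal.span_singleton_le_iff_mem]
      exact hb i hi
    have h3 := h1.eq_of_le (Ideal.comap_ne_top _ hQ.ne_top) h2
    exact U.ne i j hij (by rw [h3]; exact hb j hj)
  -- the derivations
  let w : Fin c → (L × (Fin c → ℤ)) →ₗ[ℤ] ℤ := fun j =>
    (LinearMap.proj j : (Fin c → ℤ) →ₗ[ℤ] ℤ) ∘ₗ LinearMap.snd ℤ L (Fin c → ℤ)
  have hD : ∀ i j, ¬ 0 < ℓ (0, Pi.single j 1) → Dw (w j) (ini ℓ (hf L U i)) =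
      if i = j then cx O (0, Pi.single j 1) else 0 := by
    intro i j hj
    have hneg : ∀ x : AA O (L × (Fin c → ℤ)), Dw (w j) (-x) = - Dw (w j) x :=
      fun x => map_neg (Dh (w j)) x
    rw [hi2, if_neg (hnn i)]
    split_ifs with h1 h2 h2
    · subst h2
      exact absurd h1 hj
    · rw [hneg, Dw_C, neg_zero]
    · subst h2
      rw [sub_eq_add_neg, Dw_add, hneg, Dw_C, neg_zero, add_zero, Dw_cx]
      change ((Pi.single i 1 : Fin c → ℤ) i : AA O (L × (Fin c → ℤ))) * _ = _
      rw [Pi.single_eq_same, Int.cast_one, one_mul]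
    · rw [sub_eq_add_neg, Dw_add, hneg, Dw_C, neg_zero, add_zero, Dw_cx]
      change ((Pi.single i 1 : Fin c → ℤ) j : AA O (L × (Fin c → ℤ))) * _ = _
      rw [Pi.single_eq_of_ne (Ne.symm h2), Int.cast_zero, zero_mul]
  have hz : ∀ j, ¬ 0 < ℓ (0, Pi.single j 1) → d j ∈ Q := by
    intro j hj
    have h1 := Dw_sq (w j) hd
    rw [Dw_sum] at h1
    have h2 : ∑ r, Dw (w j) (d r * ini ℓ (hf L U r)) =
        d j * cx O (0, Pi.single j 1) + ∑ r, Dw (w j) (d r) * ini ℓ (hf L U r) := by
      simp only [Dw_mul, Finset.sum_add_distrib]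
      congr 1
      rw [Finset.sum_eq_single j]
      · rw [hD j j hj, if_pos rfl]
      · intro i _ hi
        rw [hD i j hj, if_neg hi, mul_zero]
      · intro h'
        exact absurd (Finset.mem_univ _) h'
    rw [h2] at h1
    have h3 := (Q.add_mem_iff_left (Ideal.sum_mem _ fun r _ => Q.mul_mem_left _ (hini r))).1 h1
    exact (hQ.mem_or_mem h3).resolve_right fun h4 =>
      hQ.ne_top (Ideal.eq_top_of_isUnit_mem _ h4 (cx_unit _))
  intro i
  by_cases hi : 0 < ℓ (0, Pi.single i 1)
  · refine unif_sq (hb0 i) (U.mx i) Q (hb i hi) ?_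
    have h1 : ∑ r, d r * ini ℓ (hf L U r) = d i * ini ℓ (hf L U i) +
        ∑ r ∈ Finset.univ.erase i, d r * ini ℓ (hf L U r) :=
      (Finset.add_sum_erase _ _ (Finset.mem_univ i)).symm
    rw [h1] at hd
    have h2 : ∑ r ∈ Finset.univ.erase i, d r * ini ℓ (hf L U r) ∈ Q ^ 2 := by
      refine Ideal.sum_mem _ fun r hr => ?_
      rw [sq]
      exact Ideal.mul_mem_mul (hz r fun h => (Finset.mem_erase.1 hr).1 (huniq r i h hi)) (hini r)
    have h3 := (Ideal.add_mem_iff_left _ h2).1 hd
    rw [hi2, if_neg (hnn i), if_pos hi, mul_neg, mul_comm] at h3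
    exact (Ideal.neg_mem_iff _).1 h3
  · exact hz i hi

end ker

end Pool.Agent.T9h3.R
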