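import Pool.Agent.T9h3.R.Hgt

/-!
# The action on the lattices with heights
-/

set_option autoImplicit false
set_option linter.unusedSectionVars false
set_option linter.overlappingInstances false
set_option linter.unusedVariables false

namespace Pool.Agent.T9h3.R

open Pool.Agent.Y223.G Pool.Agent.R383.TM Pool.Agent.T9h3 Pool.Agent.T9h3.H
open Pool.Agent.T9h3.P Pool.Agent.T9h3.Q

section act

variable {O E M K L : Type} {c : ℕ} [CommRing O] [IsDomain O] [IsDedekindDomain O] [Field E]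
  [Field M] [Algebra O M] [IsFractionRing O M] [Algebra E M]
  [Field K] [Algebra M K] [Algebra E K] [IsScalarTower E M K] [AddCommGroup L]
  [DistribMulAction (M ≃ₐ[E] M) L]
  (U : UNI O M c) {χ : L → K} {ρ : (M ≃ₐ[E] M) →* (K ≃ₐ[E] K)}
  {γ : (M ≃ₐ[E] M) → L → M}

/-- The constants of the action. -/
structure CST (ρ : (M ≃ₐ[E] M) →* (K ≃ₐ[E] K)) (χ : L → K) (γ : (M ≃ₐ[E] M) → L → M) : Prop where
  χ0 : χ 0 = 1
  χa : ∀ x y, χ (x + y) = χ x * χ y
  hρ : ∀ g x, ρ g (algebraMap M K x) = algebraMap M K (g x)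
  act : ∀ g x, ρ g (χ x) = algebraMap M K (γ g x) * χ (g • x)

variable (C : CST ρ χ γ)

include C

lemma CST.ne0 (g : M ≃ₐ[E] M) (x : L) : γ g x ≠ 0 := by
  intro h
  have h1 := C.act g x
  rw [h, map_zero, zero_mul, map_eq_zero] at h1
  exact chi_ne C.χ0 C.χa _ h1

lemma CST.inj : Function.Injective (algebraMap M K) := (algebraMap M K).injective

lemma CST.add (g : M ≃ₐ[E] M) (x y : L) : γ g (x + y) = γ g x * γ g y := by
  apply C.inj
  have h1 := C.act g (x + y)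
  rw [C.χa, map_mul, C.act, C.act, smul_add, C.χa] at h1
  have h2 : χ (g • x) * χ (g • y) ≠ 0 :=
    mul_ne_zero (chi_ne C.χ0 C.χa _) (chi_ne C.χ0 C.χa _)
  apply mul_right_cancel₀ h2
  rw [← h1, map_mul]
  ring

lemma CST.zero (g : M ≃ₐ[E] M) : γ g 0 = 1 := by
  apply C.inj
  have h1 := C.act g 0
  rw [smul_zero, C.χ0, mul_one, map_one] at h1
  rw [← h1, map_one]

lemma CST.one (x : L) : γ 1 x = 1 := by
  apply C.inj
  have h1 := C.act 1 x
  rw [map_one, one_smul] at h1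
  have h2 := chi_ne C.χ0 C.χa x
  apply mul_right_cancel₀ h2
  rw [← h1, map_one, one_mul]
  rfl

lemma CST.mul (g h : M ≃ₐ[E] M) (x : L) : γ (g * h) x = g (γ h x) * γ g (h • x) := by
  apply C.inj
  have h1 := C.act (g * h) x
  have h3 : ρ (g * h) (χ x) = ρ g (ρ h (χ x)) := by rw [map_mul]; rfl
  rw [h3, C.act h, map_mul, C.hρ, C.act, mul_smul] at h1
  have h2 := chi_ne C.χ0 C.χa (g • h • x)
  apply mul_right_cancel₀ h2
  rw [← h1, map_mul]
  ring

variable (hO : ∀ (g : M ≃ₐ[E] M) (o : O), ∃ o' : O, algebraMap O M o' = g (algebraMap O M o))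

include hO in
lemma CST.v_map (g : M ≃ₐ[E] M) {x y : M} (hx : x ≠ 0) (hy : y ≠ 0) (h : U.v x = U.v y) :
    U.v (g x) = U.v (g y) :=
  U.v_map (g := (g : M →+* M)) (hO g) (IsFractionRing.injective O M) hx hy h

omit C in
lemma g_ne (g : M ≃ₐ[E] M) {x : M} (hx : x ≠ 0) : g x ≠ 0 := by rwa [Ne, map_eq_zero_iff _ g.injective]

/-- The action. -/
@[reducible] noncomputable def hact : DistribMulAction (M ≃ₐ[E] M) (L × (Fin c → ℤ)) where
  smul := fun g z => (g • z.1, U.v (g (U.β z.2) * γ g z.1))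
  one_smul := fun z => by
    change ((1 : M ≃ₐ[E] M) • z.1, U.v ((1 : M ≃ₐ[E] M) (U.β z.2) * γ 1 z.1)) = z
    rw [one_smul, C.one, mul_one, AlgEquiv.one_apply, U.v_β]
  mul_smul := fun g h z => by
    change ((g * h) • z.1, U.v ((g * h) (U.β z.2) * γ (g * h) z.1)) =
      (g • h • z.1, U.v (g (U.β (U.v (h (U.β z.2) * γ h z.1))) * γ g (h • z.1)))
    have h1 : h (U.β z.2) * γ h z.1 ≠ 0 := mul_ne_zero (g_ne h (U.β_ne _)) (C.ne0 h _)
    rw [mul_smul, U.vm _ _ (g_ne g (U.β_ne _)) (C.ne0 g _),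
      C.v_map U hO g (U.β_ne _) h1 (U.v_β _), ← U.vm _ _ (g_ne g h1) (C.ne0 g _), C.mul,
      map_mul, AlgEquiv.mul_apply, mul_assoc]
  smul_zero := fun g => by
    change (g • (0 : L), U.v (g (U.β 0) * γ g 0)) = 0
    rw [smul_zero, U.β_zero, C.zero, map_one, mul_one, U.v_one]
    rfl
  smul_add := fun g z z' => by
    change (g • (z.1 + z'.1), U.v (g (U.β (z.2 + z'.2)) * γ g (z.1 + z'.1))) =
      (g • z.1 + g • z'.1, U.v (g (U.β z.2) * γ g z.1) + U.v (g (U.β z'.2) * γ g z'.1))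
    rw [smul_add, U.β_add, C.add, ← U.vm _ _ (mul_ne_zero (g_ne g (U.β_ne _)) (C.ne0 g _))
      (mul_ne_zero (g_ne g (U.β_ne _)) (C.ne0 g _)), map_mul]
    congr 2
    ring

/-- The action on the characters with heights. -/
lemma hact_unit (g : M ≃ₐ[E] M) (z : L × (Fin c → ℤ)) :
    ∃ u : O, ρ g (hχ U χ z) = algebraMap M K (algebraMap O M u) *
      hχ U χ (g • z.1, U.v (g (U.β z.2) * γ g z.1)) := by
  have h1 : g (U.β z.2) * γ g z.1 ≠ 0 := mul_ne_zero (g_ne g (U.β_ne _)) (C.ne0 g _)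
  obtain ⟨w, hw⟩ : ∃ w, w = U.v (g (U.β z.2) * γ g z.1) := ⟨_, rfl⟩
  obtain ⟨u, -, hu⟩ := U.exists_unit h1 (U.β_ne w) ((U.v_β w).trans hw).symm
  refine ⟨u, ?_⟩
  rw [← hw]
  change ρ g (algebraMap M K (U.β z.2) * χ z.1) = algebraMap M K (algebraMap O M u) *
    (algebraMap M K (U.β w) * χ (g • z.1))
  rw [map_mul, C.hρ, C.act, ← mul_assoc, ← map_mul, hu, map_mul, mul_assoc]

end act

section big

variable {O E M K : Type} [CommRing O] [Field E]
  [Field M] [Algebra O M] [Algebra E M]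
  [Field K] [Algebra M K] [Algebra E K] [IsScalarTower E M K]

/-- The relations of linearly independent characters. -/
lemma hk_empty {Λ : Type} [AddCommGroup Λ] {χ : Λ → K} (χ0 : χ 0 = 1)
    (χa : ∀ x y, χ (x + y) = χ x * χ y) (hli : LinearIndependent M χ)
    (P : AddMonoidAlgebra M Λ) :
    (P.coeff.sum fun x b => algebraMap M K b * χ x) = 0 ↔ P ∈ Ideal.span (Set.range fun r =>
      AddMonoidAlgebra.mapRingHom Λ (algebraMap O M) ((Fin.elim0 : Fin 0 → AA O Λ) r)) := by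
  obtain ⟨φ, hφ⟩ := exists_ev (K := K) M χ0 χa
  have hinj := ev_inj hli hφ
  rw [ev_sum hφ, Set.range_eq_empty, Ideal.span_empty]
  constructor
  · intro hP
    exact hinj (hP.trans (map_zero φ).symm)
  · intro hP
    have h1 : P = 0 := hP
    rw [h1, map_zero]

/-- The presentations over the big chart. -/
theorem prs_big {D₀ : CHL E M K} (hli : LinearIndependent M D₀.χ)
    {ρ : (M ≃ₐ[E] M) →* (K ≃ₐ[E] K)} {r : O}
    (hnw : ∀ (𝔓 : Ideal O) (p : ℕ) (g : M ≃ₐ[E] M), 𝔓.IsMaximal → p.Prime → (p : O) ∈ 𝔓 →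
      g ∈ InS E M 𝔓 → orderOf g ≠ p)
    (act : ∀ g x, ∃ u : O, ρ g (D₀.χ x) = algebraMap M K (algebraMap O M u) * D₀.χ (g • x)) :
    PRS E ρ r D₀.χ (Fin.elim0 : Fin 0 → AA O D₀.Λ) := by
  refine ⟨D₀.χ0, D₀.χa, hk_empty D₀.χ0 D₀.χa hli, ?_, Or.inr ⟨hnw, act⟩⟩
  · intro ℓ Q hQ _ d _ i
    exact i.elim0

end big

section prs

variable {O E M K : Type} [CommRing O] [IsDomain O] [IsDedekindDomain O] [Field E]
  [Field M] [Algebra O M] [IsFractionRing O M] [Algebra E M]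
  [Field K] [Algebra M K] [Algebra E K] [IsScalarTower E M K]

/-- The lattice with heights. -/
noncomputable def hCHL {D₀ : CHL E M K} {c : ℕ} (U : UNI O M c)
    {ρ : (M ≃ₐ[E] M) →* (K ≃ₐ[E] K)} {γ : (M ≃ₐ[E] M) → D₀.Λ → M} (C : CST ρ D₀.χ γ)
    (hO : ∀ (g : M ≃ₐ[E] M) (o : O), ∃ o' : O, algebraMap O M o' = g (algebraMap O M o)) :
    CHL E M K where
  Λ := D₀.Λ × (Fin c → ℤ)
  i1 := inferInstance
  i2 := inferInstance
  i3 := inferInstance
  i4 := hact U C hO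
  χ := hχ U D₀.χ
  χ0 := by
    change algebraMap M K (U.β 0) * D₀.χ 0 = 1
    rw [U.β_zero, D₀.χ0, map_one, mul_one]
  χa := by
    intro x y
    change algebraMap M K (U.β (x.2 + y.2)) * D₀.χ (x.1 + y.1) =
      algebraMap M K (U.β x.2) * D₀.χ x.1 * (algebraMap M K (U.β y.2) * D₀.χ y.1)
    rw [U.β_add, D₀.χa, map_mul]
    ring

/-- **The presentations of torsors without wild ramification.** -/
theorem prs_tame {D₀ : CHL E M K} (hli : LinearIndependent M D₀.χ)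
    {ρ : (M ≃ₐ[E] M) →* (K ≃ₐ[E] K)}
    (hρ : ∀ g x, ρ g (algebraMap M K x) = algebraMap M K (g x)) (hs : SML ρ D₀)
    (hO : ∀ (g : M ≃ₐ[E] M) (o : O), ∃ o' : O, algebraMap O M o' = g (algebraMap O M o))
    (hfin : {I : Ideal O | I.IsMaximal}.Finite)
    (hnw : ∀ (𝔓 : Ideal O) (p : ℕ) (g : M ≃ₐ[E] M), 𝔓.IsMaximal → p.Prime → (p : O) ∈ 𝔓 →
      g ∈ InS E M 𝔓 → orderOf g ≠ p) (r : O) :
    ∃ (D : CHL E M K) (c : ℕ) (f : Fin c → AA O D.Λ),
      PRS E ρ r D.χ f ∧ REL D D₀ ∧ REL D₀ D := by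
  classical
  obtain ⟨c, ⟨U⟩⟩ := exists_uni (O := O) (M := M) hfin
  choose γ hγ using hs
  have C : CST ρ D₀.χ γ := ⟨D₀.χ0, D₀.χa, hρ, hγ⟩
  refine ⟨hCHL U C hO, c, hf D₀.Λ U, ⟨(hCHL U C hO).χ0, (hCHL U C hO).χa, ?_, ?_,
    Or.inr ⟨hnw, ?_⟩⟩, ?_, ?_⟩
  · exact hgt_hk U D₀.χ0 D₀.χa hli
  · exact hgt_RG U
  · exact fun g z => hact_unit U C g z
  · exact fun z => ⟨z.1, U.β z.2, rfl⟩
  · intro x
    refine ⟨(x, 0), 1, ?_⟩
    change D₀.χ x = algebraMap M K 1 * (algebraMap M K (U.β 0) * D₀.χ x)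
    rw [U.β_zero, map_one, one_mul, one_mul]

/-- The change of the characters. -/
noncomputable def aCHL (D₀ : CHL E M K) {a : D₀.Λ → M} (ha0 : a 0 = 1)
    (haa : ∀ x y, a (x + y) = a x * a y) : CHL E M K where
  Λ := D₀.Λ
  i1 := inferInstance
  i2 := inferInstance
  i3 := inferInstance
  i4 := inferInstance
  χ := fun x => algebraMap M K (a x) * D₀.χ x
  χ0 := by rw [ha0, D₀.χ0, map_one, mul_one]
  χa := by
    intro x y
    rw [haa, D₀.χa, map_mul]
    ring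

/-- The presentations with wild ramification. -/
theorem prs_wild {D₀ : CHL E M K} (hli : LinearIndependent M D₀.χ)
    (hgen : IntermediateField.adjoin M (Set.range D₀.χ) = ⊤)
    {ρ : (M ≃ₐ[E] M) →* (K ≃ₐ[E] K)} {r : O} {a : D₀.Λ → M} (ha0 : a 0 = 1)
    (haa : ∀ x y, a (x + y) = a x * a y)
    (h : ∀ g x, ∃ e : O, ρ g (algebraMap M K (a x) * D₀.χ x) =
      algebraMap M K (algebraMap O M (1 + r * e)) * (algebraMap M K (a (g • x)) * D₀.χ (g • x))) :
    ∃ (D : CHL E M K) (c : ℕ) (f : Fin c → AA O D.Λ),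
      PRS E ρ r D.χ f ∧ REL D D₀ ∧ REL D₀ D := by
  classical
  have hane : ∀ x, a x ≠ 0 := by
    intro x hx
    have h1 := haa x (-x)
    rw [add_neg_cancel, ha0, hx, zero_mul] at h1
    exact one_ne_zero h1
  have χ0' : algebraMap M K (a 0) * D₀.χ 0 = 1 := by rw [ha0, D₀.χ0, map_one, mul_one]
  have χa' : ∀ x y, algebraMap M K (a (x + y)) * D₀.χ (x + y) =
      algebraMap M K (a x) * D₀.χ x * (algebraMap M K (a y) * D₀.χ y) := by
    intro x y
    rw [haa, D₀.χa, map_mul]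
    ring
  have hli' : LinearIndependent M (fun x => algebraMap M K (a x) * D₀.χ x) := by
    have h1 := hli.units_smul (fun x => Units.mk0 (a x) (hane x))
    have h2 : (fun x => algebraMap M K (a x) * D₀.χ x) =
        (fun x => Units.mk0 (a x) (hane x)) • D₀.χ := by
      funext x
      change _ = (Units.mk0 (a x) (hane x)) • D₀.χ x
      rw [Units.smul_def, Units.val_mk0, Algebra.smul_def]
    rw [h2]
    exact h1
  have hgen' : IntermediateField.adjoin M (Set.range (fun x => algebraMap M K (a x) * D₀.χ x)) =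
      ⊤ := by
    rw [eq_top_iff, ← hgen, IntermediateField.adjoin_le_iff]
    rintro _ ⟨x, rfl⟩
    have h1 : D₀.χ x = algebraMap M K (a x)⁻¹ * (algebraMap M K (a x) * D₀.χ x) := by
      rw [← mul_assoc, ← map_mul, inv_mul_cancel₀ (hane x), map_one, one_mul]
    change D₀.χ x ∈ _
    rw [h1]
    exact mul_mem (IntermediateField.algebraMap_mem _ _)
      (IntermediateField.subset_adjoin _ _ ⟨x, rfl⟩)
  obtain ⟨ρ₀, hρ₀, act₀⟩ := exists_exact (E := E) χ0' χa' hli' hgen'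
  refine ⟨aCHL D₀ ha0 haa, 0, Fin.elim0, ⟨χ0', χa', ?_, ?_, Or.inl ⟨?_, ρ₀, hρ₀, act₀, h⟩⟩,
    ?_, ?_⟩
  · exact hk_empty χ0' χa' hli'
  · intro ℓ Q hQ _ d _ i
    exact i.elim0
  · intro 𝔓 p g h𝔓 hp hp𝔓 ho hg ℓ hℓ Q hQ h1 h2 h3
    refine ⟨Fin.elim0, fun i => i.elim0, ?_⟩
    rw [Matrix.det_fin_zero]
    exact fun h => hQ.ne_top ((Ideal.eq_top_iff_one _).2 h)
  · exact fun x => ⟨x, a x, rfl⟩
  · intro x
    refine ⟨x, (a x)⁻¹, ?_⟩
    change D₀.χ x = algebraMap M K (a x)⁻¹ * (algebraMap M K (a x) * D₀.χ x)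
    rw [← mul_assoc, ← map_mul, inv_mul_cancel₀ (hane x), map_one, one_mul]

end prs

end Pool.Agent.T9h3.R
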