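import Pool.Agent.T9h3.R.Fib

/-!
# The local data at the places
-/

set_option autoImplicit false
set_option linter.unusedSectionVars false
set_option linter.overlappingInstances false
set_option linter.unusedVariables false

namespace Pool.Agent.T9h3.R

open Pool.Agent.Y223.G Pool.Agent.R383.TM Pool.Agent.T9h3 Pool.Agent.T9h3.H
open Pool.Agent.T9h3.P Pool.Agent.T9h3.Q

/-- The characters of the first lattice are characters of the second one, up to constants. -/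
def REL {E M K : Type} [Field E] [Field M] [Field K] [Algebra E M] [Algebra M K]
    (D D' : CHL E M K) : Prop :=
  ∀ x, ∃ y, ∃ a : M, D.χ x = algebraMap M K a * D'.χ y

/-- The action is semilinear up to constants. -/
def SML {E M K : Type} [Field E] [Field M] [Field K] [Algebra E M] [Algebra M K] [Algebra E K]
    (ρ : (M ≃ₐ[E] M) →* (K ≃ₐ[E] K)) (D : CHL E M K) : Prop :=
  ∀ g x, ∃ u : M, ρ g (D.χ x) = algebraMap M K u * D.χ (g • x)

/-- The integral closure of the valuation ring is a semilocal Dedekind ring. -/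
structure GOOD {E : Type} (M : Type) [Field E] [Field M] [Algebra E M] (V : ValuationSubring E) :
    Prop where
  ded : IsDedekindDomain V
  dedO : IsDedekindDomain (integralClosure V M)
  fin : {I : Ideal (integralClosure V M) | I.IsMaximal}.Finite

theorem good_of {k E M : Type} [CommRing k] [IsDomain k] [IsDedekindDomain k] [Field E]
    [Algebra k E] [IsFractionRing k E] [Field M] [Algebra E M] [FiniteDimensional E M]
    [IsGalois E M] {V : ValuationSubring E} {𝔭 : Ideal k} (h : VP k V 𝔭) : GOOD M V := by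
  have h1 := h.ded
  have h2 := h.dedO (M := M)
  refine ⟨h1, h2, ?_⟩
  obtain ⟨x, hx𝔭, hx0⟩ := Submodule.exists_mem_ne_zero_of_ne_bot h.ne
  have hxE : algebraMap k E x ≠ 0 := fun h' => hx0 (IsFractionRing.injective k E (by
    rw [h', map_zero]))
  have hxV : (⟨algebraMap k E x, h.le x⟩ : V) ∈ IsLocalRing.maximalIdeal V := by
    rw [IsLocalRing.mem_maximalIdeal, mem_nonunits_iff]
    intro hu
    obtain ⟨y, hy⟩ := hu.exists_right_inv
    have h3 : algebraMap k E x * (y : E) = 1 := congrArg Subtype.val hy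
    have h4 : (algebraMap k E x)⁻¹ = (y : E) := inv_eq_of_mul_eq_one_right h3
    rcases (h.iff x).1 hx𝔭 with h5 | h5
    · exact hxE h5
    · exact h5 (by rw [h4]; exact y.2)
  have hinj : Function.Injective (algebraMap V (integralClosure V M)) := by
    intro a b hab
    have h3 : algebraMap E M (a : E) = algebraMap E M (b : E) := congrArg Subtype.val hab
    exact Subtype.ext ((algebraMap E M).injective h3)
  have h0 : algebraMap V (integralClosure V M) ⟨algebraMap k E x, h.le x⟩ ≠ 0 := by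
    intro h3
    exact hxE (congrArg Subtype.val (hinj (h3.trans (map_zero _).symm)))
  obtain ⟨B, hB⟩ := exists_primes h0
  refine B.finite_toSet.subset fun I hI => ?_
  have hI' : I.IsMaximal := hI
  refine (hB I).2 ⟨hI', ?_⟩
  have h3 : (I.comap (algebraMap V (integralClosure V M))).IsMaximal :=
    Ideal.isMaximal_comap_of_isIntegral_of_isMaximal I
  have h4 := IsLocalRing.eq_maximalIdeal h3
  rw [← h4] at hxV
  exact hxV

section

variable {k E M F K : Type} [CommRing k] [IsDomain k]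
  [IsDedekindDomain k] [Field E] [Field M] [Field F] [Field K] [Algebra E F]
  [Algebra k E] [Algebra k F] [IsScalarTower k E F] [IsFractionRing k E]
  [Algebra E M] [FiniteDimensional E M] [IsGalois E M]
  [Algebra M K] [Algebra E K] [IsScalarTower E M K] [Algebra F K] [IsScalarTower E F K]

/-- The local data. -/
def LOC (F : Type) {k E M K : Type} [CommRing k] [Field E] [Field M] [Field F] [Field K]
    [Algebra E F] [Algebra k F] [Algebra E M] [Algebra M K] [Algebra E K] [Algebra F K]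
    (ρ : (M ≃ₐ[E] M) →* (K ≃ₐ[E] K)) (𝔭 : Ideal k) (D₀ : CHL E M K) : Prop :=
  ∃ (D : CHL E M K) (Θ : Finset D.Λ), SML ρ D ∧ REL D D₀ ∧ REL D₀ D ∧
    ∀ Δ : Set D.Λ, Δ.Finite → Δ.Nonempty → (∀ g : M ≃ₐ[E] M, ∀ x ∈ Δ, g • x ∈ Δ) →
      (∀ g : M ≃ₐ[E] M, CVP (SVR (orderOf g) (sA D.Λ g) (Θ : Set D.Λ) Δ) Δ) →
      ∀ S : Set F, S.Finite →
      Submodule.span M (algebraMap F K '' S) = Submodule.span M (D.χ '' Δ) →
      GLK 𝔭 (Submodule.span E S)

lemma PRS.sml {O : Type} [CommRing O] [Algebra O M] {ρ : (M ≃ₐ[E] M) →* (K ≃ₐ[E] K)} {r : O}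
    {D : CHL E M K} {c : ℕ} {f : Fin c → AA O D.Λ} (N : PRS E ρ r D.χ f) : SML ρ D := by
  intro g x
  rcases N.eq with ⟨-, ρ₀, -, -, act⟩ | ⟨-, act⟩
  · obtain ⟨e, he⟩ := act g x
    exact ⟨_, he⟩
  · obtain ⟨e, he⟩ := act g x
    exact ⟨_, he⟩

lemma REL.gen {D D' : CHL E M K} (h : REL D D')
    (hgen : IntermediateField.adjoin M (Set.range D.χ) = ⊤) :
    IntermediateField.adjoin M (Set.range D'.χ) = ⊤ := by
  rw [eq_top_iff, ← hgen, IntermediateField.adjoin_le_iff]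
  rintro _ ⟨x, rfl⟩
  obtain ⟨y, a, hy⟩ := h x
  rw [hy]
  exact mul_mem (IntermediateField.algebraMap_mem _ _)
    (IntermediateField.subset_adjoin _ _ ⟨y, rfl⟩)

/-- **The local data from presentations over a valuation ring.** -/
theorem LOC_of {V : ValuationSubring E} {𝔭 : Ideal k} (hV : VP k V 𝔭)
    (hfin : Finite (k ⧸ 𝔭)) {ρ : (M ≃ₐ[E] M) →* (K ≃ₐ[E] K)}
    (hρ : ∀ g x, ρ g (algebraMap M K x) = algebraMap M K (g x))
    (fix : ∀ y, (∀ g, ρ g y = y) ↔ ∃ z : F, algebraMap F K z = y)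
    (hin : HIN E M (integralClosure V M)) {D₀ : CHL E M K}
    (hgen : IntermediateField.adjoin M (Set.range D₀.χ) = ⊤)
    (h1 : ∀ r : V, r ≠ 0 → ∃ (D : CHL E M K) (c : ℕ) (f : Fin c → AA (integralClosure V M) D.Λ),
      PRS E ρ (algebraMap V (integralClosure V M) r) D.χ f ∧ REL D D₀ ∧ REL D₀ D) :
    LOC F ρ 𝔭 D₀ := by
  have i1 := hV.ded
  have i2 := hV.dedO (M := M)
  obtain ⟨r, hr0, hr⟩ := exists_prec (M := M) hV
  obtain ⟨D, c, f, hN, hR, hR'⟩ := h1 r hr0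
  obtain ⟨Θ, hΘ⟩ := exists_DFN f
  refine ⟨D, Θ, hN.sml, hR, hR', fun Δ fin ne st h S hSf hS => ?_⟩
  exact VPglk_prs hV hfin hρ hin hr (hR'.gen hgen) fix hN hΘ fin ne st h hSf hS

/-- **Compatible data at several places.** -/
theorem common_of {ρ : (M ≃ₐ[E] M) →* (K ≃ₐ[E] K)}
    (hρ : ∀ g x, ρ g (algebraMap M K x) = algebraMap M K (g x))
    (fix : ∀ y, (∀ g, ρ g y = y) ↔ ∃ z : F, algebraMap F K z = y)
    {D₀ : CHL E M K} (hs₀ : SML ρ D₀) (Θ₀ : Finset D₀.Λ) (B : Finset (Ideal k))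
    (hloc : ∀ 𝔭 ∈ B, LOC F ρ 𝔭 D₀) :
    ∃ (Δ : Set D₀.Λ) (S : Set F), Δ.Finite ∧ Δ.Nonempty ∧
      (∀ g : M ≃ₐ[E] M, ∀ x ∈ Δ, g • x ∈ Δ) ∧
      (∀ g : M ≃ₐ[E] M, CVP (SVR (orderOf g) (sA D₀.Λ g) (Θ₀ : Set D₀.Λ) Δ) Δ) ∧
      S.Finite ∧ Submodule.span M (algebraMap F K '' S) = Submodule.span M (D₀.χ '' Δ) ∧
      ∀ 𝔭 ∈ B, GLK 𝔭 (Submodule.span E S) := by
  classical
  have hloc' : ∀ 𝔭 : {𝔭 // 𝔭 ∈ B}, LOC F ρ 𝔭.1 D₀ := fun 𝔭 => hloc 𝔭.1 𝔭.2
  unfold LOC at hloc'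
  choose D Θ hsD hRD hRD' hGD using hloc'
  obtain ⟨D', hD'⟩ : ∃ D' : Option {𝔭 // 𝔭 ∈ B} → CHL E M K, D' = fun o => o.elim D₀ D := ⟨_, rfl⟩
  obtain ⟨Δ, h1, h2⟩ := exists_common (D := fun o : Option {𝔭 // 𝔭 ∈ B} => o.elim D₀ D) hρ
    (fun o => by
      cases o with
      | none => exact hs₀
      | some 𝔭 => exact hsD 𝔭)
    (fun o o' => by
      have h3 : ∀ o : Option {𝔭 // 𝔭 ∈ B}, REL (o.elim D₀ D) D₀ := by
        intro o
        cases o with
        | none => exact fun x => ⟨x, 1, by rw [map_one, one_mul]; rfl⟩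
        | some 𝔭 => exact hRD 𝔭
      have h4 : ∀ o : Option {𝔭 // 𝔭 ∈ B}, REL D₀ (o.elim D₀ D) := by
        intro o
        cases o with
        | none => exact fun x => ⟨x, 1, by rw [map_one, one_mul]; rfl⟩
        | some 𝔭 => exact hRD' 𝔭
      intro x
      obtain ⟨y, a, hy⟩ := h3 o x
      obtain ⟨z, b, hz⟩ := h4 o' y
      exact ⟨z, a * b, by rw [hy, hz, map_mul, mul_assoc]⟩)
    (fun o => match o with
      | none => Θ₀
      | some 𝔭 => Θ 𝔭)
  obtain ⟨fin, ne, st, cv⟩ := h1 none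
  obtain ⟨S, hSf, hS⟩ := exists_descC (D₀ := D₀) hρ (algebraMap F K) (algebraMap F K).injective
    fix hs₀ fin st
  refine ⟨Δ none, S, fin, ne, st, cv, hSf, hS, fun 𝔭 h𝔭 => ?_⟩
  obtain ⟨fin', ne', st', cv'⟩ := h1 (some ⟨𝔭, h𝔭⟩)
  exact hGD ⟨𝔭, h𝔭⟩ _ fin' ne' st' cv' S hSf (hS.trans (h2 none (some ⟨𝔭, h𝔭⟩)))

end

end Pool.Agent.T9h3.R
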