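import Pool.Agent.T9h3.R.Gun

/-!
# Number fields, with local data at the places
-/

set_option autoImplicit false
set_option linter.unusedSectionVars false
set_option linter.overlappingInstances false
set_option linter.unusedVariables false

namespace Pool.Agent.T9h3.R

open Pool.Agent.Y223.G Pool.Agent.R383.TM Pool.Agent.T9h3 Pool.Agent.T9h3.H
open Pool.Agent.T9h3.P Pool.Agent.T9h3.Q Pool.Agent.H918R2.Quad
open scoped NumberField

section nf

variable {E M F K : Type} [Field E] [NumberField E] [Field M] [CharZero M] [Algebra E M]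
  [FiniteDimensional E M] [IsGalois E M] [Field F] [Field K] [Algebra E F] [Algebra (𝓞 E) F]
  [IsScalarTower (𝓞 E) E F] [Algebra M K]
  [Algebra E K] [IsScalarTower E M K] [Algebra F K] [IsScalarTower E F K]
  {ρ : (M ≃ₐ[E] M) →* (K ≃ₐ[E] K)}

/-- **Varieties with presentations at all places, over number fields.** -/
theorem nf_hasModuleW {n : ℕ} (hn : n ≠ 0)
    (hρ : ∀ g x, ρ g (algebraMap M K x) = algebraMap M K (g x))
    (fix : ∀ y, (∀ g, ρ g y = y) ↔ ∃ z : F, algebraMap F K z = y)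
    (hin0 : HIN E M (integralClosure (Algebra.adjoin ℤ {(n : ℚ)⁻¹}) M))
    {D₀ : CHL E M K} (hgen : IntermediateField.adjoin M (Set.range D₀.χ) = ⊤)
    {c₀ : ℕ} {f₀ : Fin c₀ → AA (integralClosure (Algebra.adjoin ℤ {(n : ℚ)⁻¹}) M) D₀.Λ}
    (h0 : PRS E ρ 0 D₀.χ f₀)
    (h1 : ∀ V : ValuationSubring E, (n : E)⁻¹ ∉ V → LOCV F ρ V D₀) :
    HasModule (𝓞 E) F := by
  classical
  have hnE : (n : E) ≠ 0 := by exact_mod_cast hn
  have hnO : (n : 𝓞 E) ≠ 0 := by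
    intro h
    apply hnE
    have := congrArg (algebraMap (𝓞 E) E) h
    simpa using this
  obtain ⟨B, hB⟩ := exists_primes hnO
  have hloc : ∀ 𝔭 ∈ B, LOC F ρ 𝔭 D₀ := by
    intro 𝔭 h𝔭
    obtain ⟨hmax, hn𝔭⟩ := (hB 𝔭).1 h𝔭
    have h𝔭0 : 𝔭 ≠ ⊥ := by
      rintro rfl
      exact hnO hn𝔭
    obtain ⟨V, hV⟩ := exists_VP (E := E) 𝔭 hmax h𝔭0
    have hnV : (n : E)⁻¹ ∉ V := by
      rcases (hV.iff _).1 hn𝔭 with h2 | h2
      · exfalso
        rw [map_natCast] at h2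
        exact hnE h2
      · rwa [map_natCast] at h2
    have hfin : Finite (𝓞 E ⧸ 𝔭) := Ideal.finiteQuotientOfFreeOfNeBot 𝔭 h𝔭0
    exact h1 V hnV (𝓞 E) 𝔭 hV hfin
  obtain ⟨Θ₀, hΘ₀⟩ := exists_DFN f₀
  obtain ⟨Δ, S, fin, ne, st, hΔ, hSf, hS, hB'⟩ := common_of hρ fix h0.sml Θ₀ B hloc
  have i1 := Zn_ded hn
  have i2 := Zn_frac (n := n)
  have i3 := Zn_ft (n := n)
  have i4 := B_frac (Algebra.adjoin ℤ {(n : ℚ)⁻¹}) ℚ E
  have i5 := Zn_loc hn
  have hG : GVK (integralClosure (Algebra.adjoin ℤ {(n : ℚ)⁻¹}) E) (Submodule.span E S) :=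
    gvk_bigp (Algebra.adjoin ℤ {(n : ℚ)⁻¹}) ℚ hρ hin0 hgen fix h0 hΘ₀ fin ne st hΔ hSf hS
  refine hasModule_of_local (E := E) ?_ (b := (n : 𝓞 E)) (W := Submodule.span E S) hB hB'
    (big_of hnO ?_ ?_ hG)
  · rw [IsScalarTower.algebraMap_eq (𝓞 E) E F]
    exact (algebraMap E F).injective.comp (IsFractionRing.injective (𝓞 E) E)
  · intro x
    have h2 : IsIntegral ℤ (x : E) := x.2
    exact ⟨⟨x, h2.tower_top⟩, rfl⟩
  · intro x
    obtain ⟨⟨_, j, rfl⟩, hm⟩ := IsIntegral.exists_multiple_integral_of_isLocalization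
      (Submonoid.powers (n : ℤ)) (Rₘ := Algebra.adjoin ℤ {(n : ℚ)⁻¹}) (x : E) x.2
    refine ⟨j, ⟨_, hm⟩, ?_⟩
    change algebraMap (𝓞 E) E (n : 𝓞 E) ^ j * (x : E) = (((n : ℤ) ^ j : ℤ)) • (x : E)
    rw [zsmul_eq_mul, map_natCast]
    push_cast
    rfl

end nf

end Pool.Agent.T9h3.R
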