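import Pool.Agent.T9h3.R.Plg

/-!
# The place-by-place theorem
-/

set_option autoImplicit false
set_option linter.unusedSectionVars false
set_option linter.overlappingInstances false
set_option linter.unusedVariables false
set_option linter.style.haveILetI false

namespace Pool.Agent.T9h3.R

open Pool.Agent.R383.TM Pool.Agent.T9h3 Pool.Agent.T9h3.H
open Pool.Agent.T9h3.P Pool.Agent.T9h3.Q Pool.Agent.H918R2.Quad
open Polynomial hiding CC
open Pool.Agent.Y223.G hiding CC
open scoped NumberField IntermediateField IntermediateField.algebraAdjoinAdjoin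

/-- The local condition: equivariant homogeneous coordinates over a Galois extension. -/
def LRV {E F : Type} [Field E] [Field F] [Algebra E F] (W : Submodule E F)
    (V : ValuationSubring E) : Prop :=
  ∃ (M K : Type) (_ : Field M) (_ : Field K) (_ : Algebra E M) (_ : FiniteDimensional E M)
    (_ : IsGalois E M) (_ : Algebra M K) (_ : Algebra E K) (_ : IsScalarTower E M K)
    (_ : Algebra F K) (_ : IsScalarTower E F K)
    (ρ : (M ≃ₐ[E] M) →* (K ≃ₐ[E] K)) (n m : ℕ) (z : Fin (m + 1) → K)
    (e : Ideal (integralClosure V M) → ℕ) (w : Ideal (integralClosure V M) → Fin (m + 1) → ℕ),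
    1 ≤ n ∧ HIN E M (integralClosure V M) ∧
    (∀ g x, ρ g (algebraMap M K x) = algebraMap M K (g x)) ∧
    (∀ y, (∀ g, ρ g y = y) ↔ ∃ z : F, algebraMap F K z = y) ∧ (∀ j, z j ≠ 0) ∧
    (∀ g j, ρ g (z j) ∈ Submodule.span (integralClosure V M) (Set.range z)) ∧
    (∀ j, IsRegularRing (Algebra.adjoin (integralClosure V M) (Set.range fun i => z i / z j))) ∧
    IntermediateField.adjoin M (Set.range fun j => z j / z 0) = ⊤ ∧
    Submodule.span M (algebraMap F K '' ((W ^ n : Submodule E F) : Set F)) =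
      Submodule.span M (Set.range z) ∧
    DATAV ρ z e w

/-- **The lattices at the place.** -/
theorem gvk_LRV {k E F : Type} [CommRing k] [IsDomain k] [IsDedekindDomain k] [Field E] [Field F]
    [Algebra E F] [Algebra k E] [IsFractionRing k E] {V : ValuationSubring E} {𝔭 : Ideal k}
    (hV : VP k V 𝔭) (hfin : Finite (k ⧸ 𝔭)) {W : Submodule E F} (hW : W.FG) (h : LRV W V) :
    GVK V W := by
  obtain ⟨M, K, _, _, _, _, _, _, _, _, _, _, ρ, n, m, z, e, w, hn, hin, hρ, fix, z0, lin, reg, gen,
    hS, hD⟩ := h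
  let _ : Algebra k F := ((algebraMap E F).comp (algebraMap k E)).toAlgebra
  have _ : IsScalarTower k E F := IsScalarTower.of_algebraMap_eq fun _ => rfl
  obtain ⟨S, hSW⟩ := hW.pow n
  refine gvk_of_pow hn ?_
  rw [← hSW]
  refine gvk_vz hV hfin hρ hin fix z0 lin reg gen hD S.finite_toSet ?_
  rw [← hS, ← hSW]
  have h1 : algebraMap F K '' ((Submodule.span E (S : Set F) : Submodule E F) : Set F) =
      (Submodule.span E (algebraMap F K '' (S : Set F)) : Set K) := by
    have h2 := Submodule.map_span (IsScalarTower.toAlgHom E F K).toLinearMap (S : Set F)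
    have h3 := congrArg (fun A : Submodule E K => (A : Set K)) h2
    exact h3
  rw [h1, Submodule.span_span_of_tower]

/-- **The place-by-place theorem.** -/
theorem place_glob {E F : Type} [Field E] [Field F] [Algebra E F] (hE : IsGlob E) {m : ℕ}
    {x : Fin (m + 1) → F} (x0 : ∀ j, x j ≠ 0)
    (gen : IntermediateField.adjoin E (Set.range fun j => x j / x 0) = ⊤)
    {B : Set (ValuationSubring E)} (hB : B.Finite)
    (hreg : ∀ V : ValuationSubring E, V ≠ ⊤ → V ∉ B → ∀ j,
      IsRegularRing (Algebra.adjoin V (Set.range fun i => x i / x j)))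
    (hloc : ∀ V : ValuationSubring E, V ≠ ⊤ → LRV (Submodule.span E (Set.range x)) V) :
    MDL F := by
  classical
  have hfgW : (Submodule.span E (Set.range x)).FG := Submodule.fg_span (Set.finite_range x)
  have hx : ∀ V : ValuationSubring E, ∃ y : E, V ≠ ⊤ → y ∉ V := by
    intro V
    by_cases h : V = ⊤
    · exact ⟨0, fun h' => absurd h h'⟩
    · obtain ⟨y, hy⟩ : ∃ y, y ∉ V := by
        by_contra hcon
        push Not at hcon
        exact h (eq_top_iff.2 fun y _ => hcon y)
      exact ⟨y, fun _ => hy⟩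
  choose y hy using hx
  have hsub : ∀ g : E ≃ₐ[E] E, g = 1 := fun g => AlgEquiv.ext fun a => g.commutes a
  have hS : Submodule.span E (algebraMap F F '' Set.range x) = Submodule.span E (Set.range x) := by
    congr 1
    ext a
    simp
  have hfix : ∀ y : F, (∀ g : E ≃ₐ[E] E, (1 : (E ≃ₐ[E] E) →* (F ≃ₐ[E] F)) g y = y) ↔
      ∃ z : F, algebraMap F F z = y := fun y => ⟨fun _ => ⟨y, rfl⟩, fun _ g => rfl⟩
  have hρ : ∀ (g : E ≃ₐ[E] E) (a : E), (1 : (E ≃ₐ[E] E) →* (F ≃ₐ[E] F)) g (algebraMap E F a) =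
      algebraMap E F (g a) := by
    intro g a
    rw [hsub g]
    rfl
  rcases hE with hE | ⟨κ, _, _, _, s, hs, hfd, hsep⟩
  · have hQ : Algebra.IsAlgebraic ℚ E := inferInstance
    obtain ⟨n, hn, hnS⟩ := exists_denM hQ (hB.toFinset.image y)
    have hint := hnS n hn dvd_rfl
    have hVt : ∀ V : ValuationSubring E, (n : E)⁻¹ ∉ V → V ≠ ⊤ := by
      rintro V h rfl
      exact h (ValuationSubring.mem_top _)
    let _ : Algebra (𝓞 E) F := ((algebraMap E F).comp (algebraMap (𝓞 E) E)).toAlgebra
    have _ : IsScalarTower (𝓞 E) E F := IsScalarTower.of_algebraMap_eq fun _ => rfl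
    have hinj : Function.Injective (algebraMap (𝓞 E) F) :=
      (algebraMap E F).injective.comp (IsFractionRing.injective (𝓞 E) E)
    have i1 := Zn_ded hn
    have i2 := Zn_frac (n := n)
    have i3 := Zn_ft (n := n)
    refine mdl_of hinj (nf_gen hn (W := Submodule.span E (Set.range x)) ?_ ?_)
    · refine gvk_bigz (Algebra.adjoin ℤ {(n : ℚ)⁻¹}) ℚ (M := E) (K := F) (ρ := 1) hρ hsub hfix x0
        (fun j => ?_) gen (Set.finite_range x) hS
      refine reg_places (Algebra.adjoin ℤ {(n : ℚ)⁻¹}) ℚ (Zn_nf hn) (Set.finite_range _)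
        inferInstance fun V hV hVO => hreg V hV (fun hVB => ?_) j
      exact hy V hV (hVO ⟨y V, hint _ (Finset.mem_image.2 ⟨V, hB.mem_toFinset.2 hVB, rfl⟩)⟩)
    · intro 𝔭 V hV hfin hnV
      exact gvk_LRV hV hfin hfgW (hloc V (hVt V hnV))
  · obtain ⟨t, ht0, i1, i2, hint⟩ := exists_tS (κ := κ) (s := s) (M := E) hs
      (hB.toFinset.image y ∪ {s})
    have hVt : ∀ V : ValuationSubring E, t ∉ V → V ≠ ⊤ := by
      rintro V h rfl
      exact h (ValuationSubring.mem_top _)
    let _ : Algebra κ F := ((algebraMap E F).comp (algebraMap κ E)).toAlgebra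
    have _ : IsScalarTower κ E F := IsScalarTower.of_algebraMap_eq fun _ => rfl
    have hf : Module.Finite ℤ κ := Module.Finite.of_finite
    have i3 := adjQ_ded (κ := κ) t
    have i4 := adjQ_ft (κ := κ) t
    refine mdl_of (algebraMap κ F).injective (ff_gen ht0 (Set.finite_range x) ?_ ?_)
    · refine gvk_bigz (Algebra.adjoin κ {t}) κ⟮t⟯ (M := E) (K := F) (ρ := 1) hρ hsub hfix x0
        (fun j => ?_) gen (Set.finite_range x) hS
      refine reg_places (Algebra.adjoin κ {t}) κ⟮t⟯ (adj_nf (M := E) hs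
        (hint _ (Finset.mem_union_right _ (Finset.mem_singleton_self _)))) (Set.finite_range _)
        inferInstance fun V hV hVO => hreg V hV (fun hVB => ?_) j
      exact hy V hV (hVO ⟨y V, hint _ (Finset.mem_union_left _
        (Finset.mem_image.2 ⟨V, hB.mem_toFinset.2 hVB, rfl⟩))⟩)
    · intro 𝔭 V j1 j2 hV hfin htV
      exact gvk_LRV hV hfin hfgW (hloc V (hVt V htV))

end Pool.Agent.T9h3.R
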