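import Pool.Agent.T9h3.R.Opr
import Pool.Agent.T9h3.R.Plm

/-!
# The place-by-place theorem for regular varieties
-/

set_option autoImplicit false
set_option linter.unusedSectionVars false
set_option linter.overlappingInstances false
set_option linter.unusedVariables false
set_option linter.style.haveILetI false

namespace Pool.Agent.T9h3.R

open Pool.Agent.R383.TM Pool.Agent.T9h3 Pool.Agent.T9h3.H
open Pool.Agent.T9h3.P Pool.Agent.T9h3.Q Pool.Agent.H918R2.Quad
open Polynomial hiding CC
open Pool.Agent.Y223.G hiding CC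
open scoped NumberField IntermediateField IntermediateField.algebraAdjoinAdjoin

lemma int_memV {E A : Type} [Field E] [CommRing A] [Algebra A E] {V : ValuationSubring E}
    (hA : ∀ a : A, algebraMap A E a ∈ V) {x : E} (hx : IsIntegral A x) : x ∈ V := by
  let φ : A →+* V := (algebraMap A E).codRestrict V hA
  have h1 : IsIntegral V (RingHom.id E x) := hx.map_of_comp_eq φ (RingHom.id E) rfl
  obtain ⟨y, hy⟩ := IsIntegrallyClosed.isIntegral_iff.1 h1
  rw [RingHom.id_apply] at hy
  rw [← hy]
  exact y.2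

lemma int_memZ {E : Type} [Field E] {V : ValuationSubring E} {x : E} (hx : IsIntegral ℤ x) :
    x ∈ V := by
  refine int_memV (fun a => ?_) hx
  rw [eq_intCast]
  exact intCast_mem V a

lemma fin_int {κ : Type} [Field κ] [Finite κ] (c : κ) : IsIntegral ℤ c := by
  have h1 : Module.Finite ℤ κ := Module.Finite.of_finite
  exact IsIntegral.of_finite ℤ c

/-- **The places of bad reduction are controlled by finitely many elements.** -/
theorem exists_T {E F : Type} [Field E] [Field F] [Algebra E F] (hE : IsGlob E) {m : ℕ}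
    {x : Fin (m + 1) → F}
    (hreg : ∀ j, IsRegularRing (Algebra.adjoin E (Set.range fun i => x i / x j))) :
    ∃ T : Finset E, ∀ V : ValuationSubring E, V ≠ ⊤ → (∀ a ∈ T, a ∈ V) → ∀ j,
      IsRegularRing (Algebra.adjoin V (Set.range fun i => x i / x j)) := by
  classical
  rcases hE with hE | ⟨κ, _, _, _, s, hs, hfd, hsep⟩
  · let _ : Algebra (𝓞 E) F := ((algebraMap E F).comp (algebraMap (𝓞 E) E)).toAlgebra
    have _ : IsScalarTower (𝓞 E) E F := IsScalarTower.of_algebraMap_eq fun _ => rfl
    have h1 : ∀ j : Fin (m + 1), ∃ a : 𝓞 E, a ≠ 0 ∧ RPT (𝓞 E) (Set.range fun i => x i / x j) a :=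
      fun j => exists_rpt_nf (E := E) (Set.finite_range _) (hreg j)
    choose a ha0 ha using h1
    refine ⟨Finset.univ.image fun j => (algebraMap (𝓞 E) E (a j))⁻¹, fun V hV hT j => ?_⟩
    obtain ⟨𝔭, hVP⟩ := VP_of (R := 𝓞 E) hV fun y => int_memZ y.2
    refine reg_V (Set.finite_range _) (ha j) hVP ⟨?_, ?_⟩
    · intro h
      exact ha0 j (IsFractionRing.injective (𝓞 E) E (by rw [h, map_zero]))
    · exact hT _ (Finset.mem_image.2 ⟨j, Finset.mem_univ _, rfl⟩)
  · let _ : Algebra κ F := ((algebraMap E F).comp (algebraMap κ E)).toAlgebra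
    have _ : IsScalarTower κ E F := IsScalarTower.of_algebraMap_eq fun _ => rfl
    have j1 := adjQ_ded (κ := κ) s
    have j2 := B_ded (Algebra.adjoin κ {s}) κ⟮s⟯ E
    have j3 := B_fin (Algebra.adjoin κ {s}) κ⟮s⟯ E
    have j4 := B_frac (Algebra.adjoin κ {s}) κ⟮s⟯ E
    have j5 : Algebra.FiniteType κ (Algebra.adjoin κ {s}) := by
      rw [← Subalgebra.fg_iff_finiteType]
      exact ⟨{s}, by rw [Finset.coe_singleton]⟩
    have j6 : Algebra.FiniteType κ (integralClosure (Algebra.adjoin κ {s}) E) :=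
      Algebra.FiniteType.trans (S := Algebra.adjoin κ {s}) inferInstance inferInstance
    have h1 : ∀ j : Fin (m + 1), ∃ a : integralClosure (Algebra.adjoin κ {s}) E, a ≠ 0 ∧
        RPT (integralClosure (Algebra.adjoin κ {s}) E) (Set.range fun i => x i / x j) a :=
      fun j => exists_rpt_ff (E := E) (κ := κ) (Set.finite_range _) (hreg j)
    choose a ha0 ha using h1
    refine ⟨insert s (Finset.univ.image fun j => ((a j : E))⁻¹), fun V hV hT j => ?_⟩
    have hs1 : s ∈ V := hT s (Finset.mem_insert_self _ _)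
    have hκ : ∀ c : κ, algebraMap κ E c ∈ V := fun c =>
      int_memZ ((fin_int c).map (algebraMap κ E).toIntAlgHom)
    have hA : ∀ y : Algebra.adjoin κ {s}, algebraMap (Algebra.adjoin κ {s}) E y ∈ V := by
      rintro ⟨y, hy⟩
      change y ∈ V
      induction hy using Algebra.adjoin_induction with
      | mem y hy => rw [Set.mem_singleton_iff.1 hy]; exact hs1
      | algebraMap c => exact hκ c
      | add y y' _ _ h1 h2 => exact add_mem h1 h2
      | mul y y' _ _ h1 h2 => exact mul_mem h1 h2
    have hB : ∀ y : integralClosure (Algebra.adjoin κ {s}) E,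
        algebraMap (integralClosure (Algebra.adjoin κ {s}) E) E y ∈ V := fun y => by
      have h3 : IsIntegral (Algebra.adjoin κ {s}) (y : E) := y.2
      exact int_memV hA h3
    obtain ⟨𝔭, hVP⟩ := VP_of (R := integralClosure (Algebra.adjoin κ {s}) E) hV hB
    refine reg_V (Set.finite_range _) (ha j) hVP ⟨?_, ?_⟩
    · intro h
      exact ha0 j (Subtype.ext h)
    · exact hT _ (Finset.mem_insert_of_mem (Finset.mem_image.2 ⟨j, Finset.mem_univ _, rfl⟩))

/-- **The place-by-place theorem.** -/
theorem place_globT {E F : Type} [Field E] [Field F] [Algebra E F] (hE : IsGlob E) {m : ℕ}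
    {x : Fin (m + 1) → F} (x0 : ∀ j, x j ≠ 0)
    (gen : IntermediateField.adjoin E (Set.range fun j => x j / x 0) = ⊤)
    (hreg : ∀ j, IsRegularRing (Algebra.adjoin E (Set.range fun i => x i / x j)))
    (hloc : ∀ V : ValuationSubring E, V ≠ ⊤ → LRV (Submodule.span E (Set.range x)) V) :
    MDL F := by
  classical
  obtain ⟨T, hT⟩ := exists_T hE hreg
  have hfgW : (Submodule.span E (Set.range x)).FG := Submodule.fg_span (Set.finite_range x)
  have hsub : ∀ g : E ≃ₐ[E] E, g = 1 := fun g => AlgEquiv.ext fun a => g.commutes a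
  have hS : Submodule.span E (algebraMap F F '' Set.range x) = Submodule.span E (Set.range x) := by
    congr 1
    ext a
    simp
  have hfix : ∀ y : F, (∀ g : E ≃ₐ[E] E, (1 : (E ≃ₐ[E] E) →* (F ≃ₐ[E] F)) g y = y) ↔
      ∃ z : F, algebraMap F F z = y := fun y => ⟨fun _ => ⟨y, rfl⟩, fun _ g => rfl⟩
  have hρ : ∀ (g : E ≃ₐ[E] E) (a : E), (1 : (E ≃ₐ[E] E) →* (F ≃ₐ[E] F)) g (algebraMap E F a) =
      algebraMap E F (g a) := by
    intro g a
    rw [hsub g]
    rfl
  rcases hE with hE | ⟨κ, _, _, _, s, hs, hfd, hsep⟩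
  · have hQ : Algebra.IsAlgebraic ℚ E := inferInstance
    obtain ⟨n, hn, hnS⟩ := exists_denM hQ T
    have hint := hnS n hn dvd_rfl
    have hVt : ∀ V : ValuationSubring E, (n : E)⁻¹ ∉ V → V ≠ ⊤ := by
      rintro V h rfl
      exact h (ValuationSubring.mem_top _)
    let _ : Algebra (𝓞 E) F := ((algebraMap E F).comp (algebraMap (𝓞 E) E)).toAlgebra
    have _ : IsScalarTower (𝓞 E) E F := IsScalarTower.of_algebraMap_eq fun _ => rfl
    have hinj : Function.Injective (algebraMap (𝓞 E) F) :=
      (algebraMap E F).injective.comp (IsFractionRing.injective (𝓞 E) E)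
    have i1 := Zn_ded hn
    have i2 := Zn_frac (n := n)
    have i3 := Zn_ft (n := n)
    refine mdl_of hinj (nf_gen hn (W := Submodule.span E (Set.range x)) ?_ ?_)
    · refine gvk_bigz (Algebra.adjoin ℤ {(n : ℚ)⁻¹}) ℚ (M := E) (K := F) (ρ := 1) hρ hsub hfix x0
        (fun j => ?_) gen (Set.finite_range x) hS
      exact reg_places (Algebra.adjoin ℤ {(n : ℚ)⁻¹}) ℚ (Zn_nf hn) (Set.finite_range _)
        inferInstance fun V hV hVO => hT V hV (fun a ha => hVO ⟨a, hint a ha⟩) j
    · intro 𝔭 V hV hfin hnV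
      exact gvk_LRV hV hfin hfgW (hloc V (hVt V hnV))
  · obtain ⟨t, ht0, i1, i2, hint⟩ := exists_tS (κ := κ) (s := s) (M := E) hs (T ∪ {s})
    have hVt : ∀ V : ValuationSubring E, t ∉ V → V ≠ ⊤ := by
      rintro V h rfl
      exact h (ValuationSubring.mem_top _)
    let _ : Algebra κ F := ((algebraMap E F).comp (algebraMap κ E)).toAlgebra
    have _ : IsScalarTower κ E F := IsScalarTower.of_algebraMap_eq fun _ => rfl
    have hf : Module.Finite ℤ κ := Module.Finite.of_finite
    have i3 := adjQ_ded (κ := κ) t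
    have i4 := adjQ_ft (κ := κ) t
    refine mdl_of (algebraMap κ F).injective (ff_gen ht0 (Set.finite_range x) ?_ ?_)
    · refine gvk_bigz (Algebra.adjoin κ {t}) κ⟮t⟯ (M := E) (K := F) (ρ := 1) hρ hsub hfix x0
        (fun j => ?_) gen (Set.finite_range x) hS
      exact reg_places (Algebra.adjoin κ {t}) κ⟮t⟯ (adj_nf (M := E) hs
        (hint _ (Finset.mem_union_right _ (Finset.mem_singleton_self _)))) (Set.finite_range _)
        inferInstance fun V hV hVO => hT V hV (fun a ha =>
          hVO ⟨a, hint a (Finset.mem_union_left _ ha)⟩) j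
    · intro 𝔭 V j1 j2 hV hfin htV
      exact gvk_LRV hV hfin hfgW (hloc V (hVt V htV))

end Pool.Agent.T9h3.R
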