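import Pool.Agent.T9h3.R.Smr

/-!
# Regularity at almost all the places

The proof of `fsm_pt` is that of `Pool.Agent.N864.GT.smooth_of_regular` in the starting files.
-/

set_option autoImplicit false
set_option linter.unusedSectionVars false
set_option linter.overlappingInstances false
set_option linter.unusedVariables false
set_option linter.style.haveILetI false

namespace Pool.Agent.T9h3.R

open IsLocalRing

section pt

open Algebra KaehlerDifferential

/-- The regular points of algebras of finite type over perfect fields are smooth. -/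
theorem fsm_pt {k S : Type} [Field k] [PerfectField k] [CommRing S] [Algebra k S]
    [Algebra.FiniteType k S] (q : Ideal S) [hq : q.IsPrime]
    (hQ : IsRegularLocalRing (Localization.AtPrime q)) :
    FormallySmooth k (Localization.AtPrime q) := by
  classical
  obtain ⟨n, f₀, hf₀⟩ := Algebra.FiniteType.iff_quotient_mvPolynomial''.mp
    (inferInstance : Algebra.FiniteType k S)
  let Q := Localization.AtPrime q
  let 𝔫 : Ideal (MvPolynomial (Fin n) k) := q.comap f₀
  have h𝔫 : 𝔫.IsPrime := Ideal.comap_isPrime _ _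
  let P' := Localization.AtPrime 𝔫
  let fP : P' →ₐ[k] Q := IsLocalization.liftAlgHom (M := 𝔫.primeCompl)
      (f := (IsScalarTower.toAlgHom k S Q).comp f₀) fun x ↦ by
    exact IsLocalization.map_units (M := q.primeCompl) Q ⟨f₀ x.1, x.2⟩
  have hf₁ : Function.Surjective fP := by
    intro x
    obtain ⟨x, ⟨s, hs⟩, rfl⟩ := IsLocalization.exists_mk'_eq q.primeCompl x
    obtain ⟨x, rfl⟩ := hf₀ x
    obtain ⟨s, rfl⟩ := hf₀ s
    refine ⟨IsLocalization.mk' (M := 𝔫.primeCompl) _ x ⟨s, hs⟩, ?_⟩
    refine (IsLocalization.lift_mk'_spec _ _ _ _).2 ?_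
    exact (IsLocalization.mk'_spec' Q (f₀ x) (⟨f₀ s, hs⟩ : q.primeCompl)).symm
  algebraize [fP.toRingHom]
  have : FormallyEtale (MvPolynomial (Fin n) k) P' := .of_isLocalization 𝔫.primeCompl
  have : FormallySmooth k P' := .comp _ (MvPolynomial (Fin n) k) _
  have : Module.Free P' Ω[P'⁄k] :=
    .of_equiv (KaehlerDifferential.tensorKaehlerEquivOfFormallyEtale k (MvPolynomial (Fin n) k) P')
  have hfinΩ : Module.Finite P' Ω[P'⁄k] := inferInstance
  have hP' : IsRegularLocalRing P' := inferInstance
  have hst : IsScalarTower k P' Q := IsScalarTower.of_algebraMap_eq' fP.comp_algebraMap.symm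
  have hess : EssFiniteType k (ResidueField Q) := by
    have h1 : EssFiniteType k Q := EssFiniteType.comp k S Q
    have h2 : EssFiniteType Q (ResidueField Q) := inferInstance
    exact EssFiniteType.comp k Q (ResidueField Q)
  exact Pool.Agent.N864.GT.fsm_aux (P := P') hf₁

end pt

/-- Smoothness is an open condition. -/
theorem open_gen {R₀ B : Type} [CommRing R₀] [CommRing B] [Algebra R₀ B]
    [Algebra.FinitePresentation R₀ B] (T : Submonoid B)
    (h : ∀ (P : Ideal B) [P.IsPrime], Disjoint (T : Set B) P →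
      Algebra.FormallySmooth R₀ (Localization.AtPrime P)) :
    ∃ a ∈ T, ∀ (P : Ideal B) [P.IsPrime], a ∉ P →
      Algebra.FormallySmooth R₀ (Localization.AtPrime P) := by
  obtain ⟨I, hI⟩ := (PrimeSpectrum.isClosed_iff_zeroLocus_ideal _).1
    (Algebra.isOpen_smoothLocus (R := R₀) (A := B)).isClosed_compl
  by_cases hd : Disjoint (I : Set B) (T : Set B)
  · exfalso
    obtain ⟨P, hP, hIP, hPT⟩ := Ideal.exists_le_prime_disjoint I T hd
    have h1 : (⟨P, hP⟩ : PrimeSpectrum B) ∈ (Algebra.smoothLocus R₀ B)ᶜ := by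
      rw [hI]
      exact hIP
    exact h1 (h P hPT.symm)
  · rw [Set.not_disjoint_iff] at hd
    obtain ⟨a, haI, haT⟩ := hd
    refine ⟨a, haT, fun P hP haP => ?_⟩
    by_contra hcon
    have h1 : (⟨P, hP⟩ : PrimeSpectrum B) ∈ (Algebra.smoothLocus R₀ B)ᶜ := hcon
    rw [hI] at h1
    exact haP (h1 haI)

section adj

variable {R S F : Type} [CommRing R] [CommRing S] [Field F] [Algebra R F] [Algebra S F]
  {ι : R →+* S} {X : Set F}

lemma incA_mem (hι : ∀ r, algebraMap S F (ι r) = algebraMap R F r) {y : F}
    (hy : y ∈ Algebra.adjoin R X) : y ∈ Algebra.adjoin S X := by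
  induction hy using Algebra.adjoin_induction with
  | mem y hy => exact Algebra.subset_adjoin hy
  | algebraMap r =>
    rw [← hι]
    exact Subalgebra.algebraMap_mem _ _
  | add y y' _ _ h1 h2 => exact add_mem h1 h2
  | mul y y' _ _ h1 h2 => exact mul_mem h1 h2

/-- The inclusion. -/
def incA (hι : ∀ r, algebraMap S F (ι r) = algebraMap R F r) :
    Algebra.adjoin R X →+* Algebra.adjoin S X where
  toFun := fun y => ⟨y, incA_mem hι y.2⟩
  map_one' := Subtype.ext rfl
  map_mul' := fun _ _ => Subtype.ext rfl
  map_zero' := Subtype.ext rfl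
  map_add' := fun _ _ => Subtype.ext rfl

lemma exists_incA (hι : ∀ r, algebraMap S F (ι r) = algebraMap R F r) (X : Set F) :
    ∃ i : Algebra (Algebra.adjoin R X) (Algebra.adjoin S X), ∀ y : Algebra.adjoin R X,
      ((i.algebraMap y : Algebra.adjoin S X) : F) = y :=
  ⟨(incA (X := X) hι).toAlgebra, fun y => rfl⟩

/-- The localization. -/
theorem incA_loc (hι : ∀ r, algebraMap S F (ι r) = algebraMap R F r) (T : Submonoid R)
    (hu : ∀ s ∈ T, IsUnit (ι s)) (hd : ∀ y : S, ∃ s ∈ T, ∃ r, ι s * y = ι r)
    [Algebra (Algebra.adjoin R X) (Algebra.adjoin S X)]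
    (hA : ∀ y : Algebra.adjoin R X,
      ((algebraMap (Algebra.adjoin R X) (Algebra.adjoin S X) y : Algebra.adjoin S X) : F) = y) :
    IsLocalization (T.map (algebraMap R (Algebra.adjoin R X))) (Algebra.adjoin S X) := by
  have hcR : ∀ r : R, ((algebraMap R (Algebra.adjoin R X) r : Algebra.adjoin R X) : F) =
      algebraMap R F r := fun r => rfl
  have hcS : ∀ r : S, ((algebraMap S (Algebra.adjoin S X) r : Algebra.adjoin S X) : F) =
      algebraMap S F r := fun r => rfl
  have hden : ∀ y ∈ Algebra.adjoin S X, ∃ s ∈ T,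
      algebraMap R F s * y ∈ Algebra.adjoin R X := by
    intro y hy
    induction hy using Algebra.adjoin_induction with
    | mem y hy =>
      exact ⟨1, T.one_mem, by
        rw [map_one, one_mul]
        exact Algebra.subset_adjoin hy⟩
    | algebraMap r =>
      obtain ⟨s, hs, c, hc⟩ := hd r
      refine ⟨s, hs, ?_⟩
      rw [← hι, ← map_mul, hc, hι]
      exact Subalgebra.algebraMap_mem _ _
    | add y y' _ _ h1 h2 =>
      obtain ⟨s, hs, h3⟩ := h1
      obtain ⟨s', hs', h4⟩ := h2
      refine ⟨s * s', T.mul_mem hs hs', ?_⟩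
      have e1 : algebraMap R F (s * s') * (y + y') =
          algebraMap R F s' * (algebraMap R F s * y) +
          algebraMap R F s * (algebraMap R F s' * y') := by
        rw [map_mul]
        ring
      rw [e1]
      exact add_mem (mul_mem (Subalgebra.algebraMap_mem _ _) h3)
        (mul_mem (Subalgebra.algebraMap_mem _ _) h4)
    | mul y y' _ _ h1 h2 =>
      obtain ⟨s, hs, h3⟩ := h1
      obtain ⟨s', hs', h4⟩ := h2
      refine ⟨s * s', T.mul_mem hs hs', ?_⟩
      have e1 : algebraMap R F (s * s') * (y * y') =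
          (algebraMap R F s * y) * (algebraMap R F s' * y') := by
        rw [map_mul]
        ring
      rw [e1]
      exact mul_mem h3 h4
  refine ⟨?_, fun z => ?_, fun {x y} hxy => ?_⟩
  · rintro ⟨_, s, hs, rfl⟩
    have h1 : algebraMap (Algebra.adjoin R X) (Algebra.adjoin S X)
        (algebraMap R (Algebra.adjoin R X) s) = algebraMap S (Algebra.adjoin S X) (ι s) := by
      apply Subtype.ext
      rw [hA, hcR, hcS, hι]
    rw [h1]
    exact (hu s hs).map _
  · obtain ⟨s, hs, h1⟩ := hden z z.2
    refine ⟨⟨⟨_, h1⟩, ⟨algebraMap R (Algebra.adjoin R X) s, s, hs, rfl⟩⟩, Subtype.ext ?_⟩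
    have e1 : ((z * algebraMap (Algebra.adjoin R X) (Algebra.adjoin S X)
        (algebraMap R (Algebra.adjoin R X) s) : Algebra.adjoin S X) : F) =
        (z : F) * algebraMap R F s := by
      rw [MulMemClass.coe_mul, hA, hcR]
    rw [e1, hA]
    exact mul_comm _ _
  · have h1 : (x : F) = (y : F) := by
      rw [← hA x, ← hA y, hxy]
    exact ⟨1, by rw [Subtype.ext h1]⟩

end adj

section rloc2

variable {R S : Type} [CommRing R] [CommRing S] [Algebra R S]

/-- The local rings of a localization. -/
lemma reg_loc' (M : Submonoid R) [IsLocalization M S] (p : Ideal S)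
    [p.IsPrime] (h : IsRegularLocalRing (Localization.AtPrime (p.comap (algebraMap R S)))) :
    IsRegularLocalRing (Localization.AtPrime p) := by
  haveI := IsLocalization.isLocalization_isLocalization_atPrime_isLocalization M
    (Localization.AtPrime p) p
  exact IsRegularLocalRing.of_ringEquiv (IsLocalization.algEquiv
    (p.comap (algebraMap R S)).primeCompl (Localization.AtPrime p)
    (Localization.AtPrime (p.comap (algebraMap R S)))).toRingEquiv.symm

end rloc2

end Pool.Agent.T9h3.R
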