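import Pool.Agent.T9h3.R.Opn

/-!
# Regularity at almost all the places
-/

set_option autoImplicit false
set_option linter.unusedSectionVars false
set_option linter.overlappingInstances false
set_option linter.unusedVariables false
set_option linter.style.haveILetI false

namespace Pool.Agent.T9h3.R

open Pool.Agent.T9h3.P Pool.Agent.T9h3.Q

section gen

variable {R E F : Type} [CommRing R] [IsDomain R] [IsDedekindDomain R] [Field E] [Algebra R E]
  [IsFractionRing R E] [Field F] [Algebra R F] [Algebra E F] [IsScalarTower R E F] {X : Set F}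

lemma adj_ft {S : Type} [CommRing S] [Algebra S F] (hX : X.Finite) :
    Algebra.FiniteType S (Algebra.adjoin S X) := by
  rw [← Subalgebra.fg_iff_finiteType]
  exact ⟨hX.toFinset, by rw [hX.coe_toFinset]⟩

lemma gen_hd (y : E) : ∃ s ∈ nonZeroDivisors R, ∃ r, algebraMap R E s * y = algebraMap R E r := by
  obtain ⟨⟨r, s⟩, h⟩ := IsLocalization.surj (nonZeroDivisors R) y
  exact ⟨s, s.2, r, by rw [mul_comm]; exact h⟩

/-- The conclusion of the lemmas on the regular points. -/
def RPT (R : Type) {F : Type} [CommRing R] [Field F] [Algebra R F] (X : Set F) (a : R) : Prop :=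
  ∀ (P : Ideal (Algebra.adjoin R X)) [P.IsPrime], algebraMap R (Algebra.adjoin R X) a ∉ P →
    IsRegularLocalRing (Localization.AtPrime P)

/-- **Generic regularity over a perfect field of constants.** -/
theorem exists_rpt_ff {κ : Type} [Field κ] [PerfectField κ] [Algebra κ R]
    [Algebra.FiniteType κ R] [Algebra κ F] [IsScalarTower κ R F] (hX : X.Finite)
    (h : IsRegularRing (Algebra.adjoin E X)) : ∃ a : R, a ≠ 0 ∧ RPT R X a := by
  have h1 : Algebra.FiniteType R (Algebra.adjoin R X) := adj_ft hX
  have h2 : Algebra.FiniteType κ (Algebra.adjoin R X) :=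
    Algebra.FiniteType.trans (S := R) inferInstance h1
  have h3 : Algebra.FinitePresentation κ (Algebra.adjoin R X) :=
    Algebra.FinitePresentation.of_finiteType.1 h2
  have hι : ∀ r : R, algebraMap E F (algebraMap R E r) = algebraMap R F r := fun r =>
    (IsScalarTower.algebraMap_apply R E F r).symm
  obtain ⟨iA, hA⟩ := exists_incA hι X
  have hil := incA_loc (X := X) hι (nonZeroDivisors R) (fun s hs =>
    IsLocalization.map_units E (⟨s, hs⟩ : nonZeroDivisors R)) gen_hd hA
  obtain ⟨_, ⟨a, ha, rfl⟩, h4⟩ := open_gen (R₀ := κ) (B := Algebra.adjoin R X)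
    ((nonZeroDivisors R).map (algebraMap R (Algebra.adjoin R X))) (fun P hP hdis => by
      have hP' : (P.map (algebraMap _ (Algebra.adjoin E X))).IsPrime :=
        IsLocalization.isPrime_of_isPrime_disjoint _ (Algebra.adjoin E X) P hP hdis
      have hc : (P.map (algebraMap _ (Algebra.adjoin E X))).comap
          (algebraMap (Algebra.adjoin R X) (Algebra.adjoin E X)) = P :=
        IsLocalization.under_map_of_isPrime_disjoint _ (Algebra.adjoin E X) hP hdis
      exact fsm_pt P (reg_loc ((nonZeroDivisors R).map (algebraMap R (Algebra.adjoin R X))) h _ P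
        hc))
  refine ⟨a, nonZeroDivisors.ne_zero ha, fun P hP haP => ?_⟩
  have h5 := h4 P haP
  have h6 : Algebra.EssFiniteType κ (Localization.AtPrime P) :=
    Algebra.EssFiniteType.comp κ (Algebra.adjoin R X) _
  exact reg_of_fsm (D := κ)

/-- **Generic regularity over a perfect field of fractions.** -/
theorem exists_rpt_nf [PerfectField E] (hX : X.Finite)
    (h : IsRegularRing (Algebra.adjoin E X)) : ∃ a : R, a ≠ 0 ∧ RPT R X a := by
  have h1 : Algebra.FiniteType R (Algebra.adjoin R X) := adj_ft hX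
  have h3 : Algebra.FinitePresentation R (Algebra.adjoin R X) :=
    Algebra.FinitePresentation.of_finiteType.1 h1
  have hE : Algebra.FiniteType E (Algebra.adjoin E X) := adj_ft hX
  have hsm : Algebra.Smooth E (Algebra.adjoin E X) := Pool.Agent.N864.GT.smooth_of_regular
  have hι : ∀ r : R, algebraMap E F (algebraMap R E r) = algebraMap R F r := fun r =>
    (IsScalarTower.algebraMap_apply R E F r).symm
  obtain ⟨iA, hA⟩ := exists_incA hι X
  have hT : IsScalarTower R (Algebra.adjoin R X) (Algebra.adjoin E X) :=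
    IsScalarTower.of_algebraMap_eq fun r => Subtype.ext (by
      rw [hA]
      rfl)
  have hil := incA_loc (X := X) hι (nonZeroDivisors R) (fun s hs =>
    IsLocalization.map_units E (⟨s, hs⟩ : nonZeroDivisors R)) gen_hd hA
  have hRE : Algebra.FormallySmooth R E :=
    Algebra.FormallySmooth.of_isLocalization (nonZeroDivisors R)
  have hRB : Algebra.FormallySmooth R (Algebra.adjoin E X) :=
    Algebra.FormallySmooth.comp R E (Algebra.adjoin E X)
  obtain ⟨_, ⟨a, ha, rfl⟩, h4⟩ := open_gen (R₀ := R) (B := Algebra.adjoin R X)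
    ((nonZeroDivisors R).map (algebraMap R (Algebra.adjoin R X))) (fun P hP hdis => by
      have hP' : (P.map (algebraMap _ (Algebra.adjoin E X))).IsPrime :=
        IsLocalization.isPrime_of_isPrime_disjoint _ (Algebra.adjoin E X) P hP hdis
      have hc : (P.map (algebraMap _ (Algebra.adjoin E X))).comap
          (algebraMap (Algebra.adjoin R X) (Algebra.adjoin E X)) = P :=
        IsLocalization.under_map_of_isPrime_disjoint _ (Algebra.adjoin E X) hP hdis
      obtain ⟨P', hP'e⟩ : ∃ P' : Ideal (Algebra.adjoin E X),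
        P' = P.map (algebraMap _ (Algebra.adjoin E X)) := ⟨_, rfl⟩
      rw [← hP'e] at hP' hc
      subst hc
      haveI := IsLocalization.isLocalization_isLocalization_atPrime_isLocalization
        ((nonZeroDivisors R).map (algebraMap R (Algebra.adjoin R X)))
        (Localization.AtPrime P') P'
      have h5 : Algebra.FormallySmooth R (Localization.AtPrime P') :=
        Algebra.FormallySmooth.comp R (Algebra.adjoin E X) (Localization.AtPrime P')
      exact Algebra.FormallySmooth.of_equiv ((IsLocalization.algEquiv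
        (P'.comap (algebraMap (Algebra.adjoin R X) (Algebra.adjoin E X))).primeCompl
        (Localization.AtPrime P') (Localization.AtPrime (P'.comap
          (algebraMap (Algebra.adjoin R X) (Algebra.adjoin E X))))).restrictScalars R))
  refine ⟨a, nonZeroDivisors.ne_zero ha, fun P hP haP => ?_⟩
  have h5 := h4 P haP
  have h6 : Algebra.EssFiniteType R (Localization.AtPrime P) :=
    Algebra.EssFiniteType.comp R (Algebra.adjoin R X) _
  exact reg_of_fsm (D := R)

lemma coe_alg {S : Type} [CommRing S] [Algebra S F] (r : S) :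
    ((algebraMap S (Algebra.adjoin S X) r : Algebra.adjoin S X) : F) = algebraMap S F r := rfl

lemma val_alg {V : ValuationSubring E} (v : V) : algebraMap V F v = algebraMap E F (v : E) := rfl

lemma hom_coe {V : ValuationSubring E} {𝔭 : Ideal R} (hV : VP R V 𝔭) (r : R) :
    (hV.hom r : E) = algebraMap R E r := rfl

/-- **Regularity over the valuation rings.** -/
theorem reg_V {a : R} (hX : X.Finite) (ha : RPT R X a) {V : ValuationSubring E} {𝔭 : Ideal R}
    (hV : VP R V 𝔭) (haV : algebraMap R E a ≠ 0 ∧ (algebraMap R E a)⁻¹ ∈ V) :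
    IsRegularRing (Algebra.adjoin V X) := by
  have hVn : IsNoetherianRing V := (hV.ded).toIsNoetherian
  have h1 : Algebra.FiniteType V (Algebra.adjoin V X) := adj_ft hX
  have h2 : IsNoetherianRing (Algebra.adjoin V X) := Algebra.FiniteType.isNoetherianRing V _
  have hι : ∀ r : R, algebraMap V F (hV.hom r) = algebraMap R F r := fun r => by
    rw [IsScalarTower.algebraMap_apply R E F, val_alg, hom_coe]
  obtain ⟨iA, hA⟩ := exists_incA hι X
  have hpp := hV.mx.isPrime
  have hu1 : ∀ s ∈ 𝔭.primeCompl, IsUnit (hV.hom s) := fun s hs => by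
    obtain ⟨hs0, hsV⟩ := hV.unit hs
    refine IsUnit.of_mul_eq_one (⟨_, hsV⟩ : V) (Subtype.ext ?_)
    rw [MulMemClass.coe_mul, hom_coe]
    exact mul_inv_cancel₀ hs0
  have hd1 : ∀ y : V, ∃ s ∈ 𝔭.primeCompl, ∃ r, hV.hom s * y = hV.hom r := fun y => by
    obtain ⟨s, hs, c, hc⟩ := hV.surj y.2
    refine ⟨s, hs, c, Subtype.ext ?_⟩
    rw [MulMemClass.coe_mul, hom_coe, hom_coe]
    exact hc
  have hil := incA_loc (X := X) hι 𝔭.primeCompl hu1 hd1 hA
  rw [isRegularRing_iff]
  intro P hP
  refine reg_loc' (𝔭.primeCompl.map (algebraMap R (Algebra.adjoin R X))) P (ha _ ?_)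
  intro h3
  rw [Ideal.mem_comap] at h3
  have h4 : IsUnit (algebraMap (Algebra.adjoin R X) (Algebra.adjoin V X)
      (algebraMap R (Algebra.adjoin R X) a)) := by
    refine IsUnit.of_mul_eq_one (algebraMap V (Algebra.adjoin V X) ⟨_, haV.2⟩) (Subtype.ext ?_)
    rw [MulMemClass.coe_mul, hA, coe_alg, coe_alg, val_alg,
      IsScalarTower.algebraMap_apply R E F, ← map_mul, mul_inv_cancel₀ haV.1, map_one]
    rfl
  exact hP.ne_top (Ideal.eq_top_of_isUnit_mem _ h3 h4)

/-- The prime of a valuation ring. -/
theorem VP_of {V : ValuationSubring E} (hV : V ≠ ⊤) (hR : ∀ x : R, algebraMap R E x ∈ V) :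
    ∃ 𝔭 : Ideal R, VP R V 𝔭 := by
  let φ : R →+* V := (algebraMap R E).codRestrict V hR
  obtain ⟨𝔭, h𝔭⟩ : ∃ 𝔭 : Ideal R, 𝔭 = (IsLocalRing.maximalIdeal V).comap φ := ⟨_, rfl⟩
  have h1 : 𝔭.IsPrime := by rw [h𝔭]; exact Ideal.comap_isPrime _ _
  have hiff : ∀ x : R, x ∈ 𝔭 ↔ algebraMap R E x = 0 ∨ (algebraMap R E x)⁻¹ ∉ V := by
    intro x
    rw [h𝔭, Ideal.mem_comap, IsLocalRing.mem_maximalIdeal, mem_nonunits_iff]
    constructor
    · intro h
      by_contra hcon
      rw [not_or, not_not] at hcon
      exact h (IsUnit.of_mul_eq_one (⟨_, hcon.2⟩ : V) (Subtype.ext (mul_inv_cancel₀ hcon.1)))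
    · intro h hu
      obtain ⟨y, hy⟩ := hu.exists_right_inv
      have h3 : algebraMap R E x * (y : E) = 1 := congrArg Subtype.val hy
      rcases h with h | h
      · rw [h, zero_mul] at h3
        exact zero_ne_one h3
      · apply h
        rw [← eq_inv_of_mul_eq_one_right h3]
        exact y.2
  have h2 : 𝔭 ≠ ⊥ := by
    rintro rfl
    apply hV
    rw [eq_top_iff]
    intro x _
    obtain ⟨a, b, hb, rfl⟩ := IsFractionRing.div_surjective (A := R) x
    have hb0 : b ≠ 0 := nonZeroDivisors.ne_zero hb
    have h3 : ¬ (algebraMap R E b = 0 ∨ (algebraMap R E b)⁻¹ ∉ V) := by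
      rw [← hiff]
      exact hb0
    rw [not_or, not_not] at h3
    rw [div_eq_mul_inv]
    exact V.mul_mem _ _ (hR a) h3.2
  exact ⟨𝔭, hR, h1.isMaximal h2, h2, hiff⟩

end gen

end Pool.Agent.T9h3.R
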