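import Pool.Agent.T9h3.R.Ff
import Mathlib.FieldTheory.PurelyInseparable.Basic

/-!
# Parameters of function fields
-/

set_option autoImplicit false
set_option linter.unusedSectionVars false
set_option linter.overlappingInstances false
set_option linter.unusedVariables false

namespace Pool.Agent.T9h3.R

open Polynomial
open scoped IntermediateField IntermediateField.algebraAdjoinAdjoin

variable {κ E : Type} [Field κ] [Field E] [Algebra κ E]

/-- A parameter with poles at given places. -/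
theorem exists_t (p : ℕ) [hp : Fact p.Prime] [CharP κ p] {s : E} (hs : Transcendental κ s)
    [FiniteDimensional κ⟮s⟯ E] [Algebra.IsSeparable κ⟮s⟯ E] {P : κ[X]} (hP : P.Monic) :
    ∃ t : E, t ≠ 0 ∧ FiniteDimensional κ⟮t⟯ E ∧ Algebra.IsSeparable κ⟮t⟯ E ∧
      IsIntegral (Algebra.adjoin κ {t}) s ∧ IsIntegral (Algebra.adjoin κ {t}) (aeval s P)⁻¹ := by
  classical
  have hy0 : aeval s P ≠ 0 := fun h => hs ⟨P, hP.ne_zero, h⟩
  obtain ⟨q, hq⟩ : ∃ q, q = (aeval s P) ^ p := ⟨_, rfl⟩
  have hq0 : q ≠ 0 := by rw [hq]; exact pow_ne_zero _ hy0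
  obtain ⟨t, ht⟩ : ∃ t, t = s * q + q⁻¹ := ⟨_, rfl⟩
  have htq : t * q = s * q ^ 2 + 1 := by
    rw [ht, add_mul, inv_mul_cancel₀ hq0]
    ring
  -- integrality of `s`
  obtain ⟨t', ht'⟩ : ∃ t' : Algebra.adjoin κ {t}, (t' : E) = t :=
    ⟨⟨t, Algebra.self_mem_adjoin_singleton κ t⟩, rfl⟩
  obtain ⟨R, hR⟩ : ∃ R : (Algebra.adjoin κ {t})[X],
      R = (P.map (algebraMap κ (Algebra.adjoin κ {t}))) ^ p := ⟨_, rfl⟩
  have hRm : R.Monic := by rw [hR]; exact (hP.map _).pow p
  have hRs : aeval s R = q := by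
    rw [hR, map_pow, aeval_map_algebraMap, hq]
  have hint : IsIntegral (Algebra.adjoin κ {t}) s := by
    refine ⟨X * R ^ 2 + (1 - C t' * R), ?_, ?_⟩
    · have h1 : (X * R ^ 2).Monic := monic_X.mul (hRm.pow 2)
      refine h1.add_of_left ?_
      have h2 : (X * R ^ 2).natDegree = 1 + 2 * R.natDegree := by
        rw [monic_X.natDegree_mul (hRm.pow 2), natDegree_X, hRm.natDegree_pow]
      have h3 : (1 - C t' * R).natDegree ≤ R.natDegree := by
        refine (natDegree_sub_le _ _).trans ?_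
        rw [natDegree_one]
        exact max_le (Nat.zero_le _) (natDegree_C_mul_le _ _)
      rw [degree_eq_natDegree h1.ne_zero, h2]
      refine lt_of_le_of_lt degree_le_natDegree ?_
      have h4 : (1 - C t' * R).natDegree < 1 + 2 * R.natDegree := by omega
      exact_mod_cast h4
    · change aeval s (X * R ^ 2 + (1 - C t' * R)) = 0
      rw [map_add, map_mul, map_pow, map_sub, map_one, map_mul, aeval_X, aeval_C, hRs]
      change s * q ^ 2 + (1 - (t' : E) * q) = 0
      rw [ht', htq]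
      ring
  -- integrality of the inverse
  have hint' : IsIntegral (Algebra.adjoin κ {t}) (aeval s P)⁻¹ := by
    obtain ⟨w, hw⟩ : ∃ w, w = (aeval s P)⁻¹ := ⟨_, rfl⟩
    have hwq : w ^ p = q⁻¹ := by rw [hw, hq, inv_pow]
    rw [← hw]
    have h1 : IsIntegral (integralClosure (Algebra.adjoin κ {t}) E) w := by
      obtain ⟨s', hs'⟩ : ∃ s' : integralClosure (Algebra.adjoin κ {t}) E, (s' : E) = s :=
        ⟨⟨s, hint⟩, rfl⟩
      obtain ⟨t'', ht''⟩ : ∃ t'' : integralClosure (Algebra.adjoin κ {t}) E, (t'' : E) = t :=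
        ⟨⟨t, by
          have h2 := isIntegral_algebraMap (R := Algebra.adjoin κ {t}) (A := E) (x := t')
          rw [show algebraMap (Algebra.adjoin κ {t}) E t' = t from ht'] at h2
          exact h2⟩, rfl⟩
      refine ⟨X ^ (2 * p) + (C s' - C t'' * X ^ p), ?_, ?_⟩
      · refine monic_X_pow_add ?_
        refine lt_of_le_of_lt degree_le_natDegree ?_
        have h4 : (C s' - C t'' * X ^ p).natDegree ≤ p := by
          refine (natDegree_sub_le _ _).trans ?_
          rw [natDegree_C]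
          exact max_le (Nat.zero_le _) (natDegree_C_mul_X_pow_le _ _)
        have h5 : (C s' - C t'' * X ^ p).natDegree < 2 * p := by
          have := hp.out.pos
          omega
        exact_mod_cast h5
      · change aeval w (X ^ (2 * p) + (C s' - C t'' * X ^ p)) = 0
        have e1 : aeval w (C s' - C t'' * X ^ p) = aeval w (C s') - aeval w (C t'' * X ^ p) :=
          map_sub (aeval w : (integralClosure (Algebra.adjoin κ {t}) E)[X] →ₐ[_] E).toRingHom _ _
        rw [map_add, map_pow, e1, map_mul, map_pow, aeval_X, aeval_C, aeval_C]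
        change w ^ (2 * p) + ((s' : E) - (t'' : E) * w ^ p) = 0
        rw [hs', ht'', mul_comm 2 p, pow_mul, hwq, ht]
        field_simp
        ring
    exact isIntegral_trans w h1
  -- separability
  have hint1 : t ≠ 0 := by
    intro h0
    apply hs
    refine ⟨X * (P ^ p) ^ 2 + 1, ?_, ?_⟩
    · have h1 : (X * (P ^ p) ^ 2 + 1).Monic := by
        have h2 : (X * (P ^ p) ^ 2).Monic := monic_X.mul ((hP.pow p).pow 2)
        refine h2.add_of_left ?_
        rw [degree_eq_natDegree h2.ne_zero, degree_one,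
          monic_X.natDegree_mul ((hP.pow p).pow 2), natDegree_X]
        have h3 : 0 < 1 + ((P ^ p) ^ 2).natDegree := by omega
        exact_mod_cast h3
      exact h1.ne_zero
    · rw [map_add, map_mul, map_pow, map_pow, aeval_X, map_one, ← hq, ← htq, h0, zero_mul]
  obtain ⟨t₁, ht₁⟩ : ∃ t₁ : κ⟮t⟯, (t₁ : E) = t :=
    ⟨⟨t, IntermediateField.mem_adjoin_simple_self κ t⟩, rfl⟩
  obtain ⟨R₁, hR₁⟩ : ∃ R₁ : κ⟮t⟯[X], R₁ = P.map (algebraMap κ κ⟮t⟯) := ⟨_, rfl⟩
  have hR₁s : aeval s R₁ = aeval s P := by rw [hR₁, aeval_map_algebraMap]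
  obtain ⟨F₁, hF₁⟩ : ∃ F₁ : κ⟮t⟯[X], F₁ = X * (R₁ ^ p) ^ 2 + (1 - C t₁ * R₁ ^ p) := ⟨_, rfl⟩
  have hF0 : aeval s F₁ = 0 := by
    rw [hF₁, map_add, map_mul, map_pow, map_pow, map_sub, map_one, map_mul, map_pow, aeval_X,
      aeval_C, hR₁s, ← hq]
    change s * q ^ 2 + (1 - (t₁ : E) * q) = 0
    rw [ht₁, htq]
    ring
  have hp0 : (p : κ⟮t⟯) = 0 := by
    have h1 : (p : κ) = 0 := CharP.cast_eq_zero κ p
    have h2 := congrArg (algebraMap κ κ⟮t⟯) h1
    rwa [map_natCast, map_zero] at h2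
  have hdp : derivative (R₁ ^ p) = 0 := by
    rw [derivative_pow, hp0, C_0, zero_mul, zero_mul]
  have hdF : derivative F₁ = (R₁ ^ p) ^ 2 := by
    rw [hF₁, derivative_add, derivative_mul, derivative_X, one_mul, derivative_pow, hdp, mul_zero,
      mul_zero, add_zero, derivative_sub, derivative_one, derivative_mul, hdp, mul_zero,
      derivative_C, zero_mul, add_zero, sub_zero, add_zero]
  have hdF0 : aeval s (derivative F₁) ≠ 0 := by
    rw [hdF, map_pow, map_pow, hR₁s, ← hq]
    exact pow_ne_zero _ hq0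
  have hF₁0 : F₁ ≠ 0 := by
    intro h
    rw [h, derivative_zero, map_zero] at hdF0
    exact hdF0 rfl
  have hsint : IsIntegral κ⟮t⟯ s := by
    have h1 : IsAlgebraic κ⟮t⟯ s := ⟨F₁, hF₁0, hF0⟩
    exact h1.isIntegral
  have hssep : IsSeparable κ⟮t⟯ s := by
    change (minpoly κ⟮t⟯ s).Separable
    rw [separable_iff_derivative_ne_zero (minpoly.irreducible hsint)]
    intro h
    obtain ⟨Q, hQ⟩ := minpoly.dvd κ⟮t⟯ s hF0
    apply hdF0
    rw [hQ, derivative_mul, h, zero_mul, zero_add, map_mul, minpoly.aeval, zero_mul]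
  obtain ⟨N, hN⟩ : ∃ N : IntermediateField κ⟮t⟯ E, N = IntermediateField.adjoin κ⟮t⟯ {s} :=
    ⟨_, rfl⟩
  have hNfin : FiniteDimensional κ⟮t⟯ N := by
    rw [hN]
    exact IntermediateField.adjoin.finiteDimensional hsint
  have hNsep : Algebra.IsSeparable κ⟮t⟯ N := by
    rw [hN]
    exact (IntermediateField.isSeparable_adjoin_simple_iff_isSeparable _ _).2 hssep
  have hle : κ⟮s⟯ ≤ N.restrictScalars κ := by
    rw [IntermediateField.adjoin_simple_le_iff]
    change s ∈ N
    rw [hN]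
    exact IntermediateField.mem_adjoin_simple_self _ s
  let f : κ⟮s⟯ →+* N :=
    { toFun := fun x => ⟨x.1, hle x.2⟩
      map_one' := rfl
      map_mul' := fun _ _ => rfl
      map_zero' := rfl
      map_add' := fun _ _ => rfl }
  let ia : Algebra κ⟮s⟯ N := f.toAlgebra
  have it : IsScalarTower κ⟮s⟯ N E := IsScalarTower.of_algebraMap_eq fun _ => rfl
  have h1 : FiniteDimensional N E := Module.Finite.of_restrictScalars_finite κ⟮s⟯ N E
  have h2 : Algebra.IsSeparable N E := Algebra.isSeparable_tower_top_of_isSeparable κ⟮s⟯ N E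
  exact ⟨t, hint1, FiniteDimensional.trans κ⟮t⟯ N E, Algebra.IsSeparable.trans κ⟮t⟯ N E, hint,
    hint'⟩

end Pool.Agent.T9h3.R
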