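import Pool.Agent.T9h3.R.Fil

/-!
# The weights for actions up to units
-/

set_option autoImplicit false
set_option linter.unusedSectionVars false
set_option linter.overlappingInstances false
set_option linter.unusedVariables false

namespace Pool.Agent.T9h3.R

open Pool.Agent.Y223.G Pool.Agent.R383.TM Pool.Agent.T9h3 Pool.Agent.T9h3.H Pool.Agent.T9h3.P
open Pool.Agent.Y86.G5 (im mem_im mem_im' im_sub im_mul)

section

variable {k O K : Type} [CommRing k] [CommRing O] [IsDomain O] [IsDedekindDomain O] [Field K]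
  [Algebra O K] [Algebra k K]
  {𝔓 : Ideal O} {m : ℕ} {W : Fin (m + 1) → ℕ} {z : Fin (m + 1) → K} {j : Fin (m + 1)}

/-- The powers of the prime, in a radical ideal. -/
lemma rad_pow {l : ℕ} {t : O → O} {J : Ideal (WR k 𝔓 1 W z j)} (hJ : J.IsRadical)
    (h𝔓 : 𝔓.IsMaximal) (hne : 𝔓 ≠ ⊥)
    (j1 : ∀ a ∈ 𝔓, hm 0 (algebraMap O K a) ∈ im (WR k 𝔓 1 W z j) J)
    (j2 : ∀ a ∈ 𝔓, hm (1 + l : ℕ) (algebraMap O K (t a - a)) ∈ im (WR k 𝔓 1 W z j) J)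
    (hd : ∀ o, t o - o ∈ 𝔓 ^ (l + 1)) (un : ∃ π ∈ 𝔓, t π - π ∉ 𝔓 ^ (l + 2)) {b : O} (hb : b ∈ 𝔓) :
    hm 1 (algebraMap O K b) ∈ im (WR k 𝔓 1 W z j) J := by
  have hP : 𝔓.IsPrime := h𝔓.isPrime
  have hW : ∀ (n : ℕ) {a : O}, a ∈ 𝔓 ^ n → hm (n : ℤ) (algebraMap O K a) ∈ WR k 𝔓 1 W z j := by
    intro n a ha
    have h1 := WR_epow (k := k) (K := K) (W := W) (z := z) (j := j) (e := 1) n ha
    rwa [one_mul] at h1
  have h1 : hm 1 (algebraMap O K b) ∈ WR k 𝔓 1 W z j := by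
    have h2 := hW 1 (a := b) (by rwa [pow_one])
    rwa [Nat.cast_one] at h2
  refine ⟨h1, hJ ⟨l + 1, ?_⟩⟩
  rw [← mem_im']
  have e1 : (((⟨_, h1⟩ : WR k 𝔓 1 W z j) ^ (l + 1) : WR k 𝔓 1 W z j) : LP K) =
      hm ((l + 1 : ℕ) : ℤ) (algebraMap O K (b ^ (l + 1))) := by
    rw [SubmonoidClass.coe_pow, hm_pow, mul_one, map_pow]
  rw [e1]
  obtain ⟨π, hπ, hπ2⟩ := un
  obtain ⟨d, e, he, hde⟩ := Ideal.exists_mul_add_mem_pow_succ (P := 𝔓) hne (t π - π) (b ^ (l + 1))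
    (hd π) hπ2 (Ideal.pow_mem_pow hb _)
  rw [← hde, map_add, hm_add]
  refine AddSubmonoid.add_mem _ ?_ ?_
  · have h2 := im_mul (WR_o (k := k) (K := K) (𝔓 := 𝔓) (e := 1) (W := W) (z := z) (j := j) d)
      (j2 π hπ)
    rw [hm_mul, ← map_mul, zero_add, mul_comm d] at h2
    have e2 : ((1 + l : ℕ) : ℤ) = ((l + 1 : ℕ) : ℤ) := by push_cast; ring
    rwa [e2] at h2
  · rw [pow_succ] at he
    refine Submodule.mul_induction_on he (fun x hx y hy => ?_) (fun x y hx hy => ?_)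
    · have h2 := im_mul (hW (l + 1) hx) (j1 y hy)
      rwa [hm_mul, ← map_mul, add_zero] at h2
    · rw [map_add, hm_add]
      exact AddSubmonoid.add_mem _ hx hy

/-- The powers of the prime, in an ideal. -/
lemma rad_pow' {J : Ideal (WR k 𝔓 1 W z j)}
    (j3 : ∀ b ∈ 𝔓, hm 1 (algebraMap O K b) ∈ im (WR k 𝔓 1 W z j) J) (n : ℕ) (hn : 1 ≤ n) {a : O}
    (ha : a ∈ 𝔓 ^ n) : hm (n : ℤ) (algebraMap O K a) ∈ im (WR k 𝔓 1 W z j) J := by
  obtain ⟨n, rfl⟩ : ∃ n', n = n' + 1 := ⟨n - 1, by omega⟩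
  rw [pow_succ] at ha
  refine Submodule.mul_induction_on ha (fun x hx y hy => ?_) (fun x y hx hy => ?_)
  · have h1 := WR_epow (k := k) (K := K) (W := W) (z := z) (j := j) (e := 1) n hx
    rw [one_mul] at h1
    have h2 := im_mul h1 (j3 y hy)
    rw [hm_mul, ← map_mul] at h2
    exact_mod_cast h2
  · rw [map_add, hm_add]
    exact AddSubmonoid.add_mem _ hx hy

/-- The errors are in the radical ideal. -/
lemma ERR_rad {J : Ideal (WR k 𝔓 1 W z j)} {N : ℕ} (hN : 1 ≤ N)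
    (j3 : ∀ b ∈ 𝔓, hm 1 (algebraMap O K b) ∈ im (WR k 𝔓 1 W z j) J)
    (i : Fin (m + 1)) {n : ℤ} (hn : n ≤ (N : ℤ) + W i) {y : K}
    (hy : y ∈ ERR (𝔓 ^ N) z) : hm n (z i * y / z j ^ 2) ∈ im (WR k 𝔓 1 W z j) J := by
  unfold ERR at hy
  induction hy using Submodule.span_induction with
  | mem x hx =>
    obtain ⟨a, ha, i', rfl⟩ := hx
    have h0 := rad_pow' j3 N hN ha
    have h1 := Subalgebra.mul_mem _ (WR_z (k := k) (𝔓 := 𝔓) (e := 1) (W := W) (z := z)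
        (j := j) i) (WR_z (k := k) (𝔓 := 𝔓) (e := 1) (W := W) (z := z) (j := j) i')
    have hlo : hm (n - N) (z i / z j * (z i' / z j)) ∈ WR k 𝔓 1 W z j := by
      rw [hm_mul] at h1
      refine low_mem WR_s h1 ?_
      have : (0 : ℤ) ≤ (W i' : ℤ) := by positivity
      linarith
    have h2 := im_mul hlo h0
    rw [hm_mul] at h2
    have e1 : n - (N : ℤ) + N = n := by ring
    rw [e1] at h2
    have e2 : z i * (algebraMap O K a * z i') / z j ^ 2 =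
        z i / z j * (z i' / z j) * algebraMap O K a := by ring
    rw [e2]
    exact h2
  | zero => rw [mul_zero, zero_div, hm_zero]; exact AddSubmonoid.zero_mem _
  | add x y _ _ hx hy =>
    have e1 : z i * (x + y) / z j ^ 2 = z i * x / z j ^ 2 + z i * y / z j ^ 2 := by ring
    rw [e1, hm_add]
    exact AddSubmonoid.add_mem _ hx hy
  | smul r x _ hx =>
    have e1 : hm n (z i * (r • x) / z j ^ 2) =
        hm 0 (algebraMap O K r) * hm n (z i * x / z j ^ 2) := by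
      rw [hm_mul, Algebra.smul_def, zero_add]
      congr 1
      ring
    rw [e1]
    exact im_mul (WR_o r) hx

end

section

variable {k O K G Λ : Type} [CommRing k] [IsDomain k] [CommRing O] [IsDomain O]
  [IsDedekindDomain O] [Field K] [Group G] [Algebra k O] [Algebra O K] [Algebra k K]
  [IsScalarTower k O K] [AddCommGroup Λ] [DistribMulAction G Λ]

variable {ρ ρ₀ : G →* (K ≃ₐ[k] K)} {T : G →* (O ≃ₐ[k] O)} {χ : Λ → K} {Δ : Set Λ}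
variable [Finite G] {m : ℕ} {z : Fin (m + 1) → K}

/-- The errors of the wild inertia. -/
lemma err_ERR (S : TSW k O K G Λ ρ₀ T χ Δ) (hP : PTB ρ T χ) (Z : ZGW ρ₀ T χ Δ z)
    {𝔓 : Ideal O} {g : G} {l : ℕ} (h𝔓 : 𝔓.IsMaximal) (hg : IW T 𝔓 g)
    (hd : DVN T 𝔓 g (l + 1)) {w : K} (hw : w ∈ Submodule.span ℤ (χ '' Δ)) :
    ρ g w - ρ₀ g w ∈ ERR (𝔓 ^ (orderOf g * l)) z := by
  have hspan : ∀ x ∈ Δ, χ x ∈ Submodule.span ℤ (Set.range z) := fun x hx =>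
    Z.span (Submodule.subset_span ⟨x, hx, rfl⟩)
  have herr0 : ∀ e ∈ 𝔓 ^ (orderOf g * l), ∀ u ∈ Submodule.span ℤ (Set.range z),
      algebraMap O K e * u ∈ ERR (𝔓 ^ (orderOf g * l)) z := by
    intro e he u hu
    induction hu using Submodule.span_induction with
    | mem x hx =>
      obtain ⟨i, rfl⟩ := hx
      exact Submodule.subset_span ⟨e, he, i, rfl⟩
    | zero => rw [mul_zero]; exact Submodule.zero_mem _
    | add x y _ _ hx hy => rw [mul_add]; exact Submodule.add_mem _ hx hy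
    | smul n x _ hx =>
      rw [mul_smul_comm]
      exact zsmul_mem hx n
  induction hw using Submodule.span_induction with
  | mem x hx =>
    obtain ⟨y, hy, rfl⟩ := hx
    obtain ⟨e, he, h1⟩ := hP.er 𝔓 g h𝔓 hg l hd y
    rw [h1, S.act 𝔓 g h𝔓 hg]
    have e1 : algebraMap O K (1 + e) * χ (g • y) - χ (g • y) = algebraMap O K e * χ (g • y) := by
      rw [map_add, map_one]
      ring
    rw [e1]
    exact herr0 e he _ (hspan _ (S.st g y hy))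
  | zero => rw [map_zero, map_zero, sub_zero]; exact Submodule.zero_mem _
  | add x y _ _ hx hy =>
    have e1 : ρ g (x + y) - ρ₀ g (x + y) = (ρ g x - ρ₀ g x) + (ρ g y - ρ₀ g y) := by
      rw [map_add, map_add]; ring
    rw [e1]
    exact Submodule.add_mem _ hx hy
  | smul n x _ hx =>
    have e1 : ρ g (n • x) - ρ₀ g (n • x) = n • (ρ g x - ρ₀ g x) := by
      rw [map_zsmul, map_zsmul, smul_sub]
    rw [e1]
    exact zsmul_mem hx n

/-- **The hypotheses on the weights, for actions up to units.** -/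
theorem WD_pert2 (S : TSW k O K G Λ ρ₀ T χ Δ) (hG : GN k O K G ρ T) (hP : PTB ρ T χ)
    (Z : ZGW ρ₀ T χ Δ z) :
    R383.TM.WD k O K G ρ T z (fun _ => 1) (wN ρ₀ T χ Δ z) := by
  refine ⟨fun _ => Nat.one_pos, ?_, ?_, ?_⟩
  · rintro 𝔓 h𝔓 ⟨g, hg⟩ j
    have hg' : IW T 𝔓 g := hg
    exact WR_reg (ZWreg (Z.zw' S h𝔓 hg') (S.l0_spec' h𝔓 hg') (S.st g) S.fin'
      (S.vf 𝔓 g _ h𝔓 hg' (S.l0_spec' h𝔓 hg')) j)
  · rintro 𝔓 h𝔓 ⟨g, hg⟩ h 𝔓' hh
    exact ⟨rfl, fun i j => eq_clause S hG hP Z h𝔓 ⟨g, hg⟩ hh i j⟩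
  · intro 𝔓 h𝔓 g hg1 hg2
    have hg : IW T 𝔓 g := ⟨hg1, hg2⟩
    have t := S.l0_spec' h𝔓 hg
    have hZ := Z.zw' S h𝔓 hg
    obtain ⟨l, hl⟩ : ∃ l, l = lN ρ₀ T χ 𝔓 := ⟨_, rfl⟩
    rw [← hl] at t hZ
    obtain ⟨p, hp⟩ : ∃ p, p = orderOf g := ⟨_, rfl⟩
    have hd : DVN T 𝔓 g (l + 1) := t.dv
    have herr : ∀ i, ρ g (z i) - ρ₀ g (z i) ∈ ERR (𝔓 ^ (p * l)) z := fun i => by
      rw [hp]
      exact err_ERR S hP Z h𝔓 hg hd (Z.zs i)
    have hWl : ∀ i, wN ρ₀ T χ Δ z 𝔓 i + l ≤ p * l := by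
      intro i
      rw [hZ.eq i]
      have h1 := hZ.kp i
      rw [← hp] at h1
      have h2 : 1 ≤ p := hp ▸ t.pp.one_le
      have e1 : kN ρ₀ T χ Δ z 𝔓 i * l + l = (kN ρ₀ T χ Δ z 𝔓 i + 1) * l := by ring
      rw [e1]
      exact Nat.mul_le_mul_right _ (by omega)
    have hpl1 : 1 ≤ p * l := Nat.mul_pos (hp ▸ t.pp.pos) t.l1
    have hlin0 : ∀ i j, hm ((wN ρ₀ T χ Δ z 𝔓 i : ℤ) + l) ((ρ₀ g (z i) - z i) / z j) ∈
        WR k 𝔓 1 (wN ρ₀ T χ Δ z 𝔓) z j := fun i j =>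
      WR_mem (ZWd hZ t (S.st g) (S.vf 𝔓 g _ h𝔓 hg t) i j)
    have hlin' : ∀ i j, hm ((wN ρ₀ T χ Δ z 𝔓 i : ℤ) + l) ((ρ g (z i) - z i) / z j) ∈
        WR k 𝔓 1 (wN ρ₀ T χ Δ z 𝔓) z j := by
      intro i j
      have e1 : (ρ g (z i) - z i) / z j = (ρ₀ g (z i) - z i) / z j +
          (ρ g (z i) - ρ₀ g (z i)) / z j := by ring
      rw [e1, hm_add]
      refine Subalgebra.add_mem _ (hlin0 i j) (ERR_mem (N := p * l) le_rfl ?_ (herr i))
      rw [one_mul]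
      exact_mod_cast hWl i
    refine ⟨l, l, t.l1, by rw [one_mul], t.dv, hlin', fun j x hx => ?_⟩
    have hfix := FIX_of (k := k) (ρ₀ g) (T g) (fun o => S.com g o)
      (ZWnf hZ t (S.st g) (S.vf 𝔓 g _ h𝔓 hg t) j)
    obtain ⟨J, hJd⟩ : ∃ J, J = (FIX k 𝔓 1 l (wN ρ₀ T χ Δ z 𝔓) z (ρ g) (T g) j).radical := ⟨_, rfl⟩
    have hJ : J.IsRadical := hJd ▸ Ideal.radical_isRadical _
    have hFJ : FIX k 𝔓 1 l (wN ρ₀ T χ Δ z 𝔓) z (ρ g) (T g) j ≤ J := hJd ▸ Ideal.le_radical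
    have j1 : ∀ a ∈ 𝔓, hm 0 (algebraMap O K a) ∈ im (WR k 𝔓 1 (wN ρ₀ T χ Δ z 𝔓) z j) J :=
      fun a ha => ⟨WR_o a, hFJ (Ideal.subset_span (Or.inl ⟨a, ha, rfl⟩))⟩
    have j2 : ∀ a ∈ 𝔓, hm (1 + l : ℕ) (algebraMap O K (T g a - a)) ∈
        im (WR k 𝔓 1 (wN ρ₀ T χ Δ z 𝔓) z j) J := by
      intro a ha
      have h1 := WR_epow (k := k) (K := K) (W := wN ρ₀ T χ Δ z 𝔓) (z := z) (j := j) (e := 1)
        (l + 1) (hd a)
      have e1 : ((1 * (l + 1) : ℕ) : ℤ) = ((1 + l : ℕ) : ℤ) := by push_cast; ring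
      rw [e1] at h1
      refine ⟨h1, hFJ (Ideal.subset_span (Or.inr (Or.inl ⟨a, ha, ?_⟩)))⟩
      change hm _ _ = hm _ _
      congr 1
    have j3 : ∀ b ∈ 𝔓, hm 1 (algebraMap O K b) ∈ im (WR k 𝔓 1 (wN ρ₀ T χ Δ z 𝔓) z j) J :=
      fun b hb => rad_pow hJ h𝔓 t.ne j1 j2 hd t.un hb
    have h1 := hfix x hx
    rw [← hJd]
    have h2 : (FIX k 𝔓 1 l (wN ρ₀ T χ Δ z 𝔓) z (ρ₀ g) (T g) j).radical ≤ J := by
      rw [hJ.radical_le_iff]
      unfold FIX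
      rw [Ideal.span_le]
      rintro x (hx | hx | ⟨i, i', hx⟩)
      · exact hFJ (Ideal.subset_span (Or.inl hx))
      · exact hFJ (Ideal.subset_span (Or.inr (Or.inl hx)))
      · have b1 : ∀ i i' : Fin (m + 1), (wN ρ₀ T χ Δ z 𝔓 i : ℤ) + wN ρ₀ T χ Δ z 𝔓 i' + l ≤
            ((p * l : ℕ) : ℤ) + wN ρ₀ T χ Δ z 𝔓 i := by
          intro i i'
          have h2 : ((wN ρ₀ T χ Δ z 𝔓 i' + l : ℕ) : ℤ) ≤ ((p * l : ℕ) : ℤ) := by
            exact_mod_cast hWl i'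
          push_cast at h2 ⊢
          linarith
        have g1 := ERR_rad (k := k) (j := j) hpl1 j3 i (b1 i i') (herr i')
        have g2 := ERR_rad (k := k) (j := j) hpl1 j3 i' (b1 i' i) (herr i)
        rw [add_comm (wN ρ₀ T χ Δ z 𝔓 i' : ℤ)] at g2
        have g3 := Subalgebra.mul_mem _ (WR_z (k := k) (𝔓 := 𝔓) (e := 1)
          (W := wN ρ₀ T χ Δ z 𝔓) (z := z) (j := j) i) (hlin' i' j)
        have g4 := Subalgebra.mul_mem _ (WR_z (k := k) (𝔓 := 𝔓) (e := 1)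
          (W := wN ρ₀ T χ Δ z 𝔓) (z := z) (j := j) i') (hlin' i j)
        rw [hm_mul] at g3 g4
        have e1 : (wN ρ₀ T χ Δ z 𝔓 i' : ℤ) + ((wN ρ₀ T χ Δ z 𝔓 i : ℤ) + l) =
          (wN ρ₀ T χ Δ z 𝔓 i : ℤ) + ((wN ρ₀ T χ Δ z 𝔓 i' : ℤ) + l) := by ring
        rw [e1] at g4
        have g5 := Subalgebra.sub_mem _ g3 g4
        rw [← hm_sub] at g5
        have e2 : z i / z j * ((ρ g (z i') - z i') / z j) -
            z i' / z j * ((ρ g (z i) - z i) / z j) =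
            (z i * ρ g (z i') - z i' * ρ g (z i)) / z j ^ 2 := by ring
        rw [e2, ← add_assoc] at g5
        have g6 : hm ((wN ρ₀ T χ Δ z 𝔓 i : ℤ) + wN ρ₀ T χ Δ z 𝔓 i' + l)
            ((z i * ρ g (z i') - z i' * ρ g (z i)) / z j ^ 2) ∈
            im (WR k 𝔓 1 (wN ρ₀ T χ Δ z 𝔓) z j) J :=
          ⟨g5, hFJ (Ideal.subset_span (Or.inr (Or.inr ⟨i, i', rfl⟩)))⟩
        obtain ⟨q1, q1'⟩ := g1
        obtain ⟨q2, q2'⟩ := g2
        obtain ⟨q3, q3'⟩ := g6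
        have e3 : x = ⟨_, q3⟩ - (⟨_, q1⟩ - ⟨_, q2⟩) := by
          apply Subtype.ext
          rw [hx]
          change _ = hm _ _ - (hm _ _ - hm _ _)
          rw [← hm_sub, ← hm_sub]
          congr 1
          ring
        rw [SetLike.mem_coe, e3]
        exact Ideal.sub_mem _ q3' (Ideal.sub_mem _ q1' q2')
    exact h2 h1

end

end Pool.Agent.T9h3.R
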