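import Pool.Agent.T9h3.R.Plz

/-!
# The local-global theorem for lattices
-/

set_option autoImplicit false
set_option linter.unusedSectionVars false
set_option linter.overlappingInstances false
set_option linter.unusedVariables false
set_option linter.style.haveILetI false

namespace Pool.Agent.T9h3.R

open Pool.Agent.R383.TM Pool.Agent.T9h3 Pool.Agent.T9h3.H
open Pool.Agent.T9h3.P Pool.Agent.T9h3.Q Pool.Agent.H918R2.Quad
open Polynomial hiding CC
open Pool.Agent.Y223.G hiding CC
open scoped NumberField IntermediateField IntermediateField.algebraAdjoinAdjoin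

section nf

variable {E F : Type} [Field E] [NumberField E] [Field F] [Algebra E F] [Algebra (𝓞 E) F]
  [IsScalarTower (𝓞 E) E F]

/-- **Number fields.** -/
theorem nf_gen {n : ℕ} (hn : n ≠ 0) {W : Submodule E F}
    (hG : GVK (integralClosure (Algebra.adjoin ℤ {(n : ℚ)⁻¹}) E) W)
    (h1 : ∀ (𝔭 : Ideal (𝓞 E)) (V : ValuationSubring E), VP (𝓞 E) V 𝔭 → Finite (𝓞 E ⧸ 𝔭) →
      (n : E)⁻¹ ∉ V → GVK V W) : HasModule (𝓞 E) F := by
  classical
  have hnE : (n : E) ≠ 0 := by exact_mod_cast hn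
  have hnO : (n : 𝓞 E) ≠ 0 := by
    intro h
    apply hnE
    have := congrArg (algebraMap (𝓞 E) E) h
    simpa using this
  obtain ⟨B, hB⟩ := exists_primes hnO
  have hloc : ∀ 𝔭 ∈ B, GLK 𝔭 W := by
    intro 𝔭 h𝔭
    obtain ⟨hmax, hn𝔭⟩ := (hB 𝔭).1 h𝔭
    have h𝔭0 : 𝔭 ≠ ⊥ := by
      rintro rfl
      exact hnO hn𝔭
    obtain ⟨V, hV⟩ := exists_VP (E := E) 𝔭 hmax h𝔭0
    have hnV : (n : E)⁻¹ ∉ V := by
      rcases (hV.iff _).1 hn𝔭 with h2 | h2
      · exfalso
        rw [map_natCast] at h2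
        exact hnE h2
      · rwa [map_natCast] at h2
    have hfin : Finite (𝓞 E ⧸ 𝔭) := Ideal.finiteQuotientOfFreeOfNeBot 𝔭 h𝔭0
    exact hV.glk (h1 𝔭 V hV hfin hnV)
  have i1 := Zn_ded hn
  have i2 := Zn_frac (n := n)
  have i3 := Zn_ft (n := n)
  have i4 := B_frac (Algebra.adjoin ℤ {(n : ℚ)⁻¹}) ℚ E
  have i5 := Zn_loc hn
  refine hasModule_of_local (E := E) ?_ (b := (n : 𝓞 E)) (W := W) hB hloc
    (big_of hnO ?_ ?_ hG)
  · rw [IsScalarTower.algebraMap_eq (𝓞 E) E F]
    exact (algebraMap E F).injective.comp (IsFractionRing.injective (𝓞 E) E)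
  · intro x
    have h2 : IsIntegral ℤ (x : E) := x.2
    exact ⟨⟨x, h2.tower_top⟩, rfl⟩
  · intro x
    obtain ⟨⟨_, j, rfl⟩, hm⟩ := IsIntegral.exists_multiple_integral_of_isLocalization
      (Submonoid.powers (n : ℤ)) (Rₘ := Algebra.adjoin ℤ {(n : ℚ)⁻¹}) (x : E) x.2
    refine ⟨j, ⟨_, hm⟩, ?_⟩
    change algebraMap (𝓞 E) E (n : 𝓞 E) ^ j * (x : E) = (((n : ℤ) ^ j : ℤ)) • (x : E)
    rw [zsmul_eq_mul, map_natCast]
    push_cast
    rfl

end nf

section ff

variable {κ E F : Type} [Field κ] [Finite κ] [Field E] [Algebra κ E]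
  {t : E} [FiniteDimensional κ⟮t⟯ E] [Algebra.IsSeparable κ⟮t⟯ E]
  [Field F] [Algebra κ F] [Algebra E F] [IsScalarTower κ E F]

/-- **Function fields.** -/
theorem ff_gen (ht : t ≠ 0) {S : Set F} (hSf : S.Finite)
    (hG : GVK (integralClosure (Algebra.adjoin κ {t}) E) (Submodule.span E S))
    (h1 : ∀ (𝔭 : Ideal (integralClosure (Algebra.adjoin κ {t⁻¹}) E)) (V : ValuationSubring E),
      IsDedekindDomain (integralClosure (Algebra.adjoin κ {t⁻¹}) E) →
      IsFractionRing (integralClosure (Algebra.adjoin κ {t⁻¹}) E) E →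
      VP (integralClosure (Algebra.adjoin κ {t⁻¹}) E) V 𝔭 →
      Finite (integralClosure (Algebra.adjoin κ {t⁻¹}) E ⧸ 𝔭) → t ∉ V →
      GVK V (Submodule.span E S)) : HasModule κ F := by
  classical
  have hKt : κ⟮t⁻¹⟯ = κ⟮t⟯ := by
    apply le_antisymm
    · rw [IntermediateField.adjoin_simple_le_iff]
      exact inv_mem (IntermediateField.mem_adjoin_simple_self κ t)
    · rw [IntermediateField.adjoin_simple_le_iff]
      have h2 := inv_mem (IntermediateField.mem_adjoin_simple_self κ t⁻¹)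
      rwa [inv_inv] at h2
  have i1 : FiniteDimensional κ⟮t⁻¹⟯ E := by
    rw [hKt]
    infer_instance
  have i2 : Algebra.IsSeparable κ⟮t⁻¹⟯ E := by
    rw [hKt]
    infer_instance
  have j1 := adjQ_ded (κ := κ) t
  have j2 := adjQ_ft (κ := κ) t
  have j3 := adjQ_ded (κ := κ) t⁻¹
  have j4 := adjQ_ft (κ := κ) t⁻¹
  have k1 := B_ded (Algebra.adjoin κ {t}) κ⟮t⟯ E
  have k2 := B_fin (Algebra.adjoin κ {t}) κ⟮t⟯ E
  have k3 := B_frac (Algebra.adjoin κ {t}) κ⟮t⟯ E
  have k4 := B_ded (Algebra.adjoin κ {t⁻¹}) κ⟮t⁻¹⟯ E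
  have k5 := B_fin (Algebra.adjoin κ {t⁻¹}) κ⟮t⁻¹⟯ E
  have k6 := B_frac (Algebra.adjoin κ {t⁻¹}) κ⟮t⁻¹⟯ E
  have k7 : Algebra.FiniteType ℤ (integralClosure (Algebra.adjoin κ {t⁻¹}) E) :=
    Algebra.FiniteType.trans (S := Algebra.adjoin κ {t⁻¹}) inferInstance inferInstance
  -- the element `t⁻¹`
  obtain ⟨b, hb⟩ : ∃ b : integralClosure (Algebra.adjoin κ {t⁻¹}) E, (b : E) = t⁻¹ := by
    refine ⟨⟨t⁻¹, ?_⟩, rfl⟩
    exact (isIntegral_algebraMap (R := Algebra.adjoin κ {t⁻¹}) (A := E)
      (x := ⟨t⁻¹, Algebra.self_mem_adjoin_singleton κ t⁻¹⟩))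
  have hb0 : b ≠ 0 := by
    intro h
    have h2 : (b : E) = 0 := by rw [h]; rfl
    rw [hb] at h2
    exact inv_ne_zero ht h2
  obtain ⟨B, hB⟩ := exists_primes hb0
  -- the local data
  have hloc : ∀ 𝔭 ∈ B, GLK 𝔭 (Submodule.span E S) := by
    intro 𝔭 h𝔭
    obtain ⟨hmax, hn𝔭⟩ := (hB 𝔭).1 h𝔭
    have h𝔭0 : 𝔭 ≠ ⊥ := by
      rintro rfl
      exact hb0 hn𝔭
    obtain ⟨V, hV⟩ := exists_VP (E := E) 𝔭 hmax h𝔭0
    have htV : t ∉ V := by
      have hbE : algebraMap (integralClosure (Algebra.adjoin κ {t⁻¹}) E) E b = t⁻¹ := hb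
      rcases (hV.iff _).1 hn𝔭 with h2 | h2
      · exfalso
        rw [hbE] at h2
        exact inv_ne_zero ht h2
      · rwa [hbE, inv_inv] at h2
    exact hV.glk (h1 𝔭 V k4 k6 hV (finite_quot 𝔭 hmax) htV)
  -- the lattices outside of the poles of `t`
  obtain ⟨n₀, hn₀, hG⟩ := hG
  -- the lattices at the poles of `t`
  obtain ⟨n₁, hn₁, hG₁⟩ := assemble (k := integralClosure (Algebra.adjoin κ {t⁻¹}) E) B
    (fun 𝔭 h𝔭 => ((hB 𝔭).1 h𝔭).1) (W := Submodule.span E S) hloc (P := fun _ => True) (n₀ := 1)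
    le_rfl (fun m hm => ⟨(Submodule.span _ S) ^ m, (Submodule.fg_span hSf).pow m, by
      rw [one_mul]
      exact (SPN.span S).pow m, trivial⟩)
  obtain ⟨N₀, hfg₀, hsp₀, hR₀, hQ₀, hne₀⟩ := hG n₁ hn₁
  obtain ⟨N₁, -, hfg₁, hsp₁, -, -, hL, -⟩ := hG₁ n₀ hn₀
  rw [mul_comm] at hsp₁
  -- the towers
  have hc0 : CHT t (N₀.restrictScalars κ) (Submodule.span E S ^ (n₀ * n₁)) := by
    refine cht_of (A := Algebra.adjoin κ {t}) ?_ ?_ ?_ hfg₀ hsp₀
    · exact ⟨⟨t, Algebra.self_mem_adjoin_singleton κ t⟩, rfl⟩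
    · intro a
      obtain ⟨P, hP⟩ := adjQ_poly t a
      refine ⟨P, ?_⟩
      change algebraMap E F (a : E) = _
      rw [hP, ← aeval_algebraMap_apply]
    · intro a b hab
      apply Subtype.ext
      exact (algebraMap E F).injective hab
  have hc1 : CHT t⁻¹ (N₁.restrictScalars κ) (Submodule.span E S ^ (n₀ * n₁)) := by
    refine cht_of (A := Algebra.adjoin κ {t⁻¹}) ?_ ?_ ?_ hfg₁ hsp₁
    · exact ⟨⟨t⁻¹, Algebra.self_mem_adjoin_singleton κ t⁻¹⟩, rfl⟩
    · intro a
      obtain ⟨P, hP⟩ := adjQ_poly t⁻¹ a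
      refine ⟨P, ?_⟩
      change algebraMap E F (a : E) = _
      rw [hP, ← aeval_algebraMap_apply]
    · intro a b hab
      apply Subtype.ext
      exact (algebraMap E F).injective hab
  refine hasModule_of_GL1' (GL1_of ht hc0 hc1) hne₀ hR₀ hQ₀ ?_
  -- regularity at infinity
  intro g hg hg0 𝒪 hloc hle hU
  have hk : ∀ r : integralClosure (Algebra.adjoin κ {t⁻¹}) E,
      algebraMap (integralClosure (Algebra.adjoin κ {t⁻¹}) E) F r ∈ 𝒪 :=
    fun r => hle (k_mem_CC (N := N₁) hg hg0 r)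
  have h2 : (primeOf hloc (algebraMap (integralClosure (Algebra.adjoin κ {t⁻¹}) E) F) hk).IsPrime :=
    inferInstance
  obtain ⟨𝔭, hp, hle'⟩ := Ideal.exists_le_maximal _ h2.ne_top
  have hb𝔭 : b ∈ 𝔭 := by
    apply hle'
    change ¬ U 𝒪 (algebraMap E F (b : E))
    rw [hb, map_inv₀]
    exact hU
  obtain ⟨L, hL1, hL2, -⟩ := hL 𝔭 ((hB 𝔭).2 ⟨hp, hb𝔭⟩)
  refine local_chart hL1 hL2 (fun s hs => ?_) hg hg0 hle
  by_contra hUs
  exact hs (hle' hUs)

end ff

section rloc

variable {R S : Type} [CommRing R] [CommRing S] [Algebra R S]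

/-- The local rings of a localization. -/
lemma reg_loc (M : Submonoid R) [IsLocalization M S] (hS : IsRegularRing S) (p : Ideal S)
    [p.IsPrime] (q : Ideal R) [hq : q.IsPrime] (h : p.comap (algebraMap R S) = q) :
    IsRegularLocalRing (Localization.AtPrime q) := by
  subst h
  haveI := IsLocalization.isLocalization_isLocalization_atPrime_isLocalization M
    (Localization.AtPrime p) p
  haveI : IsRegularLocalRing (Localization.AtPrime p) := hS.isRegularLocalRing_localization p
  exact IsRegularLocalRing.of_ringEquiv (IsLocalization.algEquiv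
    (p.comap (algebraMap R S)).primeCompl (Localization.AtPrime p)
    (Localization.AtPrime (p.comap (algebraMap R S)))).toRingEquiv

end rloc

section places

variable (A K₀ : Type) {E F : Type} [CommRing A] [IsDomain A] [IsDedekindDomain A] [Field K₀]
  [Algebra A K₀] [IsFractionRing A K₀] [Field E] [Algebra A E] [Algebra K₀ E]
  [IsScalarTower A K₀ E] [FiniteDimensional K₀ E] [Algebra.IsSeparable K₀ E]
  [Field F] [Algebra E F] {X : Set F}

include K₀

/-- **Regularity is a local property.** -/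
theorem reg_places (hA : ¬ IsField A) (hX : X.Finite) (hft : IsNoetherianRing A)
    (h : ∀ V : ValuationSubring E, V ≠ ⊤ → (∀ o : integralClosure A E, (o : E) ∈ V) →
      IsRegularRing (Algebra.adjoin V X)) :
    IsRegularRing (Algebra.adjoin (integralClosure A E) X) := by
  classical
  have i1 := B_ded A K₀ E
  have i3 := B_frac A K₀ E
  have hAE : Function.Injective (algebraMap A E) := by
    rw [IsScalarTower.algebraMap_eq A K₀ E]
    exact (algebraMap K₀ E).injective.comp (IsFractionRing.injective A K₀)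
  have hAB : Function.Injective (algebraMap A (integralClosure A E)) := by
    intro a b hab
    exact hAE (congrArg Subtype.val hab)
  have hB : ¬ IsField (integralClosure A E) := by
    intro hf
    exact hA (isField_of_isIntegral_of_isField hAB hf)
  have hN : IsNoetherianRing (Algebra.adjoin (integralClosure A E) X) := by
    have h1 : Algebra.FiniteType (integralClosure A E)
        (Algebra.adjoin (integralClosure A E) X) := by
      rw [← Subalgebra.fg_iff_finiteType]
      exact ⟨hX.toFinset, by rw [hX.coe_toFinset]⟩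
    exact Algebra.FiniteType.isNoetherianRing (integralClosure A E) _
  rw [isRegularRing_iff]
  intro P hP
  obtain ⟨𝔭, h𝔭⟩ : ∃ 𝔭 : Ideal (integralClosure A E), 𝔭 = P.comap
    (algebraMap (integralClosure A E) (Algebra.adjoin (integralClosure A E) X)) := ⟨_, rfl⟩
  have h𝔭p : 𝔭.IsPrime := by rw [h𝔭]; exact Ideal.comap_isPrime _ _
  obtain ⟨𝔪, h𝔪, hle⟩ := Ideal.exists_le_maximal 𝔭 h𝔭p.ne_top
  have h𝔪0 : 𝔪 ≠ ⊥ := Ring.ne_bot_of_isMaximal_of_not_isField h𝔪 hB
  obtain ⟨V, hV⟩ := exists_VP (E := E) 𝔪 h𝔪 h𝔪0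
  have hVt : V ≠ ⊤ := by
    rintro rfl
    obtain ⟨x, hx, hx0⟩ := Submodule.exists_mem_ne_zero_of_ne_bot h𝔪0
    rcases (hV.iff x).1 hx with h1 | h1
    · exact hx0 (IsFractionRing.injective (integralClosure A E) E (by rw [h1, map_zero]))
    · exact h1 (ValuationSubring.mem_top _)
  have hreg := h V hVt (fun o => hV.le o)
  have hpp := h𝔪.isPrime
  -- the inclusion of the rings
  have hinc : ∀ y ∈ Algebra.adjoin (integralClosure A E) X, y ∈ Algebra.adjoin V X := by
    intro y hy
    induction hy using Algebra.adjoin_induction with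
    | mem y hy => exact Algebra.subset_adjoin hy
    | algebraMap r => exact Subalgebra.algebraMap_mem (Algebra.adjoin V X) (⟨r, hV.le r⟩ : V)
    | add y y' _ _ h1 h2 => exact add_mem h1 h2
    | mul y y' _ _ h1 h2 => exact mul_mem h1 h2
  have hden : ∀ y ∈ Algebra.adjoin V X, ∃ s : integralClosure A E, s ∉ 𝔪 ∧
      algebraMap E F (s : E) * y ∈ Algebra.adjoin (integralClosure A E) X := by
    intro y hy
    induction hy using Algebra.adjoin_induction with
    | mem y hy =>
      exact ⟨1, (Ideal.ne_top_iff_one 𝔪).1 hpp.ne_top, by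
        rw [OneMemClass.coe_one, map_one, one_mul]
        exact Algebra.subset_adjoin hy⟩
    | algebraMap r =>
      obtain ⟨s, hs, c, hc⟩ := hV.surj r.2
      refine ⟨s, hs, ?_⟩
      have e1 : algebraMap E F (s : E) * algebraMap V F r =
          algebraMap (integralClosure A E) F c := by
        change algebraMap E F (s : E) * algebraMap E F (r : E) = algebraMap E F (c : E)
        rw [← map_mul]
        exact congrArg _ hc
      rw [e1]
      exact Subalgebra.algebraMap_mem _ _
    | add y y' _ _ h1 h2 =>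
      obtain ⟨s, hs, h3⟩ := h1
      obtain ⟨s', hs', h4⟩ := h2
      refine ⟨s * s', fun h => (hpp.mem_or_mem h).elim hs hs', ?_⟩
      have e1 : algebraMap E F ((s * s' : integralClosure A E) : E) * (y + y') =
          algebraMap (integralClosure A E) F s' * (algebraMap E F (s : E) * y) +
          algebraMap (integralClosure A E) F s * (algebraMap E F (s' : E) * y') := by
        change algebraMap E F ((s : E) * (s' : E)) * (y + y') =
          algebraMap E F (s' : E) * (algebraMap E F (s : E) * y) +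
          algebraMap E F (s : E) * (algebraMap E F (s' : E) * y')
        rw [map_mul]
        ring
      rw [e1]
      exact add_mem (mul_mem (Subalgebra.algebraMap_mem _ _) h3)
        (mul_mem (Subalgebra.algebraMap_mem _ _) h4)
    | mul y y' _ _ h1 h2 =>
      obtain ⟨s, hs, h3⟩ := h1
      obtain ⟨s', hs', h4⟩ := h2
      refine ⟨s * s', fun h => (hpp.mem_or_mem h).elim hs hs', ?_⟩
      have e1 : algebraMap E F ((s * s' : integralClosure A E) : E) * (y * y') =
          (algebraMap E F (s : E) * y) * (algebraMap E F (s' : E) * y') := by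
        change algebraMap E F ((s : E) * (s' : E)) * (y * y') = _
        rw [map_mul]
        ring
      rw [e1]
      exact mul_mem h3 h4
  let ι : Algebra.adjoin (integralClosure A E) X →+* Algebra.adjoin V X :=
    { toFun := fun y => ⟨y, hinc y y.2⟩
      map_one' := rfl
      map_mul' := fun _ _ => rfl
      map_zero' := rfl
      map_add' := fun _ _ => rfl }
  letI : Algebra (Algebra.adjoin (integralClosure A E) X) (Algebra.adjoin V X) := ι.toAlgebra
  have hil : IsLocalization (𝔪.primeCompl.map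
      (algebraMap (integralClosure A E) (Algebra.adjoin (integralClosure A E) X)))
      (Algebra.adjoin V X) := by
    refine ⟨?_, fun z => ?_, fun {x y} hxy => ?_⟩
    · rintro ⟨_, s, hs, rfl⟩
      obtain ⟨hs0, hsV⟩ := hV.unit hs
      refine IsUnit.of_mul_eq_one (algebraMap V (Algebra.adjoin V X) ⟨_, hsV⟩) (Subtype.ext ?_)
      change algebraMap E F (s : E) *
        algebraMap E F (algebraMap (integralClosure A E) E s)⁻¹ = 1
      rw [← map_mul]
      have h2 : (s : E) * (algebraMap (integralClosure A E) E s)⁻¹ = 1 := mul_inv_cancel₀ hs0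
      rw [h2, map_one]
    · obtain ⟨s, hs, h1⟩ := hden z z.2
      refine ⟨⟨⟨_, h1⟩, ⟨_, s, hs, rfl⟩⟩, Subtype.ext ?_⟩
      change (z : F) * algebraMap E F (s : E) = algebraMap E F (s : E) * (z : F)
      rw [mul_comm]
    · have h1 : (x : F) = (y : F) := congrArg (Subtype.val : Algebra.adjoin V X → F) hxy
      exact ⟨1, by rw [Subtype.ext h1]⟩
  have hdis : Disjoint ((𝔪.primeCompl.map
      (algebraMap (integralClosure A E) (Algebra.adjoin (integralClosure A E) X)) :
      Submonoid _) : Set (Algebra.adjoin (integralClosure A E) X)) (P : Set _) := by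
    rw [Set.disjoint_left]
    rintro _ ⟨s, hs, rfl⟩ h2
    apply hs
    apply hle
    rw [h𝔭]
    exact h2
  have hP' : (P.map (algebraMap _ (Algebra.adjoin V X))).IsPrime :=
    IsLocalization.isPrime_of_isPrime_disjoint _ (Algebra.adjoin V X) P hP hdis
  have hc : (P.map (algebraMap _ (Algebra.adjoin V X))).comap
      (algebraMap (Algebra.adjoin (integralClosure A E) X) (Algebra.adjoin V X)) = P :=
    IsLocalization.under_map_of_isPrime_disjoint _ (Algebra.adjoin V X) hP hdis
  exact reg_loc (𝔪.primeCompl.map (algebraMap (integralClosure A E)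
    (Algebra.adjoin (integralClosure A E) X))) hreg _ P hc

end places

end Pool.Agent.T9h3.R
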