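import Pool.Agent.T9h3.R.Glb

/-!
# Lattices at the places from equivariant homogeneous coordinates
-/

set_option autoImplicit false
set_option linter.unusedSectionVars false
set_option linter.overlappingInstances false
set_option linter.unusedVariables false
set_option linter.style.haveILetI false

namespace Pool.Agent.T9h3.R

open Pool.Agent.Y223.G Pool.Agent.R383.TM Pool.Agent.T9h3 Pool.Agent.T9h3.H
open Pool.Agent.T9h3.P Pool.Agent.T9h3.Q
open Pool.Agent.Y290.G (Ine mem_Ine)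

section pow

variable {k E F : Type} [CommRing k] [Field E] [Field F] [Algebra k E] [Algebra E F]
  [Algebra k F] [IsScalarTower k E F]

theorem gvk_of_pow {W : Submodule E F} {n : ℕ} (hn : 1 ≤ n) (h : GVK k (W ^ n)) : GVK k W := by
  obtain ⟨n', hn', h⟩ := h
  refine ⟨n * n', Nat.mul_pos hn hn', fun m hm => ?_⟩
  obtain ⟨N, h1, h2, h3⟩ := h m hm
  refine ⟨N, h1, ?_, h3⟩
  rwa [← pow_mul, ← mul_assoc] at h2

end pow

section vdata

variable {E M K : Type} [Field E] [Field M] [Field K] [Algebra E M] [Algebra M K] [Algebra E K]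
  [IsScalarTower E M K] {m : ℕ} {V : ValuationSubring E}

/-- `g ≠ 1` is in the wild inertia group of `𝔓`. -/
def IsWV (𝔓 : Ideal (integralClosure V M)) (g : M ≃ₐ[E] M) : Prop :=
  g ≠ 1 ∧ (∀ o : integralClosure V M, ∃ a ∈ 𝔓, (a : M) = g o - o) ∧
    ∀ o ∈ 𝔓, ∃ a ∈ 𝔓 ^ 2, (a : M) = g o - o

/-- `h` maps `𝔓` to `𝔓'`. -/
def IsCjV (h : M ≃ₐ[E] M) (𝔓 𝔓' : Ideal (integralClosure V M)) : Prop :=
  ∀ o o' : integralClosure V M, (o' : M) = h o → (o ∈ 𝔓 ↔ o' ∈ 𝔓')

/-- The hypotheses on the weights. -/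
structure DATAV (ρ : (M ≃ₐ[E] M) →* (K ≃ₐ[E] K)) (z : Fin (m + 1) → K)
    (e : Ideal (integralClosure V M) → ℕ)
    (w : Ideal (integralClosure V M) → Fin (m + 1) → ℕ) : Prop where
  pos : ∀ 𝔓, 0 < e 𝔓
  reg : ∀ (𝔓 : Ideal (integralClosure V M)) (g : M ≃ₐ[E] M), 𝔓.IsMaximal → IsWV 𝔓 g → ∀ j,
    IsRegularRing (BR 𝔓 (e 𝔓) (w 𝔓) z j)
  eqv : ∀ (𝔓 : Ideal (integralClosure V M)) (g : M ≃ₐ[E] M), 𝔓.IsMaximal → IsWV 𝔓 g →
    ∀ (h : M ≃ₐ[E] M) (𝔓' : Ideal (integralClosure V M)), IsCjV h 𝔓 𝔓' → e 𝔓' = e 𝔓 ∧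
      ∀ i j, mo (ρ h (z i) / z j) (w 𝔓 i) ∈ BR 𝔓' (e 𝔓') (w 𝔓') z j
  nd : ∀ (𝔓 : Ideal (integralClosure V M)) (g : M ≃ₐ[E] M), 𝔓.IsMaximal → IsWV 𝔓 g →
    ∃ l D : ℕ, 0 < D ∧ D ≤ e 𝔓 * l ∧
      (∀ o : integralClosure V M, ∃ a ∈ 𝔓 ^ (l + 1), (a : M) = g o - o) ∧
      (∀ i j, mo ((ρ g (z i) - z i) / z j) ((w 𝔓 i : ℤ) + D) ∈ BR 𝔓 (e 𝔓) (w 𝔓) z j) ∧
      ∀ j, NF (BR 𝔓 (e 𝔓) (w 𝔓) z j) 𝔓 (e 𝔓) D (w 𝔓) z (ρ g) j

end vdata

section plc

variable {k E M F K : Type} [CommRing k] [IsDomain k]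
  [IsDedekindDomain k] [Field E] [Field M] [Field F] [Field K] [Algebra E F]
  [Algebra k E] [Algebra k F] [IsScalarTower k E F] [IsFractionRing k E]
  [Algebra E M] [FiniteDimensional E M] [IsGalois E M]
  [Algebra M K] [Algebra E K] [IsScalarTower E M K] [Algebra F K] [IsScalarTower E F K]
  {V : ValuationSubring E} {𝔭 : Ideal k} {m : ℕ}

theorem wd_ofV [IsDedekindDomain V] [IsDedekindDomain (integralClosure V M)]
    [IsScalarTower V (integralClosure V M) K] {ρ : (M ≃ₐ[E] M) →* (K ≃ₐ[E] K)}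
    (hρ : ∀ g x, ρ g (algebraMap M K x) = algebraMap M K (g x)) {z : Fin (m + 1) → K}
    {e : Ideal (integralClosure V M) → ℕ} {w : Ideal (integralClosure V M) → Fin (m + 1) → ℕ}
    (hD : DATAV ρ z e w) :
    R383.TM.WD V (integralClosure V M) K (M ≃ₐ[E] M) (Rk V ρ) (Tk V (integralClosure V M) E M)
      z e w := by
  have hcoe : ∀ (g : M ≃ₐ[E] M) (o : integralClosure V M),
      ((Tk V (integralClosure V M) E M g o : integralClosure V M) : M) = g o := fun g o =>
    Tk_coe V (integralClosure V M) E M g o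
  have hW : ∀ (𝔓 : Ideal (integralClosure V M)) g, g ≠ 1 →
      Wild (Tk V (integralClosure V M) E M) g 𝔓 → IsWV 𝔓 g := by
    intro 𝔓 g hg hw
    exact ⟨hg, fun o => ⟨_, hw.1 o, by
      change ((Tk V (integralClosure V M) E M g o : integralClosure V M) : M) - (o : M) = _
      rw [hcoe]⟩, fun o ho => ⟨_, hw.2 o ho, by
      change ((Tk V (integralClosure V M) E M g o : integralClosure V M) : M) - (o : M) = _
      rw [hcoe]⟩⟩
  have hcom : ∀ (g : M ≃ₐ[E] M) (o : integralClosure V M),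
      ρ g (algebraMap (integralClosure V M) K o) =
      algebraMap (integralClosure V M) K (Tk V (integralClosure V M) E M g o) := by
    intro g o
    change ρ g (algebraMap M K (o : M)) = algebraMap M K ((Tk V (integralClosure V M) E M g o : _) : M)
    rw [hρ, hcoe]
  refine ⟨hD.pos, ?_, ?_, ?_⟩
  · rintro 𝔓 h𝔓 ⟨g, hg, hw⟩ j
    exact WR_reg (hD.reg 𝔓 g h𝔓 (hW 𝔓 g hg hw) j)
  · rintro 𝔓 h𝔓 ⟨g, hg, hw⟩ h 𝔓' hh
    obtain ⟨h1, h2⟩ := hD.eqv 𝔓 g h𝔓 (hW 𝔓 g hg hw) h 𝔓' (by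
      intro o o' ho
      have h3 : o' = Tk V (integralClosure V M) E M h o := by
        apply Subtype.ext
        rw [hcoe]
        exact ho
      rw [h3]
      exact hh o)
    exact ⟨h1, fun i j => WR_mem (h2 i j)⟩
  · intro 𝔓 h𝔓 g hg hw
    obtain ⟨l, D, hD0, hDl, hdv, hlin, hnf⟩ := hD.nd 𝔓 g h𝔓 (hW 𝔓 g hg hw)
    refine ⟨l, D, hD0, hDl, ?_, fun i j => WR_mem (hlin i j), fun j =>
      FIX_of (ρ g) (Tk V (integralClosure V M) E M g) (fun o => hcom g o) (hnf j)⟩
    intro o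
    obtain ⟨a, ha, hao⟩ := hdv o
    have h3 : a = Tk V (integralClosure V M) E M g o - o := by
      apply Subtype.ext
      rw [hao]
      change _ = ((Tk V (integralClosure V M) E M g o : integralClosure V M) : M) - (o : M)
      rw [hcoe]
    rw [← h3]
    exact ha

/-- **The local lattices from equivariant coordinates.** -/
theorem gvk_vz (hV : VP k V 𝔭) (hfin : Finite (k ⧸ 𝔭)) {ρ : (M ≃ₐ[E] M) →* (K ≃ₐ[E] K)}
    (hρ : ∀ g x, ρ g (algebraMap M K x) = algebraMap M K (g x))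
    (hin : HIN E M (integralClosure V M))
    (fix : ∀ y, (∀ g, ρ g y = y) ↔ ∃ z : F, algebraMap F K z = y) {z : Fin (m + 1) → K}
    (z0 : ∀ j, z j ≠ 0)
    (lin : ∀ g j, ρ g (z j) ∈ Submodule.span (integralClosure V M) (Set.range z))
    (reg : ∀ j, IsRegularRing (Algebra.adjoin (integralClosure V M)
      (Set.range fun i => z i / z j)))
    (gen : IntermediateField.adjoin M (Set.range fun j => z j / z 0) = ⊤)
    {e : Ideal (integralClosure V M) → ℕ} {w : Ideal (integralClosure V M) → Fin (m + 1) → ℕ}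
    (hD : DATAV ρ z e w) {S : Set F} (hSf : S.Finite)
    (hS : Submodule.span M (algebraMap F K '' S) = Submodule.span M (Set.range z)) :
    GVK V (Submodule.span E S) := by
  have i1 := hV.ded
  have i2 := hV.dedO (M := M)
  have i3 : IsScalarTower V (integralClosure V M) K := IsScalarTower.of_algebraMap_eq fun x =>
    IsScalarTower.algebraMap_apply E M K x
  have i4 : IsScalarTower V F K :=
    IsScalarTower.of_algebraMap_eq fun x => IsScalarTower.algebraMap_apply E F K x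
  have hG := gn_of' V (integralClosure V M) E M ρ hρ (fun 𝔓 h𝔓 _ => hV.res hfin 𝔓 h𝔓)
    (by
      intro 𝔓 h𝔓 _ p hp hp𝔓
      rw [Ine_card]
      exact hin 𝔓 h𝔓 p hp hp𝔓)
  exact gvk_of_z hG z0 lin reg (wd_ofV hρ hD) gen fix hSf hS

end plc

section big

variable (A K₀ : Type) {E M F K : Type} [CommRing A] [IsDomain A] [IsDedekindDomain A] [Field K₀]
  [Algebra A K₀] [IsFractionRing A K₀] [Field E] [Field M] [Algebra A E] [Algebra K₀ E]
  [IsScalarTower A K₀ E] [FiniteDimensional K₀ E] [Algebra.IsSeparable K₀ E] [Algebra E M]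
  [Algebra A M] [IsScalarTower A E M] [FiniteDimensional E M] [IsGalois E M]
  [Algebra.FiniteType ℤ A]
  [Field F] [Field K] [Algebra E F]
  [Algebra M K] [Algebra E K] [IsScalarTower E M K] [Algebra F K] [IsScalarTower E F K] {m : ℕ}

include K₀

/-- **The lattices over the affine base.** -/
theorem gvk_bigz {ρ : (M ≃ₐ[E] M) →* (K ≃ₐ[E] K)}
    (hρ : ∀ g x, ρ g (algebraMap M K x) = algebraMap M K (g x)) (h1 : ∀ g : M ≃ₐ[E] M, g = 1)
    (fix : ∀ y, (∀ g, ρ g y = y) ↔ ∃ z : F, algebraMap F K z = y)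
    {z : Fin (m + 1) → K} (z0 : ∀ j, z j ≠ 0)
    (reg : ∀ j, IsRegularRing (Algebra.adjoin (integralClosure A M)
      (Set.range fun i => z i / z j)))
    (gen : IntermediateField.adjoin M (Set.range fun j => z j / z 0) = ⊤)
    {S : Set F} (hSf : S.Finite)
    (hS : Submodule.span M (algebraMap F K '' S) = Submodule.span M (Set.range z)) :
    GVK (integralClosure A E) (Submodule.span E S) := by
  have i1 := B_ded A K₀ E
  have i3 := B_frac A K₀ E
  have i4 := B_dedM A K₀ E M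
  have i5 := B_finM A K₀ E M
  let _ := algB A E M
  have j1 : IsScalarTower (integralClosure A E) (integralClosure A M) M :=
    IsScalarTower.of_algebraMap_eq fun _ => rfl
  have j2 : IsIntegralClosure (integralClosure A M) (integralClosure A E) M := by
    refine ⟨Subtype.val_injective, fun {x} => ⟨fun hx => ?_, ?_⟩⟩
    · have h1 : IsIntegral A x := isIntegral_trans (A := integralClosure A E) x hx
      exact ⟨⟨x, h1⟩, rfl⟩
    · rintro ⟨y, rfl⟩
      exact IsIntegral.tower_top (R := A) y.2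
  have j3 : IsScalarTower (integralClosure A E) (integralClosure A M) K :=
    IsScalarTower.of_algebraMap_eq fun x => IsScalarTower.algebraMap_apply E M K x
  have j4 : IsScalarTower (integralClosure A E) F K :=
    IsScalarTower.of_algebraMap_eq fun x => IsScalarTower.algebraMap_apply E F K x
  have j5 : Algebra.FiniteType ℤ (integralClosure A M) :=
    Algebra.FiniteType.trans (S := A) inferInstance inferInstance
  have hsub : Subsingleton (M ≃ₐ[E] M) := ⟨fun a b => (h1 a).trans (h1 b).symm⟩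
  have hG := gn_of' (integralClosure A E) (integralClosure A M) E M ρ hρ
    (fun 𝔓 h𝔓 _ => finite_quot 𝔓 h𝔓)
    (by
      intro 𝔓 h𝔓 _ p hp hp𝔓 hd
      have h2 : Nat.card (Ine (Tk (integralClosure A E) (integralClosure A M) E M) 𝔓) = 1 := by
        rw [Nat.card_eq_one_iff_unique]
        exact ⟨inferInstance, ⟨1⟩⟩
      rw [h2, Nat.dvd_one] at hd
      have h3 := hp.two_le
      rw [Nat.pow_eq_one] at hd
      omega)
  refine gvk_of_z (k := integralClosure A E) (O := integralClosure A M) hG z0 ?_ reg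
    (e := fun _ => 1) (w := fun _ _ => 0) ?_ gen fix hSf hS
  · intro g j
    rw [h1 g, map_one]
    exact Submodule.subset_span ⟨j, rfl⟩
  · refine ⟨fun _ => Nat.one_pos, ?_, ?_, ?_⟩
    · rintro 𝔓 h𝔓 ⟨g, hg1, hg⟩
      exact absurd (h1 g) hg1
    · rintro 𝔓 h𝔓 ⟨g, hg1, hg⟩
      exact absurd (h1 g) hg1
    · intro 𝔓 h𝔓 g hg1 hg
      exact absurd (h1 g) hg1

end big

end Pool.Agent.T9h3.R
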