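import Pool.Agent.T9h3.R.Gvk

/-!
# The precision
-/

set_option autoImplicit false
set_option linter.unusedSectionVars false
set_option linter.overlappingInstances false
set_option linter.unusedVariables false

namespace Pool.Agent.T9h3.R

open Pool.Agent.Y223.G Pool.Agent.R383.TM Pool.Agent.T9h3 Pool.Agent.T9h3.H
open Pool.Agent.T9h3.P Pool.Agent.T9h3.Q

section

variable {k O E M : Type} [CommRing k] [IsDomain k]
  [IsDedekindDomain k] [Field E] [Field M] [CommRing O] [IsDomain O]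
  [IsDedekindDomain O] [Algebra k E] [IsFractionRing k E]
  [Algebra E M] [FiniteDimensional E M] [IsGalois E M] [Algebra k O] [Algebra O M]
  [Algebra k M] [IsScalarTower k O M] [IsScalarTower k E M] [IsIntegralClosure O k M]

lemma Tk_fai (g : M ≃ₐ[E] M) (hg : ∀ o, Tk k O E M g o = o) : g = 1 := by
  have h1 : Tk k O E M g = Tk k O E M 1 := by
    rw [map_one]
    ext o
    exact hg o
  exact (galRestrict k E M O).injective h1

/-- The depth is bounded. -/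
lemma depth_bound (𝔓 : Ideal O) (h𝔓 : 𝔓.IsMaximal) (g : M ≃ₐ[E] M) (hg : g ≠ 1) :
    ∃ n : ℕ, ∀ l : ℕ, (∀ o, Tk k O E M g o - o ∈ 𝔓 ^ (l + 1)) → l ≤ n := by
  obtain ⟨o, ho⟩ : ∃ o, Tk k O E M g o ≠ o := by
    by_contra hcon
    push Not at hcon
    exact hg (Tk_fai g hcon)
  have h1 : Tk k O E M g o - o ≠ 0 := sub_ne_zero.2 ho
  have h2 : ⨅ i : ℕ, 𝔓 ^ i = ⊥ := Ideal.iInf_pow_eq_bot_of_isDomain 𝔓 h𝔓.ne_top
  obtain ⟨n, hn⟩ : ∃ n : ℕ, Tk k O E M g o - o ∉ 𝔓 ^ n := by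
    by_contra hcon
    push Not at hcon
    have h3 : Tk k O E M g o - o ∈ ⨅ i : ℕ, 𝔓 ^ i := by
      rw [Ideal.mem_iInf]
      exact hcon
    rw [h2, Ideal.mem_bot] at h3
    exact h1 h3
  refine ⟨n, fun l hl => ?_⟩
  by_contra hcon
  exact hn (Ideal.pow_le_pow_right (by omega) (hl o))

/-- **Sufficient precision.** -/
theorem exists_prec0 {r₀ : O} (h0 : r₀ ≠ 0) (hr : ∀ 𝔓 : Ideal O, 𝔓.IsMaximal → r₀ ∈ 𝔓) :
    ∃ N : ℕ, PREC k E (M := M) (r₀ ^ (N + 1)) := by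
  classical
  obtain ⟨B, hB⟩ := exists_primes h0
  have hfin : Finite (M ≃ₐ[E] M) := inferInstance
  have _ : Fintype (M ≃ₐ[E] M) := Fintype.ofFinite _
  have h1 : ∀ (𝔓 : Ideal O) (g : M ≃ₐ[E] M), ∃ n : ℕ, 𝔓.IsMaximal → g ≠ 1 → ∀ l : ℕ,
      (∀ o, Tk k O E M g o - o ∈ 𝔓 ^ (l + 1)) → l ≤ n := by
    intro 𝔓 g
    by_cases h : 𝔓.IsMaximal ∧ g ≠ 1
    · obtain ⟨n, hn⟩ := depth_bound (k := k) 𝔓 h.1 g h.2
      exact ⟨n, fun _ _ => hn⟩
    · exact ⟨0, fun h2 h3 => absurd ⟨h2, h3⟩ h⟩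
  choose n hn using h1
  refine ⟨∑ 𝔓 ∈ B, ∑ g : M ≃ₐ[E] M, orderOf g * n 𝔓 g, Or.inr ⟨_, fun 𝔓 h𝔓 =>
    Ideal.pow_mem_pow (hr 𝔓 h𝔓) _, fun 𝔓 h𝔓 g hg l hl => ?_⟩⟩
  have h2 : orderOf g * l ≤ orderOf g * n 𝔓 g := Nat.mul_le_mul_left _ (hn 𝔓 g h𝔓 hg.1 l hl)
  have h3 : orderOf g * n 𝔓 g ≤ ∑ g : M ≃ₐ[E] M, orderOf g * n 𝔓 g :=
    Finset.single_le_sum (f := fun g => orderOf g * n 𝔓 g) (fun _ _ => Nat.zero_le _)
      (Finset.mem_univ g)
  have h4 : 𝔓 ∈ B := (hB 𝔓).2 ⟨h𝔓, hr 𝔓 h𝔓⟩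
  have h5 : ∑ g : M ≃ₐ[E] M, orderOf g * n 𝔓 g ≤ ∑ 𝔓 ∈ B, ∑ g : M ≃ₐ[E] M, orderOf g * n 𝔓 g :=
    Finset.single_le_sum (f := fun 𝔓 => ∑ g : M ≃ₐ[E] M, orderOf g * n 𝔓 g)
      (fun _ _ => Nat.zero_le _) h4
  exact h2.trans (h3.trans h5)

end

section vp

variable {k E M : Type} [CommRing k] [IsDomain k] [IsDedekindDomain k] [Field E] [Algebra k E]
  [IsFractionRing k E] [Field M] [Algebra E M] [FiniteDimensional E M] [IsGalois E M]

/-- **Sufficient precision over a valuation ring.** -/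
theorem exists_prec {V : ValuationSubring E} {𝔭 : Ideal k} (hV : VP k V 𝔭)
    [IsDedekindDomain V] [IsDedekindDomain (integralClosure V M)] :
    ∃ r : V, r ≠ 0 ∧ PREC V E (M := M) (algebraMap V (integralClosure V M) r) := by
  obtain ⟨x, hx, hx0⟩ := Submodule.exists_mem_ne_zero_of_ne_bot hV.ne
  have hx0' : algebraMap k E x ≠ 0 := fun h => hx0 (IsFractionRing.injective k E (by
    rw [h, map_zero]))
  obtain ⟨r₀, hr₀⟩ : ∃ r₀ : V, (r₀ : E) = algebraMap k E x := ⟨⟨_, hV.le x⟩, rfl⟩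
  have h1 : r₀ ≠ 0 := by
    rintro rfl
    exact hx0' hr₀.symm
  have h2 : ¬ IsUnit r₀ := by
    intro h
    obtain ⟨y, hy⟩ := h.exists_right_inv
    have h3 : algebraMap k E x * (y : E) = 1 := by
      rw [← hr₀]
      exact congrArg Subtype.val hy
    rcases (hV.iff x).1 hx with h4 | h4
    · exact hx0' h4
    · apply h4
      rw [← eq_inv_of_mul_eq_one_right h3]
      exact y.2
  have h3 : ∀ 𝔓 : Ideal (integralClosure V M), 𝔓.IsMaximal →
      algebraMap V (integralClosure V M) r₀ ∈ 𝔓 := by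
    intro 𝔓 h𝔓
    have hI : (𝔓.comap (algebraMap V (integralClosure V M))).IsMaximal :=
      Ideal.isMaximal_comap_of_isIntegral_of_isMaximal 𝔓
    have h4 := IsLocalRing.eq_maximalIdeal hI
    rw [← Ideal.mem_comap, h4, IsLocalRing.mem_maximalIdeal, mem_nonunits_iff]
    exact h2
  have h4 : algebraMap V (integralClosure V M) r₀ ≠ 0 := by
    intro h
    have h5 : algebraMap E M (r₀ : E) = 0 := congrArg Subtype.val h
    rw [map_eq_zero, hr₀] at h5
    exact hx0' h5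
  obtain ⟨N, hN⟩ := exists_prec0 (k := V) (E := E) (M := M)
    (r₀ := algebraMap V (integralClosure V M) r₀) h4 h3
  exact ⟨r₀ ^ (N + 1), pow_ne_zero _ h1, by rw [map_pow]; exact hN⟩

end vp

section plc

variable {k E M F K Λ : Type} [CommRing k] [IsDomain k]
  [IsDedekindDomain k] [Field E] [Field M] [Field F] [Field K] [Algebra E F]
  [Algebra k E] [Algebra k F] [IsScalarTower k E F] [IsFractionRing k E]
  [Algebra E M] [FiniteDimensional E M] [IsGalois E M]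
  [Algebra M K] [Algebra E K] [IsScalarTower E M K] [Algebra F K] [IsScalarTower E F K]
  [AddCommGroup Λ] [Module.Free ℤ Λ] [Module.Finite ℤ Λ] [DistribMulAction (M ≃ₐ[E] M) Λ]
  {χ : Λ → K} {Δ : Set Λ} {V : ValuationSubring E} {𝔭 : Ideal k} {c : ℕ}
  {f : Fin c → AA (integralClosure V M) Λ} {r : integralClosure V M}

/-- **The local lattices of nondegenerate subvarieties.** -/
theorem VPglk_prs (hV : VP k V 𝔭) [IsDedekindDomain V] [IsDedekindDomain (integralClosure V M)]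
    (hfin : Finite (k ⧸ 𝔭)) {ρ : (M ≃ₐ[E] M) →* (K ≃ₐ[E] K)}
    (hρ : ∀ g x, ρ g (algebraMap M K x) = algebraMap M K (g x))
    (hin : HIN E M (integralClosure V M)) (hr : PREC V E (M := M) r)
    (hgen : IntermediateField.adjoin M (Set.range χ) = ⊤)
    (fix : ∀ y, (∀ g, ρ g y = y) ↔ ∃ z : F, algebraMap F K z = y)
    (N : PRS E ρ r χ f)
    {Θ : Set Λ} (hΘ : DF f Θ) (fin : Δ.Finite) (ne : Δ.Nonempty)
    (st : ∀ g : M ≃ₐ[E] M, ∀ x ∈ Δ, g • x ∈ Δ)
    (h : ∀ g : M ≃ₐ[E] M, CVP (SVR (orderOf g) (sA Λ g) Θ Δ) Δ)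
    {S : Set F} (hSf : S.Finite)
    (hS : Submodule.span M (algebraMap F K '' S) = Submodule.span M (χ '' Δ)) :
    GLK 𝔭 (Submodule.span E S) := by
  have i3 : IsScalarTower V (integralClosure V M) K := IsScalarTower.of_algebraMap_eq fun x =>
    IsScalarTower.algebraMap_apply E M K x
  have i4 : IsScalarTower V F K :=
    IsScalarTower.of_algebraMap_eq fun x => IsScalarTower.algebraMap_apply E F K x
  exact hV.glk (gvk_prs (k := V) (O := integralClosure V M) hρ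
    (fun 𝔓 h𝔓 _ => hV.res hfin 𝔓 h𝔓) hin hr hgen fix N hΘ fin ne st h hSf hS)

end plc

section gvk

variable (A K₀ : Type) {E M F K Λ : Type} [CommRing A] [IsDomain A] [IsDedekindDomain A] [Field K₀]
  [Algebra A K₀] [IsFractionRing A K₀] [Field E] [Field M] [Algebra A E] [Algebra K₀ E]
  [IsScalarTower A K₀ E] [FiniteDimensional K₀ E] [Algebra.IsSeparable K₀ E] [Algebra E M]
  [Algebra A M] [IsScalarTower A E M] [FiniteDimensional E M] [IsGalois E M]
  [Algebra.FiniteType ℤ A]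
  [Field F] [Field K] [Algebra E F]
  [Algebra M K] [Algebra E K] [IsScalarTower E M K] [Algebra F K] [IsScalarTower E F K]
  [AddCommGroup Λ] [Module.Free ℤ Λ] [Module.Finite ℤ Λ] [DistribMulAction (M ≃ₐ[E] M) Λ]
  {χ : Λ → K} {Δ : Set Λ} {c : ℕ} {f : Fin c → AA (integralClosure A M) Λ}

include K₀

/-- **The lattices over the affine base.** -/
theorem gvk_bigp {ρ : (M ≃ₐ[E] M) →* (K ≃ₐ[E] K)}
    (hρ : ∀ g x, ρ g (algebraMap M K x) = algebraMap M K (g x))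
    (hin : HIN E M (integralClosure A M))
    (hgen : IntermediateField.adjoin M (Set.range χ) = ⊤)
    (fix : ∀ y, (∀ g, ρ g y = y) ↔ ∃ z : F, algebraMap F K z = y)
    (N : PRS E ρ 0 χ f)
    {Θ : Set Λ} (hΘ : DF f Θ) (fin : Δ.Finite) (ne : Δ.Nonempty)
    (st : ∀ g : M ≃ₐ[E] M, ∀ x ∈ Δ, g • x ∈ Δ)
    (h : ∀ g : M ≃ₐ[E] M, CVP (SVR (orderOf g) (sA Λ g) Θ Δ) Δ)
    {S : Set F} (hSf : S.Finite)
    (hS : Submodule.span M (algebraMap F K '' S) = Submodule.span M (χ '' Δ)) :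
    GVK (integralClosure A E) (Submodule.span E S) := by
  have i1 := B_ded A K₀ E
  have i3 := B_frac A K₀ E
  have i4 := B_dedM A K₀ E M
  have i5 := B_finM A K₀ E M
  let _ := algB A E M
  have j1 : IsScalarTower (integralClosure A E) (integralClosure A M) M :=
    IsScalarTower.of_algebraMap_eq fun _ => rfl
  have j2 : IsIntegralClosure (integralClosure A M) (integralClosure A E) M := by
    refine ⟨Subtype.val_injective, fun {x} => ⟨fun hx => ?_, ?_⟩⟩
    · have h1 : IsIntegral A x := isIntegral_trans (A := integralClosure A E) x hx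
      exact ⟨⟨x, h1⟩, rfl⟩
    · rintro ⟨y, rfl⟩
      exact IsIntegral.tower_top (R := A) y.2
  have j3 : IsScalarTower (integralClosure A E) (integralClosure A M) K :=
    IsScalarTower.of_algebraMap_eq fun x => IsScalarTower.algebraMap_apply E M K x
  have j4 : IsScalarTower (integralClosure A E) F K :=
    IsScalarTower.of_algebraMap_eq fun x => IsScalarTower.algebraMap_apply E F K x
  have j5 : Algebra.FiniteType ℤ (integralClosure A M) :=
    Algebra.FiniteType.trans (S := A) inferInstance inferInstance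
  exact gvk_prs (k := integralClosure A E) (O := integralClosure A M) hρ
    (fun 𝔓 h𝔓 _ => finite_quot 𝔓 h𝔓) hin (Or.inl rfl) hgen fix N hΘ fin ne st h hSf hS

end gvk

end Pool.Agent.T9h3.R
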