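import Pool.Agent.T9h3.R.Spr

/-!
# Nondegeneracy is a local property
-/

set_option autoImplicit false
set_option linter.unusedSectionVars false
set_option linter.overlappingInstances false
set_option linter.unusedVariables false
set_option linter.style.haveILetI false

namespace Pool.Agent.T9h3.R

open Pool.Agent.Y223.G Pool.Agent.R383.TM Pool.Agent.T9h3 Pool.Agent.T9h3.H
open Pool.Agent.T9h3.P Pool.Agent.T9h3.Q

lemma mapC {O O' Λ : Type} [CommRing O] [CommRing O'] [AddCommGroup Λ] (h : O →+* O') (o : O) :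
    AddMonoidAlgebra.mapRingHom Λ h (algebraMap O (AA O Λ) o) = algebraMap O' (AA O' Λ) (h o) := by
  have h1 : algebraMap O (AA O Λ) o = AddMonoidAlgebra.single 0 o := rfl
  have h2 : algebraMap O' (AA O' Λ) (h o) = AddMonoidAlgebra.single 0 (h o) := rfl
  rw [h1, h2, AddMonoidAlgebra.mapRingHom_single]

/-- Nondegeneracy at a localization. -/
theorem loc_RG {O O' Λ : Type} [CommRing O] [CommRing O'] [AddCommGroup Λ] (S : Submonoid O)
    (h : O →+* O') (hh : Function.Injective h) (hu : ∀ s ∈ S, IsUnit (h s))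
    (hd : ∀ y : O', ∃ s ∈ S, ∃ o, h s * y = h o) {c : ℕ} {f : Fin c → AA O Λ}
    (hRG : RG fun r => AddMonoidAlgebra.mapRingHom Λ h (f r)) (ℓ : Λ →+ ℤ)
    (Q : Ideal (AA O Λ)) (hQ : Q.IsPrime) (hQS : ∀ s ∈ S, algebraMap O (AA O Λ) s ∉ Q)
    (hini : ∀ r, ini ℓ (f r) ∈ Q) (d : Fin c → AA O Λ)
    (hdQ : ∑ r, d r * ini ℓ (f r) ∈ Q ^ 2) (r : Fin c) : d r ∈ Q := by
  classical
  let ia : Algebra (AA O Λ) (AA O' Λ) := (AddMonoidAlgebra.mapRingHom Λ h).toAlgebra
  have hia : ∀ a, algebraMap (AA O Λ) (AA O' Λ) a = AddMonoidAlgebra.mapRingHom Λ h a :=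
    fun a => rfl
  have hil : IsLocalization (S.map (algebraMap O (AA O Λ))) (AA O' Λ) := by
    refine ⟨?_, fun z => ?_, fun {x y} hxy => ?_⟩
    · rintro ⟨_, s, hs, rfl⟩
      rw [hia]
      change IsUnit (AddMonoidAlgebra.mapRingHom Λ h (algebraMap O (AA O Λ) s))
      rw [mapC]
      exact (hu s hs).map _
    · induction z using AA_ind with
      | h0 => exact ⟨⟨0, 1⟩, by rw [zero_mul, hia, map_zero]⟩
      | hadd f g hf hg =>
        obtain ⟨⟨a, s⟩, h1⟩ := hf
        obtain ⟨⟨b, t⟩, h2⟩ := hg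
        refine ⟨⟨a * t + b * s, s * t⟩, ?_⟩
        change (f + g) * algebraMap _ _ ((s : AA O Λ) * t) = algebraMap _ _ (a * t + b * s)
        change f * algebraMap _ _ (s : AA O Λ) = algebraMap _ _ a at h1
        change g * algebraMap _ _ (t : AA O Λ) = algebraMap _ _ b at h2
        rw [map_mul, map_add, map_mul, map_mul, ← h1, ← h2]
        ring
      | hs o x =>
        obtain ⟨s, hs, o', ho'⟩ := hd o
        refine ⟨⟨AddMonoidAlgebra.single x o', ⟨_, s, hs, rfl⟩⟩, ?_⟩
        change algebraMap O' (AA O' Λ) o * cx O' x *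
          AddMonoidAlgebra.mapRingHom Λ h (algebraMap O (AA O Λ) s) =
          AddMonoidAlgebra.mapRingHom Λ h (AddMonoidAlgebra.single x o')
        rw [mapC, AddMonoidAlgebra.mapRingHom_single, ← ho', single_eq, map_mul]
        ring
    · rw [hia, hia] at hxy
      exact ⟨1, by rw [map_injA hh hxy]⟩
  have hdis : Disjoint ((S.map (algebraMap O (AA O Λ)) : Submonoid (AA O Λ)) : Set (AA O Λ))
      (Q : Set (AA O Λ)) := by
    rw [Set.disjoint_left]
    rintro _ ⟨s, hs, rfl⟩ h2
    exact hQS s hs h2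
  have hQ' : (Q.map (algebraMap (AA O Λ) (AA O' Λ))).IsPrime :=
    IsLocalization.isPrime_of_isPrime_disjoint (S.map (algebraMap O (AA O Λ))) (AA O' Λ) Q hQ hdis
  have hc : (Q.map (algebraMap (AA O Λ) (AA O' Λ))).comap (algebraMap (AA O Λ) (AA O' Λ)) = Q :=
    IsLocalization.under_map_of_isPrime_disjoint (S.map (algebraMap O (AA O Λ))) (AA O' Λ) hQ hdis
  rw [← hc, Ideal.mem_comap]
  refine hRG ℓ _ hQ' (fun r => ?_) (fun r => algebraMap (AA O Λ) (AA O' Λ) (d r)) ?_ r
  · rw [ini_map hh]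
    exact Ideal.mem_map_of_mem _ (hini r)
  · rw [← Ideal.map_pow]
    have h1 := Ideal.mem_map_of_mem (algebraMap (AA O Λ) (AA O' Λ)) hdQ
    rw [map_sum] at h1
    convert h1 using 1
    refine Finset.sum_congr rfl fun r _ => ?_
    rw [map_mul, ini_map hh]
    rfl

section places

variable (A K₀ : Type) {E M Λ : Type} [CommRing A] [IsDomain A] [IsDedekindDomain A] [Field K₀]
  [Algebra A K₀] [IsFractionRing A K₀] [Field E] [Field M] [Algebra A E] [Algebra K₀ E]
  [IsScalarTower A K₀ E] [FiniteDimensional K₀ E] [Algebra.IsSeparable K₀ E] [Algebra E M]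
  [Algebra A M] [IsScalarTower A E M] [FiniteDimensional E M] [IsGalois E M]
  [AddCommGroup Λ] {c : ℕ} {f : Fin c → AA (integralClosure A M) Λ}

include K₀

/-- **Nondegeneracy at all the places.** -/
theorem RG_places (hA : ¬ IsField A)
    (h : ∀ V : ValuationSubring E, V ≠ ⊤ → (∀ o : integralClosure A M, IsIntegral V (o : M)) →
      ∀ f' : Fin c → AA (integralClosure V M) Λ,
      (∀ r, AddMonoidAlgebra.mapRingHom Λ (algebraMap (integralClosure V M) M) (f' r) =
        AddMonoidAlgebra.mapRingHom Λ (algebraMap (integralClosure A M) M) (f r)) → RG f') :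
    RG f := by
  classical
  have i1 := B_ded A K₀ E
  have i3 := B_frac A K₀ E
  have hAE : Function.Injective (algebraMap A E) := by
    rw [IsScalarTower.algebraMap_eq A K₀ E]
    exact (algebraMap K₀ E).injective.comp (IsFractionRing.injective A K₀)
  have hAB : Function.Injective (algebraMap A (integralClosure A E)) := by
    intro a b hab
    exact hAE (congrArg Subtype.val hab)
  have hB : ¬ IsField (integralClosure A E) := by
    intro hf
    have h1 : FaithfulSMul A (integralClosure A E) :=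
      (faithfulSMul_iff_algebraMap_injective _ _).2 hAB
    exact hA (isField_of_isIntegral_of_isField hAB hf)
  intro ℓ Q hQ hini d hd r
  let φ : integralClosure A E →+* integralClosure A M :=
    { toFun := fun x => ⟨algebraMap E M x, x.2.map (IsScalarTower.toAlgHom A E M)⟩
      map_one' := Subtype.ext (map_one _)
      map_mul' := fun _ _ => Subtype.ext (map_mul _ _ _)
      map_zero' := Subtype.ext (map_zero _)
      map_add' := fun _ _ => Subtype.ext (map_add _ _ _) }
  obtain ⟨𝔭, h𝔭⟩ : ∃ 𝔭 : Ideal (integralClosure A E), 𝔭 = Q.comap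
    ((algebraMap (integralClosure A M) (AA (integralClosure A M) Λ)).comp φ) := ⟨_, rfl⟩
  have h𝔭p : 𝔭.IsPrime := by rw [h𝔭]; exact Ideal.comap_isPrime _ _
  obtain ⟨𝔪, h𝔪, hle⟩ := Ideal.exists_le_maximal 𝔭 h𝔭p.ne_top
  have h𝔪0 : 𝔪 ≠ ⊥ := Ring.ne_bot_of_isMaximal_of_not_isField h𝔪 hB
  obtain ⟨V, hV⟩ := exists_VP (E := E) 𝔪 h𝔪 h𝔪0
  have hVt : V ≠ ⊤ := by
    rintro rfl
    obtain ⟨x, hx, hx0⟩ := Submodule.exists_mem_ne_zero_of_ne_bot h𝔪0
    rcases (hV.iff x).1 hx with h1 | h1
    · exact hx0 (IsFractionRing.injective (integralClosure A E) E (by rw [h1, map_zero]))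
    · exact h1 (ValuationSubring.mem_top _)
  -- integrality over the valuation ring
  let ψ : A →+* V :=
    { toFun := fun a => ⟨algebraMap A E a, hV.le (algebraMap A (integralClosure A E) a)⟩
      map_one' := Subtype.ext (map_one _)
      map_mul' := fun _ _ => Subtype.ext (map_mul _ _ _)
      map_zero' := Subtype.ext (map_zero _)
      map_add' := fun _ _ => Subtype.ext (map_add _ _ _) }
  have hintV : ∀ o : integralClosure A M, IsIntegral V (o : M) := by
    intro o
    have h1 : IsIntegral A (o : M) := o.2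
    have h2 := h1.map_of_comp_eq ψ (RingHom.id M) (by
      ext a
      exact (IsScalarTower.algebraMap_apply A E M a).symm)
    exact h2
  let η : integralClosure A M →+* integralClosure V M :=
    { toFun := fun x => ⟨x, hintV x⟩
      map_one' := rfl
      map_mul' := fun _ _ => rfl
      map_zero' := rfl
      map_add' := fun _ _ => rfl }
  have hη : Function.Injective η := by
    intro x y hxy
    exact Subtype.ext (congrArg (Subtype.val : integralClosure V M → M) hxy)
  have hRG : RG fun r => AddMonoidAlgebra.mapRingHom Λ η (f r) := by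
    refine h V hVt hintV _ fun r => ?_
    apply AddMonoidAlgebra.coeff_injective
    ext x
    rw [AddMonoidAlgebra.coeff_mapRingHom, AddMonoidAlgebra.coeff_mapRingHom,
      AddMonoidAlgebra.coeff_mapRingHom]
    rfl
  have hpp := h𝔪.isPrime
  refine loc_RG (𝔪.primeCompl.map φ) η hη ?_ ?_ hRG ℓ Q hQ ?_ hini d hd r
  · rintro _ ⟨s, hs, rfl⟩
    obtain ⟨hs0, hsV⟩ := hV.unit hs
    refine IsUnit.of_mul_eq_one (algebraMap V (integralClosure V M) ⟨_, hsV⟩) (Subtype.ext ?_)
    change algebraMap E M (s : E) * algebraMap E M (algebraMap (integralClosure A E) E s)⁻¹ = 1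
    rw [← map_mul]
    have h2 : (s : E) * (algebraMap (integralClosure A E) E s)⁻¹ = 1 := mul_inv_cancel₀ hs0
    rw [h2, map_one]
  · intro y
    letI := hV.hom.toAlgebra
    haveI := hV.isLoc
    have j1 : IsScalarTower (integralClosure A E) V M := IsScalarTower.of_algebraMap_eq fun x => rfl
    obtain ⟨⟨s, hs⟩, hm⟩ := IsIntegral.exists_multiple_integral_of_isLocalization
      𝔪.primeCompl (Rₘ := V) (y : M) y.2
    have h1 : IsIntegral A (s • (y : M)) := isIntegral_trans (A := integralClosure A E) _ hm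
    refine ⟨φ s, ⟨s, hs, rfl⟩, ⟨s • (y : M), h1⟩, Subtype.ext ?_⟩
    change algebraMap E M (s : E) * (y : M) = s • (y : M)
    rw [Algebra.smul_def]
    rfl
  · rintro _ ⟨s, hs, rfl⟩ h1
    apply hs
    apply hle
    rw [h𝔭]
    exact h1

end places

/-- The ring of the integers with denominators is not a field. -/
lemma Zn_nf {n : ℕ} (hn : n ≠ 0) : ¬ IsField (Algebra.adjoin ℤ {(n : ℚ)⁻¹}) := by
  intro hf
  obtain ⟨p, hpn, hp⟩ := Nat.exists_infinite_primes (n + 1)
  have hp0 : (p : Algebra.adjoin ℤ {(n : ℚ)⁻¹}) ≠ 0 := by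
    intro h
    have h1 := congrArg Subtype.val h
    have h2 : (p : ℚ) = 0 := h1
    exact hp.ne_zero (by exact_mod_cast h2)
  obtain ⟨y, hy⟩ := hf.mul_inv_cancel hp0
  obtain ⟨j, z, hz⟩ := Zn_den hn y
  have h1 : (p : ℚ) * (y : ℚ) = 1 := congrArg Subtype.val hy
  have h2 : ((n : ℤ) ^ j : ℤ) = (p : ℤ) * z := by
    have h3 : ((n : ℚ) ^ j) = (p : ℚ) * z := by
      rw [← hz, mul_left_comm, h1, mul_one]
    exact_mod_cast h3
  have h3 : (p : ℤ) ∣ (n : ℤ) ^ j := ⟨z, h2⟩
  have h4 : p ∣ n ^ j := by exact_mod_cast h3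
  have h5 := hp.dvd_of_dvd_pow h4
  exact absurd (Nat.le_of_dvd (Nat.pos_of_ne_zero hn) h5) (by omega)

/-- The ring of polynomials is not a field. -/
lemma adj_nf {κ E M : Type} [Field κ] [Field E] [Field M] [Algebra κ E] [Algebra E M] {s t : E}
    (hs : Transcendental κ s) (h : IsIntegral (Algebra.adjoin κ {t}) (algebraMap E M s)) :
    ¬ IsField (Algebra.adjoin κ {t}) := by
  intro hf
  let _ := hf.toField
  have h1 : Algebra.FiniteType κ (Algebra.adjoin κ {t}) := by
    rw [← Subalgebra.fg_iff_finiteType]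
    exact ⟨{t}, by simp⟩
  have h2 : Module.Finite κ (Algebra.adjoin κ {t}) := finite_of_finite_type_of_isJacobsonRing _ _
  have h3 : IsIntegral (Algebra.adjoin κ {t}) s := by
    refine (isIntegral_algHom_iff (IsScalarTower.toAlgHom (Algebra.adjoin κ {t}) E M)
      (algebraMap E M).injective).1 h
  have h4 : IsIntegral κ s := isIntegral_trans (A := Algebra.adjoin κ {t}) s h3
  exact hs h4.isAlgebraic

end Pool.Agent.T9h3.R
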