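import Pool.Agent.T9h3.R.Plm
import Pool.Agent.N864.GT.Sm
import Mathlib.RingTheory.Unramified.LocalStructure
import Mathlib.RingTheory.Smooth.Flat
import Mathlib.RingTheory.Smooth.Fiber

/-!
# Regular points of algebras of finite type

`exists_coords` and `reg_coords` are taken from the library of the starting files
(`Pool.Agent.R703.SM.EST`, `Pool.Agent.R703.SM.COO`).
-/

set_option autoImplicit false
set_option linter.unusedSectionVars false
set_option linter.unusedVariables false

namespace Pool.Agent.T9h3.R

open MvPolynomial IsLocalRing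

/-- étale coordinates -/
theorem exists_coords {V R : Type} [CommRing V] [IsNoetherianRing V] [CommRing R] [IsLocalRing R]
    [Algebra V R] [Algebra.EssFiniteType V R] [Algebra.FormallySmooth V R] :
    ∃ (n : ℕ) (t : Fin n → R), (aeval t : MvPolynomial (Fin n) V →ₐ[V] R).toRingHom.Flat ∧
      (aeval t : MvPolynomial (Fin n) V →ₐ[V] R).toRingHom.FormallyUnramified := by
  let S := Algebra.EssFiniteType.subalgebra V R
  let Q : Ideal S := (maximalIdeal R).comap (algebraMap S R)
  have hQ : Q.IsPrime := Ideal.comap_isPrime _ _
  have hQM : Algebra.EssFiniteType.submonoid V R = Q.primeCompl := by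
    ext s
    show IsUnit (algebraMap S R s) ↔ s ∉ Q
    show IsUnit (algebraMap S R s) ↔ ¬ (algebraMap S R s ∈ maximalIdeal R)
    rw [mem_maximalIdeal, mem_nonunits_iff, not_not]
  have hloc : IsLocalization Q.primeCompl R := by
    rw [← hQM]
    exact Algebra.EssFiniteType.isLocalization V R
  let e : Localization.AtPrime Q ≃ₐ[S] R := IsLocalization.algEquiv Q.primeCompl _ _
  have hsm : Algebra.IsSmoothAt V Q :=
    Algebra.FormallySmooth.of_equiv (e.restrictScalars V).symm
  have hfp : Algebra.FinitePresentation V S := Algebra.FinitePresentation.of_finiteType.1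
    inferInstance
  obtain ⟨f, hfQ, n, alg, htow, hst⟩ :=
    Algebra.IsSmoothAt.exists_isStandardEtale_mvPolynomial (R := V) (S := S) (p := Q)
  have hfu : IsUnit (algebraMap S R f) := IsLocalization.map_units R (⟨f, hfQ⟩ : Q.primeCompl)
  let ψ : Localization.Away f →ₐ[S] R :=
    IsLocalization.Away.liftAlgHom f (f := Algebra.ofId S R) hfu
  let _ : Algebra (Localization.Away f) R := ψ.toRingHom.toAlgebra
  have htow2 : IsScalarTower S (Localization.Away f) R :=
    IsScalarTower.of_algebraMap_eq fun s => (ψ.commutes s).symm
  have htow3 : IsScalarTower V (Localization.Away f) R := by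
    apply IsScalarTower.of_algebraMap_eq
    intro v
    rw [IsScalarTower.algebraMap_apply V S R, IsScalarTower.algebraMap_apply S
      (Localization.Away f) R, ← IsScalarTower.algebraMap_apply V S (Localization.Away f)]
  have hloc2 : IsLocalization (Q.primeCompl.map (algebraMap S (Localization.Away f))) R :=
    IsLocalization.isLocalization_of_submonoid_le (Localization.Away f) R (Submonoid.powers f)
      Q.primeCompl (by
        rw [Submonoid.powers_le]
        exact hfQ)
  have het : Algebra.Etale (MvPolynomial (Fin n) V) (Localization.Away f) := inferInstance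
  let t : Fin n → R := fun i => algebraMap (Localization.Away f) R
    (algebraMap (MvPolynomial (Fin n) V) (Localization.Away f) (X i))
  have ht : (aeval t : MvPolynomial (Fin n) V →ₐ[V] R).toRingHom =
      (algebraMap (Localization.Away f) R).comp
        (algebraMap (MvPolynomial (Fin n) V) (Localization.Away f)) := by
    apply MvPolynomial.ringHom_ext
    · intro v
      show aeval t (C v) = algebraMap (Localization.Away f) R
        (algebraMap (MvPolynomial (Fin n) V) (Localization.Away f) (algebraMap V _ v))
      rw [aeval_C, ← IsScalarTower.algebraMap_apply V (MvPolynomial (Fin n) V)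
        (Localization.Away f), ← IsScalarTower.algebraMap_apply V (Localization.Away f) R]
    · intro i
      show aeval t (X i) = _
      rw [aeval_X]
      rfl
  refine ⟨n, t, ?_, ?_⟩
  · rw [ht]
    refine RingHom.Flat.comp (RingHom.flat_algebraMap_iff.2 inferInstance) ?_
    exact RingHom.flat_algebraMap_iff.2
      (IsLocalization.flat R (Q.primeCompl.map (algebraMap S (Localization.Away f))))
  · rw [ht]
    refine RingHom.FormallyUnramified.comp (RingHom.formallyUnramified_algebraMap.2
      inferInstance) ?_
    exact RingHom.formallyUnramified_algebraMap.2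
      (Algebra.FormallyUnramified.of_isLocalization
        (Q.primeCompl.map (algebraMap S (Localization.Away f))))


/-- regularity from étale coordinates -/
theorem reg_coords {V R : Type} [CommRing V] [IsRegularRing V] [CommRing R] [IsLocalRing R]
    [Algebra V R] [Algebra.EssFiniteType V R] {n : ℕ} (t : Fin n → R)
    (hflat : (MvPolynomial.aeval t : MvPolynomial (Fin n) V →ₐ[V] R).toRingHom.Flat)
    (hunr : (MvPolynomial.aeval t : MvPolynomial (Fin n) V →ₐ[V] R).toRingHom.FormallyUnramified) :
    IsRegularLocalRing R := by
  have hRn : IsNoetherianRing R := Algebra.EssFiniteType.isNoetherianRing V R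
  let P := MvPolynomial (Fin n) V
  let φ : P →+* R := (MvPolynomial.aeval t : MvPolynomial (Fin n) V →ₐ[V] R).toRingHom
  let _ : Algebra P R := φ.toAlgebra
  have htow : IsScalarTower V P R := IsScalarTower.of_algebraMap_eq fun v =>
    (MvPolynomial.aeval_C t v).symm
  have hfl : Module.Flat P R := hflat
  have hun : Algebra.FormallyUnramified P R := hunr
  have hess : Algebra.EssFiniteType P R := .of_comp V P R
  let 𝔫 : Ideal P := (maximalIdeal R).comap φ
  have h𝔫 : 𝔫.IsPrime := Ideal.comap_isPrime _ _
  have hlies : (maximalIdeal R).LiesOver 𝔫 := ⟨rfl⟩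
  have hht : 𝔫.height ≤ (maximalIdeal R).height := by
    rw [Ideal.height_eq_height_add_of_liesOver_of_hasGoingDown 𝔫 (maximalIdeal R)]
    exact le_self_add
  let B := Localization.AtPrime 𝔫
  have hBreg : IsRegularLocalRing B := inferInstance
  have hu : ∀ y : 𝔫.primeCompl, IsUnit (φ y) := by
    intro y
    by_contra hcon
    exact y.2 ((mem_maximalIdeal _).2 hcon)
  let Φ : B →+* R := IsLocalization.lift (M := 𝔫.primeCompl) hu
  have hΦ : ∀ y, Φ (algebraMap _ _ y) = φ y := fun y => IsLocalization.lift_eq hu y
  let _ : Algebra B R := Φ.toAlgebra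
  have htow2 : IsScalarTower P B R := IsScalarTower.of_algebraMap_eq fun y => (hΦ y).symm
  have hess2 : Algebra.EssFiniteType B R := .of_comp P B R
  have hun2 : Algebra.FormallyUnramified B R := .of_restrictScalars P B R
  have hloc : IsLocalHom (algebraMap B R) := by
    constructor
    intro b hb
    obtain ⟨r, s, rfl⟩ := IsLocalization.exists_mk'_eq 𝔫.primeCompl b
    have h1 : Φ (IsLocalization.mk' _ r s) * φ s = φ r := by
      rw [← hΦ, ← hΦ, ← map_mul, IsLocalization.mk'_spec]
    have h2 : IsUnit (φ r) := by
      rw [← h1]
      exact hb.mul (hu s)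
    have h3 : r ∈ 𝔫.primeCompl := by
      intro h
      exact (mem_maximalIdeal _).1 h h2
    have h4 : IsUnit (IsLocalization.mk' B r s * algebraMap P _ s) := by
      rw [IsLocalization.mk'_spec]
      exact IsLocalization.map_units B ⟨r, h3⟩
    exact isUnit_of_mul_isUnit_left h4
  have hmax : (maximalIdeal B).map (algebraMap B R) = maximalIdeal R :=
    Algebra.FormallyUnramified.map_maximalIdeal
  have hmax2 : 𝔫.map φ = maximalIdeal R := by
    rw [← hmax, ← Localization.AtPrime.map_eq_maximalIdeal, Ideal.map_map,
      ← IsScalarTower.algebraMap_eq P B R]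
    rfl
  -- dimensions
  have hspan : (maximalIdeal R).spanFinrank ≤ (maximalIdeal B).spanFinrank := by
    rw [← hmax]
    exact Ideal.spanFinrank_map_le_of_fg _ (maximalIdeal B).fg_of_isNoetherianRing
  have hdB : ((maximalIdeal B).spanFinrank : WithBot ℕ∞) = ringKrullDim B :=
    IsRegularLocalRing.spanFinrank_maximalIdeal
  have hdB2 : ringKrullDim B = (𝔫.height : WithBot ℕ∞) :=
    IsLocalization.AtPrime.ringKrullDim_eq_height 𝔫 B
  have hdR : ((maximalIdeal R).height : WithBot ℕ∞) = ringKrullDim R :=
    IsLocalRing.maximalIdeal_height_eq_ringKrullDim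
  have hht' : (𝔫.height : WithBot ℕ∞) ≤ ringKrullDim R := by
    rw [← hdR]
    exact WithBot.coe_le_coe.2 hht
  have hspan' : ((maximalIdeal R).spanFinrank : WithBot ℕ∞) ≤ (𝔫.height : WithBot ℕ∞) := by
    rw [← hdB2, ← hdB]
    exact_mod_cast hspan
  exact IsRegularLocalRing.of_spanFinrank_maximalIdeal_le R (hspan'.trans hht')

/-- Local rings of smooth algebras over regular rings are regular. -/
theorem reg_of_fsm {D R : Type} [CommRing D] [IsRegularRing D] [CommRing R] [IsLocalRing R]
    [Algebra D R] [Algebra.EssFiniteType D R] [Algebra.FormallySmooth D R] :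
    IsRegularLocalRing R := by
  obtain ⟨n, t, h1, h2⟩ := exists_coords (V := D) (R := R)
  exact reg_coords t h1 h2

end Pool.Agent.T9h3.R
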