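import Pool.Agent.T9h3.R.Torf

/-!
# Spreading out of nondegenerate systems
-/

set_option autoImplicit false
set_option linter.unusedSectionVars false
set_option linter.overlappingInstances false
set_option linter.unusedVariables false

namespace Pool.Agent.T9h3.R

open Pool.Agent.Y223.G Pool.Agent.R383.TM Pool.Agent.T9h3 Pool.Agent.T9h3.H
open Pool.Agent.T9h3.P Pool.Agent.T9h3.Q

section map

variable {O M Λ : Type} [CommRing O] [CommRing M] [AddCommGroup Λ] {h : O →+* M}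

lemma supp_map (hh : Function.Injective h) (f : AA O Λ) :
    (AddMonoidAlgebra.mapRingHom Λ h f).coeff.support = f.coeff.support := by
  ext x
  rw [Finsupp.mem_support_iff, Finsupp.mem_support_iff, AddMonoidAlgebra.coeff_mapRingHom]
  exact not_congr (map_eq_zero_iff h hh)

lemma ini_map (hh : Function.Injective h) (ℓ : Λ →+ ℤ) (f : AA O Λ) :
    ini ℓ (AddMonoidAlgebra.mapRingHom Λ h f) = AddMonoidAlgebra.mapRingHom Λ h (ini ℓ f) := by
  unfold ini
  rw [supp_map hh, map_sum]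
  refine Finset.sum_congr rfl fun x _ => ?_
  rw [AddMonoidAlgebra.mapRingHom_single, AddMonoidAlgebra.coeff_mapRingHom]

lemma Dw_map (hh : Function.Injective h) (w : Λ →ₗ[ℤ] ℤ) (f : AA O Λ) :
    Dw w (AddMonoidAlgebra.mapRingHom Λ h f) = AddMonoidAlgebra.mapRingHom Λ h (Dw w f) := by
  rw [Dw_eq, Dw_eq, supp_map hh, map_sum]
  refine Finset.sum_congr rfl fun x _ => ?_
  rw [AddMonoidAlgebra.mapRingHom_single, AddMonoidAlgebra.coeff_mapRingHom, map_mul, map_intCast]

lemma exists_lift (P : AA M Λ) (hP : ∀ x ∈ P.coeff.support, ∃ o, h o = P.coeff x) :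
    ∃ P' : AA O Λ, AddMonoidAlgebra.mapRingHom Λ h P' = P := by
  classical
  choose! o ho using hP
  refine ⟨∑ x ∈ P.coeff.support, AddMonoidAlgebra.single x (o x), ?_⟩
  rw [map_sum]
  conv_rhs => rw [← AA_sum P]
  refine Finset.sum_congr rfl fun x hx => ?_
  rw [AddMonoidAlgebra.mapRingHom_single, ho x hx]

lemma map_injA (hh : Function.Injective h) :
    Function.Injective (AddMonoidAlgebra.mapRingHom Λ h) := by
  intro f g hfg
  apply AddMonoidAlgebra.coeff_injective
  ext x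
  apply hh
  rw [← AddMonoidAlgebra.coeff_mapRingHom, ← AddMonoidAlgebra.coeff_mapRingHom, hfg]

end map

/-- The initial forms define smooth subschemes. -/
def SMF {M Λ : Type} [CommRing M] [AddCommGroup Λ] {c : ℕ} (f : Fin c → AA M Λ) : Prop :=
  ∀ (ℓ : Λ →+ ℤ) (Q : Ideal (AA M Λ)), Q.IsPrime → (∀ r, ini ℓ (f r) ∈ Q) →
    ∃ w : Fin c → Λ →ₗ[ℤ] ℤ, (Matrix.of fun i r => Dw (w i) (ini ℓ (f r))).det ∉ Q

/-- The Jacobian criterion. -/
lemma RG_jac {O Λ : Type} [CommRing O] [AddCommGroup Λ] {c : ℕ} {f : Fin c → AA O Λ}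
    (h : SMF f) : RG f := by
  intro ℓ Q hQ hini d hd r
  obtain ⟨w, hw⟩ := h ℓ Q hQ hini
  refine der_mat Q (fun r => ini ℓ (f r)) hini (fun i x => Dw (w i) x)
    (fun i x y => Dw_add _ _ _) (fun i x y => Dw_mul _ _ _) hw d hd r

/-- **Spreading out.** -/
theorem exists_spread {M Λ : Type} [Field M] [AddCommGroup Λ] {c : ℕ} (f : Fin c → AA M Λ)
    (hf : SMF f) : ∃ S : Finset M, ∀ (O : Type) [CommRing O] (h : O →+* M),
      Function.Injective h → (∀ s ∈ S, ∃ o, h o = s) →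
      ∃ f' : Fin c → AA O Λ, (∀ r, AddMonoidAlgebra.mapRingHom Λ h (f' r) = f r) ∧ RG f' := by
  classical
  -- one functional
  have hone : ∀ ℓ : Λ →+ ℤ, ∃ S : Finset M, ∀ (O : Type) [CommRing O] (h : O →+* M),
      Function.Injective h → (∀ s ∈ S, ∃ o, h o = s) → ∀ f' : Fin c → AA O Λ,
      (∀ r, AddMonoidAlgebra.mapRingHom Λ h (f' r) = f r) →
      ∀ Q : Ideal (AA O Λ), Q.IsPrime → (∀ r, ini ℓ (f' r) ∈ Q) →
      ∃ w : Fin c → Λ →ₗ[ℤ] ℤ, (Matrix.of fun i r => Dw (w i) (ini ℓ (f' r))).det ∉ Q := by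
    intro ℓ
    have h1 : Ideal.span (Set.range (fun r => ini ℓ (f r)) ∪
        {y | ∃ w : Fin c → Λ →ₗ[ℤ] ℤ, y = (Matrix.of fun i r => Dw (w i) (ini ℓ (f r))).det}) =
        (⊤ : Ideal (AA M Λ)) := by
      by_contra hcon
      obtain ⟨Q, hQ, hle⟩ := Ideal.exists_le_maximal _ hcon
      obtain ⟨w, hw⟩ := hf ℓ Q hQ.isPrime (fun r => hle (Ideal.subset_span (Or.inl ⟨r, rfl⟩)))
      exact hw (hle (Ideal.subset_span (Or.inr ⟨w, rfl⟩)))
    have h2 : (1 : AA M Λ) ∈ Ideal.span (Set.range (fun r => ini ℓ (f r)) ∪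
        {y | ∃ w : Fin c → Λ →ₗ[ℤ] ℤ, y = (Matrix.of fun i r => Dw (w i) (ini ℓ (f r))).det}) := by
      rw [h1]; trivial
    rw [Ideal.span_union, Submodule.mem_sup] at h2
    obtain ⟨u, hu, v, hv, huv⟩ := h2
    obtain ⟨a, ha⟩ := (mem_span_iff _ _).1 hu
    obtain ⟨T, b, hb⟩ : ∃ (T : Finset (Fin c → Λ →ₗ[ℤ] ℤ)) (b : (Fin c → Λ →ₗ[ℤ] ℤ) → AA M Λ),
        v = ∑ w ∈ T, b w * (Matrix.of fun i r => Dw (w i) (ini ℓ (f r))).det := by
      have hv' : v ∈ Ideal.span (Set.range fun w : Fin c → Λ →ₗ[ℤ] ℤ =>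
          (Matrix.of fun i r => Dw (w i) (ini ℓ (f r))).det) := by
        have e1 : (Set.range fun w : Fin c → Λ →ₗ[ℤ] ℤ =>
            (Matrix.of fun i r => Dw (w i) (ini ℓ (f r))).det) = {y | ∃ w : Fin c → Λ →ₗ[ℤ] ℤ,
              y = (Matrix.of fun i r => Dw (w i) (ini ℓ (f r))).det} := by
          ext y
          constructor
          · rintro ⟨w, rfl⟩
            exact ⟨w, rfl⟩
          · rintro ⟨w, rfl⟩
            exact ⟨w, rfl⟩
        rw [e1]
        exact hv
      obtain ⟨l, hl⟩ := (Finsupp.mem_ideal_span_range_iff_exists_finsupp).1 hv'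
      exact ⟨l.support, l, hl.symm⟩
    refine ⟨(Finset.univ.biUnion fun r => (a r).coeff.support.image (a r).coeff) ∪
      T.biUnion fun w => (b w).coeff.support.image (b w).coeff, ?_⟩
    intro O _ h hh hS f' hf' Q hQ hini
    have ha' : ∀ r, ∃ a' : AA O Λ, AddMonoidAlgebra.mapRingHom Λ h a' = a r := by
      intro r
      refine exists_lift _ fun x hx => hS _ (Finset.mem_union_left _ ?_)
      rw [Finset.mem_biUnion]
      exact ⟨r, Finset.mem_univ _, Finset.mem_image_of_mem _ hx⟩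
    have hb' : ∀ w ∈ T, ∃ b' : AA O Λ, AddMonoidAlgebra.mapRingHom Λ h b' = b w := by
      intro w hw
      refine exists_lift _ fun x hx => hS _ (Finset.mem_union_right _ ?_)
      rw [Finset.mem_biUnion]
      exact ⟨w, hw, Finset.mem_image_of_mem _ hx⟩
    choose a' ha' using ha'
    choose! b' hb' using hb'
    by_contra hcon
    push Not at hcon
    have hmi : ∀ r, ini ℓ (f r) = AddMonoidAlgebra.mapRingHom Λ h (ini ℓ (f' r)) := by
      intro r
      rw [← ini_map hh, hf']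
    have hmd : ∀ w : Fin c → Λ →ₗ[ℤ] ℤ, (Matrix.of fun i r => Dw (w i) (ini ℓ (f r))).det =
        AddMonoidAlgebra.mapRingHom Λ h
          (Matrix.of fun i r => Dw (w i) (ini ℓ (f' r))).det := by
      intro w
      rw [RingHom.map_det]
      congr 1
      ext1 i r
      change Dw (w i) (ini ℓ (f r)) = AddMonoidAlgebra.mapRingHom Λ h (Dw (w i) (ini ℓ (f' r)))
      rw [← Dw_map hh, hmi]
    have h3 : AddMonoidAlgebra.mapRingHom Λ h (∑ r, a' r * ini ℓ (f' r) +
        ∑ w ∈ T, b' w * (Matrix.of fun i r => Dw (w i) (ini ℓ (f' r))).det) =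
        AddMonoidAlgebra.mapRingHom Λ h 1 := by
      rw [map_add, map_sum, map_sum, map_one, ← huv, hb, ha]
      congr 1
      · refine Finset.sum_congr rfl fun r _ => ?_
        rw [map_mul, ha', hmi, mul_comm]
      · refine Finset.sum_congr rfl fun w hw => ?_
        rw [map_mul, hb' w hw, hmd]
    have h4 := map_injA hh h3
    apply hQ.ne_top
    rw [Ideal.eq_top_iff_one, ← h4]
    exact Q.add_mem (Ideal.sum_mem _ fun r _ => Q.mul_mem_left _ (hini r))
      (Ideal.sum_mem _ fun w _ => Q.mul_mem_left _ (hcon w))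
  -- the finitely many systems of initial forms
  choose S hS using hone
  let A : (Λ →+ ℤ) → ∀ r, Finset Λ := fun ℓ r =>
    (f r).coeff.support.filter fun x => ∀ y ∈ (f r).coeff.support, ℓ x ≤ ℓ y
  have hA : (Set.range A).Finite := by
    have h1 : (Set.range A) ⊆ Set.pi Set.univ (fun r => {B : Finset Λ | B ⊆ (f r).coeff.support}) := by
      rintro _ ⟨ℓ, rfl⟩ r _
      exact Finset.filter_subset _ _
    refine Set.Finite.subset (Set.Finite.pi fun r => ?_) h1
    have h2 : {B : Finset Λ | B ⊆ (f r).coeff.support} =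
        ((f r).coeff.support.powerset : Set (Finset Λ)) := by
      ext B
      simp
    rw [h2]
    exact Finset.finite_toSet _
  have hsel : ∀ B ∈ Set.range A, ∃ ℓ, A ℓ = B := fun B hB => hB
  choose! L hL using hsel
  refine ⟨(Finset.univ.biUnion fun r => (f r).coeff.support.image (f r).coeff) ∪
    hA.toFinset.biUnion fun B => S (L B), ?_⟩
  intro O _ h hh hO
  have hf' : ∀ r, ∃ f' : AA O Λ, AddMonoidAlgebra.mapRingHom Λ h f' = f r := by
    intro r
    refine exists_lift _ fun x hx => hO _ (Finset.mem_union_left _ ?_)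
    rw [Finset.mem_biUnion]
    exact ⟨r, Finset.mem_univ _, Finset.mem_image_of_mem _ hx⟩
  choose f' hf' using hf'
  refine ⟨f', hf', RG_jac ?_⟩
  intro ℓ Q hQ hini
  have hB : A ℓ ∈ Set.range A := ⟨ℓ, rfl⟩
  have hAL : A (L (A ℓ)) = A ℓ := hL _ hB
  have heq : ∀ r, ini (L (A ℓ)) (f' r) = ini ℓ (f' r) := by
    intro r
    apply map_injA hh
    rw [← ini_map hh, ← ini_map hh, hf']
    unfold ini
    have h1 := congrFun hAL r
    exact Finset.sum_congr h1 fun _ _ => rfl
  obtain ⟨w, hw⟩ := hS (L (A ℓ)) O h hh (fun s hs => hO s (Finset.mem_union_right _ (by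
    rw [Finset.mem_biUnion]
    exact ⟨A ℓ, hA.mem_toFinset.2 hB, hs⟩))) f' hf' Q hQ (fun r => by rw [heq]; exact hini r)
  refine ⟨w, ?_⟩
  simp only [heq] at hw
  exact hw

end Pool.Agent.T9h3.R
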