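import Pool.Agent.T9h3.R.Nf
import Pool.Agent.T9h3.R.Hgt2

/-!
# Torsors under tori over number fields
-/

set_option autoImplicit false
set_option linter.unusedSectionVars false
set_option linter.overlappingInstances false
set_option linter.unusedVariables false

namespace Pool.Agent.T9h3.R

open Pool.Agent.Y223.G Pool.Agent.R383.TM Pool.Agent.T9h3 Pool.Agent.T9h3.H
open Pool.Agent.T9h3.P Pool.Agent.T9h3.Q Pool.Agent.H918R2.Quad
open scoped NumberField

section gen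

variable {O E M : Type} [CommRing O] [Field E] [Field M] [Algebra O M] [Algebra E M]

/-- The inertia group. -/
def InG [Finite (M ≃ₐ[E] M)] (𝔓 : Ideal O) : Subgroup (M ≃ₐ[E] M) :=
  have hmul : ∀ a b : M ≃ₐ[E] M, a ∈ InS E M 𝔓 → b ∈ InS E M 𝔓 → a * b ∈ InS E M 𝔓 := by
    intro a b ha hb o
    obtain ⟨e, he, h1⟩ := hb o
    obtain ⟨e', he', h2⟩ := ha e
    obtain ⟨e'', he'', h3⟩ := ha o
    refine ⟨e' + e + e'', 𝔓.add_mem (𝔓.add_mem he' he) he'', ?_⟩
    rw [AlgEquiv.mul_apply]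
    have h4 : b (algebraMap O M o) = algebraMap O M e + algebraMap O M o := by
      rw [h1]; ring
    rw [h4, map_add, map_add, map_add, h2, h3]
    ring
  have hone : (1 : M ≃ₐ[E] M) ∈ InS E M 𝔓 := by
    intro o
    exact ⟨0, 𝔓.zero_mem, by rw [map_zero, AlgEquiv.one_apply, sub_self]⟩
  { carrier := InS E M 𝔓
    mul_mem' := fun {a b} => hmul a b
    one_mem' := hone
    inv_mem' := by
      intro g hg
      have h1 : ∀ n : ℕ, g ^ n ∈ InS E M 𝔓 := by
        intro n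
        induction n with
        | zero => rw [pow_zero]; exact hone
        | succ n ih => rw [pow_succ]; exact hmul _ _ ih hg
      have h2 : g⁻¹ = g ^ (orderOf g - 1) := by
        have h3 : 0 < orderOf g := orderOf_pos g
        have h4 : g * g ^ (orderOf g - 1) = 1 := by
          rw [← pow_succ', Nat.sub_add_cancel h3, pow_orderOf_eq_one]
        exact inv_eq_of_mul_eq_one_right h4
      rw [h2]
      exact h1 _ }

lemma InS_dvd [Finite (M ≃ₐ[E] M)] (𝔓 : Ideal O) :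
    Nat.card (InS E M 𝔓) ∣ Nat.card (M ≃ₐ[E] M) :=
  Subgroup.card_subgroup_dvd_card (InG 𝔓)

/-- Units from the basis. -/
lemma unit_all {Λ ι : Type} [AddCommGroup Λ] [Fintype ι] (b : Module.Basis ι ℤ Λ) {γ : Λ → M}
    (γ0 : γ 0 = 1) (γa : ∀ x y, γ (x + y) = γ x * γ y) (S : Subring M)
    (h : ∀ i, γ (b i) ∈ S ∧ (γ (b i))⁻¹ ∈ S) (x : Λ) : γ x ∈ S := by
  have hn : ∀ x, γ (-x) = (γ x)⁻¹ := by
    intro x
    refine eq_inv_of_mul_eq_one_left ?_
    rw [← γa, neg_add_cancel, γ0]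
  let H : AddSubgroup Λ :=
    { carrier := {x | γ x ∈ S ∧ (γ x)⁻¹ ∈ S}
      zero_mem' := by
        change γ 0 ∈ S ∧ (γ 0)⁻¹ ∈ S
        rw [γ0, inv_one]
        exact ⟨S.one_mem, S.one_mem⟩
      add_mem' := by
        rintro x y ⟨h1, h2⟩ ⟨h3, h4⟩
        change γ (x + y) ∈ S ∧ (γ (x + y))⁻¹ ∈ S
        rw [γa, mul_inv]
        exact ⟨S.mul_mem h1 h3, S.mul_mem h2 h4⟩
      neg_mem' := by
        rintro x ⟨h1, h2⟩
        change γ (-x) ∈ S ∧ (γ (-x))⁻¹ ∈ S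
        rw [hn, inv_inv]
        exact ⟨h2, h1⟩ }
  have h1 : x ∈ H := by
    rw [← b.sum_repr x]
    exact H.sum_mem fun i _ => H.zsmul_mem (h i) _
  exact h1.1

end gen

/-- The place is wildly ramified. -/
def WRP {E : Type} (M : Type) [Field E] [Field M] [Algebra E M] (V : ValuationSubring E) : Prop :=
  ∃ (𝔓 : Ideal (integralClosure V M)) (p : ℕ) (g : M ≃ₐ[E] M), 𝔓.IsMaximal ∧ p.Prime ∧
    (p : integralClosure V M) ∈ 𝔓 ∧ g ∈ InS E M 𝔓 ∧ orderOf g = p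

/-- The torsor is trivial at the place, approximately. -/
def TRV {E M K : Type} [Field E] [Field M] [Field K] [Algebra E M] [Algebra M K] [Algebra E K]
    (ρ : (M ≃ₐ[E] M) →* (K ≃ₐ[E] K)) (V : ValuationSubring E) (D : CHL E M K) : Prop :=
  ∀ r : V, r ≠ 0 → ∃ a : D.Λ → M, a 0 = 1 ∧ (∀ x y, a (x + y) = a x * a y) ∧
    ∀ g x, ∃ e : integralClosure V M, ρ g (algebraMap M K (a x) * D.χ x) =
      algebraMap M K (algebraMap _ M (1 + algebraMap V (integralClosure V M) r * e)) *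
        (algebraMap M K (a (g • x)) * D.χ (g • x))

/-- The local presentations. -/
theorem torsor_loc {E M K : Type} [Field E] [Field M] [Algebra E M] [FiniteDimensional E M]
    [IsGalois E M] [Field K] [Algebra M K] [Algebra E K] [IsScalarTower E M K]
    {ρ : (M ≃ₐ[E] M) →* (K ≃ₐ[E] K)} {D₀ : CHL E M K}
    (hρ : ∀ g x, ρ g (algebraMap M K x) = algebraMap M K (g x))
    (hli : LinearIndependent M D₀.χ)
    (hgen : IntermediateField.adjoin M (Set.range D₀.χ) = ⊤) (hs : SML ρ D₀)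
    {V : ValuationSubring E} (hV : GOOD M V) (hw : WRP M V → TRV ρ V D₀) (r : V) (hr : r ≠ 0) :
    ∃ (D : CHL E M K) (c : ℕ) (f : Fin c → AA (integralClosure V M) D.Λ),
      PRS E ρ (algebraMap V (integralClosure V M) r) D.χ f ∧ REL D D₀ ∧ REL D₀ D := by
  have h1 := hV.ded
  have h2 := hV.dedO
  have h3 : IsFractionRing (integralClosure V M) M :=
    IsIntegralClosure.isFractionRing_of_finite_extension V E M _
  by_cases h : WRP M V
  · obtain ⟨a, ha0, haa, ha⟩ := hw h r hr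
    exact prs_wild hli hgen ha0 haa ha
  · refine prs_tame hli hρ hs (fun g o => ?_) hV.fin ?_ _
    · have h4 : IsIntegral V (g (o : M)) := by
        have h5 : IsIntegral V (o : M) := o.2
        exact h5.map (g.toAlgHom.restrictScalars V)
      exact ⟨⟨g (o : M), h4⟩, rfl⟩
    · intro 𝔓 p g h𝔓 hp hp𝔓 hg ho
      exact h ⟨𝔓, p, g, h𝔓, hp, hp𝔓, hg, ho⟩

section nf

variable {E M F K : Type} [Field E] [NumberField E] [Field M] [CharZero M] [Algebra E M]
  [FiniteDimensional E M] [IsGalois E M] [Field F] [Field K] [Algebra E F] [Algebra (𝓞 E) F]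
  [IsScalarTower (𝓞 E) E F] [Algebra M K]
  [Algebra E K] [IsScalarTower E M K] [Algebra F K] [IsScalarTower E F K]
  {ρ : (M ≃ₐ[E] M) →* (K ≃ₐ[E] K)}

/-- Denominators. -/
lemma exists_denM {M : Type} [Field M] [CharZero M] (hM : Algebra.IsAlgebraic ℚ M)
    (S : Finset M) : ∃ m : ℕ, m ≠ 0 ∧ ∀ n : ℕ, n ≠ 0 → m ∣ n → ∀ s ∈ S,
    IsIntegral (Algebra.adjoin ℤ {(n : ℚ)⁻¹}) s := by
  classical
  have halg : ∀ s : M, ∃ y : ℤ, y ≠ 0 ∧ IsIntegral ℤ (y • s) := by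
    intro s
    have h1 : IsAlgebraic ℚ s := hM.isAlgebraic s
    have h2 : IsAlgebraic ℤ s := (IsFractionRing.isAlgebraic_iff ℤ ℚ M).2 h1
    obtain ⟨y, hy, h3⟩ := h2.exists_integral_multiple
    exact ⟨y, hy, h3⟩
  induction S using Finset.induction_on with
  | empty => exact ⟨1, one_ne_zero, fun n _ _ s hs => absurd hs (Finset.notMem_empty _)⟩
  | insert s S _ ih =>
    obtain ⟨m, hm, h1⟩ := ih
    obtain ⟨y, hy, h2⟩ := halg s
    refine ⟨y.natAbs * m, mul_ne_zero (Int.natAbs_ne_zero.2 hy) hm, fun n hn hmn x hx => ?_⟩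
    rw [Finset.mem_insert] at hx
    rcases hx with rfl | hx
    · obtain ⟨k, hk⟩ : (y.natAbs : ℤ) ∣ n := by
        exact_mod_cast (dvd_mul_right _ _).trans hmn
      obtain ⟨k', hk'⟩ : y ∣ (n : ℤ) := (Int.dvd_natAbs_self).trans ⟨k, hk⟩
      have hn' : (n : ℚ) ≠ 0 := by exact_mod_cast hn
      have h3 : IsIntegral (Algebra.adjoin ℤ {(n : ℚ)⁻¹}) (y • x) := h2.tower_top
      have h4 : x = (algebraMap ℤ (Algebra.adjoin ℤ {(n : ℚ)⁻¹}) k' *
          ⟨(n : ℚ)⁻¹, Algebra.self_mem_adjoin_singleton ℤ _⟩ :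
            Algebra.adjoin ℤ {(n : ℚ)⁻¹}) • (y • x) := by
        rw [Algebra.smul_def]
        have h5 : algebraMap (Algebra.adjoin ℤ {(n : ℚ)⁻¹}) M (algebraMap ℤ _ k' *
            ⟨(n : ℚ)⁻¹, Algebra.self_mem_adjoin_singleton ℤ _⟩) =
            algebraMap ℚ M ((k' : ℚ) * (n : ℚ)⁻¹) := rfl
        rw [h5, zsmul_eq_mul, map_mul, map_inv₀, map_intCast, map_natCast, ← mul_assoc]
        have h6 : ((n : ℤ) : M) = (y : M) * (k' : M) := by
          rw [hk']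
          push_cast
          rfl
        have h7 : (n : M) = (y : M) * (k' : M) := by exact_mod_cast h6
        have h8 : (n : M) ≠ 0 := by exact_mod_cast hn
        field_simp
        rw [h7]
        ring
      rw [h4]
      exact h3.smul _
    · exact h1 n hn ((dvd_mul_left _ _).trans hmn) x hx

/-- **Torsors under tori over number fields.** -/
theorem nf_torsor {D₀ : CHL E M K}
    (hρ : ∀ g x, ρ g (algebraMap M K x) = algebraMap M K (g x))
    (fix : ∀ y, (∀ g, ρ g y = y) ↔ ∃ z : F, algebraMap F K z = y)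
    (hin : ∀ V : ValuationSubring E, V ≠ ⊤ → HIN E M (integralClosure V M))
    (hli : LinearIndependent M D₀.χ)
    (hgen : IntermediateField.adjoin M (Set.range D₀.χ) = ⊤) (hs : SML ρ D₀)
    (hw : ∀ V : ValuationSubring E, V ≠ ⊤ → WRP M V → TRV ρ V D₀) : HasModule (𝓞 E) F := by
  classical
  have hfG : Finite (M ≃ₐ[E] M) := inferInstance
  have hs' := hs
  choose γ hγ using hs'
  have C : CST ρ D₀.χ γ := ⟨D₀.χ0, D₀.χa, hρ, hγ⟩
  have hfG' : Fintype (M ≃ₐ[E] M) := Fintype.ofFinite _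
  let b := Module.Free.chooseBasis ℤ D₀.Λ
  have hM : Algebra.IsAlgebraic ℚ M := by
    have h2 : Algebra.IsAlgebraic ℚ E := inferInstance
    have h3 : Algebra.IsAlgebraic E M := inferInstance
    exact Algebra.IsAlgebraic.trans ℚ E M
  obtain ⟨m, hm, hmS⟩ := exists_denM hM (Finset.univ.image
    (fun z : (M ≃ₐ[E] M) × Module.Free.ChooseBasisIndex ℤ D₀.Λ => γ z.1 (b z.2)) ∪
    Finset.univ.image
    (fun z : (M ≃ₐ[E] M) × Module.Free.ChooseBasisIndex ℤ D₀.Λ => (γ z.1 (b z.2))⁻¹))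
  have hG0 : Nat.card (M ≃ₐ[E] M) ≠ 0 := Nat.card_pos.ne'
  obtain ⟨n, hnd⟩ : ∃ n, n = Nat.card (M ≃ₐ[E] M) * m := ⟨_, rfl⟩
  have hn : n ≠ 0 := by rw [hnd]; exact mul_ne_zero hG0 hm
  have hnG : Nat.card (M ≃ₐ[E] M) ∣ n := ⟨m, hnd⟩
  have hint := hmS n hn ⟨Nat.card (M ≃ₐ[E] M), by rw [hnd, mul_comm]⟩
  have hVt : ∀ V : ValuationSubring E, (n : E)⁻¹ ∉ V → V ≠ ⊤ := by
    rintro V h rfl
    exact h (ValuationSubring.mem_top _)
  -- the residue characteristics do not divide `n`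
  have hnp : ∀ (𝔓 : Ideal (integralClosure (Algebra.adjoin ℤ {(n : ℚ)⁻¹}) M)) (p : ℕ),
      𝔓.IsMaximal → (p : integralClosure (Algebra.adjoin ℤ {(n : ℚ)⁻¹}) M) ∈ 𝔓 → ¬ p ∣ n := by
    rintro 𝔓 p h𝔓 hp ⟨k, hk⟩
    have hn𝔓 : (n : integralClosure (Algebra.adjoin ℤ {(n : ℚ)⁻¹}) M) ∈ 𝔓 := by
      have h0 := congrArg (Nat.cast :
        ℕ → integralClosure (Algebra.adjoin ℤ {(n : ℚ)⁻¹}) M) hk
      rw [Nat.cast_mul] at h0
      rw [h0]
      exact 𝔓.mul_mem_right _ hp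
    apply h𝔓.ne_top
    rw [Ideal.eq_top_iff_one]
    have h1 : (1 : integralClosure (Algebra.adjoin ℤ {(n : ℚ)⁻¹}) M) =
        algebraMap (Algebra.adjoin ℤ {(n : ℚ)⁻¹}) _
          ⟨(n : ℚ)⁻¹, Algebra.self_mem_adjoin_singleton ℤ _⟩ * n := by
      apply Subtype.ext
      change (1 : M) = algebraMap ℚ M (n : ℚ)⁻¹ * (n : M)
      have h2 : (n : M) ≠ 0 := by exact_mod_cast hn
      rw [map_inv₀, map_natCast, inv_mul_cancel₀ h2]
    rw [h1]
    exact 𝔓.mul_mem_left _ hn𝔓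
  refine nf_hasModuleR (D₀ := D₀) hn hρ fix ?_ (fun V hV => hin V (hVt V hV)) hgen
    (prs_big (O := integralClosure (Algebra.adjoin ℤ {(n : ℚ)⁻¹}) M) hli ?_ ?_)
    (fun V hV hg r hr => torsor_loc hρ hli hgen hs hg (hw V (hVt V hV)) r hr)
  · intro 𝔓 h𝔓 p hp hp𝔓 hd
    refine hnp 𝔓 p h𝔓 hp𝔓 (((dvd_pow_self p two_ne_zero).trans hd).trans
      ((InS_dvd 𝔓).trans hnG))
  · intro 𝔓 p g h𝔓 hp hp𝔓 hg ho
    refine hnp 𝔓 p h𝔓 hp𝔓 (Dvd.dvd.trans ?_ hnG)
    rw [← ho]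
    exact orderOf_dvd_natCard g
  · intro g x
    have h1 : γ g x ∈ (integralClosure (Algebra.adjoin ℤ {(n : ℚ)⁻¹}) M).toSubring := by
      refine unit_all b (C.zero g) (C.add g) _ (fun i => ⟨?_, ?_⟩) x
      · exact hint _ (Finset.mem_union_left _ (Finset.mem_image.2 ⟨(g, i), Finset.mem_univ _, rfl⟩))
      · exact hint _ (Finset.mem_union_right _ (Finset.mem_image.2 ⟨(g, i), Finset.mem_univ _, rfl⟩))
    exact ⟨⟨γ g x, h1⟩, hγ g x⟩

end nf

end Pool.Agent.T9h3.R
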