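import Pool.Agent.T9h3.R.Tor
import Pool.Agent.T9h3.R.Par

/-!
# Torsors under tori over function fields
-/

set_option autoImplicit false
set_option linter.unusedSectionVars false
set_option linter.overlappingInstances false
set_option linter.unusedVariables false

namespace Pool.Agent.T9h3.R

open Pool.Agent.R383.TM Pool.Agent.T9h3 Pool.Agent.T9h3.H
open Pool.Agent.T9h3.P Pool.Agent.T9h3.Q Pool.Agent.H918R2.Quad
open Polynomial hiding CC
open Pool.Agent.Y223.G hiding CC
open scoped IntermediateField IntermediateField.algebraAdjoinAdjoin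

section ff

variable {κ E M F K : Type} [Field κ] [Field E] [Field M] [Algebra κ E]
  [Algebra E M] {s : E}

/-- Denominators. -/
lemma exists_denF [FiniteDimensional κ⟮s⟯ E] [FiniteDimensional E M] (S : Finset M) :
    ∃ P : κ[X], P ≠ 0 ∧ ∀ x ∈ S, IsIntegral (Algebra.adjoin κ {s}) (algebraMap E M (aeval s P) * x) := by
  classical
  have halg : ∀ x : M, ∃ P : κ[X], P ≠ 0 ∧
      IsIntegral (Algebra.adjoin κ {s}) (algebraMap E M (aeval s P) * x) := by
    intro x
    have h1 : IsAlgebraic κ⟮s⟯ x := by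
      have h2 : Algebra.IsAlgebraic κ⟮s⟯ E := inferInstance
      have h3 : Algebra.IsAlgebraic E M := inferInstance
      have h4 : Algebra.IsAlgebraic κ⟮s⟯ M := Algebra.IsAlgebraic.trans κ⟮s⟯ E M
      exact h4.isAlgebraic x
    have h2 : IsAlgebraic (Algebra.adjoin κ {s}) x :=
      (IsFractionRing.isAlgebraic_iff (Algebra.adjoin κ {s}) κ⟮s⟯ M).2 h1
    obtain ⟨y, hy, h3⟩ := h2.exists_integral_multiple
    obtain ⟨P, hP⟩ := adjQ_poly s y
    refine ⟨P, ?_, ?_⟩
    · rintro rfl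
      apply hy
      apply Subtype.ext
      rw [hP, map_zero]
      rfl
    · rw [← hP]
      rw [Algebra.smul_def] at h3
      exact h3
  induction S using Finset.induction_on with
  | empty => exact ⟨1, one_ne_zero, fun s hs => absurd hs (Finset.notMem_empty _)⟩
  | insert z S _ ih =>
    obtain ⟨P, hP, h1⟩ := ih
    obtain ⟨Q, hQ, h2⟩ := halg z
    have hint : ∀ P : κ[X], IsIntegral (Algebra.adjoin κ {s}) (algebraMap E M (aeval s P)) := by
      intro P
      have h3 : aeval s P ∈ Algebra.adjoin κ {s} := by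
        rw [Algebra.adjoin_singleton_eq_range_aeval]
        exact ⟨P, rfl⟩
      exact isIntegral_algebraMap (R := Algebra.adjoin κ {s}) (A := M) (x := ⟨_, h3⟩)
    refine ⟨P * Q, mul_ne_zero hP hQ, fun x hx => ?_⟩
    rw [Finset.mem_insert] at hx
    rcases hx with rfl | hx
    · rw [map_mul, map_mul, mul_assoc]
      exact (hint P).mul h2
    · rw [map_mul, map_mul, mul_comm (algebraMap E M (aeval s P)), mul_assoc]
      exact (hint Q).mul (h1 x hx)

variable [Finite κ] [FiniteDimensional κ⟮s⟯ E] [Algebra.IsSeparable κ⟮s⟯ E]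
  [FiniteDimensional E M] [IsGalois E M] [Field F] [Field K] [Algebra κ F]
  [Algebra E F] [IsScalarTower κ E F] [Algebra M K] [Algebra E K] [IsScalarTower E M K]
  [Algebra F K] [IsScalarTower E F K] {ρ : (M ≃ₐ[E] M) →* (K ≃ₐ[E] K)}

/-- **A parameter with a given set of integral elements.** -/
theorem exists_tS (hs : Transcendental κ s) (S : Finset M) :
    ∃ t : E, t ≠ 0 ∧ FiniteDimensional κ⟮t⟯ E ∧ Algebra.IsSeparable κ⟮t⟯ E ∧
      ∀ x ∈ S, IsIntegral (Algebra.adjoin κ {t}) x := by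
  classical
  obtain ⟨p, hp⟩ := CharP.exists κ
  have hpp : Fact p.Prime := ⟨CharP.char_is_prime κ p⟩
  obtain ⟨P₀, hP₀, hS₀⟩ := exists_denF (κ := κ) (s := s) S
  have hlc : P₀.leadingCoeff ≠ 0 := leadingCoeff_ne_zero.2 hP₀
  obtain ⟨P, hPd⟩ : ∃ P, P = P₀ * C (P₀.leadingCoeff)⁻¹ := ⟨_, rfl⟩
  have hP : P.Monic := by
    rw [hPd]
    exact monic_mul_leadingCoeff_inv hP₀
  obtain ⟨t, ht0, h1, h2, h3, h4⟩ := exists_t p hs hP
  refine ⟨t, ht0, h1, h2, fun x hx => ?_⟩
  -- the elements of `κ[s]` are integral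
  have h3' : IsIntegral (Algebra.adjoin κ {t}) (algebraMap E M s) := by
    exact h3.map (IsScalarTower.toAlgHom (Algebra.adjoin κ {t}) E M)
  have h4' : IsIntegral (Algebra.adjoin κ {t}) (algebraMap E M (aeval s P)⁻¹) :=
    h4.map (IsScalarTower.toAlgHom (Algebra.adjoin κ {t}) E M)
  have hκ : ∀ c : κ, IsIntegral (Algebra.adjoin κ {t}) (algebraMap E M (algebraMap κ E c)) :=
    fun c => isIntegral_algebraMap (R := Algebra.adjoin κ {t}) (A := M)
      (x := algebraMap κ (Algebra.adjoin κ {t}) c)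
  have hQ : ∀ Q : κ[X], IsIntegral (Algebra.adjoin κ {t}) (algebraMap E M (aeval s Q)) := by
    intro Q
    induction Q using Polynomial.induction_on' with
    | add f g hf hg =>
      rw [map_add, map_add]
      exact hf.add hg
    | monomial n a =>
      rw [← C_mul_X_pow_eq_monomial, map_mul, map_pow, aeval_C, aeval_X, map_mul, map_pow]
      exact (hκ a).mul (h3'.pow n)
  have hAs : ∀ z : M, IsIntegral (Algebra.adjoin κ {s}) z → IsIntegral (Algebra.adjoin κ {t}) z := by
    intro z hz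
    let φ : Algebra.adjoin κ {s} →+* integralClosure (Algebra.adjoin κ {t}) M :=
      { toFun := fun a => ⟨algebraMap E M (a : E), by
          obtain ⟨Q, hQa⟩ := adjQ_poly s a
          rw [hQa]
          exact hQ Q⟩
        map_one' := Subtype.ext (map_one _)
        map_mul' := fun _ _ => Subtype.ext (map_mul _ _ _)
        map_zero' := Subtype.ext (map_zero _)
        map_add' := fun _ _ => Subtype.ext (map_add _ _ _) }
    have h5 : IsIntegral (integralClosure (Algebra.adjoin κ {t}) M) (RingHom.id M z) :=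
      hz.map_of_comp_eq φ (RingHom.id M) rfl
    exact isIntegral_trans z h5
  have h6 := hAs _ (hS₀ x hx)
  have hP0 : aeval s P₀ ≠ 0 := fun h => hs ⟨P₀, hP₀, h⟩
  have h7 : x = algebraMap E M (algebraMap κ E (P₀.leadingCoeff)⁻¹) *
      (algebraMap E M (aeval s P)⁻¹ * (algebraMap E M (aeval s P₀) * x)) := by
    have h8 : aeval s P = aeval s P₀ * algebraMap κ E (P₀.leadingCoeff)⁻¹ := by
      rw [hPd, map_mul, aeval_C]
    have h9 : algebraMap κ E (P₀.leadingCoeff)⁻¹ ≠ 0 := by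
      rw [Ne, map_eq_zero]
      exact inv_ne_zero hlc
    rw [h8, ← mul_assoc, ← mul_assoc, ← map_mul, ← map_mul]
    have h10 : algebraMap κ E (P₀.leadingCoeff)⁻¹ *
        (aeval s P₀ * algebraMap κ E (P₀.leadingCoeff)⁻¹)⁻¹ * aeval s P₀ = 1 := by
      generalize algebraMap κ E (P₀.leadingCoeff)⁻¹ = c at h9
      field_simp
    rw [h10, map_one, one_mul]
  rw [h7]
  exact (hκ _).mul (h4'.mul h6)

/-- **Torsors under tori over function fields.** -/
theorem ff_torsor {D₀ : CHL E M K} (hts : Transcendental κ s)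
    (hρ : ∀ g x, ρ g (algebraMap M K x) = algebraMap M K (g x))
    (fix : ∀ y, (∀ g, ρ g y = y) ↔ ∃ z : F, algebraMap F K z = y)
    (hin : ∀ V : ValuationSubring E, V ≠ ⊤ → HIN E M (integralClosure V M))
    (hli : LinearIndependent M D₀.χ)
    (hgen : IntermediateField.adjoin M (Set.range D₀.χ) = ⊤) (hs : SML ρ D₀)
    (hw : ∀ V : ValuationSubring E, V ≠ ⊤ → WRP M V → TRV ρ V D₀) : HasModule κ F := by
  classical
  have hfG : Finite (M ≃ₐ[E] M) := inferInstance
  have hs' := hs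
  choose γ hγ using hs'
  have C : CST ρ D₀.χ γ := ⟨D₀.χ0, D₀.χa, hρ, hγ⟩
  have hfG' : Fintype (M ≃ₐ[E] M) := Fintype.ofFinite _
  let b := Module.Free.chooseBasis ℤ D₀.Λ
  have hg1 : ∀ g : M ≃ₐ[E] M, ∃ o : M, g ≠ 1 → g o - o ≠ 0 := by
    intro g
    by_cases hg : g = 1
    · exact ⟨0, fun h => absurd hg h⟩
    · obtain ⟨o, ho⟩ : ∃ o, g o ≠ o := by
        by_contra hcon
        push Not at hcon
        exact hg (AlgEquiv.ext hcon)
      exact ⟨o, fun _ => sub_ne_zero.2 ho⟩
  choose o ho using hg1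
  obtain ⟨t, ht0, i1, i2, hint⟩ := exists_tS (κ := κ) (s := s) (M := M) hts
    ((Finset.univ.image
    (fun z : (M ≃ₐ[E] M) × Module.Free.ChooseBasisIndex ℤ D₀.Λ => γ z.1 (b z.2)) ∪
    Finset.univ.image
    (fun z : (M ≃ₐ[E] M) × Module.Free.ChooseBasisIndex ℤ D₀.Λ => (γ z.1 (b z.2))⁻¹)) ∪
    (Finset.univ.image o ∪ Finset.univ.image (fun g => (g (o g) - o g)⁻¹)))
  have hVt : ∀ V : ValuationSubring E, t ∉ V → V ≠ ⊤ := by
    rintro V h rfl
    exact h (ValuationSubring.mem_top _)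
  -- the inertia groups are trivial
  have hI1 : ∀ (𝔓 : Ideal (integralClosure (Algebra.adjoin κ {t}) M)) (g : M ≃ₐ[E] M),
      𝔓.IsMaximal → g ∈ InS E M 𝔓 → g = 1 := by
    intro 𝔓 g h𝔓 hg
    by_contra hg1
    have ho1 : IsIntegral (Algebra.adjoin κ {t}) (o g) := hint _ (Finset.mem_union_right _
      (Finset.mem_union_left _ (Finset.mem_image.2 ⟨g, Finset.mem_univ _, rfl⟩)))
    have ho2 : IsIntegral (Algebra.adjoin κ {t}) (g (o g) - o g)⁻¹ := hint _
      (Finset.mem_union_right _ (Finset.mem_union_right _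
        (Finset.mem_image.2 ⟨g, Finset.mem_univ _, rfl⟩)))
    obtain ⟨e, he, h1⟩ := hg ⟨o g, ho1⟩
    have h2 : (e : M) = g (o g) - o g := h1
    apply h𝔓.ne_top
    rw [Ideal.eq_top_iff_one]
    have h3 : (1 : integralClosure (Algebra.adjoin κ {t}) M) = ⟨(g (o g) - o g)⁻¹, ho2⟩ * e := by
      apply Subtype.ext
      change (1 : M) = (g (o g) - o g)⁻¹ * (e : M)
      rw [h2, inv_mul_cancel₀ (ho g hg1)]
    rw [h3]
    exact 𝔓.mul_mem_left _ he
  refine ff_hasModuleR (D₀ := D₀) ht0 hρ fix ?_ (fun V hV => hin V (hVt V hV)) hgen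
    (prs_big (O := integralClosure (Algebra.adjoin κ {t}) M) hli ?_ ?_)
    (fun V hV hg r hr => torsor_loc hρ hli hgen hs hg (hw V (hVt V hV)) r hr)
  · intro 𝔓 h𝔓 p hp hp𝔓 hd
    have h1 : Nat.card (InS E M 𝔓) = 1 := by
      rw [Nat.card_eq_one_iff_exists]
      refine ⟨⟨1, fun x => ⟨0, 𝔓.zero_mem, by
        rw [map_zero, AlgEquiv.one_apply, sub_self]⟩⟩, fun g => Subtype.ext (hI1 𝔓 g.1 h𝔓 g.2)⟩
    rw [h1, Nat.dvd_one] at hd
    have h2 := hp.two_le
    have h3 : p ^ 2 ≠ 1 := by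
      intro h
      rw [Nat.pow_eq_one] at h
      omega
    exact h3 hd
  · intro 𝔓 p g h𝔓 hp hp𝔓 hg hog
    rw [hI1 𝔓 g h𝔓 hg, orderOf_one] at hog
    have h2 := hp.two_le
    omega
  · intro g x
    have h1 : γ g x ∈ (integralClosure (Algebra.adjoin κ {t}) M).toSubring := by
      refine unit_all b (C.zero g) (C.add g) _ (fun i => ⟨?_, ?_⟩) x
      · exact hint _ (Finset.mem_union_left _
          (Finset.mem_union_left _ (Finset.mem_image.2 ⟨(g, i), Finset.mem_univ _, rfl⟩)))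
      · exact hint _ (Finset.mem_union_left _
          (Finset.mem_union_right _ (Finset.mem_image.2 ⟨(g, i), Finset.mem_univ _, rfl⟩)))
    exact ⟨⟨γ g x, h1⟩, hγ g x⟩

end ff

end Pool.Agent.T9h3.R
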