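import Pool.Agent.T9h3.R.Loc

/-!
# Valuations of semilocal Dedekind rings
-/

set_option autoImplicit false
set_option linter.unusedSectionVars false
set_option linter.overlappingInstances false
set_option linter.unusedVariables false

namespace Pool.Agent.T9h3.R

open IsDedekindDomain

/-- The valuations of a semilocal Dedekind ring. -/
structure UNI (O M : Type) (c : ℕ) [CommRing O] [Field M] [Algebra O M] where
  /-- the valuations -/
  v : M → Fin c → ℤ
  /-- the uniformizers -/
  b : Fin c → O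
  b0 : ∀ i, algebraMap O M (b i) ≠ 0
  vm : ∀ x y, x ≠ 0 → y ≠ 0 → v (x * y) = v x + v y
  vb : ∀ i j, v (algebraMap O M (b i)) j = if i = j then 1 else 0
  vu : ∀ x, x ≠ 0 → v x = 0 → ∃ u : O, IsUnit u ∧ algebraMap O M u = x
  v0 : ∀ u : O, IsUnit u → v (algebraMap O M u) = 0
  mx : ∀ i, (Ideal.span {b i}).IsMaximal
  ne : ∀ i j, i ≠ j → b j ∉ Ideal.span {b i}

theorem exists_uni {O M : Type} [CommRing O] [IsDomain O] [IsDedekindDomain O] [Field M]
    [Algebra O M] [IsFractionRing O M] (hfin : {I : Ideal O | I.IsMaximal}.Finite) :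
    ∃ c, Nonempty (UNI O M c) := by
  classical
  have hpid : IsPrincipalIdealRing O := IsPrincipalIdealRing.of_finite_maximals hfin
  have hfin' : Finite (HeightOneSpectrum O) := by
    have h1 : Finite {I : Ideal O | I.IsMaximal} := hfin
    refine Finite.of_injective (fun w : HeightOneSpectrum O =>
      (⟨w.asIdeal, w.isMaximal⟩ : {I : Ideal O | I.IsMaximal})) ?_
    intro w w' h
    exact HeightOneSpectrum.ext (congrArg Subtype.val h)
  have _ := Fintype.ofFinite (HeightOneSpectrum O)
  let e := Fintype.equivFin (HeightOneSpectrum O)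
  have hgen : ∀ w : HeightOneSpectrum O, ∃ π : O, w.asIdeal = Ideal.span {π} := by
    intro w
    obtain ⟨π, hπ⟩ := (IsPrincipalIdealRing.principal w.asIdeal).principal
    exact ⟨π, hπ⟩
  choose π hπ using hgen
  have hπ0 : ∀ w, π w ≠ 0 := by
    intro w h
    apply w.ne_bot
    rw [hπ, h, Ideal.span_singleton_eq_bot]
  have hinj : Function.Injective (algebraMap O M) := IsFractionRing.injective O M
  have hne : ∀ w w' : HeightOneSpectrum O, w ≠ w' → π w' ∉ w.asIdeal := by
    intro w w' h hm
    apply h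
    apply HeightOneSpectrum.ext
    symm
    refine (w'.isMaximal.eq_of_le w.isMaximal.ne_top ?_)
    rw [hπ w', Ideal.span_singleton_le_iff_mem]
    exact hm
  have hv0 : ∀ (w : HeightOneSpectrum O) (x : M), x ≠ 0 → w.valuation M x ≠ 0 := by
    intro w x hx
    rwa [Ne, map_eq_zero]
  refine ⟨Fintype.card (HeightOneSpectrum O), ⟨
    { v := fun x i => - WithZero.log ((e.symm i).valuation M x)
      b := fun i => π (e.symm i)
      b0 := fun i h => hπ0 _ (hinj (by rw [h, map_zero]))
      vm := ?_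
      vb := ?_
      vu := ?_
      v0 := ?_
      mx := fun i => by rw [← hπ]; exact (e.symm i).isMaximal
      ne := fun i j hij => by
        rw [← hπ]
        exact hne _ _ (fun h => hij (e.symm.injective h)) }⟩⟩
  · intro x y hx hy
    funext i
    rw [map_mul, WithZero.log_mul (hv0 _ _ hx) (hv0 _ _ hy), neg_add]
    rfl
  · intro i j
    rw [HeightOneSpectrum.valuation_of_algebraMap]
    split_ifs with h
    · subst h
      rw [HeightOneSpectrum.intValuation_singleton _ (hπ0 _) (hπ _), WithZero.log_exp, neg_neg]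
    · have h1 : π (e.symm i) ∉ (e.symm j).asIdeal :=
        hne _ _ (fun h' => h (e.symm.injective h').symm)
      rw [HeightOneSpectrum.intValuation_eq_one_iff.2 h1, WithZero.log_one, neg_zero]
  · intro x hx hvx
    have h1 : ∀ w : HeightOneSpectrum O, w.valuation M x = 1 := by
      intro w
      have h2 := congrFun hvx (e w)
      simp only [Equiv.symm_apply_apply, Pi.zero_apply, neg_eq_zero] at h2
      have h3 : w.valuation M x = WithZero.exp (WithZero.log (w.valuation M x)) :=
        (WithZero.exp_log (hv0 w x hx)).symm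
      rw [h3, h2, WithZero.exp_zero]
    obtain ⟨u, hu⟩ := HeightOneSpectrum.mem_integers_of_valuation_le_one M x
      (fun w => (h1 w).le)
    obtain ⟨u', hu'⟩ := HeightOneSpectrum.mem_integers_of_valuation_le_one M x⁻¹
      (fun w => by rw [map_inv₀, h1 w, inv_one])
    refine ⟨u, IsUnit.of_mul_eq_one u' (hinj ?_), hu⟩
    rw [map_mul, hu, hu', mul_inv_cancel₀ hx, map_one]
  · intro u hu
    funext i
    rw [HeightOneSpectrum.valuation_of_algebraMap]
    have h1 : u ∉ (e.symm i).asIdeal := fun h =>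
      (e.symm i).isMaximal.ne_top (Ideal.eq_top_of_isUnit_mem _ h hu)
    rw [HeightOneSpectrum.intValuation_eq_one_iff.2 h1, WithZero.log_one, neg_zero]
    rfl

namespace UNI

variable {O M : Type} {c : ℕ} [CommRing O] [Field M] [Algebra O M] (U : UNI O M c)

/-- The element with given valuations. -/
noncomputable def β (h : Fin c → ℤ) : M := ∏ i, algebraMap O M (U.b i) ^ h i

lemma β_ne (h : Fin c → ℤ) : U.β h ≠ 0 :=
  Finset.prod_ne_zero_iff.2 fun i _ => zpow_ne_zero _ (U.b0 i)

lemma β_zero : U.β 0 = 1 := Finset.prod_eq_one fun i _ => zpow_zero _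

lemma β_add (h h' : Fin c → ℤ) : U.β (h + h') = U.β h * U.β h' := by
  unfold β
  rw [← Finset.prod_mul_distrib]
  exact Finset.prod_congr rfl fun i _ => zpow_add₀ (U.b0 i) _ _

lemma β_single (i : Fin c) : U.β (Pi.single i 1) = algebraMap O M (U.b i) := by
  classical
  unfold β
  rw [Finset.prod_eq_single i]
  · rw [Pi.single_eq_same, zpow_one]
  · intro j _ hj
    rw [Pi.single_eq_of_ne hj, zpow_zero]
  · intro h
    exact absurd (Finset.mem_univ _) h

lemma v_one : U.v 1 = 0 := by
  have h1 := U.v0 1 isUnit_one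
  rwa [map_one] at h1

/-- The valuations as a homomorphism. -/
noncomputable def vh : Mˣ →* Multiplicative (Fin c → ℤ) where
  toFun := fun x => Multiplicative.ofAdd (U.v x)
  map_one' := by
    rw [Units.val_one, U.v_one]
    rfl
  map_mul' := fun x y => by
    rw [Units.val_mul, U.vm _ _ x.ne_zero y.ne_zero]
    rfl

lemma v_inv {x : M} (hx : x ≠ 0) : U.v x⁻¹ = - U.v x := by
  have h1 := U.vm x x⁻¹ hx (inv_ne_zero hx)
  rw [mul_inv_cancel₀ hx, U.v_one] at h1
  exact (neg_eq_of_add_eq_zero_right h1.symm).symm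

lemma v_β (h : Fin c → ℤ) : U.v (U.β h) = h := by
  classical
  have h1 : U.v (U.β h) = ∑ i, h i • U.v (algebraMap O M (U.b i)) := by
    have h2 : (Units.mk0 (U.β h) (U.β_ne h) : Mˣ) =
        ∏ i, (Units.mk0 (algebraMap O M (U.b i)) (U.b0 i)) ^ h i := by
      apply Units.ext
      rw [Units.val_mk0, Units.coe_prod]
      refine Finset.prod_congr rfl fun i _ => ?_
      rw [Units.val_zpow_eq_zpow_val, Units.val_mk0]
    have h3 := congrArg U.vh h2
    rw [map_prod] at h3
    simp only [map_zpow] at h3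
    have h4 := congrArg Multiplicative.toAdd h3
    rw [toAdd_prod] at h4
    exact h4
  rw [h1]
  funext j
  rw [Finset.sum_apply, Finset.sum_eq_single j]
  · rw [Pi.smul_apply, U.vb, if_pos rfl, smul_eq_mul, mul_one]
  · intro i _ hi
    rw [Pi.smul_apply, U.vb, if_neg hi, smul_zero]
  · intro h'
    exact absurd (Finset.mem_univ _) h'

lemma exists_unit {x y : M} (hx : x ≠ 0) (hy : y ≠ 0) (h : U.v x = U.v y) :
    ∃ u : O, IsUnit u ∧ x = algebraMap O M u * y := by
  obtain ⟨u, hu, h1⟩ := U.vu (x * y⁻¹) (mul_ne_zero hx (inv_ne_zero hy)) (by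
    rw [U.vm _ _ hx (inv_ne_zero hy), U.v_inv hy, h, add_neg_cancel])
  exact ⟨u, hu, by rw [h1, inv_mul_cancel_right₀ hy]⟩

lemma v_unit {u : O} (hu : IsUnit u) {y : M} (hy : y ≠ 0) :
    U.v (algebraMap O M u * y) = U.v y := by
  have h0 : algebraMap O M u ≠ 0 := (hu.map (algebraMap O M)).ne_zero
  rw [U.vm _ _ h0 hy, U.v0 u hu, zero_add]

/-- The valuations and automorphisms. -/
lemma v_map {g : M →+* M} (hg : ∀ o : O, ∃ o' : O, algebraMap O M o' = g (algebraMap O M o))
    (hinj : Function.Injective (algebraMap O M)) {x y : M} (hx : x ≠ 0) (hy : y ≠ 0)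
    (h : U.v x = U.v y) : U.v (g x) = U.v (g y) := by
  obtain ⟨u, hu, h1⟩ := U.exists_unit hx hy h
  obtain ⟨u', huu⟩ := hu.exists_right_inv
  obtain ⟨o, ho⟩ := hg u
  obtain ⟨o', ho'⟩ := hg u'
  have h2 : IsUnit o := by
    refine IsUnit.of_mul_eq_one o' (hinj ?_)
    rw [map_mul, ho, ho', ← map_mul, ← map_mul, huu, map_one, map_one]
  rw [h1, map_mul, ← ho, U.v_unit h2]
  rwa [Ne, map_eq_zero]

end UNI

end Pool.Agent.T9h3.R
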